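import Pool.Agent.N127.PB.Stm

set_option autoImplicit false

/-! # The functional equation at `s = α` -/

namespace Pool.Agent.N127.PB

open MvPolynomial Pool.Agent.H628R4.TP Pool.Agent.W574.HS

section comps

variable {τ : Type} (w : τ → ℕ × ℕ)

/-- the component of a given bidegree -/
noncomputable abbrev cmp (n : ℕ × ℕ) : MvPolynomial τ ℂ →ₗ[ℂ] MvPolynomial τ ℂ :=
  weightedHomogeneousComponent w n

theorem cmp_mul {p : MvPolynomial τ ℂ} {n : ℕ × ℕ} (hp : IsWeightedHomogeneous w p n)
    (q : MvPolynomial τ ℂ) (m : ℕ × ℕ) : cmp w (n + m) (p * q) = p * cmp w m q := by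
  classical
  ext d
  rw [cmp, coeff_weightedHomogeneousComponent, coeff_mul, coeff_mul]
  split_ifs with h
  · refine Finset.sum_congr rfl fun x hx => ?_
    rw [coeff_weightedHomogeneousComponent]
    by_cases hp0 : coeff x.1 p = 0
    · rw [hp0, zero_mul, zero_mul]
    · have h1 := hp hp0
      rw [Finset.HasAntidiagonal.mem_antidiagonal] at hx
      rw [← hx, map_add, h1] at h
      rw [if_pos (add_left_cancel h)]
  · symm
    refine Finset.sum_eq_zero fun x hx => ?_
    rw [coeff_weightedHomogeneousComponent]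
    by_cases hp0 : coeff x.1 p = 0
    · rw [hp0, zero_mul]
    · have h1 := hp hp0
      rw [Finset.HasAntidiagonal.mem_antidiagonal] at hx
      rw [if_neg, mul_zero]
      intro h2
      apply h
      rw [← hx, map_add, h1, h2]

theorem cmp_mul_zero {p : MvPolynomial τ ℂ} {n : ℕ × ℕ} (hp : IsWeightedHomogeneous w p n)
    (q : MvPolynomial τ ℂ) (k : ℕ × ℕ) (hk : ∀ m, n + m ≠ k) : cmp w k (p * q) = 0 := by
  classical
  ext d
  rw [cmp, coeff_weightedHomogeneousComponent, coeff_mul, coeff_zero]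
  split_ifs with h
  · refine Finset.sum_eq_zero fun x hx => ?_
    by_cases hp0 : coeff x.1 p = 0
    · rw [hp0, zero_mul]
    · exfalso
      have h1 := hp hp0
      rw [Finset.HasAntidiagonal.mem_antidiagonal] at hx
      rw [← hx, map_add, h1] at h
      exact hk _ h
  · rfl

theorem cmp_pderiv (i : τ) (q : MvPolynomial τ ℂ) (m : ℕ × ℕ) :
    cmp w m (pderiv i q) = pderiv i (cmp w (m + w i) q) := by
  classical
  induction q using MvPolynomial.induction_on' with
  | monomial d c =>
    rw [pderiv_monomial]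
    by_cases hd : d i = 0
    · rw [hd, Nat.cast_zero, mul_zero, monomial_zero, map_zero]
      by_cases hm : Finsupp.weight w d = m + w i
      · rw [cmp, (isWeightedHomogeneous_monomial w d c hm).weightedHomogeneousComponent_same,
          pderiv_monomial, hd, Nat.cast_zero, mul_zero, monomial_zero]
      · rw [cmp, (isWeightedHomogeneous_monomial w d c rfl).weightedHomogeneousComponent_ne _
          (Ne.symm hm), map_zero]
    · have hw : Finsupp.weight w d = Finsupp.weight w (d - Finsupp.single i 1) + w i := by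
        conv_lhs => rw [← Finsupp.sub_add_single_one_cancel hd]
        rw [map_add, Finsupp.weight_single, one_smul]
      by_cases hm : Finsupp.weight w d = m + w i
      · rw [cmp, cmp, (isWeightedHomogeneous_monomial w d c hm).weightedHomogeneousComponent_same,
          pderiv_monomial]
        rw [hm] at hw
        rw [(isWeightedHomogeneous_monomial w _ _
          (add_right_cancel hw).symm).weightedHomogeneousComponent_same]
      · rw [cmp, cmp, (isWeightedHomogeneous_monomial w d c rfl).weightedHomogeneousComponent_ne _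
          (Ne.symm hm), map_zero,
          (isWeightedHomogeneous_monomial w _ _ rfl).weightedHomogeneousComponent_ne]
        intro h
        apply hm
        rw [hw, h]
  | add p q hp hq => rw [map_add, map_add, hp, hq, map_add, map_add]

end comps

section plus

variable {ι σ : Type}

/-- all components of low `x`-degree vanish -/
def Low (K : ℕ) (g : MvPolynomial (ι ⊕ σ) ℂ) : Prop :=
  ∀ n : ℕ × ℕ, n.2 < K → cmp (bidegw ι σ) n g = 0

theorem low_plus (K : ℕ) (w : Module.End ℂ (MvPolynomial (ι ⊕ σ) ℂ)) (hw : w ∈ plus ι σ) :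
    ∀ g, Low K g → Low K (w g) := by
  induction hw using Algebra.adjoin_induction with
  | mem w hw =>
    rcases hw with ⟨k, rfl⟩ | ⟨j, rfl⟩
    · intro g hg n hn
      rw [LinearMap.mulLeft_apply]
      by_cases h : ∃ m, bidegw ι σ k + m = n
      · obtain ⟨m, rfl⟩ := h
        rw [cmp_mul _ (isWeightedHomogeneous_X ℂ _ k), hg m, mul_zero]
        rw [Prod.snd_add] at hn
        omega
      · push Not at h
        exact cmp_mul_zero _ (isWeightedHomogeneous_X ℂ _ k) g n h
    · intro g hg n hn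
      change cmp (bidegw ι σ) n (pderiv (Sum.inl j) g) = 0
      rw [cmp_pderiv, hg, map_zero]
      rw [Prod.snd_add]
      simpa [bidegw] using hn
  | algebraMap r =>
    intro g hg n hn
    rw [Module.algebraMap_end_apply, map_smul, hg n hn, smul_zero]
  | add w1 w2 _ _ h1 h2 =>
    intro g hg n hn
    rw [LinearMap.add_apply, map_add, h1 g hg n hn, h2 g hg n hn, add_zero]
  | mul w1 w2 _ _ h1 h2 =>
    intro g hg
    exact h1 _ (h2 g hg)

variable [Fintype ι]

theorem univ_bihom (f : ι → MvPolynomial σ ℂ) (d : ℕ) (hf : ∀ j, (f j).IsHomogeneous d) :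
    IsWeightedHomogeneous (bidegw ι σ) (univ f) (1, d) := by
  classical
  unfold univ
  refine IsWeightedHomogeneous.sum _ _ _ fun j _ => ?_
  have h1 : IsWeightedHomogeneous (bidegw ι σ) (X (Sum.inl j) : MvPolynomial (ι ⊕ σ) ℂ) (1, 0) :=
    isWeightedHomogeneous_X ℂ _ (Sum.inl j)
  have h2 : IsWeightedHomogeneous (bidegw ι σ) (rename Sum.inr (f j)) (0, d) := by
    intro c hc
    obtain ⟨u, hu, hu0⟩ := coeff_rename_ne_zero _ _ _ hc
    have h3 := hf j hu0
    rw [← hu]
    have h4 : ∀ v : σ →₀ ℕ, Finsupp.weight (bidegw ι σ) (v.mapDomain Sum.inr) =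
        (0, v.sum fun _ a => a) := by
      intro v
      induction v using Finsupp.induction_linear with
      | zero => simp; rfl
      | add v v' h h' =>
        rw [Finsupp.mapDomain_add, map_add, h, h', Finsupp.sum_add_index' (by simp) (by simp)]
        simp
      | single a b =>
        rw [Finsupp.mapDomain_single, Finsupp.weight_single, Finsupp.sum_single_index rfl]
        simp [bidegw]
    rw [h4, ← h3]
    rw [Prod.mk.injEq]
    refine ⟨rfl, ?_⟩
    rw [Finsupp.weight_apply]
    simp
  have := h1.mul h2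
  simpa using this

end plus

section evalU

variable {τ : Type}

/-- a linear map applied to the coefficients -/
noncomputable def mapU (φ : MvPolynomial τ ℂ →ₗ[ℂ] MvPolynomial τ ℂ)
    (U : Polynomial (MvPolynomial τ ℂ)) : Polynomial (MvPolynomial τ ℂ) :=
  ∑ i ∈ U.support, Polynomial.monomial i (φ (U.coeff i))

theorem mapU_eval (φ : MvPolynomial τ ℂ →ₗ[ℂ] MvPolynomial τ ℂ)
    (U : Polynomial (MvPolynomial τ ℂ)) (c : ℂ) :
    (mapU φ U).eval (C c) = φ (U.eval (C c)) := by
  rw [mapU, Polynomial.eval_finsetSum, Polynomial.eval_eq_sum, Polynomial.sum_def, map_sum]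
  refine Finset.sum_congr rfl fun i _ => ?_
  rw [Polynomial.eval_monomial, ← map_pow, mul_comm, mul_comm (U.coeff i), ← smul_eq_C_mul,
    ← smul_eq_C_mul, map_smul]

theorem mapU_coeff (φ : MvPolynomial τ ℂ →ₗ[ℂ] MvPolynomial τ ℂ)
    (U : Polynomial (MvPolynomial τ ℂ)) (i : ℕ) : (mapU φ U).coeff i = φ (U.coeff i) := by
  rw [mapU, Polynomial.finsetSum_coeff]
  simp only [Polynomial.coeff_monomial]
  rw [Finset.sum_ite_eq']
  split_ifs with h
  · rfl
  · rw [Polynomial.notMem_support_iff.1 h, map_zero]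

/-- evaluation at a constant keeps the bidegree -/
theorem eval_bihom (w : τ → ℕ × ℕ) (U : Polynomial (MvPolynomial τ ℂ)) (n : ℕ × ℕ)
    (h : ∀ i, IsWeightedHomogeneous w (U.coeff i) n) (c : ℂ) :
    IsWeightedHomogeneous w (U.eval (C c)) n := by
  rw [Polynomial.eval_eq_sum, Polynomial.sum_def]
  refine IsWeightedHomogeneous.sum _ _ _ fun i _ => ?_
  rw [← map_pow, mul_comm]
  exact (h i).C_mul _

theorem nat_eq_C (m : ℕ) : (m : MvPolynomial τ ℂ) = C (m : ℂ) := by
  rw [map_natCast]

/-- a polynomial with infinitely many zeros -/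
theorem eval_zero_of_nat (U : Polynomial (MvPolynomial τ ℂ)) (N : ℕ)
    (h : ∀ m : ℕ, N ≤ m → U.eval (C (m : ℂ)) = 0) (c : ℂ) : U.eval (C c) = 0 := by
  have : U = 0 := by
    apply Polynomial.eq_zero_of_infinite_isRoot
    refine Set.infinite_of_injective_forall_mem (f := fun m : ℕ => (C ((m + N : ℕ) : ℂ) :
      MvPolynomial τ ℂ)) ?_ ?_
    · intro a b hab
      have := C_injective _ _ hab
      have h2 : a + N = b + N := by exact_mod_cast this
      omega
    · intro m
      exact h _ (by omega)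
  rw [this, Polynomial.eval_zero]

end evalU

/-- the polynomial identity in `s` -/
theorem en_of_key {ι σ : Type} [Fintype σ] (F : MvPolynomial (ι ⊕ σ) ℂ) (hF0 : F ≠ 0)
    (b : Polynomial ℂ) (N : ℕ) (V : σ → Polynomial (MvPolynomial (ι ⊕ σ) ℂ))
    (hkey : ∀ s : ℕ, N ≤ s → C (b.eval (s : ℂ)) * F ^ s =
      ∑ l, pderiv (Sum.inr l) (F ^ (s - N) * (V l).eval (C (s : ℂ)))) (α : ℂ) :
    C (b.eval α) * F ^ (N + 1) = ∑ l, (F * pderiv (Sum.inr l) ((V l).eval (C α)) +
      C (α - N) * (V l).eval (C α) * pderiv (Sum.inr l) F) := by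
  let E : Polynomial (MvPolynomial (ι ⊕ σ) ℂ) :=
    b.map C * Polynomial.C (F ^ (N + 1)) -
      ∑ l, (Polynomial.C F * mapU (pderiv (Sum.inr l) : Derivation ℂ (MvPolynomial (ι ⊕ σ) ℂ)
        (MvPolynomial (ι ⊕ σ) ℂ)).toLinearMap (V l) +
        (Polynomial.X - Polynomial.C (C (N : ℂ))) * V l *
          Polynomial.C (pderiv (Sum.inr l) F))
  have hE : ∀ c : ℂ, E.eval (C c) = C (b.eval c) * F ^ (N + 1) -
      ∑ l, (F * pderiv (Sum.inr l) ((V l).eval (C c)) +
        C (c - N) * (V l).eval (C c) * pderiv (Sum.inr l) F) := by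
    intro c
    simp only [E, Polynomial.eval_sub, Polynomial.eval_mul, Polynomial.eval_C,
      Polynomial.eval_finsetSum, Polynomial.eval_add, Polynomial.eval_X, mapU_eval, map_sub]
    rw [Polynomial.eval_map, Polynomial.eval₂_at_apply]
    rfl
  have h0 : E.eval (C α) = 0 := by
    apply eval_zero_of_nat E (N + 1)
    intro s hs
    rw [hE]
    have e1 := hkey s (by omega)
    have e2 : F ^ (s - N - 1) * (C (b.eval (s : ℂ)) * F ^ (N + 1)) = F ^ (s - N - 1) *
        ∑ l, (F * pderiv (Sum.inr l) ((V l).eval (C (s : ℂ))) +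
        C ((s : ℂ) - N) * (V l).eval (C (s : ℂ)) * pderiv (Sum.inr l) F) := by
      have e3 : F ^ (s - N - 1) * (C (b.eval (s : ℂ)) * F ^ (N + 1)) =
          C (b.eval (s : ℂ)) * F ^ s := by
        have : F ^ s = F ^ (s - N - 1) * F ^ (N + 1) := by
          rw [← pow_add]; congr 1; omega
        rw [this]; ring
      rw [e3, e1, Finset.mul_sum]
      refine Finset.sum_congr rfl fun l _ => ?_
      rw [Derivation.leibniz, Derivation.leibniz_pow, smul_eq_mul, smul_eq_mul, nsmul_eq_mul,
        smul_eq_mul]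
      have e4 : F ^ (s - N) = F ^ (s - N - 1) * F := by
        rw [← pow_succ]; congr 1; omega
      have e5 : ((s - N : ℕ) : MvPolynomial (ι ⊕ σ) ℂ) = C ((s : ℂ) - N) := by
        rw [nat_eq_C, Nat.cast_sub (by omega)]
      rw [e5, e4]
      ring
    rw [mul_left_cancel₀ (pow_ne_zero _ hF0) e2, sub_self]
  rw [hE, sub_eq_zero] at h0
  exact h0

theorem stmA_of (h1 : StmA1) (h2 : StmA2) : StmA := by
  classical
  intro ι σ _ _ f d hd hf hF0 b ⟨P, hP⟩ α
  set F := univ f with hF
  have hFb : IsWeightedHomogeneous (bidegw ι σ) F (1, d) := univ_bihom f d hf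
  have hFp : ∀ n : ℕ, IsWeightedHomogeneous (bidegw ι σ) (F ^ n) (n, n * d) := by
    intro n
    have := hFb.pow n
    simpa using this
  choose w0 hw0 u hu hdec using fun m => h1 ι σ (P m).1 (P m).2
  choose N' U' hU' using fun (m : ℕ) (l : σ) => h2 (ι ⊕ σ) (u m l) (hu m l) F
  -- a common bound
  obtain ⟨N, hN⟩ : ∃ N : ℕ, ∀ m ∈ P.support, ∀ l, N' m l ≤ N + 1 := by
    refine ⟨∑ m ∈ P.support, ∑ l, N' m l, fun m hm l => ?_⟩
    have a1 : N' m l ≤ ∑ l, N' m l := Finset.single_le_sum (f := fun l => N' m l)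
      (fun _ _ => Nat.zero_le _) (Finset.mem_univ l)
    have a2 : ∑ l, N' m l ≤ ∑ m ∈ P.support, ∑ l, N' m l :=
      Finset.single_le_sum (f := fun m => ∑ l, N' m l) (fun _ _ => Nat.zero_le _) hm
    omega
  -- the operators applied to the powers of `F`
  let W : σ → Polynomial (MvPolynomial (ι ⊕ σ) ℂ) := fun l => ∑ m ∈ P.support,
    Polynomial.X ^ m * (Polynomial.C (F ^ (N + 1 - N' m l)) *
      (U' m l).comp (Polynomial.X + 1))
  have hW : ∀ (l : σ) (s : ℕ), N ≤ s →
      ∑ m ∈ P.support, ((s : ℂ) ^ m) • u m l (F ^ (s + 1)) =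
        F ^ (s - N) * (W l).eval (C (s : ℂ)) := by
    intro l s hs
    simp only [W, Polynomial.eval_finsetSum, Finset.mul_sum]
    refine Finset.sum_congr rfl fun m hm => ?_
    have hNm := hN m hm l
    rw [hU' m l (s + 1) (by omega)]
    rw [Polynomial.eval_mul, Polynomial.eval_mul, Polynomial.eval_pow, Polynomial.eval_X,
      Polynomial.eval_C, Polynomial.eval_comp, Polynomial.eval_add, Polynomial.eval_X,
      Polynomial.eval_one, ← map_pow, smul_eq_C_mul]
    have e1 : s + 1 - N' m l = (s - N) + (N + 1 - N' m l) := by omega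
    rw [e1, pow_add]
    have e2 : ((s + 1 : ℕ) : MvPolynomial (ι ⊕ σ) ℂ) = C (s : ℂ) + 1 := by
      push_cast; rw [map_natCast]
    rw [e2]
    ring
  -- the homogeneous component
  let V : σ → Polynomial (MvPolynomial (ι ⊕ σ) ℂ) := fun l =>
    mapU (cmp (bidegw ι σ) (N, d * N + 1)) (W l)
  have hkey : ∀ s : ℕ, N ≤ s → C (b.eval (s : ℂ)) * F ^ s =
      ∑ l, pderiv (Sum.inr l) (F ^ (s - N) * (V l).eval (C (s : ℂ))) := by
    intro s hs
    have e1 := congrArg (cmp (bidegw ι σ) (s, s * d)) (hP s)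
    rw [cmp, weightedHomogeneousComponent_C_mul,
      (hFp s).weightedHomogeneousComponent_same] at e1
    rw [e1, Finsupp.sum]
    have e2 : (∑ m ∈ P.support, ((s : ℂ) ^ m) •
        ((P m : Module.End ℂ (MvPolynomial (ι ⊕ σ) ℂ))) (F ^ (s + 1))) =
        (∑ m ∈ P.support, ((s : ℂ) ^ m) • w0 m (F ^ (s + 1))) +
        ∑ l, pderiv (Sum.inr l) (F ^ (s - N) * (W l).eval (C (s : ℂ))) := by
      have e3 : ∀ l, pderiv (Sum.inr l) (F ^ (s - N) * (W l).eval (C (s : ℂ))) =
          ∑ m ∈ P.support, ((s : ℂ) ^ m) • pderiv (Sum.inr l) (u m l (F ^ (s + 1))) := by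
        intro l
        rw [← hW l s hs, map_sum]
        refine Finset.sum_congr rfl fun m _ => ?_
        rw [Derivation.map_smul]
      rw [Finset.sum_congr rfl fun l _ => e3 l, Finset.sum_comm, ← Finset.sum_add_distrib]
      refine Finset.sum_congr rfl fun m _ => ?_
      rw [hdec m (F ^ (s + 1)), smul_add, Finset.smul_sum]
    rw [e2, map_add, map_sum, map_sum]
    have e4 : ∀ m ∈ P.support, cmp (bidegw ι σ) (s, s * d)
        (((s : ℂ) ^ m) • w0 m (F ^ (s + 1))) = 0 := by
      intro m _
      rw [map_smul, low_plus (d * (s + 1)) (w0 m) (hw0 m) (F ^ (s + 1)) ?_ (s, s * d) ?_,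
        smul_zero]
      · intro n hn
        refine (hFp (s + 1)).weightedHomogeneousComponent_ne n ?_
        rintro rfl
        rw [mul_comm] at hn
        exact lt_irrefl _ hn
      · change s * d < d * (s + 1)
        nlinarith
    rw [Finset.sum_eq_zero e4, zero_add]
    refine Finset.sum_congr rfl fun l _ => ?_
    rw [cmp_pderiv]
    have e5 : ((s, s * d) : ℕ × ℕ) + bidegw ι σ (Sum.inr l) =
        (s - N, (s - N) * d) + (N, d * N + 1) := by
      change ((s + 0, s * d + 1) : ℕ × ℕ) = (s - N + N, (s - N) * d + (d * N + 1))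
      rw [Nat.sub_add_cancel hs, add_zero]
      congr 1
      have : s * d = (s - N) * d + N * d := by rw [← add_mul, Nat.sub_add_cancel hs]
      rw [this]; ring
    rw [e5, cmp_mul _ (hFp (s - N)), mapU_eval]
  -- the polynomial identity
  refine ⟨N, fun l => (V l).eval (C α), ?_, en_of_key F hF0 b N V hkey α⟩
  intro l
  apply eval_bihom
  intro i
  rw [mapU_coeff]
  exact weightedHomogeneousComponent_isWeightedHomogeneous _ _

end Pool.Agent.N127.PB
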