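import Pool.Agent.N127.PB.Stm

set_option autoImplicit false

/-! # A1: every operator is an element of `plus` plus `∑_l ∂_{x_l} ∘ (operator)` -/

namespace Pool.Agent.N127.PB

open Pool.Agent.H628R4.TP Pool.Agent.W574.HS MvPolynomial

namespace A1

/-- the derivations as operators -/
noncomputable def dE {τ : Type} (i : τ) : Module.End ℂ (MvPolynomial τ ℂ) :=
  ((pderiv i : Derivation ℂ (MvPolynomial τ ℂ) (MvPolynomial τ ℂ)) :
    MvPolynomial τ ℂ →ₗ[ℂ] MvPolynomial τ ℂ)

/-- the multiplications by the variables -/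
noncomputable def mX {τ : Type} (i : τ) : Module.End ℂ (MvPolynomial τ ℂ) :=
  LinearMap.mulLeft ℂ (X i : MvPolynomial τ ℂ)

theorem dE_apply {τ : Type} (i : τ) (f : MvPolynomial τ ℂ) : dE i f = pderiv i f := rfl

theorem mX_apply {τ : Type} (i : τ) (f : MvPolynomial τ ℂ) : mX i f = X i * f := rfl

theorem pd_comm {τ : Type} (i j : τ) (f : MvPolynomial τ ℂ) :
    pderiv i (pderiv j f) = pderiv j (pderiv i f) := by
  classical
  induction f using MvPolynomial.induction_on with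
  | C a => simp
  | add p q hp hq => rw [map_add, map_add, map_add, map_add, hp, hq]
  | mul_X p k hp =>
    rw [pderiv_mul, pderiv_mul, map_add, map_add, pderiv_mul, pderiv_mul, pderiv_mul, pderiv_mul,
      hp, pderiv_X, pderiv_X]
    have h : ∀ a b : τ, pderiv a (Pi.single (M := fun _ => MvPolynomial τ ℂ) b 1 k) = 0 := by
      intro a b
      rw [Pi.single_apply]
      split_ifs
      · exact pderiv_one
      · exact map_zero _
    simp only [h]
    ring

theorem dE_comm {τ : Type} (i j : τ) :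
    (dE i : Module.End ℂ (MvPolynomial τ ℂ)) * dE j = dE j * dE i :=
  LinearMap.ext fun f => pd_comm i j f

theorem mX_dE {τ : Type} (i j : τ) : ∃ c : ℂ,
    (mX i : Module.End ℂ (MvPolynomial τ ℂ)) * dE j = dE j * mX i - c • 1 := by
  classical
  by_cases h : i = j
  · subst h
    refine ⟨1, LinearMap.ext fun f => ?_⟩
    rw [LinearMap.sub_apply, Module.End.mul_apply, Module.End.mul_apply, mX_apply, mX_apply,
      dE_apply, dE_apply, pderiv_mul, pderiv_X_self, one_smul, Module.End.one_apply]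
    ring
  · refine ⟨0, LinearMap.ext fun f => ?_⟩
    rw [LinearMap.sub_apply, Module.End.mul_apply, Module.End.mul_apply, mX_apply, mX_apply,
      dE_apply, dE_apply, pderiv_mul, pderiv_X_of_ne h, zero_smul, LinearMap.zero_apply]
    ring

theorem mX_weyl {τ : Type} (i : τ) : (mX i : Module.End ℂ (MvPolynomial τ ℂ)) ∈ weylS τ :=
  Algebra.subset_adjoin (Or.inl ⟨i, rfl⟩)

theorem dE_weyl {τ : Type} (i : τ) : (dE i : Module.End ℂ (MvPolynomial τ ℂ)) ∈ weylS τ :=
  Algebra.subset_adjoin (Or.inr ⟨i, rfl⟩)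

variable {ι σ : Type}

theorem mX_plus (i : ι ⊕ σ) : (mX i : Module.End ℂ (MvPolynomial (ι ⊕ σ) ℂ)) ∈ plus ι σ :=
  Algebra.subset_adjoin (Or.inl ⟨i, rfl⟩)

theorem dE_plus (j : ι) :
    (dE (Sum.inl j) : Module.End ℂ (MvPolynomial (ι ⊕ σ) ℂ)) ∈ plus ι σ :=
  Algebra.subset_adjoin (Or.inr ⟨j, rfl⟩)

theorem plus_le : plus ι σ ≤ weylS (ι ⊕ σ) := by
  refine Algebra.adjoin_le ?_
  rintro _ (⟨i, rfl⟩ | ⟨j, rfl⟩)
  · exact mX_weyl i
  · exact dE_weyl _

/-- the operators which are sums of compositions `∂_{x_l} ∘ ⋯ ∘ ∂_{x_m} ∘ w0` -/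
inductive G : Module.End ℂ (MvPolynomial (ι ⊕ σ) ℂ) → Prop
  | base (w : Module.End ℂ (MvPolynomial (ι ⊕ σ) ℂ)) (h : w ∈ plus ι σ) : G w
  | add (u v : Module.End ℂ (MvPolynomial (ι ⊕ σ) ℂ)) (hu : G u) (hv : G v) : G (u + v)
  | der (l : σ) (u : Module.End ℂ (MvPolynomial (ι ⊕ σ) ℂ)) (hu : G u) : G (dE (Sum.inr l) * u)

theorem G_weyl {u : Module.End ℂ (MvPolynomial (ι ⊕ σ) ℂ)} (h : G u) : u ∈ weylS (ι ⊕ σ) := by
  induction h with
  | base w h => exact plus_le h
  | add u v _ _ hu hv => exact add_mem hu hv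
  | der l u _ hu => exact mul_mem (dE_weyl _) hu

theorem G_shape [Fintype σ] {u : Module.End ℂ (MvPolynomial (ι ⊕ σ) ℂ)} (h : G u) :
    ∃ w0 ∈ plus ι σ, ∃ v : σ → Module.End ℂ (MvPolynomial (ι ⊕ σ) ℂ),
      (∀ l, v l ∈ weylS (ι ⊕ σ)) ∧ u = w0 + ∑ l, dE (Sum.inr l) * v l := by
  classical
  induction h with
  | base w h => exact ⟨w, h, fun _ => 0, fun _ => zero_mem _, by simp⟩
  | add u v _ _ hu hv =>
    obtain ⟨a, ha, b, hb, e⟩ := hu
    obtain ⟨a', ha', b', hb', e'⟩ := hv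
    refine ⟨a + a', add_mem ha ha', fun l => b l + b' l, fun l => add_mem (hb l) (hb' l), ?_⟩
    rw [e, e']
    simp only [mul_add, Finset.sum_add_distrib]
    abel
  | der l u hu _ =>
    refine ⟨0, zero_mem _, fun k => if k = l then u else 0, fun k => ?_, ?_⟩
    · show (if k = l then u else 0) ∈ weylS (ι ⊕ σ)
      split_ifs
      · exact G_weyl hu
      · exact zero_mem _
    · simp only [mul_ite, mul_zero, Finset.sum_ite_eq', Finset.mem_univ, if_true, zero_add]

theorem G_smul (c : ℂ) {u : Module.End ℂ (MvPolynomial (ι ⊕ σ) ℂ)} (h : G u) : G (c • u) := by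
  induction h with
  | base w h => exact G.base _ (Subalgebra.smul_mem _ h c)
  | add u v _ _ hu hv =>
    rw [smul_add]
    exact G.add _ _ hu hv
  | der l u _ hu =>
    rw [← mul_smul_comm]
    exact G.der l _ hu

theorem G_mX (i : ι ⊕ σ) {u : Module.End ℂ (MvPolynomial (ι ⊕ σ) ℂ)} (h : G u) :
    G (mX i * u) := by
  induction h with
  | base w h => exact G.base _ (mul_mem (mX_plus i) h)
  | add u v _ _ hu hv =>
    rw [mul_add]
    exact G.add _ _ hu hv
  | der l u hu' hu =>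
    obtain ⟨c, hc⟩ := mX_dE i (Sum.inr l : ι ⊕ σ)
    have e : mX i * (dE (Sum.inr l) * u) = dE (Sum.inr l) * (mX i * u) + (-c) • u := by
      have e1 : (-c) • u = -(c • u) := neg_smul c u
      rw [← mul_assoc, hc, sub_mul, mul_assoc, smul_mul_assoc, one_mul, e1, sub_eq_add_neg]
    rw [e]
    exact G.add _ _ (G.der l _ hu) (G_smul _ hu')

theorem G_dE (i : ι ⊕ σ) {u : Module.End ℂ (MvPolynomial (ι ⊕ σ) ℂ)} (h : G u) :
    G (dE i * u) := by
  rcases i with j | l
  · induction h with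
    | base w h => exact G.base _ (mul_mem (dE_plus j) h)
    | add u v _ _ hu hv =>
      rw [mul_add]
      exact G.add _ _ hu hv
    | der l u hu' hu =>
      rw [← mul_assoc, dE_comm, mul_assoc]
      exact G.der l _ hu
  · exact G.der l _ h

theorem G_mul {w : Module.End ℂ (MvPolynomial (ι ⊕ σ) ℂ)} (hw : w ∈ weylS (ι ⊕ σ)) :
    ∀ u : Module.End ℂ (MvPolynomial (ι ⊕ σ) ℂ), G u → G (w * u) := by
  unfold weylS at hw
  induction hw using Algebra.adjoin_induction with
  | mem x hx =>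
    intro u hu
    rcases hx with ⟨i, rfl⟩ | ⟨i, rfl⟩
    · exact G_mX i hu
    · exact G_dE i hu
  | algebraMap r =>
    intro u hu
    have e : algebraMap ℂ (Module.End ℂ (MvPolynomial (ι ⊕ σ) ℂ)) r * u = r • u := by
      rw [Algebra.smul_def]
    rw [e]
    exact G_smul _ hu
  | add x y _ _ hx hy =>
    intro u hu
    rw [add_mul]
    exact G.add _ _ (hx u hu) (hy u hu)
  | mul x y _ _ hx hy =>
    intro u hu
    rw [mul_assoc]
    exact hx _ (hy _ hu)

end A1

theorem stmA1 : StmA1 := by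
  intro ι σ _ w hw
  have h := A1.G_mul hw 1 (A1.G.base 1 (one_mem _))
  rw [mul_one] at h
  obtain ⟨w0, hw0, v, hv, e⟩ := A1.G_shape h
  refine ⟨w0, hw0, v, hv, fun g => ?_⟩
  rw [e, LinearMap.add_apply, LinearMap.sum_apply]
  rfl

end Pool.Agent.N127.PB
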