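import Pool.Agent.N127.PB.Stm

set_option autoImplicit false
set_option linter.all false

/-! # PB/A2: the Weyl algebra acting on the powers of a polynomial -/

namespace Pool.Agent.N127.PB

open Polynomial Pool.Agent.H628R4.TP

section A2

variable {τ : Type} (F : MvPolynomial τ ℂ)

/-- `x m = F ^ (m - N) * V m` for `m ≥ N` -/
def A2f (x : ℕ → MvPolynomial τ ℂ) : Prop :=
  ∃ (N : ℕ) (V : Polynomial (MvPolynomial τ ℂ)), ∀ m : ℕ, N ≤ m →
    x m = F ^ (m - N) * V.eval (m : MvPolynomial τ ℂ)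

theorem A2f_add {x y : ℕ → MvPolynomial τ ℂ} (hx : A2f F x) (hy : A2f F y) :
    A2f F fun m => x m + y m := by
  obtain ⟨N, V, h⟩ := hx
  obtain ⟨M, W, h'⟩ := hy
  refine ⟨N + M, C (F ^ M) * V + C (F ^ N) * W, fun m hm => ?_⟩
  beta_reduce
  rw [h m (by omega), h' m (by omega), eval_add, eval_mul, eval_mul, eval_C, eval_C]
  have e1 : F ^ (m - N) = F ^ (m - (N + M)) * F ^ M := by
    rw [← pow_add]
    congr 1
    omega
  have e2 : F ^ (m - M) = F ^ (m - (N + M)) * F ^ N := by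
    rw [← pow_add]
    congr 1
    omega
  rw [e1, e2]
  ring

theorem A2f_mul {x : ℕ → MvPolynomial τ ℂ} (hx : A2f F x) (W : Polynomial (MvPolynomial τ ℂ)) :
    A2f F fun m => W.eval (m : MvPolynomial τ ℂ) * x m := by
  obtain ⟨N, V, h⟩ := hx
  refine ⟨N, W * V, fun m hm => ?_⟩
  beta_reduce
  rw [h m hm, eval_mul]
  ring

/-- the operator preserves the form -/
def A2P (w : Module.End ℂ (MvPolynomial τ ℂ)) : Prop :=
  ∀ U : Polynomial (MvPolynomial τ ℂ), A2f F fun m => w (F ^ m * U.eval (m : MvPolynomial τ ℂ))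

/-- coefficients suffice -/
theorem A2P_of {w : Module.End ℂ (MvPolynomial τ ℂ)}
    (h : ∀ g : MvPolynomial τ ℂ, A2f F fun m => w (F ^ m * g)) : A2P F w := by
  intro U
  induction U using Polynomial.induction_on' with
  | add p q hp hq =>
    have h1 := A2f_add F hp hq
    have e : (fun m : ℕ => w (F ^ m * (p + q).eval (m : MvPolynomial τ ℂ))) = fun m : ℕ =>
        w (F ^ m * p.eval (m : MvPolynomial τ ℂ)) + w (F ^ m * q.eval (m : MvPolynomial τ ℂ)) := by
      funext m
      rw [eval_add, mul_add, map_add]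
    rw [e]
    exact h1
  | monomial n a =>
    have h1 := A2f_mul F (h a) (X ^ n)
    have e : (fun m : ℕ => w (F ^ m * (monomial n a).eval (m : MvPolynomial τ ℂ))) = fun m : ℕ =>
        (X ^ n : Polynomial (MvPolynomial τ ℂ)).eval (m : MvPolynomial τ ℂ) * w (F ^ m * a) := by
      funext m
      rw [eval_monomial, eval_pow, eval_X]
      have e1 : F ^ m * (a * (m : MvPolynomial τ ℂ) ^ n) = ((m : ℂ) ^ n) • (F ^ m * a) := by
        rw [MvPolynomial.smul_eq_C_mul, map_pow, map_natCast]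
        ring
      rw [e1, map_smul, MvPolynomial.smul_eq_C_mul, map_pow, map_natCast]
    rw [e]
    exact h1

theorem A2P_mulLeft (p : MvPolynomial τ ℂ) : A2P F (LinearMap.mulLeft ℂ p) := by
  intro U
  refine ⟨0, C p * U, fun m _ => ?_⟩
  beta_reduce
  rw [LinearMap.mulLeft_apply, eval_mul, eval_C, Nat.sub_zero]
  ring

theorem A2P_pderiv (i : τ) : A2P F ((MvPolynomial.pderiv i :
    Derivation ℂ (MvPolynomial τ ℂ) (MvPolynomial τ ℂ)) :
      MvPolynomial τ ℂ →ₗ[ℂ] MvPolynomial τ ℂ) := by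
  apply A2P_of
  intro g
  refine ⟨1, C (F * MvPolynomial.pderiv i g) + X * C (g * MvPolynomial.pderiv i F),
    fun m hm => ?_⟩
  obtain ⟨k, rfl⟩ : ∃ k, m = k + 1 := ⟨m - 1, by omega⟩
  rw [eval_add, eval_mul, eval_C, eval_C, eval_X]
  show MvPolynomial.pderiv i (F ^ (k + 1) * g) = _
  rw [Derivation.leibniz, Derivation.leibniz_pow]
  simp only [smul_eq_mul, nsmul_eq_mul, Nat.add_sub_cancel]
  ring

theorem A2P_comp {w w' : Module.End ℂ (MvPolynomial τ ℂ)} (h : A2P F w) (h' : A2P F w') :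
    A2P F (w * w') := by
  intro U
  obtain ⟨M, W, hW⟩ := h' U
  obtain ⟨N, V, hV⟩ := h (W.comp (X + C (M : MvPolynomial τ ℂ)))
  refine ⟨M + N, V.comp (X - C (M : MvPolynomial τ ℂ)), fun m hm => ?_⟩
  obtain ⟨k, rfl⟩ : ∃ k, m = k + M := ⟨m - M, by omega⟩
  have h1 := hV k (by omega)
  have h2 := hW (k + M) (by omega)
  beta_reduce at h1 h2 ⊢
  rw [Module.End.mul_apply, h2]
  rw [eval_comp, eval_add, eval_X, eval_C] at h1
  rw [eval_comp, eval_sub, eval_X, eval_C, Nat.add_sub_cancel, Nat.cast_add, h1]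
  congr 2
  · omega
  · ring

theorem A2P_all {w : Module.End ℂ (MvPolynomial τ ℂ)} (hw : w ∈ weylS τ) : A2P F w := by
  unfold weylS at hw
  induction hw using Algebra.adjoin_induction with
  | mem x hx =>
    rcases hx with ⟨i, rfl⟩ | ⟨i, rfl⟩
    · exact A2P_mulLeft F _
    · exact A2P_pderiv F i
  | algebraMap r =>
    intro U
    refine ⟨0, C (MvPolynomial.C r) * U, fun m _ => ?_⟩
    beta_reduce
    rw [Module.algebraMap_end_apply, eval_mul, eval_C, Nat.sub_zero, MvPolynomial.smul_eq_C_mul]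
    ring
  | add x y _ _ hx hy =>
    intro U
    exact A2f_add F (hx U) (hy U)
  | mul x y _ _ hx hy => exact A2P_comp F hx hy

end A2

/-- **A2** -/
theorem stmA2 : StmA2 := by
  intro τ w hw F
  obtain ⟨N, V, h⟩ := A2P_all F hw 1
  refine ⟨N, V, fun m hm => ?_⟩
  have := h m hm
  beta_reduce at this
  rw [eval_one, mul_one] at this
  exact this

end Pool.Agent.N127.PB
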