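import Pool.Agent.N127.PB.Stm

set_option autoImplicit false

/-! # Statements of the pieces, second part -/

namespace Pool.Agent.N127.PB

open MvPolynomial Pool.Agent.H628R4.TP Pool.Agent.W574.HS

/-- The functional equation of `F = ∑ y_j f_j(x)` at `s = α`, without operators (see `StmA`). -/
def HasEN {ι σ : Type} [Fintype ι] [Fintype σ] (f : ι → MvPolynomial σ ℂ) (d : ℕ) (α β : ℂ) :
    Prop :=
  ∃ (N : ℕ) (V : σ → MvPolynomial (ι ⊕ σ) ℂ),
    (∀ l, IsWeightedHomogeneous (bidegw ι σ) (V l) (N, d * N + 1)) ∧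
    C β * univ f ^ (N + 1) = ∑ l, (univ f * pderiv (Sum.inr l) (V l) +
      C (α - N) * V l * pderiv (Sum.inr l) (univ f))

/-- SPEC: specialization of the variables `y` -/
def StmSpec : Prop := ∀ (ι κ σ : Type) [Fintype ι] [Fintype κ] [Fintype σ]
  (f : ι → MvPolynomial σ ℂ) (M : κ → ι → ℂ) (d : ℕ) (α β : ℂ), HasEN f d α β →
  HasEN (fun k => ∑ j, C (M k j) * f j) d α β

/-- The derivation `a ↦ det (∇P, ∇Q, ∇a)`. -/
noncomputable def jac (P Q : R) : Derivation ℂ R R :=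
  ∑ l : Fin 3, crs (fun m => pderiv m P) (fun m => pderiv m Q) l • pderiv l

/-- the equation `W (δ g + α g δh / h) = β` for `g = a / b`, multiplied by `h b ^ 2` -/
def DEq (δ : Derivation ℂ R R) (W h a b : R) (α β : ℂ) : Prop :=
  W * (h * (b * δ a - a * δ b) + C α * (a * b * δ h)) = C β * (h * b ^ 2)

/-- LOC: local analysis along a prime divisor of `h b` -/
def StmLoc : Prop := ∀ (δ : Derivation ℂ R R) (W h a b : R) (α β : ℂ) (H : R),
  DEq δ W h a b α β → Irreducible H → h ≠ 0 → b ≠ 0 → ¬ H ∣ a → (H ∣ h ∨ H ∣ b) →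
  (∀ n i : ℕ, 0 < n → α * n ≠ i) → H ∣ W * δ H

/-- LINES: the case `δ = ∂ / ∂x₀`, where `W` does not depend on `x₀` -/
def StmLines : Prop := ∀ (W h a b : R) (α β : ℂ), pderiv 0 W = 0 → h ≠ 0 → b ≠ 0 →
  IsRelPrime a b → β ≠ 0 → (∀ n i : ℕ, 0 < n → α * n ≠ i) → DEq (pderiv 0) W h a b α β →
  ∃ D : ℕ, (∀ S : Finset R, (∀ H ∈ S, Irreducible H ∧ H ∣ h) →
    (∀ H ∈ S, ∀ H' ∈ S, Associated H H' → H = H') → ∑ H ∈ S, degreeOf 0 H ≤ D) ∧
    (D ≤ 1 ∨ (D : ℂ) + α * (degreeOf 0 h : ℂ) = 0)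

/-- VERT: an irreducible polynomial `H` which divides `det (∇P, ∇Q, ∇H)` divides a polynomial
in `P` and `Q` -/
def StmVert : Prop := ∀ (P Q H : R), Irreducible H → (∃ a, jac P Q a ≠ 0) → H ∣ jac P Q H →
  ∃ Φ : MvPolynomial (Fin 2) ℂ, Φ ≠ 0 ∧ H ∣ aeval ![P, Q] Φ

/-- the ideal `(P, Q)` -/
noncomputable def idl (P Q : R) : Ideal R := Ideal.span {P, Q}

/-- QR: a regular sequence is quasi-regular -/
def StmQR : Prop := ∀ (P Q : R), IsRelPrime P Q → ∀ (i : ℕ) (u : ℕ → R),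
  ∑ j ∈ Finset.range (i + 1), u j * P ^ (i - j) * Q ^ j ∈ idl P Q ^ (i + 1) →
  ∀ j, j ≤ i → u j ∈ idl P Q

/-- GRW: binary forms in `P`, `Q` are nonzerodivisors on the graded ring (prove
`StmQR → StmGRW`) -/
def StmGRW : Prop := ∀ (P Q : R), IsRelPrime P Q → ∀ (w : MvPolynomial (Fin 2) ℂ) (r : ℕ),
  w.IsHomogeneous r → w ≠ 0 → ∀ (i : ℕ) (y : R), y ∈ idl P Q ^ i →
  aeval ![P, Q] w * y ∈ idl P Q ^ (i + 1 + r) → y ∈ idl P Q ^ (i + 1)

/-- EUL: modulo `(P, Q) ^ (i + 1)` the derivation is proportional to the Euler derivation -/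
def StmEul : Prop := ∀ (P Q : R) (e : ℕ), P.IsHomogeneous e → Q.IsHomogeneous e →
  ∀ (i D : ℕ) (a : R), a ∈ idl P Q ^ i → a.IsHomogeneous D → ∀ l : Fin 3,
  X l * jac P Q a - C ((D : ℂ) - e * i) *
    (crs (fun m => pderiv m P) (fun m => pderiv m Q) l * a) ∈ idl P Q ^ (i + 1)

/-- at every common zero `p ≠ 0` of `P` and `Q`, the gradients of `P` and `Q` are linearly
independent and `h` does not vanish -/
def GoodBase (P Q h : R) : Prop := ∀ p : Fin 3 → ℂ, p ≠ 0 → eval p P = 0 → eval p Q = 0 →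
  eval p h ≠ 0 ∧ ∃ l, eval p (crs (fun m => pderiv m P) (fun m => pderiv m Q) l) ≠ 0

/-- SAT: the consequences of `GoodBase` (prove `StmQR → StmSat`) -/
def StmSat : Prop := ∀ (P Q h : R) (e dh : ℕ), 0 < e → P.IsHomogeneous e → Q.IsHomogeneous e →
  h.IsHomogeneous dh → GoodBase P Q h → IsRelPrime P Q ∧
  ∀ (i : ℕ) (u : R), u ∈ idl P Q ^ i →
    (∀ l, crs (fun m => pderiv m P) (fun m => pderiv m Q) l * h * u ∈ idl P Q ^ (i + 1)) →
    u ∈ idl P Q ^ (i + 1)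

/-- CH: the chain rule -/
def StmChain : Prop := ∀ (P Q : R) (G G' : MvPolynomial (Fin 2) ℂ) (a : R),
  jac (aeval ![P, Q] G) (aeval ![P, Q] G') a =
    aeval ![P, Q] (pderiv 0 G * pderiv 1 G' - pderiv 1 G * pderiv 0 G') * jac P Q a

end Pool.Agent.N127.PB
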