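import Pool.Agent.N127.PB.A
import Pool.Agent.N127.PB.A1
import Pool.Agent.N127.PB.A2
import Pool.Agent.N127.PB.Stm2

set_option autoImplicit false

/-! # The functional equation at `s = α`, for ideals -/

namespace Pool.Agent.N127.PB

open MvPolynomial Pool.Agent.H628R4.TP Pool.Agent.W574.HS

section minus

variable {ι σ : Type}

/-- the operators which do not lower the degree in the variables `inl j` -/
noncomputable def minusA (ι σ : Type) : Subalgebra ℂ (Module.End ℂ (MvPolynomial (ι ⊕ σ) ℂ)) :=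
  Algebra.adjoin ℂ
    (Set.range (fun i => LinearMap.mulLeft ℂ (X i : MvPolynomial (ι ⊕ σ) ℂ)) ∪
      Set.range (fun j : σ => ((pderiv (Sum.inr j) : Derivation ℂ (MvPolynomial (ι ⊕ σ) ℂ)
        (MvPolynomial (ι ⊕ σ) ℂ)) : MvPolynomial (ι ⊕ σ) ℂ →ₗ[ℂ] MvPolynomial (ι ⊕ σ) ℂ)))

theorem mX_minusA (i : ι ⊕ σ) : LinearMap.mulLeft ℂ (X i : MvPolynomial (ι ⊕ σ) ℂ) ∈
    minusA ι σ := Algebra.subset_adjoin (Or.inl ⟨i, rfl⟩)

theorem dR_minusA (l : σ) : ((pderiv (Sum.inr l) : Derivation ℂ (MvPolynomial (ι ⊕ σ) ℂ)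
    (MvPolynomial (ι ⊕ σ) ℂ)) : MvPolynomial (ι ⊕ σ) ℂ →ₗ[ℂ] MvPolynomial (ι ⊕ σ) ℂ) ∈
    minusA ι σ := Algebra.subset_adjoin (Or.inr ⟨l, rfl⟩)

theorem minusA_comm (j : ι) (w : Module.End ℂ (MvPolynomial (ι ⊕ σ) ℂ)) (hw : w ∈ minusA ι σ) :
    ∃ c ∈ minusA ι σ, ∀ g, pderiv (Sum.inl j) (w g) = w (pderiv (Sum.inl j) g) + c g := by
  classical
  induction hw using Algebra.adjoin_induction with
  | mem w hw =>
    rcases hw with ⟨k, rfl⟩ | ⟨k, rfl⟩
    · by_cases h : k = Sum.inl j
      · refine ⟨1, one_mem _, fun g => ?_⟩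
        rw [LinearMap.mulLeft_apply, LinearMap.mulLeft_apply, Derivation.leibniz, h,
          pderiv_X_self, smul_eq_mul, smul_eq_mul, mul_one]
        rfl
      · refine ⟨0, zero_mem _, fun g => ?_⟩
        rw [LinearMap.mulLeft_apply, LinearMap.mulLeft_apply, Derivation.leibniz,
          pderiv_X_of_ne h, smul_zero, smul_eq_mul]
        rfl
    · refine ⟨0, zero_mem _, fun g => ?_⟩
      change pderiv (Sum.inl j) (pderiv (Sum.inr k) g) = pderiv (Sum.inr k)
        (pderiv (Sum.inl j) g) + 0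
      rw [add_zero, A1.pd_comm]
  | algebraMap r =>
    refine ⟨0, zero_mem _, fun g => ?_⟩
    rw [Module.algebraMap_end_apply, Module.algebraMap_end_apply, Derivation.map_smul,
      LinearMap.zero_apply, add_zero]
  | add w1 w2 _ _ h1 h2 =>
    obtain ⟨c1, hc1, e1⟩ := h1
    obtain ⟨c2, hc2, e2⟩ := h2
    refine ⟨c1 + c2, add_mem hc1 hc2, fun g => ?_⟩
    rw [LinearMap.add_apply, map_add, e1, e2, LinearMap.add_apply, LinearMap.add_apply]
    abel
  | mul w1 w2 hw1 hw2 h1 h2 =>
    obtain ⟨c1, hc1, e1⟩ := h1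
    obtain ⟨c2, hc2, e2⟩ := h2
    refine ⟨w1 * c2 + c1 * w2, add_mem (mul_mem hw1 hc2) (mul_mem hc1 hw2), fun g => ?_⟩
    rw [Module.End.mul_apply, e1, e2, Module.End.mul_apply, map_add, LinearMap.add_apply,
      Module.End.mul_apply, Module.End.mul_apply]
    abel

theorem minusA_le : minusA ι σ ≤ weylS (ι ⊕ σ) := by
  refine Algebra.adjoin_mono ?_
  rintro x (⟨i, rfl⟩ | ⟨j, rfl⟩)
  · exact Or.inl ⟨i, rfl⟩
  · exact Or.inr ⟨Sum.inr j, rfl⟩

/-- normal order with the derivations `∂ / ∂y_j` on the right -/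
theorem rnormal [Fintype ι] (w : Module.End ℂ (MvPolynomial (ι ⊕ σ) ℂ))
    (hw : w ∈ weylS (ι ⊕ σ)) : ∃ w0 ∈ minusA ι σ,
      ∃ u : ι → Module.End ℂ (MvPolynomial (ι ⊕ σ) ℂ), (∀ j, u j ∈ weylS (ι ⊕ σ)) ∧
      ∀ g, w g = w0 g + ∑ j, u j (pderiv (Sum.inl j) g) := by
  classical
  -- left multiplication by a generator
  have key : ∀ x ∈ weylS (ι ⊕ σ), ∀ w : Module.End ℂ (MvPolynomial (ι ⊕ σ) ℂ),
      (∃ w0 ∈ minusA ι σ, ∃ u : ι → Module.End ℂ (MvPolynomial (ι ⊕ σ) ℂ),
        (∀ j, u j ∈ weylS (ι ⊕ σ)) ∧ ∀ g, w g = w0 g + ∑ j, u j (pderiv (Sum.inl j) g)) →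
      (∃ w0 ∈ minusA ι σ, ∃ u : ι → Module.End ℂ (MvPolynomial (ι ⊕ σ) ℂ),
        (∀ j, u j ∈ weylS (ι ⊕ σ)) ∧ ∀ g, (x * w) g = w0 g + ∑ j, u j
          (pderiv (Sum.inl j) g)) := by
    intro x hx
    induction hx using Algebra.adjoin_induction with
    | mem x hx =>
      rintro w ⟨w0, hw0, u, hu, hw⟩
      have hxw : x ∈ weylS (ι ⊕ σ) := Algebra.subset_adjoin hx
      by_cases hxm : x ∈ minusA ι σ
      · refine ⟨x * w0, mul_mem hxm hw0, fun j => x * u j, fun j => mul_mem hxw (hu j),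
          fun g => ?_⟩
        rw [Module.End.mul_apply, hw, map_add, map_sum]
        rfl
      · rcases hx with ⟨k, rfl⟩ | ⟨k, rfl⟩
        · exact absurd (mX_minusA k) hxm
        · rcases k with j | l
          · obtain ⟨c, hc, e⟩ := minusA_comm j w0 hw0
            refine ⟨c, hc, fun i => A1.dE (Sum.inl j) * u i + (if i = j then w0 else 0),
              fun i => add_mem (mul_mem (A1.dE_weyl _) (hu i)) ?_, fun g => ?_⟩
            · split_ifs
              · exact minusA_le hw0
              · exact zero_mem _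
            · rw [Module.End.mul_apply, hw, map_add]
              change pderiv (Sum.inl j) (w0 g) + _ = _
              rw [e, map_sum]
              simp only [LinearMap.add_apply, Finset.sum_add_distrib]
              have e3 : ∑ i, (if i = j then w0 else 0) (pderiv (Sum.inl i) g) =
                  w0 (pderiv (Sum.inl j) g) := by
                rw [Finset.sum_eq_single j]
                · rw [if_pos rfl]
                · intro i _ hi
                  rw [if_neg hi, LinearMap.zero_apply]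
                · intro h; exact absurd (Finset.mem_univ j) h
              rw [e3]
              have e4 : ∀ i, (A1.dE (Sum.inl j) * u i : Module.End ℂ (MvPolynomial (ι ⊕ σ) ℂ))
                  (pderiv (Sum.inl i) g) =
                  ((pderiv (Sum.inl j) : Derivation ℂ (MvPolynomial (ι ⊕ σ) ℂ)
                    (MvPolynomial (ι ⊕ σ) ℂ)) : MvPolynomial (ι ⊕ σ) ℂ →ₗ[ℂ]
                    MvPolynomial (ι ⊕ σ) ℂ) (u i (pderiv (Sum.inl i) g)) := fun i => rfl
              simp only [e4]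
              abel
          · exact absurd (dR_minusA l) hxm
    | algebraMap r =>
      rintro w ⟨w0, hw0, u, hu, hw⟩
      refine ⟨r • w0, Subalgebra.smul_mem _ hw0 r, fun j => r • u j,
        fun j => Subalgebra.smul_mem _ (hu j) r, fun g => ?_⟩
      rw [Module.End.mul_apply, Module.algebraMap_end_apply, hw, smul_add, Finset.smul_sum]
      rfl
    | add x1 x2 _ _ h1 h2 =>
      intro w hw
      obtain ⟨a, ha, u, hu, e1⟩ := h1 w hw
      obtain ⟨a', ha', u', hu', e2⟩ := h2 w hw
      refine ⟨a + a', add_mem ha ha', fun j => u j + u' j, fun j => add_mem (hu j) (hu' j),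
        fun g => ?_⟩
      rw [add_mul, LinearMap.add_apply, e1, e2, LinearMap.add_apply]
      simp only [LinearMap.add_apply, Finset.sum_add_distrib]
      abel
    | mul x1 x2 _ _ h1 h2 =>
      intro w hw
      have := h1 _ (h2 w hw)
      rw [← mul_assoc] at this
      exact this
  have h1 := key w hw 1 ⟨1, one_mem _, fun _ => 0, fun _ => zero_mem _, fun g => by simp⟩
  rw [mul_one] at h1
  exact h1

/-- all components of low `y`-degree vanish -/
def LowY (K : ℕ) (g : MvPolynomial (ι ⊕ σ) ℂ) : Prop :=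
  ∀ n : ℕ × ℕ, n.1 < K → cmp (bidegw ι σ) n g = 0

theorem lowY_minus (K : ℕ) (w : Module.End ℂ (MvPolynomial (ι ⊕ σ) ℂ)) (hw : w ∈ minusA ι σ) :
    ∀ g, LowY K g → LowY K (w g) := by
  induction hw using Algebra.adjoin_induction with
  | mem w hw =>
    rcases hw with ⟨k, rfl⟩ | ⟨j, rfl⟩
    · intro g hg n hn
      rw [LinearMap.mulLeft_apply]
      by_cases h : ∃ m, bidegw ι σ k + m = n
      · obtain ⟨m, rfl⟩ := h
        rw [cmp_mul _ (isWeightedHomogeneous_X ℂ _ k), hg m, mul_zero]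
        rw [Prod.fst_add] at hn
        omega
      · push Not at h
        exact cmp_mul_zero _ (isWeightedHomogeneous_X ℂ _ k) g n h
    · intro g hg n hn
      change cmp (bidegw ι σ) n (pderiv (Sum.inr j) g) = 0
      rw [cmp_pderiv, hg, map_zero]
      rw [Prod.fst_add]
      simpa [bidegw] using hn
  | algebraMap r =>
    intro g hg n hn
    rw [Module.algebraMap_end_apply, map_smul, hg n hn, smul_zero]
  | add w1 w2 _ _ h1 h2 =>
    intro g hg n hn
    rw [LinearMap.add_apply, map_add, h1 g hg n hn, h2 g hg n hn, add_zero]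
  | mul w1 w2 _ _ h1 h2 =>
    intro g hg
    exact h1 _ (h2 g hg)

end minus

theorem pderiv_univ {ι σ : Type} [Fintype ι] (f : ι → MvPolynomial σ ℂ) (j : ι) :
    pderiv (Sum.inl j) (univ f) = rename Sum.inr (f j) := by
  classical
  have h0 : ∀ p : MvPolynomial σ ℂ, pderiv (Sum.inl j : ι ⊕ σ) (rename Sum.inr p) = 0 := by
    intro p
    induction p using MvPolynomial.induction_on with
    | C a => rw [rename_C, pderiv_C]
    | add p q hp hq => rw [map_add, map_add, hp, hq, add_zero]
    | mul_X p k hp =>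
      rw [map_mul, Derivation.leibniz, hp, rename_X, pderiv_X_of_ne (by simp), smul_zero,
        smul_zero, add_zero]
  rw [univ, map_sum, Finset.sum_eq_single j]
  · rw [Derivation.leibniz, h0, smul_zero, zero_add, pderiv_X_self, smul_eq_mul, mul_one]
  · intro i _ hi
    rw [Derivation.leibniz, h0, smul_zero, zero_add, pderiv_X_of_ne, smul_zero]
    intro h
    exact hi (Sum.inl_injective h)
  · intro h; exact absurd (Finset.mem_univ j) h

theorem rename_bihom {ι σ : Type} {p : MvPolynomial σ ℂ} {d : ℕ} (hp : p.IsHomogeneous d) :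
    IsWeightedHomogeneous (bidegw ι σ) (rename Sum.inr p) (0, d) := by
  intro c hc
  obtain ⟨u, hu, hu0⟩ := coeff_rename_ne_zero _ _ _ hc
  have h3 := hp hu0
  rw [← hu]
  have h4 : ∀ v : σ →₀ ℕ, Finsupp.weight (bidegw ι σ) (v.mapDomain Sum.inr) =
      (0, v.sum fun _ a => a) := by
    intro v
    induction v using Finsupp.induction_linear with
    | zero => simp; rfl
    | add v v' h h' =>
      rw [Finsupp.mapDomain_add, map_add, h, h', Finsupp.sum_add_index' (by simp) (by simp)]
      simp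
    | single a b =>
      rw [Finsupp.mapDomain_single, Finsupp.weight_single, Finsupp.sum_single_index rfl]
      simp [bidegw]
  rw [h4, ← h3]
  rw [Prod.mk.injEq]
  refine ⟨rfl, ?_⟩
  rw [Finsupp.weight_apply]
  simp

/-- **The functional equation at `s = α` for ideals**: the factor `s + 1` is removed. -/
theorem stmAI {ι σ : Type} [Fintype ι] [Fintype σ] (f : ι → MvPolynomial σ ℂ) (d : ℕ)
    (hd : 0 < d) (hf : ∀ j, (f j).IsHomogeneous d) (hF0 : univ f ≠ 0) (b : Polynomial ℂ)
    (hb : IsBFunction (univ f) ((Polynomial.X + 1) * b)) (α : ℂ) : HasEN f d α (b.eval α) := by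
  classical
  obtain ⟨P, hP⟩ := hb
  set F := univ f with hF
  have hFb : IsWeightedHomogeneous (bidegw ι σ) F (1, d) := univ_bihom f d hf
  have hFp : ∀ n : ℕ, IsWeightedHomogeneous (bidegw ι σ) (F ^ n) (n, n * d) := by
    intro n
    have := hFb.pow n
    simpa using this
  choose w1 hw1 v hv hdec1 using fun m => rnormal (P m).1 (P m).2
  choose w0 hw0 u hu hdec using fun (m : ℕ) (j : ι) => stmA1 ι σ (v m j) (hv m j)
  choose N' U' hU' using fun (m : ℕ) (j : ι) (l : σ) =>
    A2P_all F (hu m j l) (Polynomial.C (rename Sum.inr (f j)))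
  obtain ⟨N, hN⟩ : ∃ N : ℕ, ∀ m ∈ P.support, ∀ j l, N' m j l ≤ N := by
    refine ⟨∑ m ∈ P.support, ∑ j, ∑ l, N' m j l, fun m hm j l => ?_⟩
    have a1 : N' m j l ≤ ∑ l, N' m j l := Finset.single_le_sum (f := fun l => N' m j l)
      (fun _ _ => Nat.zero_le _) (Finset.mem_univ l)
    have a2 : ∑ l, N' m j l ≤ ∑ j, ∑ l, N' m j l :=
      Finset.single_le_sum (f := fun j => ∑ l, N' m j l) (fun _ _ => Nat.zero_le _)
        (Finset.mem_univ j)
    have a3 : ∑ j, ∑ l, N' m j l ≤ ∑ m ∈ P.support, ∑ j, ∑ l, N' m j l :=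
      Finset.single_le_sum (f := fun m => ∑ j, ∑ l, N' m j l) (fun _ _ => Nat.zero_le _) hm
    omega
  let W : σ → Polynomial (MvPolynomial (ι ⊕ σ) ℂ) := fun l => ∑ m ∈ P.support, ∑ j,
    Polynomial.X ^ m * (Polynomial.C (F ^ (N - N' m j l)) * U' m j l)
  have hW : ∀ (l : σ) (s : ℕ), N ≤ s →
      ∑ m ∈ P.support, ∑ j, ((s : ℂ) ^ m) • u m j l (F ^ s * rename Sum.inr (f j)) =
        F ^ (s - N) * (W l).eval (C (s : ℂ)) := by
    intro l s hs
    simp only [W, Polynomial.eval_finsetSum, Finset.mul_sum]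
    refine Finset.sum_congr rfl fun m hm => Finset.sum_congr rfl fun j _ => ?_
    have hNm := hN m hm j l
    have e0 : u m j l (F ^ s * Polynomial.eval (s : MvPolynomial (ι ⊕ σ) ℂ)
        (Polynomial.C (rename Sum.inr (f j)))) = F ^ (s - N' m j l) *
          Polynomial.eval (s : MvPolynomial (ι ⊕ σ) ℂ) (U' m j l) := hU' m j l s (by omega)
    rw [Polynomial.eval_C] at e0
    rw [e0]
    rw [Polynomial.eval_mul, Polynomial.eval_mul, Polynomial.eval_pow, Polynomial.eval_X,
      Polynomial.eval_C, ← map_pow, smul_eq_C_mul]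
    have e1 : s - N' m j l = (s - N) + (N - N' m j l) := by omega
    rw [e1, pow_add, nat_eq_C s]
    ring
  let V : σ → Polynomial (MvPolynomial (ι ⊕ σ) ℂ) := fun l =>
    mapU (cmp (bidegw ι σ) (N, d * N + 1)) (W l)
  have hkey : ∀ s : ℕ, N ≤ s → C (b.eval (s : ℂ)) * F ^ s =
      ∑ l, pderiv (Sum.inr l) (F ^ (s - N) * (V l).eval (C (s : ℂ))) := by
    intro s hs
    have hs1 : ((s : ℂ) + 1) ≠ 0 := by exact_mod_cast Nat.succ_ne_zero s
    -- the derivatives of the power
    have hder : ∀ j, pderiv (Sum.inl j) (F ^ (s + 1)) =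
        ((s : ℂ) + 1) • (F ^ s * rename Sum.inr (f j)) := by
      intro j
      rw [Derivation.leibniz_pow, Nat.add_sub_cancel, hF, pderiv_univ, smul_eq_mul,
        nsmul_eq_mul, smul_eq_C_mul]
      congr 1
      push_cast
      rw [map_add, map_natCast, map_one]
    have e1 := congrArg (cmp (bidegw ι σ) (s, s * d)) (hP s)
    rw [cmp, weightedHomogeneousComponent_C_mul,
      (hFp s).weightedHomogeneousComponent_same] at e1
    rw [Polynomial.eval_mul, Polynomial.eval_add, Polynomial.eval_X, Polynomial.eval_one] at e1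
    have e2 : (P.sum fun m Q => ((s : ℂ) ^ m) • (Q : Module.End ℂ (MvPolynomial (ι ⊕ σ) ℂ))
        (F ^ (s + 1))) =
        (∑ m ∈ P.support, ((s : ℂ) ^ m) • w1 m (F ^ (s + 1))) +
        ((s : ℂ) + 1) • ((∑ m ∈ P.support, ∑ j, ((s : ℂ) ^ m) •
          w0 m j (F ^ s * rename Sum.inr (f j))) +
        ∑ l, pderiv (Sum.inr l) (F ^ (s - N) * (W l).eval (C (s : ℂ)))) := by
      have e3 : ∀ l, pderiv (Sum.inr l) (F ^ (s - N) * (W l).eval (C (s : ℂ))) =
          ∑ m ∈ P.support, ∑ j, ((s : ℂ) ^ m) •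
            pderiv (Sum.inr l) (u m j l (F ^ s * rename Sum.inr (f j))) := by
        intro l
        rw [← hW l s hs, map_sum]
        refine Finset.sum_congr rfl fun m _ => ?_
        rw [map_sum]
        refine Finset.sum_congr rfl fun j _ => ?_
        rw [Derivation.map_smul]
      have e3' : ∑ l, pderiv (Sum.inr l) (F ^ (s - N) * (W l).eval (C (s : ℂ))) =
          ∑ m ∈ P.support, ∑ j, ∑ l, ((s : ℂ) ^ m) •
            pderiv (Sum.inr l) (u m j l (F ^ s * rename Sum.inr (f j))) := by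
        rw [Finset.sum_congr rfl fun l _ => e3 l, Finset.sum_comm]
        refine Finset.sum_congr rfl fun m _ => ?_
        rw [Finset.sum_comm]
      rw [e3', ← Finset.sum_add_distrib, Finset.smul_sum, ← Finset.sum_add_distrib, Finsupp.sum]
      refine Finset.sum_congr rfl fun m _ => ?_
      have e4 : (P m : Module.End ℂ (MvPolynomial (ι ⊕ σ) ℂ)) (F ^ (s + 1)) = _ :=
        hdec1 m (F ^ (s + 1))
      rw [e4, smul_add]
      congr 1
      rw [← Finset.sum_add_distrib, Finset.smul_sum, Finset.smul_sum]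
      refine Finset.sum_congr rfl fun j _ => ?_
      rw [hder j, map_smul, hdec m j (F ^ s * rename Sum.inr (f j)), smul_comm]
      congr 1
      rw [smul_add, Finset.smul_sum]
    rw [e2, map_add, map_sum] at e1
    have z1 : ∀ m ∈ P.support, cmp (bidegw ι σ) (s, s * d)
        (((s : ℂ) ^ m) • w1 m (F ^ (s + 1))) = 0 := by
      intro m _
      rw [map_smul, lowY_minus (s + 1) (w1 m) (hw1 m) (F ^ (s + 1)) ?_ (s, s * d) ?_,
        smul_zero]
      · intro n hn
        refine (hFp (s + 1)).weightedHomogeneousComponent_ne n ?_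
        rintro rfl
        exact lt_irrefl _ hn
      · exact Nat.lt_succ_self s
    rw [Finset.sum_eq_zero z1, zero_add, map_smul, map_add, map_sum] at e1
    have z2 : ∀ m ∈ P.support, cmp (bidegw ι σ) (s, s * d)
        (∑ j, ((s : ℂ) ^ m) • w0 m j (F ^ s * rename Sum.inr (f j))) = 0 := by
      intro m _
      rw [map_sum]
      refine Finset.sum_eq_zero fun j _ => ?_
      have hFf : IsWeightedHomogeneous (bidegw ι σ) (F ^ s * rename Sum.inr (f j))
          ((s, s * d) + (0, d)) := (hFp s).mul (rename_bihom (hf j))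
      rw [map_smul, low_plus (s * d + d) (w0 m j) (hw0 m j) _ ?_ (s, s * d) ?_, smul_zero]
      · intro n hn
        refine hFf.weightedHomogeneousComponent_ne n ?_
        rintro rfl
        exact lt_irrefl _ hn
      · change s * d < s * d + d
        omega
    rw [Finset.sum_eq_zero z2, zero_add, map_sum] at e1
    have e5 : ((s : ℂ) + 1) • (C (b.eval (s : ℂ)) * F ^ s) = ((s : ℂ) + 1) •
        ∑ l, pderiv (Sum.inr l) (F ^ (s - N) * (V l).eval (C (s : ℂ))) := by
      rw [smul_eq_C_mul, ← mul_assoc, ← map_mul, e1]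
      congr 1
      refine Finset.sum_congr rfl fun l _ => ?_
      rw [cmp_pderiv]
      have e5 : ((s, s * d) : ℕ × ℕ) + bidegw ι σ (Sum.inr l) =
          (s - N, (s - N) * d) + (N, d * N + 1) := by
        change ((s + 0, s * d + 1) : ℕ × ℕ) = (s - N + N, (s - N) * d + (d * N + 1))
        rw [Nat.sub_add_cancel hs, add_zero]
        congr 1
        have : s * d = (s - N) * d + N * d := by rw [← add_mul, Nat.sub_add_cancel hs]
        rw [this]; ring
      rw [e5, cmp_mul _ (hFp (s - N)), mapU_eval]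
    exact smul_right_injective _ hs1 e5
  refine ⟨N, fun l => (V l).eval (C α), ?_, en_of_key F hF0 b N V hkey α⟩
  intro l
  apply eval_bihom
  intro i
  rw [mapU_coeff]
  exact weightedHomogeneousComponent_isWeightedHomogeneous _ _

end Pool.Agent.N127.PB
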