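import Pool.Agent.N127.PB.Stm

set_option autoImplicit false

/-! # Part B: the pencil -/

namespace Pool.Agent.N127.PB

open Polynomial Pool.Agent.H628R4.TP Pool.Agent.W574.HS

namespace PartB

section Abs

variable {A : Type*} [CommRing A] [Algebra ℂ A]

omit [Algebra ℂ A] in
theorem sum3 (f : Fin 3 → A) (l : Fin 3) : ∑ j, f j = f l + f (l + 1) + f (l + 2) := by
  rw [Fin.sum_univ_three]
  fin_cases l
  · rfl
  · show f 0 + f 1 + f 2 = f 1 + f 2 + f 0
    ring
  · show f 0 + f 1 + f 2 = f 2 + f 0 + f 1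
    ring

theorem i11 (l : Fin 3) : l + 1 + 1 = l + 2 := by revert l; decide
theorem i12 (l : Fin 3) : l + 1 + 2 = l := by revert l; decide
theorem i21 (l : Fin 3) : l + 2 + 1 = l := by revert l; decide
theorem i22 (l : Fin 3) : l + 2 + 2 = l + 1 := by revert l; decide
theorem n1 (l : Fin 3) : l + 1 ≠ l := by revert l; decide
theorem n2 (l : Fin 3) : l + 2 ≠ l := by revert l; decide

theorem curl_crs (D : Fin 3 → Derivation ℂ A A) (x V : Fin 3 → A)
    (hx : ∀ j l, D j (x l) = if j = l then 1 else 0) (F : A) (d e c β : ℂ) (N : ℕ)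
    (hF : ∑ j, x j * D j F = d • F) (hV : ∀ l, ∑ j, x j * D j (V l) = e • V l)
    (h : β • F ^ (N + 1) = ∑ l, (F * D l (V l) + c • (V l * D l F))) (l : Fin 3) :
    F * curl D (crs V x) l + c • crs (fun m => D m F) (crs V x) l =
      (e + 2 + c * d) • (F * V l) - β • (F ^ (N + 1) * x l) := by
  have e1 : D (l + 1) (x (l + 1)) = 1 := by rw [hx, if_pos rfl]
  have e2 : D (l + 2) (x (l + 2)) = 1 := by rw [hx, if_pos rfl]
  have e3 : D (l + 1) (x l) = 0 := by rw [hx, if_neg (n1 l)]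
  have e4 : D (l + 2) (x l) = 0 := by rw [hx, if_neg (n2 l)]
  rw [sum3 _ l] at hF h
  have hV' := hV l
  rw [sum3 _ l] at hV'
  unfold curl crs
  simp only [i11, i12, i21, i22, map_sub, Derivation.leibniz, smul_eq_mul, e1, e2, e3, e4,
    Algebra.smul_def, map_add, map_mul, map_ofNat] at hF h hV' ⊢
  generalize algebraMap ℂ A β = b at *
  generalize algebraMap ℂ A c = c at *
  generalize algebraMap ℂ A d = d at *
  generalize algebraMap ℂ A e = e at *
  linear_combination x l * h + F * hV' + c * V l * hF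

theorem cancelL [IsDomain A] (D : Fin 3 → Derivation ℂ A A) (x Z : Fin 3 → A) (h L : A)
    (hL : L ≠ 0) (k N : ℕ) (hk : 0 < k) (c β : ℂ) (l : Fin 3)
    (H : h * L ^ k * curl D Z l + c • crs (fun m => D m (h * L ^ k)) Z l =
      -(β • ((h * L ^ k) ^ (N + 1) * x l))) :
    h * L * curl D Z l + c • crs (fun m => L * D m h + k * h * D m L) Z l =
      -(β • (h ^ (N + 1) * L ^ (k * N + 1) * x l)) := by
  obtain ⟨k, rfl⟩ : ∃ k', k = k' + 1 := ⟨k - 1, by omega⟩
  have hD : ∀ m, D m (h * L ^ (k + 1)) = L ^ k * (L * D m h + (k + 1 : ℕ) * h * D m L) := by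
    intro m
    rw [Derivation.leibniz, Derivation.leibniz_pow, smul_eq_mul, smul_eq_mul, Nat.add_sub_cancel,
      smul_eq_mul, nsmul_eq_mul]
    ring
  apply mul_left_cancel₀ (pow_ne_zero k hL)
  simp only [hD] at H
  unfold crs at H ⊢
  simp only [Algebra.smul_def] at H ⊢
  have e1 : (h * L ^ (k + 1)) ^ (N + 1) = L ^ k * (h ^ (N + 1) * L ^ ((k + 1) * N + 1)) := by
    rw [mul_pow, ← pow_mul]
    have : (k + 1) * (N + 1) = k + ((k + 1) * N + 1) := by ring
    rw [this, pow_add L k]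
    ring
  rw [e1] at H
  linear_combination H

theorem divH [IsDomain A] (D : Fin 3 → Derivation ℂ A A) (x Z ζ : Fin 3 → A) (h hi L : A)
    (hhi : h * hi = 1) (k N : ℕ) (α β : ℂ) (l : Fin 3) (hZ : ∀ m, Z m = h ^ N * ζ m)
    (H : h * L * curl D Z l + (α - N) • crs (fun m => L * D m h + k * h * D m L) Z l =
      -(β • (h ^ (N + 1) * L ^ (k * N + 1) * x l))) :
    L * (curl D ζ l + crs (fun m => α • (D m h * hi)) ζ l) +
      (k * α - (k * N : ℕ) : ℂ) • crs (fun m => D m L) ζ l =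
        -(β • (L ^ (k * N + 1) * x l)) := by
  have h0 : h ≠ 0 := by
    rintro rfl
    rw [zero_mul] at hhi
    exact zero_ne_one hhi
  have hN : ∀ m, h * D m (h ^ N) = N * h ^ N * D m h := by
    intro m
    rw [Derivation.leibniz_pow, smul_eq_mul, nsmul_eq_mul]
    rcases N with _ | N
    · simp
    · rw [Nat.add_sub_cancel, pow_succ]
      ring
  have hD : ∀ m n, h * D m (Z n) = h ^ N * (h * D m (ζ n) + N * D m h * ζ n) := by
    intro m n
    rw [hZ, Derivation.leibniz, smul_eq_mul, smul_eq_mul]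
    linear_combination ζ n * hN m
  apply mul_left_cancel₀ (pow_ne_zero (N + 1) h0)
  unfold curl crs at H ⊢
  simp only [Algebra.smul_def, map_sub, map_mul, map_natCast, hZ (l + 1), hZ (l + 2),
    Nat.cast_mul] at H ⊢
  have e1 := hD (l + 1) (l + 2)
  have e2 := hD (l + 2) (l + 1)
  rw [hZ (l + 2)] at e1
  rw [hZ (l + 1)] at e2
  generalize algebraMap ℂ A α = a at *
  generalize algebraMap ℂ A β = b at *
  linear_combination H - L * e1 + L * e2 + 
    (h ^ N * L * a * (D (l + 1) h * ζ (l + 2) - D (l + 2) h * ζ (l + 1))) * hhi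

theorem eul_mul (D : Fin 3 → Derivation ℂ A A) (x : Fin 3 → A) (a b : A) (p q : ℂ)
    (ha : ∑ j, x j * D j a = p • a) (hb : ∑ j, x j * D j b = q • b) :
    ∑ j, x j * D j (a * b) = (p + q) • (a * b) := by
  have h1 : ∑ j, x j * D j (a * b) = a * ∑ j, x j * D j b + b * ∑ j, x j * D j a := by
    rw [Finset.mul_sum, Finset.mul_sum, ← Finset.sum_add_distrib]
    refine Finset.sum_congr rfl fun j _ => ?_
    rw [Derivation.leibniz, smul_eq_mul, smul_eq_mul]
    ring
  rw [h1, ha, hb, Algebra.smul_def, Algebra.smul_def, Algebra.smul_def, map_add]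
  ring

theorem eul_pow (D : Fin 3 → Derivation ℂ A A) (x : Fin 3 → A) (a : A) (p : ℂ)
    (ha : ∑ j, x j * D j a = p • a) (k : ℕ) :
    ∑ j, x j * D j (a ^ k) = (k * p : ℂ) • a ^ k := by
  induction k with
  | zero => simp
  | succ k ih =>
    rw [pow_succ, eul_mul D x _ _ _ _ ih ha]
    congr 1
    push_cast
    ring

end Abs

/-! ### the substitution -/

/-- the values of the variables -/
noncomputable def vv (k : ℕ) : Fin (k + 1) ⊕ Fin 3 → K[X] :=
  Sum.elim (fun j => C ((Nat.choose k j : ℕ) : K) * X ^ (k - (j : ℕ)))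
    (fun l => C (emb (MvPolynomial.X l)))

/-- the substitution -/
noncomputable def ev (k : ℕ) : MvPolynomial (Fin (k + 1) ⊕ Fin 3) ℂ →ₐ[ℂ] K[X] :=
  MvPolynomial.aeval (vv k)

theorem ev_X (k : ℕ) (i : Fin (k + 1) ⊕ Fin 3) : ev k (MvPolynomial.X i) = vv k i :=
  MvPolynomial.aeval_X _ _

theorem emb_C (a : ℂ) : emb (MvPolynomial.C a) = algebraMap ℂ K a := by
  rw [IsScalarTower.algebraMap_apply ℂ R K]
  rfl

theorem ev_rename (k : ℕ) (p : R) : ev k (MvPolynomial.rename Sum.inr p) = C (emb p) := by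
  induction p using MvPolynomial.induction_on with
  | C a =>
    rw [MvPolynomial.rename_C, emb_C]
    exact (ev k).commutes a
  | add p q hp hq => rw [map_add, map_add, hp, hq, map_add, map_add]
  | mul_X p i hp =>
    rw [map_mul, map_mul, hp, MvPolynomial.rename_X, ev_X, map_mul, map_mul]
    rfl

theorem ev_univ (P Q h : R) (k : ℕ) :
    ev k (univ (gens P Q h k)) = C (emb h) * (C (emb P) + X * C (emb Q)) ^ k := by
  unfold univ
  rw [map_sum, add_pow, Finset.mul_sum, Finset.sum_range]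
  refine Finset.sum_congr rfl fun j _ => ?_
  rw [map_mul, ev_X, ev_rename]
  unfold vv gens
  rw [Sum.elim_inl, map_mul, map_mul, map_pow, map_pow, map_mul, map_mul, map_pow, map_pow,
    mul_pow, map_natCast]
  ring

theorem ev_pderiv (k : ℕ) (l : Fin 3) (G : MvPolynomial (Fin (k + 1) ⊕ Fin 3) ℂ) :
    ev k (MvPolynomial.pderiv (Sum.inr l) G) = mapC (dK l) (ev k G) := by
  classical
  induction G using MvPolynomial.induction_on with
  | C a =>
    have h1 : ev k (MvPolynomial.C a) = algebraMap ℂ K[X] a := (ev k).commutes a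
    rw [MvPolynomial.pderiv_C, map_zero, h1, Derivation.map_algebraMap]
  | add p q hp hq => rw [map_add, map_add, hp, hq, map_add, map_add]
  | mul_X p i hp =>
    have key : ev k (MvPolynomial.pderiv (Sum.inr l) (MvPolynomial.X i)) =
        mapC (dK l) (ev k (MvPolynomial.X i)) := by
      rw [ev_X, MvPolynomial.pderiv_X]
      rcases i with j | i
      · rw [Pi.single_eq_of_ne (by simp), map_zero]
        show 0 = mapC (dK l) (C ((Nat.choose k j : ℕ) : K) * X ^ (k - (j : ℕ)))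
        rw [Derivation.leibniz, Derivation.leibniz_pow, mapC_X, mapC_C, Derivation.map_natCast]
        simp
      · show _ = mapC (dK l) (C (emb (MvPolynomial.X i)))
        rw [mapC_C, dK_emb, MvPolynomial.pderiv_X]
        by_cases h : i = l
        · subst h
          rw [Pi.single_eq_same, Pi.single_eq_same, map_one, map_one, map_one]
        · rw [Pi.single_eq_of_ne (fun h' => h (Sum.inr_injective h')),
            Pi.single_eq_of_ne h, map_zero, map_zero, map_zero]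
    rw [Derivation.leibniz, map_add, smul_eq_mul, smul_eq_mul, map_mul, map_mul, hp, key, map_mul,
      Derivation.leibniz, smul_eq_mul, smul_eq_mul]

theorem vv_deg (k : ℕ) (i : Fin (k + 1) ⊕ Fin 3) :
    (vv k i).natDegree ≤ k * (bidegw (Fin (k + 1)) (Fin 3) i).1 := by
  rcases i with j | l
  · show (C ((Nat.choose k j : ℕ) : K) * X ^ (k - (j : ℕ))).natDegree ≤ k * 1
    refine (natDegree_C_mul_X_pow_le _ _).trans ?_
    omega
  · show (C (emb (MvPolynomial.X l))).natDegree ≤ _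
    rw [natDegree_C]
    exact Nat.zero_le _

theorem ev_deg (k N D : ℕ) (V : MvPolynomial (Fin (k + 1) ⊕ Fin 3) ℂ)
    (hV : MvPolynomial.IsWeightedHomogeneous (bidegw (Fin (k + 1)) (Fin 3)) V (N, D)) :
    (ev k V).natDegree ≤ k * N := by
  rw [V.as_sum, map_sum]
  refine natDegree_sum_le_of_forall_le _ _ fun m hm => ?_
  have h1 := hV (MvPolynomial.mem_support_iff.1 hm)
  have h2 : (Finsupp.weight (bidegw (Fin (k + 1)) (Fin 3)) m).1 = N := by rw [h1]
  rw [Finsupp.weight_apply, Finsupp.sum, Prod.fst_sum] at h2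
  have h3 : ev k (MvPolynomial.monomial m (MvPolynomial.coeff m V)) =
      algebraMap ℂ K[X] (MvPolynomial.coeff m V) * ∏ i ∈ m.support, vv k i ^ m i :=
    MvPolynomial.aeval_monomial _ _ _
  rw [h3, ← Algebra.smul_def]
  refine (natDegree_smul_le _ _).trans ?_
  refine (natDegree_prod_le _ _).trans ?_
  rw [← h2, Finset.mul_sum]
  refine Finset.sum_le_sum fun i _ => ?_
  refine natDegree_pow_le.trans ?_
  have h4 := vv_deg k i
  calc m i * (vv k i).natDegree ≤ m i * (k * (bidegw (Fin (k + 1)) (Fin 3) i).1) :=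
        Nat.mul_le_mul_left _ h4
    _ = _ := by
        rw [Prod.smul_fst, smul_eq_mul]
        ring

theorem ev_coeff (k : ℕ) (V : MvPolynomial (Fin (k + 1) ⊕ Fin 3) ℂ) :
    ev k V ∈ lifts emb := by
  induction V using MvPolynomial.induction_on with
  | C a =>
    have h1 : ev k (MvPolynomial.C a) = C (emb (MvPolynomial.C a)) := by
      rw [emb_C]
      exact (ev k).commutes a
    rw [h1]
    exact C_mem_lifts _ _
  | add p q hp hq =>
    rw [map_add]
    exact add_mem hp hq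
  | mul_X p i hp =>
    rw [map_mul, ev_X]
    refine mul_mem hp ?_
    rcases i with j | l
    · show C ((Nat.choose k j : ℕ) : K) * X ^ (k - (j : ℕ)) ∈ lifts emb
      refine mul_mem ?_ (X_pow_mem_lifts _ _)
      rw [← map_natCast emb]
      exact C_mem_lifts _ _
    · exact C_mem_lifts _ _

theorem euler (k N D : ℕ) (V : MvPolynomial (Fin (k + 1) ⊕ Fin 3) ℂ)
    (hV : MvPolynomial.IsWeightedHomogeneous (bidegw (Fin (k + 1)) (Fin 3)) V (N, D)) :
    ∑ j : Fin 3, MvPolynomial.X (Sum.inr j) * MvPolynomial.pderiv (Sum.inr j) V = D • V := by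
  have h1 : MvPolynomial.IsWeightedHomogeneous
      (fun i => (bidegw (Fin (k + 1)) (Fin 3) i).2) V D := by
    intro m hm
    have h2 := congrArg Prod.snd (hV hm)
    rw [Finsupp.weight_apply, Finsupp.sum, Prod.snd_sum] at h2
    rw [Finsupp.weight_apply, Finsupp.sum]
    exact h2
  rw [← h1.sum_weight_X_mul_pderiv, Fintype.sum_sum_type]
  have h3 : ∀ j : Fin (k + 1), (bidegw (Fin (k + 1)) (Fin 3) (Sum.inl j)).2 = 0 := fun _ => rfl
  have h4 : ∀ j : Fin 3, (bidegw (Fin (k + 1)) (Fin 3) (Sum.inr j)).2 = 1 := fun _ => rfl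
  simp only [h3, h4, zero_smul, one_smul, Finset.sum_const_zero, zero_add]

theorem eulerC {e : ℕ} {P : R} (hP : P.IsHomogeneous e) :
    ∑ j, C (emb (MvPolynomial.X j)) * mapC (dK j) (C (emb P)) = (e : ℂ) • C (emb P) := by
  have h1 := congrArg (fun p => (C (emb p) : K[X])) hP.sum_X_mul_pderiv
  simp only [map_sum, map_mul, nsmul_eq_mul, map_natCast] at h1
  simp only [mapC_C, dK_emb, map_natCast, Algebra.smul_def]
  exact h1

section Gen

variable {𝕜 : Type*} [Field 𝕜] [Algebra ℂ 𝕜]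

theorem gen (D : Fin 3 → Derivation ℂ 𝕜 𝕜) (H : 𝕜) (H0 : H ≠ 0) (x : Fin 3 → 𝕜)
    (hx : ∀ j l, D j (x l) = if j = l then 1 else 0) (L : 𝕜[X]) (L0 : L ≠ 0) (W : Fin 3 → 𝕜[X])
    (dh e k N : ℕ) (hk : 0 < k) (α β : ℂ) (hα : α * (dh + k * e : ℕ) = -3)
    (eh : ∑ j, C (x j) * mapC (D j) (C H) = (dh : ℂ) • C H)
    (eL : ∑ j, C (x j) * mapC (D j) L = (e : ℂ) • L)
    (eW : ∀ l, ∑ j, C (x j) * mapC (D j) (W l) = (((dh + k * e) * N + 1 : ℕ) : ℂ) • W l)
    (eE : β • (C H * L ^ k) ^ (N + 1) = ∑ l, (C H * L ^ k * mapC (D l) (W l) +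
      (α - N) • (W l * mapC (D l) (C H * L ^ k)))) :
    IsEq D (fun l => α • (D l H / H)) x L (k * α) β (k * N)
      (fun m => C ((H ^ N)⁻¹) * crs W (fun l => C (x l)) m) := by
  have hDx : ∀ j l, (fun m => mapC (D m)) j ((fun l => C (x l)) l) =
      if j = l then (1 : 𝕜[X]) else 0 := by
    intro j l
    show mapC (D j) (C (x l)) = _
    rw [mapC_C, hx]
    split_ifs
    · exact C_1
    · exact C_0
  have eF : ∑ j, C (x j) * mapC (D j) (C H * L ^ k) = ((dh : ℂ) + k * e) • (C H * L ^ k) :=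
    eul_mul (fun m => mapC (D m)) (fun l => C (x l)) _ _ _ _ eh
      (eul_pow (fun m => mapC (D m)) (fun l => C (x l)) _ _ eL k)
  have h2 : ((((dh + k * e) * N + 1 : ℕ) : ℂ) + 2 + (α - N) * ((dh : ℂ) + k * e)) = 0 := by
    push_cast at hα ⊢
    linear_combination hα
  have h3 : ∀ l, C H * L ^ k * curl (fun m => mapC (D m)) (crs W (fun l => C (x l))) l +
      (α - N) • crs (fun m => mapC (D m) (C H * L ^ k)) (crs W (fun l => C (x l))) l =
      -(β • ((C H * L ^ k) ^ (N + 1) * C (x l))) := by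
    intro l
    have h := curl_crs (fun m => mapC (D m)) (fun l => C (x l)) W hDx _ _ _ _ β N eF eW eE l
    rw [h2, zero_smul, zero_sub] at h
    exact h
  have h4 := fun l => cancelL (fun m => mapC (D m)) (fun l => C (x l))
    (crs W (fun l => C (x l))) (C H) L L0 k N hk (α - N) β l (h3 l)
  have hhi : C H * C (H⁻¹) = (1 : 𝕜[X]) := by
    rw [← C_mul, mul_inv_cancel₀ H0, C_1]
  have hZ : ∀ m, crs W (fun l => C (x l)) m =
      C H ^ N * (C ((H ^ N)⁻¹) * crs W (fun l => C (x l)) m) := by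
    intro m
    rw [← mul_assoc, ← C_pow, ← C_mul, mul_inv_cancel₀ (pow_ne_zero _ H0), C_1, one_mul]
  intro l
  have h5 := divH (fun m => mapC (D m)) (fun l => C (x l)) (crs W (fun l => C (x l)))
    (fun m => C ((H ^ N)⁻¹) * crs W (fun l => C (x l)) m) (C H) (C (H⁻¹)) L hhi k N α β l hZ (h4 l)
  have h7 : (fun m => α • (mapC (D m) (C H) * C (H⁻¹))) =
      fun m => (C (α • (D m H / H)) : 𝕜[X]) := by
    funext m
    rw [mapC_C, ← C_mul, smul_C, div_eq_mul_inv]
  rw [h7] at h5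
  exact h5

theorem eulL (D : Fin 3 → Derivation ℂ 𝕜 𝕜) (x : Fin 3 → 𝕜) (p q : 𝕜) (e : ℂ)
    (h1 : ∑ j, C (x j) * mapC (D j) (C p) = e • C p)
    (h2 : ∑ j, C (x j) * mapC (D j) (C q) = e • C q) :
    ∑ j, C (x j) * mapC (D j) (C p + X * C q) = e • (C p + X * C q) := by
  simp only [map_add, Derivation.leibniz, mapC_X, smul_eq_mul, mul_zero, add_zero]
  rw [smul_add, ← h1, ← mul_smul_comm, ← h2, Finset.mul_sum, ← Finset.sum_add_distrib]
  refine Finset.sum_congr rfl fun j _ => ?_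
  ring

omit [Algebra ℂ 𝕜] in
theorem L_ne (p q : 𝕜) (h : p ≠ 0 ∨ q ≠ 0) : (C p + X * C q : 𝕜[X]) ≠ 0 := by
  intro hc
  rcases h with hp | hq
  · have h1 := congrArg (fun p => p.coeff 0) hc
    simp only [coeff_add, coeff_C_zero, coeff_X_mul_zero, add_zero, coeff_zero] at h1
    exact hp h1
  · have h1 := congrArg (fun p => p.coeff 1) hc
    simp only [coeff_add, coeff_X_mul, coeff_C_zero, coeff_zero] at h1
    rw [coeff_C, if_neg one_ne_zero, zero_add] at h1
    exact hq h1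

theorem genE {R' : Type*} [CommRing R'] (φ : R' →+* 𝕜) (D : Fin 3 → Derivation ℂ 𝕜 𝕜)
    (P Q h : R') (H0 : φ h ≠ 0) (hPQ : φ P ≠ 0 ∨ φ Q ≠ 0) (x : Fin 3 → R')
    (hx : ∀ j l, D j (φ (x l)) = if j = l then 1 else 0) (W : Fin 3 → 𝕜[X])
    (dh e k N : ℕ) (hk : 0 < k) (α β : ℂ) (hα : α * (dh + k * e : ℕ) = -3)
    (eh : ∑ j, C (φ (x j)) * mapC (D j) (C (φ h)) = (dh : ℂ) • C (φ h))
    (eP : ∑ j, C (φ (x j)) * mapC (D j) (C (φ P)) = (e : ℂ) • C (φ P))
    (eQ : ∑ j, C (φ (x j)) * mapC (D j) (C (φ Q)) = (e : ℂ) • C (φ Q))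
    (eW : ∀ l, ∑ j, C (φ (x j)) * mapC (D j) (W l) = (((dh + k * e) * N + 1 : ℕ) : ℂ) • W l)
    (eE : β • (C (φ h) * (C (φ P) + X * C (φ Q)) ^ k) ^ (N + 1) =
      ∑ l, (C (φ h) * (C (φ P) + X * C (φ Q)) ^ k * mapC (D l) (W l) +
      (α - N) • (W l * mapC (D l) (C (φ h) * (C (φ P) + X * C (φ Q)) ^ k))))
    (hWd : ∀ l, (W l).natDegree ≤ k * N) (hWc : ∀ l, W l ∈ lifts φ) :
    ∃ ζ : Fin 3 → 𝕜[X], (∀ l, (ζ l).natDegree ≤ k * N) ∧
      (∀ l n, ∃ a : R', (ζ l).coeff n * φ (h ^ N) = φ a) ∧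
      IsEq D (fun l => α • (D l (φ h) / φ h)) (fun l => φ (x l))
        (C (φ P) + X * C (φ Q)) (k * α) β (k * N) ζ := by
  refine ⟨_, ?_, ?_, gen D (φ h) H0 (fun l => φ (x l)) hx _ (L_ne _ _ hPQ) W dh e k N hk α β hα
    eh (eulL D (fun l => φ (x l)) _ _ _ eP eQ) eW eE⟩
  · intro l
    refine (natDegree_C_mul_le _ _).trans ?_
    have h1 : ∀ i j : Fin 3, (W i * C (φ (x j))).natDegree ≤ k * N :=
      fun i j => (natDegree_mul_C_le _ _).trans (hWd i)
    exact (natDegree_sub_le _ _).trans (max_le (h1 _ _) (h1 _ _))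
  · intro l n
    have h1 : ∀ i j : Fin 3, ∃ a : R', φ a = (W i * C (φ (x j))).coeff n := fun i j =>
      (lifts_iff_coeff_lifts _).1 (mul_mem (hWc i) (C_mem_lifts _ _)) n
    obtain ⟨a, ha⟩ := h1 (l + 1) (l + 2)
    obtain ⟨b, hb⟩ := h1 (l + 2) (l + 1)
    refine ⟨a - b, ?_⟩
    rw [coeff_C_mul, map_sub, ha, hb, map_pow]
    unfold crs
    rw [coeff_sub, mul_comm, ← mul_assoc, mul_inv_cancel₀ (pow_ne_zero _ H0), one_mul]

end Gen

theorem evE (P Q h : R) (k N : ℕ) (α β : ℂ) (V : Fin 3 → MvPolynomial (Fin (k + 1) ⊕ Fin 3) ℂ)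
    (heq : MvPolynomial.C β * univ (gens P Q h k) ^ (N + 1) =
      ∑ l, (univ (gens P Q h k) * MvPolynomial.pderiv (Sum.inr l) (V l) +
      MvPolynomial.C (α - N) * V l * MvPolynomial.pderiv (Sum.inr l) (univ (gens P Q h k)))) :
    β • (C (emb h) * (C (emb P) + X * C (emb Q)) ^ k) ^ (N + 1) =
      ∑ l, (C (emb h) * (C (emb P) + X * C (emb Q)) ^ k * mapC (dK l) (ev k (V l)) +
      (α - N) • (ev k (V l) * mapC (dK l) (C (emb h) * (C (emb P) + X * C (emb Q)) ^ k))) := by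
  have h1 := congrArg (ev k) heq
  rw [map_mul, map_pow, map_sum] at h1
  have hC : ∀ a : ℂ, ev k (MvPolynomial.C a) = algebraMap ℂ K[X] a := fun a =>
    (ev k).commutes a
  rw [hC, ← Algebra.smul_def] at h1
  rw [← ev_univ, h1]
  refine Finset.sum_congr rfl fun l _ => ?_
  rw [map_add, map_mul, map_mul, map_mul, hC, ev_pderiv, ev_pderiv, Algebra.smul_def]
  ring

theorem evEul (k N D : ℕ) (V : MvPolynomial (Fin (k + 1) ⊕ Fin 3) ℂ)
    (hV : MvPolynomial.IsWeightedHomogeneous (bidegw (Fin (k + 1)) (Fin 3)) V (N, D)) :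
    ∑ j : Fin 3, C (emb (MvPolynomial.X j)) * mapC (dK j) (ev k V) = (D : ℂ) • ev k V := by
  have h1 := congrArg (ev k) (euler k N _ V hV)
  rw [map_sum, map_nsmul, ← Nat.cast_smul_eq_nsmul ℂ] at h1
  refine Eq.trans (Finset.sum_congr rfl fun j _ => ?_) h1
  rw [map_mul, ev_pderiv, ev_X]
  rfl

theorem dK_X (j l : Fin 3) : dK j (emb (MvPolynomial.X l)) = if j = l then 1 else 0 := by
  rw [dK_emb, MvPolynomial.pderiv_X, Pi.single_apply]
  by_cases h : l = j
  · rw [if_pos h, if_pos h.symm, map_one]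
  · rw [if_neg h, if_neg (fun h' => h h'.symm), map_zero]

end PartB

open PartB in
/-- **B**: the 1-form `F ^ (α - N) V × x`, for `F = h (P + T Q) ^ k`. -/
theorem stmB : StmB := by
  intro P Q h e dh k hP hQ hh hk h0 hPQ α β hα N V hV heq
  have hinj : Function.Injective emb := IsFractionRing.injective R K
  have H0 : emb h ≠ 0 := (map_ne_zero_iff _ hinj).2 h0
  have hPQ' : emb P ≠ 0 ∨ emb Q ≠ 0 :=
    hPQ.imp (fun h => (map_ne_zero_iff _ hinj).2 h) (fun h => (map_ne_zero_iff _ hinj).2 h)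
  exact genE emb dK P Q h H0 hPQ' MvPolynomial.X dK_X (fun l => ev k (V l)) dh e k N hk α β hα
    (eulerC hh) (eulerC hP) (eulerC hQ) (fun l => evEul k N _ (V l) (hV l))
    (evE P Q h k N α β V heq) (fun l => ev_deg k N _ (V l) (hV l)) (fun l => ev_coeff k (V l))

end Pool.Agent.N127.PB
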