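import Pool.Agent.N127.PB.Stm

set_option autoImplicit false

/-! # Part C: existence of the decomposition (helper427) -/

namespace Pool.Agent.N127.PB

open Polynomial

section Gen

variable {A : Type*} [CommRing A] [Algebra ℂ A]

/-- a twisted gradient has no twisted curl -/
theorem gradcurl (E : Fin 3 → Derivation ℂ A A) (hE : ∀ l m a, E l (E m a) = E m (E l a))
    (F a : A) (w : Fin 3 → A) (hw : ∀ l m, E l (w m) = E m (w l)) (c : ℂ) (l : Fin 3) :
    F * (curl E (fun m => F * (E m a + w m * a) + c • (a * E m F)) l +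
      crs w (fun m => F * (E m a + w m * a) + c • (a * E m F)) l) +
      (c - 1) • crs (fun m => E m F) (fun m => F * (E m a + w m * a) + c • (a * E m F)) l = 0 := by
  have hs : ∀ (c : ℂ) (y : A), c • y = algebraMap ℂ A c * y := fun c y => Algebra.smul_def c y
  unfold curl crs
  simp only [hs, map_add, Derivation.leibniz, smul_eq_mul, map_sub, map_one,
    Derivation.map_algebraMap, mul_zero, add_zero]
  linear_combination F * F * hE (l + 1) (l + 2) a + F * F * a * hw (l + 1) (l + 2) +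
    F * algebraMap ℂ A c * a * hE (l + 1) (l + 2) F

/-- a common factor -/
theorem fcurl (E : Fin 3 → Derivation ℂ A A) (F : A) (w z : Fin 3 → A) (c : ℂ) (l : Fin 3) :
    F * (curl E (fun m => F * z m) l + crs w (fun m => F * z m) l) +
      (c - 1) • crs (fun m => E m F) (fun m => F * z m) l =
    F * (F * (curl E z l + crs w z l) + c • crs (fun m => E m F) z l) := by
  have hs : ∀ (c : ℂ) (y : A), c • y = algebraMap ℂ A c * y := fun c y => Algebra.smul_def c y
  unfold curl crs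
  simp only [hs, Derivation.leibniz, smul_eq_mul, map_sub, map_one]
  ring

theorem curl_add (E : Fin 3 → Derivation ℂ A A) (y z : Fin 3 → A) (l : Fin 3) :
    curl E (fun m => y m + z m) l = curl E y l + curl E z l := by
  unfold curl
  simp only [map_add]
  ring

theorem crs_add (w y z : Fin 3 → A) (l : Fin 3) :
    crs w (fun m => y m + z m) l = crs w y l + crs w z l := by
  unfold crs
  ring

end Gen

section Fld

variable {𝕜 : Type} [Field 𝕜]

/-- parallel vectors -/
theorem par {θ z : Fin 3 → 𝕜} (h : ∀ l, crs θ z l = 0) {m : Fin 3} (hm : θ m ≠ 0) (l : Fin 3) :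
    z l = z m / θ m * θ l := by
  have h0 := h 0
  have h1 := h 1
  have h2 := h 2
  simp only [crs, Fin.isValue, zero_add, Fin.reduceAdd] at h0 h1 h2
  rw [div_mul_eq_mul_div, eq_div_iff hm]
  fin_cases m <;> fin_cases l <;>
    simp only [Fin.isValue, Fin.zero_eta, Fin.mk_one, Fin.reduceFinMk] <;>
    first
      | rfl
      | linear_combination h0
      | linear_combination h1
      | linear_combination h2
      | linear_combination -h0
      | linear_combination -h1
      | linear_combination -h2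

/-- the coefficients are in `S` -/
def cS (S : Subring 𝕜) (p : 𝕜[X]) : Prop := ∀ n, p.coeff n ∈ S

theorem cS_add {S : Subring 𝕜} {p q : 𝕜[X]} (hp : cS S p) (hq : cS S q) : cS S (p + q) := fun n => by
  rw [coeff_add]; exact S.add_mem (hp n) (hq n)

theorem cS_sub {S : Subring 𝕜} {p q : 𝕜[X]} (hp : cS S p) (hq : cS S q) : cS S (p - q) := fun n => by
  rw [coeff_sub]; exact S.sub_mem (hp n) (hq n)

theorem cS_mul {S : Subring 𝕜} {p q : 𝕜[X]} (hp : cS S p) (hq : cS S q) : cS S (p * q) := fun n => by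
  rw [coeff_mul]; exact S.sum_mem fun x _ => S.mul_mem (hp _) (hq _)

theorem cS_C {S : Subring 𝕜} {a : 𝕜} (ha : a ∈ S) : cS S (C a) := fun n => by
  rw [coeff_C]; split_ifs
  · exact ha
  · exact S.zero_mem

theorem cS_X {S : Subring 𝕜} : cS S (X : 𝕜[X]) := fun n => by
  rw [coeff_X]; split_ifs
  · exact S.one_mem
  · exact S.zero_mem

theorem cS_lin {S : Subring 𝕜} {f₀ f₁ : 𝕜} (h0 : f₀ ∈ S) (h1 : f₁ ∈ S) : cS S (C f₀ + X * C f₁) :=
  cS_add (cS_C h0) (cS_mul cS_X (cS_C h1))

theorem coeff_lin_mul (f₀ f₁ : 𝕜) (q : 𝕜[X]) (n : ℕ) :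
    ((C f₀ + X * C f₁) * q).coeff (n + 1) = f₀ * q.coeff (n + 1) + f₁ * q.coeff n := by
  rw [add_mul, coeff_add, coeff_C_mul, mul_assoc, coeff_X_mul, coeff_C_mul]

theorem cS_div {S : Subring 𝕜} {f₀ f₁ : 𝕜} (h0 : f₀ ∈ S) (hf : f₁ ≠ 0) (h1 : f₁⁻¹ ∈ S) {q : 𝕜[X]}
    (h : cS S ((C f₀ + X * C f₁) * q)) : cS S q := by
  have key : ∀ k n : ℕ, q.natDegree < n + k → q.coeff n ∈ S := by
    intro k
    induction k with
    | zero =>
      intro n hn
      rw [coeff_eq_zero_of_natDegree_lt (by omega)]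
      exact S.zero_mem
    | succ k ih =>
      intro n hn
      have h2 := h (n + 1)
      rw [coeff_lin_mul] at h2
      have h3 := ih (n + 1) (by omega)
      have h4 : q.coeff n = f₁⁻¹ * ((f₀ * q.coeff (n + 1) + f₁ * q.coeff n) - f₀ * q.coeff (n + 1)) := by
        field_simp
        ring
      rw [h4]
      exact S.mul_mem h1 (S.sub_mem h2 (S.mul_mem h0 h3))
  exact fun n => key (q.natDegree + 1) n (by omega)

theorem cS_eval {S : Subring 𝕜} {p : 𝕜[X]} (hp : cS S p) {t : 𝕜} (ht : t ∈ S) : p.eval t ∈ S := by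
  rw [eval_eq_sum_range]
  exact S.sum_mem fun i _ => S.mul_mem (hp i) (S.pow_mem ht i)

theorem lin_eq {f₀ f₁ : 𝕜} (hf : f₁ ≠ 0) : (C f₀ + X * C f₁ : 𝕜[X]) = C f₁ * (X - C (-(f₀ / f₁))) := by
  have e : C f₁ * C (-(f₀ / f₁)) = -(C f₀ : 𝕜[X]) := by
    rw [← C_mul, ← C_neg]
    congr 1
    field_simp
  rw [mul_sub, e]
  ring

theorem lin_deg {f₀ f₁ : 𝕜} (hf : f₁ ≠ 0) : (C f₀ + X * C f₁ : 𝕜[X]).natDegree = 1 := by
  rw [lin_eq hf, natDegree_C_mul hf, natDegree_X_sub_C]

theorem lin_ne {f₀ f₁ : 𝕜} (hf : f₁ ≠ 0) : (C f₀ + X * C f₁ : 𝕜[X]) ≠ 0 := by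
  intro h
  have := lin_deg (f₀ := f₀) hf
  rw [h, natDegree_zero] at this
  exact zero_ne_one this

theorem lin_eval {f₀ f₁ : 𝕜} (hf : f₁ ≠ 0) : (C f₀ + X * C f₁ : 𝕜[X]).eval (-(f₀ / f₁)) = 0 := by
  rw [lin_eq hf]; simp

theorem lin_dvd {f₀ f₁ : 𝕜} (hf : f₁ ≠ 0) {p : 𝕜[X]} (h : p.eval (-(f₀ / f₁)) = 0) :
    ∃ q, p = (C f₀ + X * C f₁) * q := by
  obtain ⟨q, hq⟩ := dvd_iff_isRoot.2 h
  refine ⟨C f₁⁻¹ * q, ?_⟩
  rw [hq, lin_eq hf]
  have e : (C f₁ * C f₁⁻¹ : 𝕜[X]) = 1 := by rw [← C_mul, mul_inv_cancel₀ hf, C_1]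
  linear_combination (-((X - C (-(f₀ / f₁))) * q)) * e

end Fld

theorem stmC : StmC := by
  intro 𝕜 _ _ D hD S hSC hSD w x hwS hw f₀ f₁ hf₀ hf₁ hf hfi θ hθS hθ ρ hρ hρi hρθ γ β hγ M
  obtain ⟨m₀, hm₀, hm₀i⟩ := hθ
  set F : 𝕜[X] := C f₀ + X * C f₁ with hF
  set t : 𝕜 := -(f₀ / f₁) with ht
  have htS : t ∈ S := by
    rw [ht, div_eq_mul_inv]; exact S.neg_mem (S.mul_mem hf₀ hfi)
  have hFS : cS S F := cS_lin hf₀ hf₁
  have hFt : F.eval t = 0 := lin_eval hf
  have hFn : F ≠ 0 := lin_ne hf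
  have hgF : ∀ l, (mapC (D l) F).eval t = ρ * θ l := by
    intro l
    have e : mapC (D l) F = C (D l f₀) + X * C (D l f₁) := by
      rw [hF, map_add, Derivation.leibniz, mapC_C, mapC_C, mapC_X, smul_zero, add_zero, smul_eq_mul]
    rw [e, ← hρθ l, ht]
    simp only [eval_add, eval_mul, eval_X, eval_C]
    ring
  have hmapS : ∀ l p, cS S p → cS S (mapC (D l) p) := fun l p hp n => by
    rw [coeff_mapC]; exact hSD l _ (hp n)
  -- the value at `t` is parallel to `θ`
  have hval : ∀ (M : ℕ) (ζ : Fin 3 → 𝕜[X]), IsEq D w x F γ β M ζ →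
      ∀ l, (ζ l).eval t = (ζ m₀).eval t / θ m₀ * θ l := by
    intro M ζ hζ l
    refine par (θ := θ) (z := fun l => (ζ l).eval t) (fun l => ?_) hm₀ l
    have h1 := congrArg (eval t) (hζ l)
    rw [eval_add, eval_mul, hFt, zero_mul, zero_add, Algebra.smul_def, eval_mul, eval_neg, Algebra.smul_def,
      eval_mul, eval_mul, eval_pow, hFt, zero_pow (Nat.succ_ne_zero M), zero_mul, mul_zero, neg_zero] at h1
    have h2 : (algebraMap ℂ 𝕜[X] (γ - M)).eval t = algebraMap ℂ 𝕜 (γ - M) := by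
      rw [Polynomial.algebraMap_apply, eval_C]
    rw [h2] at h1
    have h3 : algebraMap ℂ 𝕜 (γ - M) ≠ 0 := by
      rw [Ne, FaithfulSMul.algebraMap_eq_zero_iff]
      exact sub_ne_zero.2 (hγ M)
    have h4 := (mul_eq_zero.1 h1).resolve_left h3
    unfold crs at h4 ⊢
    rw [eval_sub, eval_mul, eval_mul, hgF, hgF] at h4
    have h5 : ρ * (θ (l + 1) * (ζ (l + 2)).eval t - θ (l + 2) * (ζ (l + 1)).eval t) = 0 := by
      linear_combination h4
    exact (mul_eq_zero.1 h5).resolve_left hρ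
  induction M with
  | zero =>
    intro ζ hζS hζd hζ
    have hv := hval 0 ζ hζ
    have hC : ∀ l, ζ l = C ((ζ l).eval t) := by
      intro l
      have h1 := eq_C_of_natDegree_le_zero (hζd l)
      rw [h1, eval_C]
    refine ⟨0, (ζ m₀).eval t / θ m₀, ?_, ?_, ?_⟩
    · rw [div_eq_mul_inv]; exact S.mul_mem (cS_eval (hζS m₀) htS) hm₀i
    · rw [degree_zero]; exact WithBot.bot_lt_coe _
    · intro l
      rw [map_zero, mul_zero, add_zero, mul_zero, zero_mul, smul_zero, zero_add, zero_add, pow_zero, mul_one,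
        ← hv l]
      exact hC l
  | succ M ih =>
    intro ζ hζS hζd hζ
    have hv := hval (M + 1) ζ hζ
    set g₀ := (ζ m₀).eval t / θ m₀ with hg₀
    have hg₀S : g₀ ∈ S := by rw [hg₀, div_eq_mul_inv]; exact S.mul_mem (cS_eval (hζS m₀) htS) hm₀i
    have hγM : γ - M ≠ 0 := sub_ne_zero.2 (hγ M)
    set c : ℂ := γ - M with hc
    set a : 𝕜 := algebraMap ℂ 𝕜 c⁻¹ * ρ⁻¹ * g₀ with ha
    have haS : a ∈ S := S.mul_mem (S.mul_mem (hSC _) hρi) hg₀S
    have hca : algebraMap ℂ 𝕜 c * a * ρ = g₀ := by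
      have e1 : algebraMap ℂ 𝕜 c * algebraMap ℂ 𝕜 c⁻¹ = 1 := by
        rw [← map_mul, mul_inv_cancel₀ hγM, map_one]
      have e2 : ρ⁻¹ * ρ = 1 := inv_mul_cancel₀ hρ
      rw [ha]
      linear_combination (ρ⁻¹ * ρ * g₀) * e1 + g₀ * e2
    set W : Fin 3 → 𝕜[X] := fun l => F * (mapC (D l) (C a) + C (w l) * C a) + c • (C a * mapC (D l) F)
      with hW
    have hWS : ∀ l, cS S (W l) := by
      intro l
      refine cS_add (cS_mul hFS (cS_add (hmapS l _ (cS_C haS)) (cS_mul (cS_C (hwS l)) (cS_C haS)))) ?_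
      rw [Algebra.smul_def, Polynomial.algebraMap_apply]
      exact cS_mul (cS_C (hSC c)) (cS_mul (cS_C haS) (hmapS l _ hFS))
    have hWt : ∀ l, (W l).eval t = g₀ * θ l := by
      intro l
      rw [hW]
      simp only
      rw [eval_add, eval_mul, hFt, zero_mul, zero_add, Algebra.smul_def, eval_mul,
        Polynomial.algebraMap_apply, eval_C, eval_mul, eval_C, hgF, ← hca]
      ring
    have hdiv : ∀ l, ∃ q, ζ l - W l = F * q := fun l => lin_dvd hf (by
      rw [eval_sub, hWt, hv l, sub_self])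
    choose ζ₁ hζ₁ using hdiv
    have hζ₁S : ∀ l, cS S (ζ₁ l) := fun l => by
      refine cS_div hf₀ hf hfi ?_
      have := hζ₁ l
      rw [hF] at this
      rw [← this]
      exact cS_sub (hζS l) (hWS l)
    have hWd : ∀ l, (W l).natDegree ≤ M + 1 := by
      intro l
      have d1 : (mapC (D l) F).natDegree ≤ 1 := (natDegree_mapC_le _ _).trans (lin_deg hf).le
      have d2 : F.natDegree = 1 := lin_deg hf
      rw [hW]
      simp only
      refine (natDegree_add_le_of_degree_le (n := 1) ?_ ?_).trans (by omega)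
      · refine natDegree_mul_le.trans ?_
        have d3 : (mapC (D l) (C a) + C (w l) * C a).natDegree = 0 := by
          rw [mapC_C, ← C_mul, ← C_add, natDegree_C]
        rw [d2, d3]
      · refine (natDegree_smul_le _ _).trans ((natDegree_C_mul_le _ _).trans d1)
    have hζ₁d : ∀ l, (ζ₁ l).natDegree ≤ M := by
      intro l
      by_cases h0 : ζ₁ l = 0
      · rw [h0, natDegree_zero]; omega
      · have h1 : (F * ζ₁ l).natDegree = 1 + (ζ₁ l).natDegree := by
          rw [natDegree_mul hFn h0, lin_deg hf]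
        have h2 : (ζ l - W l).natDegree ≤ M + 1 := (natDegree_sub_le_of_le (hζd l) (hWd l)).trans (max_self _).le
        rw [hζ₁ l, h1] at h2
        omega
    have hζeq : ζ = fun l => W l + F * ζ₁ l := by
      funext l
      rw [← hζ₁ l]; ring
    have hcM : (γ - ((M + 1 : ℕ) : ℂ)) = c - 1 := by rw [hc]; push_cast; ring
    have hmc : ∀ l m (p : 𝕜[X]), mapC (D l) (mapC (D m) p) = mapC (D m) (mapC (D l) p) := fun l m p =>
      mapC_comm _ _ (hD l m) p
    have hwc : ∀ l m, mapC (D l) (C (w m)) = mapC (D m) (C (w l)) := fun l m => by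
      rw [mapC_C, mapC_C, hw l m]
    have hζ₁eq : IsEq D w x F γ β M ζ₁ := by
      intro l
      have h1 := hζ l
      have c1 := curl_add (fun m => mapC (D m)) W (fun l => F * ζ₁ l) l
      have c2 := crs_add (fun m => C (w m)) W (fun l => F * ζ₁ l) l
      have c3 := crs_add (fun m => mapC (D m) F) W (fun l => F * ζ₁ l) l
      rw [hcM, hζeq, c1, c2, c3] at h1
      have h2 := gradcurl (fun m => mapC (D m)) hmc F (C a) (fun m => C (w m)) hwc c l
      have h3 := fcurl (fun m => mapC (D m)) F (fun m => C (w m)) ζ₁ c l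
      apply mul_left_cancel₀ hFn
      have h4 : F * (curl (fun m => mapC (D m)) W l + crs (fun m => C (w m)) W l) +
          (c - 1) • crs (fun m => mapC (D m) F) W l = 0 := h2
      have h5 : F * -(β • (F ^ (M + 1) * C (x l))) = -(β • (F ^ (M + 1 + 1) * C (x l))) := by
        simp only [Algebra.smul_def]; ring
      rw [h5, ← h1]
      have h6 : F * (F * (curl (fun m => mapC (D m)) ζ₁ l + crs (fun m => C (w m)) ζ₁ l) +
          (γ - M) • crs (fun m => mapC (D m) F) ζ₁ l) =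
          F * (curl (fun m => mapC (D m)) (fun m => F * ζ₁ m) l + crs (fun m => C (w m)) (fun m => F * ζ₁ m) l) +
      (c - 1) • crs (fun m => mapC (D m) F) (fun m => F * ζ₁ m) l := h3.symm
      rw [h6, smul_add]
      linear_combination -h4
    obtain ⟨A₁, g, hg, hA₁, hdec⟩ := ih ζ₁ hζ₁S hζ₁d hζ₁eq
    refine ⟨C a + F * A₁, g, hg, ?_, ?_⟩
    · have hlt : ((M + 1 : ℕ) : WithBot ℕ) = 1 + (M : WithBot ℕ) := by push_cast; rw [add_comm]
      refine (degree_add_le _ _).trans_lt (max_lt ?_ ?_)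
      · refine degree_C_le.trans_lt ?_
        exact_mod_cast Nat.succ_pos M
      · by_cases h0 : A₁ = 0
        · rw [h0, mul_zero, degree_zero]; exact WithBot.bot_lt_coe _
        · rw [degree_mul, degree_eq_natDegree hFn, lin_deg hf, degree_eq_natDegree h0]
          rw [degree_eq_natDegree h0] at hA₁
          have h1 : A₁.natDegree < M := by exact_mod_cast hA₁
          have h2 : 1 + A₁.natDegree < M + 1 := by omega
          exact_mod_cast h2
    · intro l
      have h1 := hdec l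
      have e1 : (γ - ((M + 1 : ℕ) : ℂ) + 1) = c := by rw [hc]; push_cast; ring
      have e2 : (γ - (M : ℂ) + 1) = c + 1 := by rw [hc]
      have h2 : ζ l = W l + F * ζ₁ l := congrFun hζeq l
      rw [e1, h2, h1, e2, hW]
      have hs : ∀ (c : ℂ) (y : 𝕜[X]), c • y = algebraMap ℂ 𝕜[X] c * y := fun c y => Algebra.smul_def c y
      simp only [hs, map_add, Derivation.leibniz, smul_eq_mul, map_one]
      ring

end Pool.Agent.N127.PB
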