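import Pool.Agent.N127.PB.Stm2

set_option autoImplicit false

/-! # PB/CH: the chain rule for the Jacobian determinant (helper897) -/

namespace Pool.Agent.N127.PB

namespace Chainaux

open MvPolynomial

theorem chain (P Q : R) (G : MvPolynomial (Fin 2) ℂ) (m : Fin 3) :
    pderiv m (aeval ![P, Q] G) =
      aeval ![P, Q] (pderiv 0 G) * pderiv m P + aeval ![P, Q] (pderiv 1 G) * pderiv m Q := by
  induction G using MvPolynomial.induction_on with
  | C a =>
    simp only [aeval_C, pderiv_C, map_zero, zero_mul, add_zero]
    exact Derivation.map_algebraMap _ _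
  | add p q hp hq =>
    simp only [map_add, hp, hq]
    ring
  | mul_X p i hp =>
    rw [map_mul, aeval_X, Derivation.leibniz, hp, Derivation.leibniz, Derivation.leibniz]
    fin_cases i
    · simp only [Fin.zero_eta, Fin.isValue, Matrix.cons_val_zero, smul_eq_mul, pderiv_X_self,
        mul_one, map_add, map_mul, aeval_X]
      have h : pderiv (1 : Fin 2) (X 0 : MvPolynomial (Fin 2) ℂ) = 0 :=
        pderiv_X_of_ne (by decide)
      rw [h]
      simp only [map_zero, mul_zero]
      ring
    · simp only [Fin.mk_one, Fin.isValue, Matrix.cons_val_one, Matrix.cons_val_fin_one, smul_eq_mul, pderiv_X_self,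
        mul_one, map_add, map_mul, aeval_X]
      have h : pderiv (0 : Fin 2) (X 1 : MvPolynomial (Fin 2) ℂ) = 0 :=
        pderiv_X_of_ne (by decide)
      rw [h]
      simp only [map_zero, mul_zero]
      ring

end Chainaux

open MvPolynomial in
/-- CH -/
theorem stmChain : StmChain := by
  intro P Q G G' a
  unfold jac crs
  simp only [Chainaux.chain, Fin.sum_univ_three, Derivation.add_apply, Derivation.smul_apply,
    smul_eq_mul, map_sub, map_mul]
  ring

end Pool.Agent.N127.PB
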