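import Pool.Agent.N127.PB.Stm3

set_option autoImplicit false

/-! # FIN: the local order is finite (helper539) -/

namespace Pool.Agent.N127.PB.Finaux

open MvPolynomial
open Pool.Agent.N127.PB

/-- restriction to the line `t ↦ p + t (q - p)` -/
noncomputable def ln (p q : Fin 3 → ℂ) : R →ₐ[ℂ] Polynomial ℂ :=
  aeval (fun i => Polynomial.C (p i) + Polynomial.X * Polynomial.C (q i - p i))

theorem eval_ln (p q : Fin 3 → ℂ) (t : ℂ) (u : R) :
    (ln p q u).eval t = eval (fun i => p i + t * (q i - p i)) u := by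
  have h : ((Polynomial.evalRingHom t).comp (ln p q : R →+* Polynomial ℂ)) =
      (eval (fun i => p i + t * (q i - p i)) : R →+* ℂ) := by
    refine MvPolynomial.ringHom_ext ?_ ?_
    · intro r
      simp [ln]
    · intro i
      simp [ln]
  exact congrArg (fun f : R →+* ℂ => f u) h

theorem mem_pow {P Q : R} {p : Fin 3 → ℂ} (q : Fin 3 → ℂ) (hP : eval p P = 0) (hQ : eval p Q = 0) (n : ℕ)
    {u : R} (hu : u ∈ idl P Q ^ n) : Polynomial.X ^ n ∣ ln p q u := by
  have h0 : ∀ f : R, eval p f = 0 → Polynomial.X ∣ ln p q f := by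
    intro f hf
    rw [Polynomial.X_dvd_iff, Polynomial.coeff_zero_eq_eval_zero, eval_ln]
    simpa using hf
  have h1 : idl P Q ≤ Ideal.comap (ln p q : R →+* Polynomial ℂ) (Ideal.span {Polynomial.X}) := by
    unfold idl
    rw [Ideal.span_le]
    rintro f hf
    simp only [Set.mem_insert_iff, Set.mem_singleton_iff] at hf
    simp only [SetLike.mem_coe, Ideal.mem_comap, Ideal.mem_span_singleton]
    rcases hf with rfl | rfl
    · exact h0 _ hP
    · exact h0 _ hQ
  have h2 := (Ideal.pow_right_mono h1 n).trans (Ideal.le_comap_pow _ n) hu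
  rw [Ideal.mem_comap, Ideal.span_singleton_pow, Ideal.mem_span_singleton] at h2
  exact h2

end Pool.Agent.N127.PB.Finaux

namespace Pool.Agent.N127.PB

open MvPolynomial

theorem stmFin : StmFin := by
  intro P Q p hP hQ h hh
  obtain ⟨q, hq⟩ : ∃ q : Fin 3 → ℂ, eval q h ≠ 0 := by
    by_contra hc
    push Not at hc
    exact hh (MvPolynomial.funext fun x => by rw [hc x, map_zero])
  have hne : Finaux.ln p q h ≠ 0 := by
    intro h0
    have := Finaux.eval_ln p q 1 h
    rw [h0, Polynomial.eval_zero] at this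
    apply hq
    rw [this]
    congr 2
    funext i
    ring
  refine ⟨(Finaux.ln p q h).natDegree + 1, ?_⟩
  rintro ⟨s, σ, _, hs, hm⟩
  have h1 := Finaux.mem_pow q hP hQ _ hm
  rw [map_mul] at h1
  have h2 : ¬ Polynomial.X ∣ Finaux.ln p q s := by
    rw [Polynomial.X_dvd_iff, Polynomial.coeff_zero_eq_eval_zero, Finaux.eval_ln]
    simpa using hs
  have h3 := Prime.pow_dvd_of_dvd_mul_left Polynomial.prime_X _ h2 h1
  have h4 := Polynomial.natDegree_le_of_dvd h3 hne
  rw [Polynomial.natDegree_X_pow] at h4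
  omega

end Pool.Agent.N127.PB
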