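import Pool.Agent.N127.PB.Stm2

set_option autoImplicit false

/-! # First order equations in the variable `x₀` (helper286) -/

namespace Pool.Agent.N127.PB

open MvPolynomial Pool.Agent.H628R4.TP Pool.Agent.W574.HS

namespace Linesaux

/-- `pderiv 0` is the derivative in `x₀` -/
theorem fsd (f : R) :
    finSuccEquiv ℂ 2 (pderiv 0 f) = Polynomial.derivative (finSuccEquiv ℂ 2 f) := by
  induction f using MvPolynomial.induction_on with
  | C a =>
    have h : finSuccEquiv ℂ 2 (C a) = Polynomial.C (C a) := by simp [finSuccEquiv_apply]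
    rw [pderiv_C, map_zero, h, Polynomial.derivative_C]
  | add p q hp hq => rw [map_add, map_add, map_add, Polynomial.derivative_add, hp, hq]
  | mul_X p i hp =>
    rw [pderiv_mul, map_add, map_mul, map_mul, map_mul, Polynomial.derivative_mul, hp]
    congr 2
    revert i
    refine Fin.cases ?_ fun j => ?_
    · rw [pderiv_X_self, map_one, finSuccEquiv_X_zero, Polynomial.derivative_X]
    · rw [pderiv_X_of_ne (Fin.succ_ne_zero j), map_zero, finSuccEquiv_X_succ,
        Polynomial.derivative_C]

theorem fs_ne {f : R} (hf : f ≠ 0) : finSuccEquiv ℂ 2 f ≠ 0 := by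
  intro h
  apply hf
  exact (finSuccEquiv ℂ 2).injective (h.trans (map_zero _).symm)

theorem deg_zero {f : R} (h : pderiv 0 f = 0) : degreeOf 0 f = 0 := by
  rw [← natDegree_finSuccEquiv]
  apply Polynomial.derivative_eq_zero.1
  rw [← fsd, h, map_zero]

theorem pderiv_zero {f : R} (h : degreeOf 0 f = 0) : pderiv 0 f = 0 := by
  rw [← natDegree_finSuccEquiv] at h
  apply (finSuccEquiv ℂ 2).injective
  rw [fsd, map_zero, Polynomial.eq_C_of_natDegree_eq_zero h, Polynomial.derivative_C]

theorem deg_mul {f g : R} (hf : f ≠ 0) (hg : g ≠ 0) :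
    degreeOf 0 (f * g) = degreeOf 0 f + degreeOf 0 g := by
  rw [← natDegree_finSuccEquiv, ← natDegree_finSuccEquiv, ← natDegree_finSuccEquiv, map_mul,
    Polynomial.natDegree_mul (fs_ne hf) (fs_ne hg)]

theorem deg_dvd {f g : R} (h : f ∣ g) (hg : g ≠ 0) : degreeOf 0 f ≤ degreeOf 0 g := by
  obtain ⟨k, rfl⟩ := h
  rw [deg_mul (left_ne_zero_of_mul hg) (right_ne_zero_of_mul hg)]
  exact Nat.le_add_right _ _

theorem deg_prod (S : Finset R) (h : ∀ H ∈ S, H ≠ 0) :
    degreeOf 0 (∏ H ∈ S, H) = ∑ H ∈ S, degreeOf 0 H := by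
  classical
  induction S using Finset.induction_on with
  | empty =>
    rw [Finset.prod_empty, Finset.sum_empty]
    exact deg_zero (Derivation.map_one_eq_zero _)
  | insert a S ha ih =>
    rw [Finset.prod_insert ha, Finset.sum_insert ha, deg_mul (h a (Finset.mem_insert_self _ _)),
      ih fun H hH => h H (Finset.mem_insert_of_mem hH)]
    exact Finset.prod_ne_zero_iff.2 fun H hH => h H (Finset.mem_insert_of_mem hH)

theorem deg_deriv {f : R} (h : degreeOf 0 f ≠ 0) : degreeOf 0 (pderiv 0 f) < degreeOf 0 f := by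
  rw [← natDegree_finSuccEquiv] at h ⊢
  rw [← natDegree_finSuccEquiv, fsd]
  exact Polynomial.natDegree_derivative_lt h

/-- the comparison of the leading coefficients -/
theorem lead (w h a b : Polynomial (MvPolynomial (Fin 2) ℂ)) (α β : MvPolynomial (Fin 2) ℂ)
    (hw : w ≠ 0) (hh : h ≠ 0) (ha : a ≠ 0) (hw0 : w.natDegree = 0) (hb0 : b.natDegree = 0)
    (hD : 2 ≤ a.natDegree)
    (e : w * (h * Polynomial.derivative a + Polynomial.C α * (a * Polynomial.derivative h)) =
      Polynomial.C β * (h * b)) :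
    (a.natDegree : MvPolynomial (Fin 2) ℂ) + α * (h.natDegree : MvPolynomial (Fin 2) ℂ) = 0 := by
  obtain ⟨D, hDD⟩ : ∃ D, a.natDegree = D + 1 := ⟨a.natDegree - 1, by omega⟩
  obtain ⟨n, hn⟩ : ∃ n, h.natDegree = n := ⟨_, rfl⟩
  have h1 := congrArg (fun p => Polynomial.coeff p (0 + (n + D))) e
  rw [Polynomial.coeff_mul_add_eq_of_natDegree_le (df := 0) (dg := n + D) hw0.le] at h1
  rotate_left
  · refine (Polynomial.natDegree_add_le _ _).trans (max_le ?_ ?_)
    · refine Polynomial.natDegree_mul_le.trans ?_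
      have := Polynomial.natDegree_derivative_le a
      omega
    · refine Polynomial.natDegree_mul_le.trans ?_
      rw [Polynomial.natDegree_C, zero_add]
      by_cases hn0 : n = 0
      · have h2 : Polynomial.derivative h = 0 := by
          rw [Polynomial.eq_C_of_natDegree_eq_zero (hn.trans hn0), Polynomial.derivative_C]
        rw [h2, mul_zero, Polynomial.natDegree_zero]
        exact Nat.zero_le _
      · refine Polynomial.natDegree_mul_le.trans ?_
        have := Polynomial.natDegree_derivative_le h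
        omega
  rw [Polynomial.coeff_add, Polynomial.coeff_C_mul] at h1
  have e1 : (h * Polynomial.derivative a).coeff (n + D) =
      h.coeff n * (a.coeff (D + 1) * ((D : MvPolynomial (Fin 2) ℂ) + 1)) := by
    rw [Polynomial.coeff_mul_add_eq_of_natDegree_le hn.le, Polynomial.coeff_derivative]
    have := Polynomial.natDegree_derivative_le a
    omega
  have e2 : (a * Polynomial.derivative h).coeff (n + D) =
      a.coeff (D + 1) * (h.coeff n * (n : MvPolynomial (Fin 2) ℂ)) := by
    by_cases hn0 : n = 0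
    · have h2 : Polynomial.derivative h = 0 := by
        rw [Polynomial.eq_C_of_natDegree_eq_zero (hn.trans hn0), Polynomial.derivative_C]
      rw [h2, mul_zero, Polynomial.coeff_zero, hn0]
      simp
    · obtain ⟨m, rfl⟩ : ∃ m, n = m + 1 := ⟨n - 1, by omega⟩
      have e3 : m + 1 + D = (D + 1) + m := by omega
      rw [e3, Polynomial.coeff_mul_add_eq_of_natDegree_le hDD.le, Polynomial.coeff_derivative]
      · push_cast
        ring
      · have := Polynomial.natDegree_derivative_le h
        omega
  have e4 : (Polynomial.C β * (h * b)).coeff (0 + (n + D)) = 0 := by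
    rw [Polynomial.coeff_C_mul, Polynomial.coeff_eq_zero_of_natDegree_lt, mul_zero]
    refine (Polynomial.natDegree_mul_le).trans_lt ?_
    omega
  rw [e4, e1, e2] at h1
  have hw1 : w.coeff 0 ≠ 0 := by
    intro h2
    apply hw
    rw [Polynomial.eq_C_of_natDegree_eq_zero hw0, h2, map_zero]
  have hh1 : h.coeff n ≠ 0 := by
    rw [← hn]
    exact Polynomial.leadingCoeff_ne_zero.2 hh
  have ha1 : a.coeff (D + 1) ≠ 0 := by
    rw [← hDD]
    exact Polynomial.leadingCoeff_ne_zero.2 ha
  have h3 : w.coeff 0 * (h.coeff n * (a.coeff (D + 1) *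
      (((D : MvPolynomial (Fin 2) ℂ) + 1) + α * (n : MvPolynomial (Fin 2) ℂ)))) = 0 := by
    rw [← h1]
    ring
  have h4 := (mul_eq_zero.1 h3).resolve_left hw1
  have h5 := (mul_eq_zero.1 h4).resolve_left hh1
  have h6 := (mul_eq_zero.1 h5).resolve_left ha1
  rw [hDD, hn]
  push_cast
  exact h6

end Linesaux

open Linesaux

/-- LINES. -/
theorem stmLines (hloc : StmLoc) : StmLines := by
  classical
  intro W h a b α β hW hh hb hab hβ hα he
  have hβ' : (C β : R) ≠ 0 := by
    intro h0
    exact hβ (C_injective (Fin 3) ℂ (h0.trans (map_zero _).symm))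
  have hrhs : (C β : R) * (h * b ^ 2) ≠ 0 := mul_ne_zero hβ' (mul_ne_zero hh (pow_ne_zero 2 hb))
  have hW0 : W ≠ 0 := by
    rintro rfl
    apply hrhs
    unfold DEq at he
    rw [← he, zero_mul]
  have ha0 : a ≠ 0 := by
    rintro rfl
    apply hrhs
    unfold DEq at he
    rw [← he, map_zero]
    ring
  -- (1)
  have key : ∀ H : R, Irreducible H → (H ∣ h ∨ H ∣ b) → degreeOf 0 H ≠ 0 → H ∣ a := by
    intro H hH hd hdeg
    by_contra hna
    have h1 := hloc (pderiv 0) W h a b α β H he hH hh hb hna hd hα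
    rcases hH.prime.dvd_or_dvd h1 with h2 | h2
    · have h3 := deg_dvd h2 hW0
      rw [deg_zero hW] at h3
      omega
    · have hne : pderiv 0 H ≠ 0 := fun h0 => hdeg (deg_zero h0)
      have h3 := deg_dvd h2 hne
      have h4 := deg_deriv hdeg
      omega
  -- (2)
  have hbd : ∀ c : R, c ∣ b → pderiv 0 c = 0 := by
    intro c
    induction c using WfDvdMonoid.induction_on_irreducible with
    | zero => intro _; exact map_zero _
    | unit u hu =>
      intro _
      apply pderiv_zero
      have h1 := deg_dvd hu.dvd (one_ne_zero (α := R))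
      have h2 : degreeOf 0 (1 : R) = 0 := deg_zero (Derivation.map_one_eq_zero _)
      omega
    | mul c i hc hi ih =>
      intro hd
      have h1 : pderiv 0 i = 0 := by
        apply pderiv_zero
        by_contra hdeg
        have h2 := key i hi (Or.inr ((Dvd.intro _ rfl).trans hd)) hdeg
        exact hi.not_isUnit (hab h2 ((Dvd.intro _ rfl).trans hd))
      rw [pderiv_mul, h1, ih ((Dvd.intro_left _ rfl).trans hd), zero_mul, mul_zero, add_zero]
  have hb1 : pderiv 0 b = 0 := hbd b dvd_rfl
  have he2 : W * (h * pderiv 0 a + C α * (a * pderiv 0 h)) = C β * (h * b) := by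
    have h1 : b * (W * (h * pderiv 0 a + C α * (a * pderiv 0 h))) = b * (C β * (h * b)) := by
      have h2 := he
      unfold DEq at h2
      rw [hb1] at h2
      linear_combination h2
    exact mul_left_cancel₀ hb h1
  refine ⟨degreeOf 0 a, ?_, ?_⟩
  · -- (3)
    intro S hS hS'
    obtain ⟨S₁, hS₁⟩ : ∃ S₁ : Finset R, S₁ = S.filter fun H => degreeOf 0 H ≠ 0 := ⟨_, rfl⟩
    have h1 : ∑ H ∈ S, degreeOf 0 H = ∑ H ∈ S₁, degreeOf 0 H := by
      rw [hS₁, Finset.sum_filter]
      refine Finset.sum_congr rfl fun H _ => ?_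
      split_ifs with h2
      · rfl
      · push Not at h2
        exact h2
    have hmem : ∀ H ∈ S₁, H ∈ S ∧ degreeOf 0 H ≠ 0 := by
      intro H hH
      rw [hS₁, Finset.mem_filter] at hH
      exact hH
    rw [h1, ← deg_prod S₁ fun H hH => (hS H (hmem H hH).1).1.ne_zero]
    refine deg_dvd ?_ ha0
    refine Finset.prod_dvd_of_isRelPrime ?_ ?_
    · intro H hH H' hH' hne
      have g1 := (hS H (hmem H hH).1).1
      have g2 := (hS H' (hmem H' hH').1).1
      change IsRelPrime H H'
      rw [g1.isRelPrime_iff_not_dvd]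
      intro hd
      exact hne (hS' H (hmem H hH).1 H' (hmem H' hH').1 (g1.associated_of_dvd g2 hd))
    · intro H hH
      exact key H (hS H (hmem H hH).1).1 (Or.inl (hS H (hmem H hH).1).2) (hmem H hH).2
  · -- (4)
    by_cases hD : degreeOf 0 a ≤ 1
    · exact Or.inl hD
    right
    have hC : ∀ c : ℂ, finSuccEquiv ℂ 2 (C c) = Polynomial.C (C c) := by
      intro c
      simp [finSuccEquiv_apply]
    have h1 := congrArg (finSuccEquiv ℂ 2) he2
    rw [map_mul, map_add, map_mul, map_mul, map_mul, map_mul, map_mul, fsd, fsd, hC, hC] at h1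
    have h2 := lead _ _ _ _ _ _ (fs_ne hW0) (fs_ne hh) (fs_ne ha0)
      (by rw [natDegree_finSuccEquiv]; exact deg_zero hW)
      (by rw [natDegree_finSuccEquiv]; exact deg_zero hb1)
      (by rw [natDegree_finSuccEquiv]; omega) h1
    rw [natDegree_finSuccEquiv, natDegree_finSuccEquiv] at h2
    apply C_injective (Fin 2) ℂ
    rw [map_zero, map_add, map_mul, map_natCast, map_natCast]
    exact h2

end Pool.Agent.N127.PB
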