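import Pool.Agent.N127.PB.Stm2

set_option autoImplicit false

/-! # Binary forms in `P`, `Q` are nonzerodivisors on the graded ring (helper861) -/

namespace Pool.Agent.N127.PB

open MvPolynomial

namespace GRWaux

variable {P Q : R}

theorem form_add {i : ℕ} {y z : R}
    (hy : ∃ u : ℕ → R, y = ∑ j ∈ Finset.range (i + 1), u j * P ^ (i - j) * Q ^ j)
    (hz : ∃ u : ℕ → R, z = ∑ j ∈ Finset.range (i + 1), u j * P ^ (i - j) * Q ^ j) :
    ∃ u : ℕ → R, y + z = ∑ j ∈ Finset.range (i + 1), u j * P ^ (i - j) * Q ^ j := by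
  obtain ⟨u, rfl⟩ := hy
  obtain ⟨v, rfl⟩ := hz
  refine ⟨fun j => u j + v j, ?_⟩
  rw [← Finset.sum_add_distrib]
  refine Finset.sum_congr rfl fun j _ => ?_
  ring

theorem form_single {i : ℕ} (c : R) {k : ℕ} (hk : k ≤ i) :
    ∃ u : ℕ → R, c * P ^ (i - k) * Q ^ k =
      ∑ j ∈ Finset.range (i + 1), u j * P ^ (i - j) * Q ^ j := by
  refine ⟨fun j => if j = k then c else 0, ?_⟩
  rw [Finset.sum_eq_single k]
  · simp only [if_true]
  · intro j _ hj
    simp only [if_neg hj, zero_mul]
  · intro h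
    exact absurd (Finset.mem_range.2 (by omega)) h

theorem form_zero {i : ℕ} :
    ∃ u : ℕ → R, (0 : R) = ∑ j ∈ Finset.range (i + 1), u j * P ^ (i - j) * Q ^ j :=
  ⟨0, by simp⟩

theorem form_sum {ι : Type*} {i : ℕ} (s : Finset ι) (f : ι → R)
    (h : ∀ x ∈ s, ∃ u : ℕ → R, f x = ∑ j ∈ Finset.range (i + 1), u j * P ^ (i - j) * Q ^ j) :
    ∃ u : ℕ → R, ∑ x ∈ s, f x = ∑ j ∈ Finset.range (i + 1), u j * P ^ (i - j) * Q ^ j := by
  classical
  induction s using Finset.induction_on with
  | empty => rw [Finset.sum_empty]; exact form_zero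
  | insert a s ha ih =>
    rw [Finset.sum_insert ha]
    exact form_add (h a (Finset.mem_insert_self _ _))
      (ih fun x hx => h x (Finset.mem_insert_of_mem hx))

/-- elements of `(P, Q) ^ i` -/
theorem mem_pow (i : ℕ) : ∀ y ∈ idl P Q ^ i,
    ∃ u : ℕ → R, y = ∑ j ∈ Finset.range (i + 1), u j * P ^ (i - j) * Q ^ j := by
  induction i with
  | zero =>
    intro y _
    exact ⟨fun _ => y, by simp⟩
  | succ i ih =>
    intro y hy
    rw [pow_succ'] at hy
    refine Submodule.mul_induction_on hy ?_ fun a b ha hb => form_add ha hb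
    intro m hm n hn
    obtain ⟨a, b, rfl⟩ := Ideal.mem_span_pair.1 hm
    obtain ⟨u, rfl⟩ := ih n hn
    rw [Finset.mul_sum]
    refine form_sum _ _ fun j hj => ?_
    have hj' : j ≤ i := by
      have := Finset.mem_range.1 hj
      omega
    have e1 : (a * P + b * Q) * (u j * P ^ (i - j) * Q ^ j) =
        (a * u j) * P ^ (i + 1 - j) * Q ^ j + (b * u j) * P ^ (i + 1 - (j + 1)) * Q ^ (j + 1) := by
      rw [show i + 1 - (j + 1) = i - j by omega, show i + 1 - j = (i - j) + 1 by omega]
      ring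
    rw [e1]
    exact form_add (form_single _ (by omega)) (form_single _ (by omega))

theorem mono_mem {i j : ℕ} (hj : j ≤ i) : P ^ (i - j) * Q ^ j ∈ idl P Q ^ i := by
  have hP : P ∈ idl P Q := Ideal.subset_span (by simp)
  have hQ : Q ∈ idl P Q := Ideal.subset_span (by simp)
  have h := Ideal.mul_mem_mul (Ideal.pow_mem_pow hP (i - j)) (Ideal.pow_mem_pow hQ j)
  rwa [← pow_add, show i - j + j = i by omega] at h

/-- the exponents of the binary forms -/
noncomputable def ex (r s : ℕ) : Fin 2 →₀ ℕ := Finsupp.single 0 (r - s) + Finsupp.single 1 s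

theorem ex_zero (r s : ℕ) : ex r s 0 = r - s := by simp [ex]

theorem ex_one (r s : ℕ) : ex r s 1 = s := by simp [ex]

theorem eq_ex {r : ℕ} {m : Fin 2 →₀ ℕ} (h : m 0 + m 1 = r) : ex r (m 1) = m := by
  ext k
  fin_cases k
  · change ex r (m 1) 0 = m 0
    rw [ex_zero]
    omega
  · exact ex_one _ _

theorem hom_supp {w : MvPolynomial (Fin 2) ℂ} {r : ℕ} (hw : w.IsHomogeneous r) {m : Fin 2 →₀ ℕ}
    (hm : w.coeff m ≠ 0) : m 0 + m 1 = r := by
  have h := hw hm
  rw [Finsupp.weight_apply, Finsupp.sum_fintype _ _ (fun _ => by simp)] at h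
  simpa [Fin.sum_univ_two] using h

theorem aeval_form {w : MvPolynomial (Fin 2) ℂ} {r : ℕ} (hw : w.IsHomogeneous r) :
    aeval ![P, Q] w = ∑ s ∈ Finset.range (r + 1), C (w.coeff (ex r s)) * P ^ (r - s) * Q ^ s := by
  classical
  rw [aeval_def, eval₂_eq']
  have hinj : ∀ x ∈ Finset.range (r + 1), ∀ y ∈ Finset.range (r + 1), ex r x = ex r y → x = y := by
    intro x _ y _ hxy
    rw [← ex_one r x, ← ex_one r y, hxy]
  have h1 : ∑ s ∈ Finset.range (r + 1), C (w.coeff (ex r s)) * P ^ (r - s) * Q ^ s =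
      ∑ m ∈ (Finset.range (r + 1)).image (ex r), (algebraMap ℂ R) (w.coeff m) * ∏ k, ![P, Q] k ^ m k := by
    rw [Finset.sum_image hinj]
    refine Finset.sum_congr rfl fun s _ => ?_
    rw [Fin.prod_univ_two, ex_zero, ex_one, MvPolynomial.algebraMap_eq, mul_assoc]
    rfl
  rw [h1]
  refine Finset.sum_subset ?_ ?_
  · intro m hm
    have h2 := hom_supp hw (mem_support_iff.1 hm)
    exact Finset.mem_image.2 ⟨m 1, Finset.mem_range.2 (by omega), eq_ex h2⟩
  · intro m _ hm
    rw [notMem_support_iff.1 hm, map_zero, zero_mul]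

end GRWaux

open GRWaux

theorem stmGRW (hqr : StmQR) : StmGRW := by
  classical
  intro P Q hPQ w r hw hw0 i y hy hprod
  obtain ⟨u, rfl⟩ := mem_pow i y hy
  -- the least exponent
  have hex : ∃ s, w.coeff (ex r s) ≠ 0 := by
    by_contra hcon
    push Not at hcon
    apply hw0
    ext m
    rw [coeff_zero]
    by_contra hm
    have h2 := hom_supp hw hm
    exact hm (by rw [← eq_ex h2]; exact hcon _)
  obtain ⟨s0, hs0, hmin⟩ : ∃ s0, w.coeff (ex r s0) ≠ 0 ∧ ∀ s < s0, w.coeff (ex r s) = 0 :=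
    ⟨Nat.find hex, Nat.find_spec hex, fun s hs => not_not.1 (Nat.find_min hex hs)⟩
  have hs0r : s0 ≤ r := by
    have h2 := hom_supp hw hs0
    rw [ex_one] at h2
    omega
  -- the product
  set c : ℕ → R := fun l => ∑ x ∈ (Finset.range (r + 1) ×ˢ Finset.range (i + 1)).filter
    (fun x => x.1 + x.2 = l), C (w.coeff (ex r x.1)) * u x.2 with hc
  have hmul : aeval ![P, Q] w * ∑ j ∈ Finset.range (i + 1), u j * P ^ (i - j) * Q ^ j =
      ∑ l ∈ Finset.range (i + r + 1), c l * P ^ (i + r - l) * Q ^ l := by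
    rw [aeval_form hw, Finset.sum_mul_sum, ← Finset.sum_product',
      ← Finset.sum_fiberwise_of_maps_to (g := fun x : ℕ × ℕ => x.1 + x.2)
        (t := Finset.range (i + r + 1))]
    · refine Finset.sum_congr rfl fun l _ => ?_
      rw [hc]
      simp only
      rw [Finset.sum_mul, Finset.sum_mul]
      refine Finset.sum_congr rfl fun x hx => ?_
      obtain ⟨hx1, hx2⟩ := Finset.mem_filter.1 hx
      obtain ⟨hx3, hx4⟩ := Finset.mem_product.1 hx1
      have h3 := Finset.mem_range.1 hx3
      have h4 := Finset.mem_range.1 hx4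
      rw [← hx2, show i + r - (x.1 + x.2) = (r - x.1) + (i - x.2) by omega, pow_add, pow_add]
      ring
    · intro x hx
      obtain ⟨hx3, hx4⟩ := Finset.mem_product.1 hx
      have h3 := Finset.mem_range.1 hx3
      have h4 := Finset.mem_range.1 hx4
      exact Finset.mem_range.2 (by omega)
  rw [hmul, show i + 1 + r = i + r + 1 by omega] at hprod
  have hcI := hqr P Q hPQ (i + r) c hprod
  -- all coefficients are in the ideal
  have hu : ∀ j, j ≤ i → u j ∈ idl P Q := by
    intro j
    induction j using Nat.strong_induction_on with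
    | _ j ih =>
      intro hj
      have h1 := hcI (j + s0) (by omega)
      have hmem : (s0, j) ∈ (Finset.range (r + 1) ×ˢ Finset.range (i + 1)).filter
          (fun x => x.1 + x.2 = j + s0) :=
        Finset.mem_filter.2 ⟨Finset.mem_product.2 ⟨Finset.mem_range.2 (by omega),
          Finset.mem_range.2 (by omega)⟩, add_comm _ _⟩
      rw [hc] at h1
      simp only at h1
      rw [← Finset.add_sum_erase _ _ hmem] at h1
      have h2 : ∑ x ∈ ((Finset.range (r + 1) ×ˢ Finset.range (i + 1)).filter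
          (fun x => x.1 + x.2 = j + s0)).erase (s0, j), C (w.coeff (ex r x.1)) * u x.2 ∈
          idl P Q := by
        refine Ideal.sum_mem _ fun x hx => ?_
        obtain ⟨hx0, hx⟩ := Finset.mem_erase.1 hx
        obtain ⟨hx1, hx2⟩ := Finset.mem_filter.1 hx
        obtain ⟨hx3, hx4⟩ := Finset.mem_product.1 hx1
        have h4 := Finset.mem_range.1 hx4
        rcases lt_trichotomy x.1 s0 with hlt | heq | hgt
        · rw [hmin _ hlt, C_0, zero_mul]
          exact Ideal.zero_mem _
        · exact absurd (Prod.ext heq (by simp only; omega)) hx0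
        · exact Ideal.mul_mem_left _ _ (ih x.2 (by omega) (by omega))
      have h3 : C (w.coeff (ex r s0)) * u j ∈ idl P Q := (Ideal.add_mem_iff_left _ h2).1 h1
      have h4 : u j = C (w.coeff (ex r s0))⁻¹ * (C (w.coeff (ex r s0)) * u j) := by
        rw [← mul_assoc, ← C_mul, inv_mul_cancel₀ hs0, C_1, one_mul]
      rw [h4]
      exact Ideal.mul_mem_left _ _ h3
  refine Ideal.sum_mem _ fun j hj => ?_
  have hj' : j ≤ i := by
    have := Finset.mem_range.1 hj
    omega
  rw [mul_assoc, pow_succ']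
  exact Ideal.mul_mem_mul (hu j hj') (mono_mem hj')

end Pool.Agent.N127.PB
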