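import Pool.Agent.N127.PB.Stm2

set_option autoImplicit false

/-! # Statements of the pieces, third part -/

namespace Pool.Agent.N127.PB

open MvPolynomial

/-- `u` lies in `(P, Q) ^ n` locally at the point `p` -/
def OO (P Q : R) (p : Fin 3 → ℂ) (n : ℕ) (u : R) : Prop :=
  ∃ (s : R) (σ : ℕ), s.IsHomogeneous σ ∧ eval p s ≠ 0 ∧ s * u ∈ idl P Q ^ n

/-- VAL: the local order at a transversal base point is a valuation -/
def StmVal : Prop := ∀ (P Q : R) (e : ℕ), 0 < e → P.IsHomogeneous e → Q.IsHomogeneous e →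
  IsRelPrime P Q → ∀ p : Fin 3 → ℂ, p ≠ 0 → eval p P = 0 → eval p Q = 0 →
  (∃ l, eval p (crs (fun m => pderiv m P) (fun m => pderiv m Q) l) ≠ 0) →
  ∀ (u v : R) (Du Dv n m : ℕ), u.IsHomogeneous Du → v.IsHomogeneous Dv →
  OO P Q p n u → ¬ OO P Q p (n + 1) u → OO P Q p m v → ¬ OO P Q p (m + 1) v →
  ¬ OO P Q p (n + m + 1) (u * v)

/-- SATP: from local to global -/
def StmSatPow : Prop := ∀ (P Q : R) (e : ℕ), 0 < e → P.IsHomogeneous e → Q.IsHomogeneous e →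
  GoodBase P Q 1 → ∀ (n : ℕ) (a : R), (∀ p : Fin 3 → ℂ, p ≠ 0 → eval p P = 0 → eval p Q = 0 →
    ∃ s : R, eval p s ≠ 0 ∧ s * a ∈ idl P Q ^ n) → a ∈ idl P Q ^ n

/-- FIN: the local order is finite -/
def StmFin : Prop := ∀ (P Q : R) (p : Fin 3 → ℂ), eval p P = 0 → eval p Q = 0 →
  ∀ h : R, h ≠ 0 → ∃ n, ¬ OO P Q p n h

end Pool.Agent.N127.PB
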