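import Pool.Agent.N127.PB.RFin
import Pool.Agent.N127.PB.Stm3
import Pool.Agent.N127.PB.GRW

set_option autoImplicit false

/-! # Pencils with transversal base points and arbitrary forms `h` -/

namespace Pool.Agent.N127.PB

open MvPolynomial

namespace RPlus

open RFin

variable {P Q : R} {p : Fin 3 → ℂ}

theorem OO_of_mem {n : ℕ} {u : R} (h : u ∈ idl P Q ^ n) : OO P Q p n u :=
  ⟨1, 0, isHomogeneous_one _ _, by rw [map_one]; exact one_ne_zero, by rwa [one_mul]⟩

theorem OO_zero (u : R) : OO P Q p 0 u :=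
  OO_of_mem (by rw [pow_zero, Ideal.one_eq_top]; exact Submodule.mem_top)

theorem OO_mul_left {n : ℕ} {u : R} (c : R) (h : OO P Q p n u) : OO P Q p n (c * u) := by
  obtain ⟨s, σ, hs, hs0, hm⟩ := h
  refine ⟨s, σ, hs, hs0, ?_⟩
  rw [mul_left_comm]
  exact Ideal.mul_mem_left _ _ hm

theorem OO_add {n : ℕ} {u v : R} (h : OO P Q p n u) (h' : OO P Q p n v) :
    OO P Q p n (u + v) := by
  obtain ⟨s, σ, hs, hs0, hm⟩ := h
  obtain ⟨t, τ, ht, ht0, hm'⟩ := h'
  refine ⟨s * t, σ + τ, hs.mul ht, by rw [map_mul]; exact mul_ne_zero hs0 ht0, ?_⟩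
  have e1 : s * t * (u + v) = t * (s * u) + s * (t * v) := by ring
  rw [e1]
  exact Ideal.add_mem _ (Ideal.mul_mem_left _ _ hm) (Ideal.mul_mem_left _ _ hm')

theorem OO_neg {n : ℕ} {u : R} (h : OO P Q p n u) : OO P Q p n (-u) := by
  rw [← neg_one_mul]; exact OO_mul_left _ h

theorem OO_sub {n : ℕ} {u v : R} (h : OO P Q p n u) (h' : OO P Q p n v) :
    OO P Q p n (u - v) := by
  rw [sub_eq_add_neg]; exact OO_add h (OO_neg h')

theorem OO_mono {n m : ℕ} (hnm : n ≤ m) {u : R} (h : OO P Q p m u) : OO P Q p n u := by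
  obtain ⟨s, σ, hs, hs0, hm⟩ := h
  exact ⟨s, σ, hs, hs0, Ideal.pow_le_pow_right hnm hm⟩

theorem OO_mul {n m : ℕ} {u v : R} (h : OO P Q p n u) (h' : OO P Q p m v) :
    OO P Q p (n + m) (u * v) := by
  obtain ⟨s, σ, hs, hs0, hm⟩ := h
  obtain ⟨t, τ, ht, ht0, hm'⟩ := h'
  refine ⟨s * t, σ + τ, hs.mul ht, by rw [map_mul]; exact mul_ne_zero hs0 ht0, ?_⟩
  have e1 : s * t * (u * v) = (s * u) * (t * v) := by ring
  rw [e1, pow_add]
  exact Ideal.mul_mem_mul hm hm'

theorem eval_idl (hP : eval p P = 0) (hQ : eval p Q = 0) {u : R} (h : u ∈ idl P Q) :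
    eval p u = 0 := by
  rw [idl, Ideal.mem_span_pair] at h
  obtain ⟨a, b, rfl⟩ := h
  rw [map_add, map_mul, map_mul, hP, hQ, mul_zero, mul_zero, add_zero]

theorem not_OO_one (hP : eval p P = 0) (hQ : eval p Q = 0) {u : R} (hu : eval p u ≠ 0) :
    ¬ OO P Q p 1 u := by
  rintro ⟨s, σ, hs, hs0, hm⟩
  rw [pow_one] at hm
  have h1 := eval_idl hP hQ hm
  rw [map_mul] at h1
  exact mul_ne_zero hs0 hu h1

theorem not_OO_form (hgrw : StmGRW) (hrel : IsRelPrime P Q) (hP : eval p P = 0)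
    (hQ : eval p Q = 0) (w : MvPolynomial (Fin 2) ℂ) (r : ℕ) (hw : w.IsHomogeneous r)
    (hw0 : w ≠ 0) : ¬ OO P Q p (r + 1) (aeval ![P, Q] w) := by
  rintro ⟨s, σ, hs, hs0, hm⟩
  have h1 := hgrw P Q hrel w r hw hw0 0 s (by rw [pow_zero, Ideal.one_eq_top]; exact
    Submodule.mem_top) (by rw [mul_comm]; rw [show 0 + 1 + r = r + 1 by omega]; exact hm)
  rw [zero_add, pow_one] at h1
  exact hs0 (eval_idl hP hQ h1)

/-- the local version of Euler's relation -/
theorem OO_eul {e : ℕ} (hPh : P.IsHomogeneous e) (hQh : Q.IsHomogeneous e) (i D : ℕ) (a : R)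
    (ha : OO P Q p i a) (hD : a.IsHomogeneous D) (l : Fin 3) :
    OO P Q p (i + 1) (X l * jac P Q a - C ((D : ℂ) - e * i) *
      (crs (fun m => pderiv m P) (fun m => pderiv m Q) l * a)) := by
  obtain ⟨s, σ, hs, hs0, hm⟩ := ha
  refine ⟨s * s, σ + σ, hs.mul hs, by rw [map_mul]; exact mul_ne_zero hs0 hs0, ?_⟩
  have e1 := stmEul P Q e hPh hQh i (σ + D) (s * a) hm (hs.mul hD) l
  have e2 := stmEul P Q e hPh hQh 0 σ s (by rw [pow_zero, Ideal.one_eq_top]; exact
    Submodule.mem_top) hs l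
  rw [zero_add, pow_one, Nat.cast_zero, mul_zero, sub_zero] at e2
  set n : R := crs (fun m => pderiv m P) (fun m => pderiv m Q) l with hn
  have h1 : s * s * (X l * jac P Q a - C ((D : ℂ) - e * i) * (n * a)) =
      s * (X l * jac P Q (s * a) - C (((σ + D : ℕ) : ℂ) - e * i) * (n * (s * a))) -
        (s * a) * (X l * jac P Q s - C (σ : ℂ) * (n * s)) := by
    rw [Derivation.leibniz, smul_eq_mul, smul_eq_mul]
    have h2 : (C (((σ + D : ℕ) : ℂ) - e * i) : R) = C (σ : ℂ) + C ((D : ℂ) - e * i) := by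
      rw [← C_add]; congr 1; push_cast; ring
    rw [h2]
    ring
  rw [h1]
  refine Ideal.sub_mem _ (Ideal.mul_mem_left _ _ e1) ?_
  rw [pow_succ]
  exact Ideal.mul_mem_mul hm e2

/-- the numbers are not zero -/
theorem kap_ne2 (e dh k j ν : ℕ) (he : 2 ≤ e) (hk : 0 < k) (hj : 0 < j)
    (hres : 2 ≤ j ∨ 3 * (k + ν) ≠ dh + k * e) (α : ℂ)
    (hα : α * ((dh + k * e : ℕ) : ℂ) = -3) :
    ((e * j + 3 : ℕ) : ℂ) - 2 * e + α * (dh - e * ν) ≠ 0 := by
  intro h0
  have h1 : (((e * j + 3 : ℕ) : ℂ) - 2 * e) * ((dh + k * e : ℕ) : ℂ) = 3 * (dh - e * ν) := by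
    have := congrArg (fun z => z * ((dh + k * e : ℕ) : ℂ)) h0
    simp only [zero_mul, add_mul] at this
    linear_combination this - ((dh : ℂ) - e * ν) * hα
  have h2 : ((e * j + 3 : ℤ) - 2 * e) * (dh + k * e) = 3 * (dh - e * ν) := by
    have : (((((e * j + 3 : ℤ) - 2 * e) * (dh + k * e) : ℤ)) : ℂ) =
        ((3 * (dh - e * ν) : ℤ) : ℂ) := by
      push_cast at h1 ⊢
      exact h1
    exact_mod_cast this
  have h4 : (0 : ℤ) < k * e := by positivity
  have h5 : (0 : ℤ) ≤ dh := by positivity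
  have h6 : (0 : ℤ) ≤ e * ν := by positivity
  rcases Nat.lt_or_ge 1 j with hj2 | hj1
  · have h3 : (3 : ℤ) ≤ (e * j + 3 : ℤ) - 2 * e := by
      have : (2 : ℤ) ≤ j := by exact_mod_cast hj2
      nlinarith
    nlinarith
  · have hj1' : j = 1 := by omega
    subst hj1'
    have hr := hres.resolve_left (by omega)
    apply hr
    have he0 : (e : ℤ) ≠ 0 := by positivity
    have h3 : (e : ℤ) * (3 * (k + ν) - (dh + k * e)) = 0 := by
      push_cast at h2
      linear_combination h2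
    have h7 := (mul_eq_zero.1 h3).resolve_left he0
    have h8 : (3 * (k + ν) : ℤ) = dh + k * e := by linarith
    exact_mod_cast h8

/-- the local step -/
theorem local_step (hgrw : StmGRW) (hval : StmVal) (hfin : StmFin) (P Q h a c : R)
    (w Φ : MvPolynomial (Fin 2) ℂ) (e dh k r m D : ℕ) (he : 2 ≤ e) (hk : 0 < k)
    (hP : P.IsHomogeneous e)
    (hQ : Q.IsHomogeneous e) (hh : h.IsHomogeneous dh) (hrel : IsRelPrime P Q)
    (hw : w.IsHomogeneous r) (hw0 : w ≠ 0) (hΦ : Φ.IsHomogeneous m) (hc : c = aeval ![P, Q] Φ)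
    (hh0 : h ≠ 0) (α β : ℂ) (hα : α * ((dh + k * e : ℕ) : ℂ) = -3)
    (ha : a.IsHomogeneous D) (hD : e * r + D + 2 * e = e * m + 3)
    (hE : aeval ![P, Q] w * (h * jac P Q a + C α * (a * jac P Q h)) = C β * (h * c))
    (M : ℕ) (hM : M + r ≤ m)
    (p : Fin 3 → ℂ) (hcond : M + r + 1 ≤ m ∨ ∀ ν : ℕ, OO P Q p ν h → ¬ OO P Q p (ν + 1) h →
      3 * (k + ν) ≠ dh + k * e)
    (hp0 : p ≠ 0) (hpP : eval p P = 0) (hpQ : eval p Q = 0)
    (hpn : ∃ l, eval p (crs (fun m => pderiv m P) (fun m => pderiv m Q) l) ≠ 0) :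
    ∀ i, i ≤ M → OO P Q p i a := by
  classical
  intro i
  induction i with
  | zero => intro _; exact OO_zero a
  | succ i ih =>
    intro hi
    have hai := ih (by omega)
    by_contra hcon
    -- the order of `h`
    obtain ⟨ν, hν, hν'⟩ : ∃ ν, OO P Q p ν h ∧ ¬ OO P Q p (ν + 1) h := by
      have hex := hfin P Q p hpP hpQ h hh0
      have h1 := Nat.find_spec hex
      have h2 : Nat.find hex ≠ 0 := by
        intro h0
        rw [h0] at h1
        exact h1 (OO_zero h)
      refine ⟨Nat.find hex - 1, ?_, ?_⟩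
      · have := Nat.find_min hex (m := Nat.find hex - 1) (by omega)
        rwa [not_not] at this
      · rw [Nat.sub_add_cancel (by omega)]
        exact h1
    obtain ⟨l, hl⟩ := hpn
    set n : R := crs (fun m => pderiv m P) (fun m => pderiv m Q) l with hn
    have hnh : n.IsHomogeneous ((e - 1) + (e - 1)) :=
      (hP.pderiv.mul hQ.pderiv).sub (hP.pderiv.mul hQ.pderiv)
    set κ : ℂ := ((D : ℂ) - e * i) + α * (dh - e * ν) with hκ
    have hκ0 : κ ≠ 0 := by
      have h1 := kap_ne2 e dh k (m - r - i) ν he hk (by omega) (by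
        rcases hcond with h | h
        · exact Or.inl (by omega)
        · exact Or.inr (h ν hν hν')) α hα
      have h2 : ((e * (m - r - i) + 3 : ℕ) : ℂ) = (D : ℂ) + 2 * e - e * i := by
        have h3 : e * (m - r - i) + 3 + e * i = D + 2 * e := by
          have h4 : e * (m - r - i) + e * i + e * r = e * m := by
            rw [← mul_add, ← mul_add]; congr 1; omega
          omega
        have h5 : ((e * (m - r - i) + 3 + e * i : ℕ) : ℂ) = ((D + 2 * e : ℕ) : ℂ) := by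
          rw [h3]
        push_cast at h5 ⊢
        linear_combination h5
      rw [h2] at h1
      intro h0
      apply h1
      rw [← h0, hκ]
      ring
    have e1 := OO_eul (p := p) hP hQ i D a hai ha l
    have e2 := OO_eul (p := p) hP hQ ν dh h hν hh l
    rw [← hn] at e1 e2
    have hdiff : OO P Q p (i + ν + 1)
        (X l * (h * jac P Q a + C α * (a * jac P Q h)) - C κ * (n * h * a)) := by
      have h1 : X l * (h * jac P Q a + C α * (a * jac P Q h)) - C κ * (n * h * a) =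
          h * (X l * jac P Q a - C ((D : ℂ) - e * i) * (n * a)) +
            C α * (a * (X l * jac P Q h - C ((dh : ℂ) - e * ν) * (n * h))) := by
        rw [hκ, C_add, C_mul]
        ring
      rw [h1]
      refine OO_add ?_ (OO_mul_left _ ?_)
      · have := OO_mul hν e1
        rwa [show ν + (i + 1) = i + ν + 1 by omega] at this
      · have := OO_mul hai e2
        rwa [show i + (ν + 1) = i + ν + 1 by omega] at this
    have hprod : OO P Q p (r + (i + ν + 1)) (aeval ![P, Q] w * (C κ * (n * h * a))) := by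
      have h1 : aeval ![P, Q] w * (C κ * (n * h * a)) =
          C β * (X l * (h * c)) - aeval ![P, Q] w * (X l * (h * jac P Q a +
            C α * (a * jac P Q h)) - C κ * (n * h * a)) := by
        linear_combination (X l) * hE
      rw [h1]
      refine OO_sub (OO_mul_left _ (OO_mul_left _ ?_)) ?_
      · have h2 : OO P Q p m c := by rw [hc]; exact OO_of_mem (aeval_mem P Q Φ m hΦ)
        exact OO_mono (by omega) (OO_mul hν h2)
      · exact OO_mul (OO_of_mem (aeval_mem P Q w r hw)) hdiff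
    have hprod2 : OO P Q p (r + (0 + (ν + i)) + 1) (aeval ![P, Q] w * (n * (h * a))) := by
      have h1 : aeval ![P, Q] w * (n * (h * a)) = C κ⁻¹ * (aeval ![P, Q] w *
          (C κ * (n * h * a))) := by
        have h2 : (C κ⁻¹ : R) * C κ = 1 := by rw [← C_mul, inv_mul_cancel₀ hκ0, C_1]
        linear_combination (-(aeval ![P, Q] w * (n * (h * a)))) * h2
      rw [h1]
      exact OO_mono (by omega) (OO_mul_left _ hprod)
    have v1 := hval P Q e (by omega) hP hQ hrel p hp0 hpP hpQ ⟨l, hl⟩ h a dh D ν i hh ha hν hν'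
      hai hcon
    have v2 := hval P Q e (by omega) hP hQ hrel p hp0 hpP hpQ ⟨l, hl⟩ n (h * a) _ (dh + D) 0
      (ν + i) hnh (hh.mul ha) (OO_zero n) (not_OO_one hpP hpQ hl) (OO_mul hν hai) v1
    have v3 := hval P Q e (by omega) hP hQ hrel p hp0 hpP hpQ ⟨l, hl⟩ (aeval ![P, Q] w)
      (n * (h * a)) (e * r) _ r (0 + (ν + i)) (aeval_homog P Q e hP hQ w r hw)
      (hnh.mul (hh.mul ha)) (OO_of_mem (aeval_mem P Q w r hw))
      (not_OO_form hgrw hrel hpP hpQ w r hw hw0) (OO_mul (OO_zero n) (OO_mul hν hai)) v2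
    exact v3 hprod2

/-- the elements of `(P, Q) ^ M` of the smallest degree -/
theorem form_of_mem (P Q : R) (e : ℕ) (hP : P.IsHomogeneous e) (hQ : Q.IsHomogeneous e) (M : ℕ)
    (a : R) (ha : a ∈ idl P Q ^ M) (hah : a.IsHomogeneous (e * M)) :
    ∃ Ψ : MvPolynomial (Fin 2) ℂ, Ψ.IsHomogeneous M ∧ a = aeval ![P, Q] Ψ := by
  obtain ⟨u, hu⟩ := GRWaux.mem_pow M a ha
  refine ⟨∑ j ∈ Finset.range (M + 1), C (coeff 0 (u j)) * (X 0 ^ (M - j) * X 1 ^ j), ?_, ?_⟩
  · refine IsHomogeneous.sum _ _ _ fun j hj => ?_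
    have h1 : (C (coeff 0 (u j)) * (X 0 ^ (M - j) * X 1 ^ j) :
        MvPolynomial (Fin 2) ℂ).IsHomogeneous (0 + ((M - j) + j)) :=
      (isHomogeneous_C _ _).mul ((isHomogeneous_X_pow _ _).mul (isHomogeneous_X_pow _ _))
    have h2 : j ≤ M := by rw [Finset.mem_range] at hj; omega
    rw [zero_add, Nat.sub_add_cancel h2] at h1
    exact h1
  · have h0 : homogeneousComponent (e * M) a = a := by
      rw [homogeneousComponent_of_mem hah, if_pos rfl]
    rw [← h0, hu, map_sum, map_sum]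
    refine Finset.sum_congr rfl fun j hj => ?_
    have h2 : j ≤ M := by rw [Finset.mem_range] at hj; omega
    have h3 : (P ^ (M - j) * Q ^ j).IsHomogeneous (e * M) := by
      have := (hP.pow (M - j)).mul (hQ.pow j)
      rwa [← mul_add, Nat.sub_add_cancel h2] at this
    have h4 := comp_mul h3 (u j) 0
    rw [add_zero, homogeneousComponent_zero] at h4
    rw [show u j * P ^ (M - j) * Q ^ j = P ^ (M - j) * Q ^ j * u j by ring, h4]
    simp only [map_mul, map_pow, aeval_X, algHom_C, Matrix.cons_val_zero, Matrix.cons_val_one]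
    rw [algebraMap_eq]
    ring

/-- **There is no solution**, for arbitrary forms `h`. -/
theorem no_sol_plus (hgrw : StmGRW) (hval : StmVal) (hsatp : StmSatPow) (hfin : StmFin)
    (P Q h a b : R) (w : MvPolynomial (Fin 2) ℂ)
    (e dh k r : ℕ) (he : 2 ≤ e) (hk : 0 < k) (hP : P.IsHomogeneous e)
    (hQ : Q.IsHomogeneous e) (hh : h.IsHomogeneous dh) (hgood : GoodBase P Q 1)
    (hw : w.IsHomogeneous r) (hw0 : w ≠ 0) (hh0 : h ≠ 0) (hb : b ≠ 0) (hab : IsRelPrime a b)
    (α β : ℂ) (hβ : β ≠ 0) (hα : α * ((dh + k * e : ℕ) : ℂ) = -3)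
    (hne : ∀ n i : ℕ, 0 < n → α * n ≠ i)
    (hcond : 3 ≤ e ∨ ∀ ν : ℕ, 3 * (k + ν) ≠ dh + k * e)
    (hE : DEq (jac P Q) (aeval ![P, Q] w) h a b α β) : False := by
  classical
  obtain ⟨hrel, -⟩ := stmSat stmQR P Q 1 e 0 (by omega) hP hQ (isHomogeneous_one _ _) hgood
  obtain ⟨m, D, Ψ, a', hΨ, hc0, ha', hD, hE'⟩ := reduce hgrw P Q h a b w e dh r he hP hQ hh hrel
    hw hw0 hh0 hb hab α β hβ hne hE
  have hrm : r + 1 ≤ m := by
    by_contra hlt
    push Not at hlt
    have : e * m ≤ e * r := Nat.mul_le_mul_left e (by omega)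
    omega
  -- `a'` is not zero
  have ha'0 : a' ≠ 0 := by
    intro ha0
    rw [ha0, map_zero, mul_zero, zero_mul, mul_zero, add_zero, mul_zero] at hE'
    rcases mul_eq_zero.1 hE'.symm with h1 | h1
    · exact hβ (C_eq_zero.1 h1)
    · rcases mul_eq_zero.1 h1 with h2 | h2
      · exact hh0 h2
      · exact hc0 h2
  have hstep : ∀ (M : ℕ), M + r ≤ m → (M + r + 1 ≤ m ∨ ∀ ν : ℕ, 3 * (k + ν) ≠ dh + k * e) →
      a' ∈ idl P Q ^ M := by
    intro M hM hMc
    apply hsatp P Q e (by omega) hP hQ hgood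
    intro p hp0 hpP hpQ
    obtain ⟨-, hpn⟩ := hgood p hp0 hpP hpQ
    obtain ⟨s, σ, hs, hs0, hm⟩ := local_step hgrw hval hfin P Q h a' (aeval ![P, Q] Ψ) w Ψ e dh k
      r m D he hk hP hQ hh hrel hw hw0 hΨ rfl hh0 α β hα ha' hD hE' M hM p (by
        rcases hMc with h1 | h1
        · exact Or.inl h1
        · exact Or.inr fun ν _ _ => h1 ν) hp0 hpP hpQ hpn M le_rfl
    exact ⟨s, hs0, hm⟩
  have hdeg : ∀ M : ℕ, D < e * M → a' ∉ idl P Q ^ M := by
    intro M hMd hmem
    have h3 := comp_idl P Q e hP hQ M a' hmem D hMd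
    rw [homogeneousComponent_of_mem ha', if_pos rfl] at h3
    exact ha'0 h3
  by_cases hn : ∀ ν : ℕ, 3 * (k + ν) ≠ dh + k * e
  · refine hdeg (m - r) ?_ (hstep (m - r) (by omega) (Or.inr hn))
    have : e * (m - r) + e * r = e * m := by rw [← mul_add]; congr 1; omega
    omega
  have he3 : 3 ≤ e := hcond.resolve_right hn
  have hmul : e * (m - r - 1) + e * r + e = e * m := by
    rw [← mul_add, ← mul_add_one]; congr 1; omega
  have hmem := hstep (m - r - 1) (by omega) (Or.inl (by omega))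
  rcases Nat.lt_or_ge 3 e with he4 | he4
  · exact hdeg (m - r - 1) (by omega) hmem
  -- pencils of cubics
  have he' : e = 3 := by omega
  subst he'
  push Not at hn
  obtain ⟨ν, hν⟩ := hn
  have hDM : D = 3 * (m - r - 1) := by omega
  rw [hDM] at ha'
  obtain ⟨Φ, hΦ, hΦa⟩ := form_of_mem P Q 3 hP hQ _ a' hmem ha'
  have hΦ0 : Φ ≠ 0 := by
    rintro rfl
    exact ha'0 (by rw [hΦa, map_zero])
  -- the order of `h` at the base points
  have hhν : h ∈ idl P Q ^ ν := by
    apply hsatp P Q 3 (by omega) hP hQ hgood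
    intro p hp0 hpP hpQ
    obtain ⟨-, hpn⟩ := hgood p hp0 hpP hpQ
    by_contra hcon
    have hcon' : ¬ OO P Q p ν h := fun ⟨s, σ, hs, hs0, hm⟩ => hcon ⟨s, hs0, hm⟩
    have h1 := local_step hgrw hval hfin P Q h a' (aeval ![P, Q] Ψ) w Ψ 3 dh k
      r m D he hk hP hQ hh hrel hw hw0 hΨ rfl hh0 α β hα (hDM ▸ ha') hD hE' (m - r) (by omega) p
      (Or.inr fun μ hμ hμ' heq => by
        have : μ = ν := by omega
        rw [this] at hμ
        exact hcon' hμ) hp0 hpP hpQ hpn (m - r) le_rfl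
    rw [hΦa] at h1
    have h2 := not_OO_form hgrw hrel hpP hpQ Φ (m - r - 1) hΦ hΦ0
    rw [show m - r - 1 + 1 = m - r by omega] at h2
    exact h2 h1
  obtain ⟨Θ, hΘ, hΘh⟩ := form_of_mem P Q 3 hP hQ ν h hhν (by
    have : dh = 3 * ν := by omega
    rwa [← this])
  have e1 : jac P Q a' = 0 := by rw [hΦa]; exact jac_aeval P Q Φ
  have e2 : jac P Q h = 0 := by rw [hΘh]; exact jac_aeval P Q Θ
  rw [e1, e2, mul_zero, mul_zero, mul_zero, add_zero, mul_zero] at hE'
  rcases mul_eq_zero.1 hE'.symm with h1 | h1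
  · exact hβ (C_eq_zero.1 h1)
  · rcases mul_eq_zero.1 h1 with h2 | h2
    · exact hh0 h2
    · exact hc0 h2

end RPlus

end Pool.Agent.N127.PB
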