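import Pool.Agent.N127.PB.Stm2

set_option autoImplicit false

/-! # QR: a regular sequence of length two is quasi-regular -/

namespace Pool.Agent.N127.PB

open MvPolynomial Pool.Agent.H628R4.TP Pool.Agent.W574.HS

namespace QRaux

variable {A : Type*} [CommRing A]

theorem mem_mul_pair (P Q : A) (K : Ideal A) (y : A) (hy : y ∈ Ideal.span {P, Q} * K) :
    ∃ a ∈ K, ∃ b ∈ K, y = P * a + Q * b := by
  refine Submodule.mul_induction_on hy ?_ ?_
  · intro m hm n hn
    obtain ⟨c, d, hcd⟩ := Ideal.mem_span_pair.1 hm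
    refine ⟨c * n, K.mul_mem_left _ hn, d * n, K.mul_mem_left _ hn, ?_⟩
    rw [← hcd]
    ring
  · rintro x y ⟨a, ha, b, hb, rfl⟩ ⟨c, hc, d, hd, rfl⟩
    exact ⟨a + c, K.add_mem ha hc, b + d, K.add_mem hb hd, by ring⟩

theorem mem_pow_mul (P Q : A) (J : Ideal A) : ∀ (i : ℕ) (y : A),
    y ∈ Ideal.span {P, Q} ^ i * J → ∃ v : ℕ → A, (∀ j, v j ∈ J) ∧
      y = ∑ j ∈ Finset.range (i + 1), v j * P ^ (i - j) * Q ^ j := by
  intro i
  induction i with
  | zero =>
    intro y hy
    refine ⟨fun _ => y, fun _ => ?_, ?_⟩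
    · simpa using hy
    · simp
  | succ i ih =>
    intro y hy
    rw [pow_succ', mul_assoc] at hy
    obtain ⟨a, ha, b, hb, rfl⟩ := mem_mul_pair P Q _ y hy
    obtain ⟨v, hv, rfl⟩ := ih a ha
    obtain ⟨w, hw, rfl⟩ := ih b hb
    refine ⟨fun j => (if j ≤ i then v j else 0) + (if j = 0 then 0 else w (j - 1)), ?_, ?_⟩
    · intro j
      refine J.add_mem ?_ ?_
      · split_ifs
        · exact hv j
        · exact J.zero_mem
      · split_ifs
        · exact J.zero_mem
        · exact hw _
    · have h1 : ∑ j ∈ Finset.range (i + 1 + 1), ((if j ≤ i then v j else 0) +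
          (if j = 0 then 0 else w (j - 1))) * P ^ (i + 1 - j) * Q ^ j =
          ∑ j ∈ Finset.range (i + 1 + 1), (if j ≤ i then v j else 0) * P ^ (i + 1 - j) * Q ^ j +
          ∑ j ∈ Finset.range (i + 1 + 1), (if j = 0 then 0 else w (j - 1)) *
            P ^ (i + 1 - j) * Q ^ j := by
        rw [← Finset.sum_add_distrib]
        refine Finset.sum_congr rfl fun j _ => ?_
        ring
      have h2 : ∑ j ∈ Finset.range (i + 1 + 1), (if j ≤ i then v j else 0) * P ^ (i + 1 - j) * Q ^ j
          = P * ∑ j ∈ Finset.range (i + 1), v j * P ^ (i - j) * Q ^ j := by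
        rw [Finset.sum_range_succ, if_neg (by omega), zero_mul, zero_mul, add_zero,
          Finset.mul_sum]
        refine Finset.sum_congr rfl fun j hj => ?_
        have hj' : j ≤ i := Nat.lt_succ_iff.1 (Finset.mem_range.1 hj)
        rw [if_pos hj', Nat.succ_sub hj', pow_succ]
        ring
      have h3 : ∑ j ∈ Finset.range (i + 1 + 1), (if j = 0 then 0 else w (j - 1)) *
          P ^ (i + 1 - j) * Q ^ j = Q * ∑ j ∈ Finset.range (i + 1), w j * P ^ (i - j) * Q ^ j := by
        rw [Finset.sum_range_succ', if_pos rfl, zero_mul, zero_mul, add_zero,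
          Finset.mul_sum]
        refine Finset.sum_congr rfl fun j _ => ?_
        rw [if_neg (Nat.succ_ne_zero j), Nat.add_sub_cancel, Nat.add_sub_add_right, pow_succ Q j]
        ring
      rw [h1, h2, h3]

theorem syz [IsDomain A] [DecompositionMonoid A] (P Q : A) (hPQ : IsRelPrime P Q) :
    ∀ (i : ℕ) (t : ℕ → A), ∑ j ∈ Finset.range (i + 1), t j * P ^ (i - j) * Q ^ j = 0 →
      ∀ j, j ≤ i → t j ∈ Ideal.span {P, Q} := by
  by_cases hP : P = 0
  · intro i t _ j _
    have hQ : IsUnit Q := by
      rw [hP] at hPQ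
      exact isRelPrime_zero_left.1 hPQ
    have : Ideal.span {P, Q} = ⊤ :=
      Ideal.eq_top_of_isUnit_mem _ (Ideal.subset_span (by simp)) hQ
    rw [this]
    exact Submodule.mem_top
  intro i
  induction i with
  | zero =>
    intro t ht j hj
    obtain rfl : j = 0 := Nat.le_zero.1 hj
    have : t 0 = 0 := by simpa using ht
    rw [this]
    exact Ideal.zero_mem _
  | succ i ih =>
    intro t ht
    have hsplit : ∑ j ∈ Finset.range (i + 1), t j * P ^ (i + 1 - j) * Q ^ j =
        P * ∑ j ∈ Finset.range (i + 1), t j * P ^ (i - j) * Q ^ j := by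
      rw [Finset.mul_sum]
      refine Finset.sum_congr rfl fun j hj => ?_
      have hj' : j ≤ i := Nat.lt_succ_iff.1 (Finset.mem_range.1 hj)
      rw [Nat.succ_sub hj', pow_succ]
      ring
    rw [Finset.sum_range_succ, hsplit, Nat.sub_self, pow_zero, mul_one] at ht
    have hdvd : P ∣ t (i + 1) * Q ^ (i + 1) := by
      refine ⟨-∑ j ∈ Finset.range (i + 1), t j * P ^ (i - j) * Q ^ j, ?_⟩
      linear_combination ht
    have hrel : IsRelPrime P (Q ^ (i + 1)) := hPQ.pow_right
    obtain ⟨s, hs⟩ := hrel.dvd_of_dvd_mul_right hdvd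
    have hz : ∑ j ∈ Finset.range (i + 1), t j * P ^ (i - j) * Q ^ j + s * Q ^ (i + 1) = 0 := by
      have : P * (∑ j ∈ Finset.range (i + 1), t j * P ^ (i - j) * Q ^ j + s * Q ^ (i + 1)) = 0 := by
        rw [hs] at ht
        linear_combination ht
      exact (mul_eq_zero.1 this).resolve_left hP
    have hz' : ∑ j ∈ Finset.range (i + 1), (if j = i then t i + s * Q else t j) *
        P ^ (i - j) * Q ^ j = 0 := by
      rw [Finset.sum_range_succ] at hz ⊢
      rw [if_pos rfl]
      have : ∑ j ∈ Finset.range i, (if j = i then t i + s * Q else t j) * P ^ (i - j) * Q ^ j =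
          ∑ j ∈ Finset.range i, t j * P ^ (i - j) * Q ^ j := by
        refine Finset.sum_congr rfl fun j hj => ?_
        rw [if_neg (Finset.mem_range.1 hj).ne]
      rw [this]
      rw [Nat.sub_self, pow_zero] at hz ⊢
      rw [pow_succ] at hz
      linear_combination hz
    have key := ih _ hz'
    have hPI : P ∈ Ideal.span {P, Q} := Ideal.subset_span (by simp)
    have hQI : Q ∈ Ideal.span {P, Q} := Ideal.subset_span (by simp)
    intro j hj
    rcases Nat.lt_or_ge i j with h | h
    · obtain rfl : j = i + 1 := le_antisymm hj h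
      rw [hs]
      exact Ideal.mul_mem_right _ _ hPI
    · have := key j h
      by_cases hji : j = i
      · rw [if_pos hji] at this
        subst hji
        have h2 : t j = (t j + s * Q) - s * Q := by ring
        rw [h2]
        exact Ideal.sub_mem _ this (Ideal.mul_mem_left _ _ hQI)
      · rwa [if_neg hji] at this

end QRaux

theorem stmQR : StmQR := by
  intro P Q hPQ i u hu j hj
  unfold idl at hu ⊢
  rw [pow_succ] at hu
  obtain ⟨v, hv, hv2⟩ := QRaux.mem_pow_mul P Q _ i _ hu
  have ht : ∑ j ∈ Finset.range (i + 1), (u j - v j) * P ^ (i - j) * Q ^ j = 0 := by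
    have : ∑ j ∈ Finset.range (i + 1), (u j - v j) * P ^ (i - j) * Q ^ j =
        ∑ j ∈ Finset.range (i + 1), u j * P ^ (i - j) * Q ^ j -
        ∑ j ∈ Finset.range (i + 1), v j * P ^ (i - j) * Q ^ j := by
      rw [← Finset.sum_sub_distrib]
      refine Finset.sum_congr rfl fun j _ => ?_
      ring
    rw [this, hv2, sub_self]
  have := QRaux.syz P Q hPQ i (fun j => u j - v j) ht j hj
  have h2 : u j = (u j - v j) + v j := by ring
  rw [h2]
  exact Ideal.add_mem _ this (hv j)

end Pool.Agent.N127.PB
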