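import Pool.Agent.N127.PB.Stm2

set_option autoImplicit false

/-! # PB/SAT (helper878): Nullstellensatz and saturation -/

namespace Pool.Agent.N127.PB.Sataux

open MvPolynomial Pool.Agent.N127.PB

/-- Nullstellensatz at the origin -/
lemma nulls (J : Ideal R) (h : ∀ p : Fin 3 → ℂ, (∀ a ∈ J, eval p a = 0) → p = 0) (i : Fin 3) :
    (X i : R) ∈ J.radical := by
  rw [← vanishingIdeal_zeroLocus_eq_radical (K := ℂ) J, mem_vanishingIdeal_iff]
  intro x hx
  rw [mem_zeroLocus_iff] at hx
  have h1 : x = 0 := by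
    apply h
    intro a ha
    have h2 := hx a ha
    exact h2
  rw [h1, aeval_X, Pi.zero_apply]

lemma mem_of_X_mul {c : R} (h : X 2 * c ∈ Ideal.span ({X 0, X 1} : Set R)) :
    c ∈ Ideal.span ({X 0, X 1} : Set R) := by
  have h0 : ({X 0, X 1} : Set R) = X '' ({0, 1} : Set (Fin 3)) := by rw [Set.image_pair]
  rw [h0, mem_ideal_span_X_image] at h ⊢
  intro m hm
  have h1 : (Finsupp.single 2 1 + m) ∈ (X 2 * c).support := by
    rw [mem_support_iff, coeff_X_mul]
    exact mem_support_iff.1 hm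
  obtain ⟨i, hi, h2⟩ := h _ h1
  refine ⟨i, hi, ?_⟩
  intro h3
  apply h2
  rw [Finsupp.add_apply, h3, add_zero, Finsupp.single_apply_eq_zero]
  intro h4
  rw [h4] at hi
  simp at hi

/-- from a relation `x₁ a = x₀ b` -/
lemma X_dvd {a b : R} (h : X 1 * a = X 0 * b) : (X 0 : R) ∣ a := by
  have h1 : (X 0 : R) ∣ X 1 * a := ⟨b, h⟩
  rcases X_dvd_mul_iff.1 h1 with h2 | h2
  · rw [X_dvd_X] at h2
    exact absurd h2 (by decide)
  · exact h2

/-- the ideal is saturated -/
lemma saturated {P Q : R} (hrel : IsRelPrime P Q) (hQ : Q ≠ 0) {v : R}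
    (hv : ∀ i, X i * v ∈ idl P Q) : v ∈ idl P Q := by
  have h1 : ∀ i, ∃ a b, a * P + b * Q = X i * v := fun i => Ideal.mem_span_pair.1 (hv i)
  choose A B hAB using h1
  have h2 : ∀ i j, ∃ c, X j * A i - X i * A j = c * Q ∧ X i * B j - X j * B i = c * P := by
    intro i j
    have h3 : (X j * A i - X i * A j) * P = (X i * B j - X j * B i) * Q := by
      linear_combination X j * hAB i - X i * hAB j
    have h4 : Q ∣ (X j * A i - X i * A j) * P := by
      rw [h3]
      exact dvd_mul_left _ _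
    obtain ⟨c, hc⟩ := hrel.symm.dvd_of_dvd_mul_right h4
    refine ⟨c, by rw [hc, mul_comm], ?_⟩
    apply mul_right_cancel₀ hQ
    rw [← h3, hc]
    ring
  obtain ⟨c01, h01, h01'⟩ := h2 0 1
  obtain ⟨c02, h02, -⟩ := h2 0 2
  obtain ⟨c12, h12, -⟩ := h2 1 2
  have h5 : X 2 * c01 - X 1 * c02 + X 0 * c12 = 0 := by
    apply (mul_eq_zero.1 ?_).resolve_right hQ
    linear_combination (-X 2) * h01 + X 1 * h02 - X 0 * h12
  have h6 : c01 ∈ Ideal.span ({X 0, X 1} : Set R) := by
    apply mem_of_X_mul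
    rw [Ideal.mem_span_pair]
    exact ⟨-c12, c02, by linear_combination -h5⟩
  obtain ⟨D1, D0, hD⟩ := Ideal.mem_span_pair.1 h6
  obtain ⟨A', hA'⟩ : (X 0 : R) ∣ A 0 - D0 * Q := by
    apply X_dvd (b := A 1 + D1 * Q)
    linear_combination h01 - Q * hD
  obtain ⟨B', hB'⟩ : (X 0 : R) ∣ B 0 + D0 * P := by
    apply X_dvd (b := B 1 - D1 * P)
    linear_combination -h01' + P * hD
  have h7 : X 0 * v = X 0 * (A' * P + B' * Q) := by
    linear_combination -hAB 0 + P * hA' + Q * hB'
  have h8 := mul_left_cancel₀ (X_ne_zero (0 : Fin 3)) h7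
  rw [h8]
  exact Ideal.mem_span_pair.2 ⟨A', B', rfl⟩

/-- the elements of the powers of the ideal -/
lemma rep (P Q : R) (i : ℕ) : ∀ x ∈ idl P Q ^ i, ∃ u : ℕ → R,
    x = ∑ j ∈ Finset.range (i + 1), u j * P ^ (i - j) * Q ^ j := by
  induction i with
  | zero =>
    intro x _
    exact ⟨fun _ => x, by simp⟩
  | succ i ih =>
    intro x hx
    rw [pow_succ] at hx
    refine Submodule.mul_induction_on hx ?_ ?_
    · intro a ha b hb
      obtain ⟨u, hu⟩ := ih a ha
      obtain ⟨s, t, hst⟩ := Ideal.mem_span_pair.1 hb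
      refine ⟨fun j => (if j ≤ i then s * u j else 0) + (if j = 0 then 0 else t * u (j - 1)), ?_⟩
      simp only [add_mul, Finset.sum_add_distrib]
      rw [Finset.sum_range_succ (fun j => (if j ≤ i then s * u j else 0) * P ^ (i + 1 - j) * Q ^ j),
        Finset.sum_range_succ' (fun j => (if j = 0 then 0 else t * u (j - 1)) *
          P ^ (i + 1 - j) * Q ^ j)]
      rw [if_neg (by omega), if_pos rfl, zero_mul, zero_mul, add_zero, zero_mul, zero_mul, add_zero,
        ← Finset.sum_add_distrib, ← hst, hu, Finset.sum_mul]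
      refine Finset.sum_congr rfl fun j hj => ?_
      have hj' : j ≤ i := by
        rw [Finset.mem_range] at hj
        omega
      rw [if_pos hj', if_neg (by omega), Nat.add_sub_cancel,
        show i + 1 - j = (i - j) + 1 by omega, show i + 1 - (j + 1) = i - j by omega]
      ring
    · rintro a b ⟨u, hu⟩ ⟨w, hw⟩
      refine ⟨fun j => u j + w j, ?_⟩
      simp only [add_mul, Finset.sum_add_distrib]
      rw [← hu, ← hw]

lemma term_mem (P Q : R) {i j : ℕ} (hj : j ≤ i) : P ^ (i - j) * Q ^ j ∈ idl P Q ^ i := by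
  have h1 : P ∈ idl P Q := Ideal.subset_span (by simp)
  have h2 : Q ∈ idl P Q := Ideal.subset_span (by simp)
  have h3 := Ideal.mul_mem_mul (Ideal.pow_mem_pow h1 (i - j)) (Ideal.pow_mem_pow h2 j)
  rwa [← pow_add, Nat.sub_add_cancel hj] at h3

/-- a form of positive degree is not a unit -/
lemma not_isUnit {P : R} {e : ℕ} (he : 0 < e) (hP : P.IsHomogeneous e) : ¬ IsUnit P := by
  intro h
  have h1 : constantCoeff P = 0 := by
    by_contra h3
    have h4 := hP (by rwa [constantCoeff_eq] at h3 : coeff 0 P ≠ 0)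
    rw [map_zero] at h4
    omega
  have h2 := h.map (constantCoeff (R := ℂ) (σ := Fin 3))
  rw [h1] at h2
  exact not_isUnit_zero h2

lemma good_rel {P Q h : R} (hg : GoodBase P Q h) : IsRelPrime P Q := by
  intro d hdP hdQ
  by_contra hd
  by_cases hd0 : d = 0
  · rw [hd0, zero_dvd_iff] at hdP hdQ
    obtain ⟨-, l, hl⟩ := hg (Pi.single 0 1) (by
      intro h1
      have h2 := congrFun h1 0
      rw [Pi.single_eq_same] at h2
      exact one_ne_zero h2) (by rw [hdP, map_zero]) (by rw [hdQ, map_zero])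
    apply hl
    rw [hdP]
    simp [crs]
  obtain ⟨H, hH, hHd⟩ := WfDvdMonoid.exists_irreducible_factor hd hd0
  obtain ⟨P1, hP1⟩ := hHd.trans hdP
  obtain ⟨Q1, hQ1⟩ := hHd.trans hdQ
  have hp : Prime H := hH.prime
  have h1 : ∀ i, H ∣ X i := by
    intro i
    have h2 : (X i : R) ∈ (Ideal.span {H}).radical := by
      apply nulls
      intro p hpp
      by_contra hp0
      have hH0 : eval p H = 0 := hpp H (Ideal.mem_span_singleton_self H)
      obtain ⟨-, l, hl⟩ := hg p hp0 (by rw [hP1, map_mul, hH0, zero_mul])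
        (by rw [hQ1, map_mul, hH0, zero_mul])
      apply hl
      rw [hP1, hQ1]
      simp only [crs, Derivation.leibniz, smul_eq_mul, map_sub, map_mul, map_add, hH0, zero_mul,
        zero_add]
      ring
    obtain ⟨n, hn⟩ := h2
    rw [Ideal.mem_span_singleton] at hn
    exact hp.dvd_of_dvd_pow hn
  have h2 : Associated H (X 0 : R) := hH.associated_of_dvd (X_prime (i := (0 : Fin 3))).irreducible (h1 0)
  have h3 : (X 0 : R) ∣ X 1 := h2.symm.dvd.trans (h1 1)
  rw [X_dvd_X] at h3
  exact absurd h3 (by decide)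

end Pool.Agent.N127.PB.Sataux

namespace Pool.Agent.N127.PB

open MvPolynomial Sataux

theorem stmSat (hqr : StmQR) : StmSat := by
  intro P Q h e dh he hP hQ hh hg
  have hrel := good_rel hg
  have hPu := not_isUnit he hP
  have hQu := not_isUnit he hQ
  have hP0 : P ≠ 0 := by
    rintro rfl
    exact hQu (isRelPrime_zero_left.1 hrel)
  have hQ0 : Q ≠ 0 := by
    rintro rfl
    exact hPu (isRelPrime_zero_right.1 hrel)
  obtain ⟨n, hn⟩ : ∃ n : Fin 3 → R, n = fun l => crs (fun m => pderiv m P) (fun m => pderiv m Q) l :=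
    ⟨_, rfl⟩
  obtain ⟨J, hJ⟩ : ∃ J : Ideal R, J = idl P Q ⊔ Ideal.span (Set.range fun l => n l * h) := ⟨_, rfl⟩
  obtain ⟨m, hm⟩ : ∃ m : Ideal R, m = Ideal.span (Set.range (X : Fin 3 → R)) := ⟨_, rfl⟩
  have h1 : m ≤ J.radical := by
    rw [hm, Ideal.span_le]
    rintro _ ⟨i, rfl⟩
    apply nulls
    intro p hp
    by_contra hp0
    have h2 : ∀ a ∈ idl P Q, eval p a = 0 := fun a ha => hp a (by
      rw [hJ]
      exact Ideal.mem_sup_left ha)
    obtain ⟨h3, l, hl⟩ := hg p hp0 (h2 P (Ideal.subset_span (by simp)))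
      (h2 Q (Ideal.subset_span (by simp)))
    have h4 : eval p (n l * h) = 0 := hp _ (by
      rw [hJ]
      exact Ideal.mem_sup_right (Ideal.subset_span ⟨l, rfl⟩))
    rw [map_mul] at h4
    rcases mul_eq_zero.1 h4 with h5 | h5
    · apply hl
      rw [hn] at h5
      exact h5
    · exact h3 h5
  obtain ⟨N, hN⟩ := Ideal.exists_pow_le_of_le_radical_of_fg h1
    (hm ▸ Submodule.fg_span (Set.finite_range _))
  have sat : ∀ (k : ℕ) (v : R), (∀ a ∈ m ^ k, a * v ∈ idl P Q) → v ∈ idl P Q := by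
    intro k
    induction k with
    | zero =>
      intro v hv
      have h2 := hv 1 (by rw [pow_zero, Ideal.one_eq_top]; exact Submodule.mem_top)
      rwa [one_mul] at h2
    | succ k ih =>
      intro v hv
      apply ih
      intro a ha
      apply saturated hrel hQ0
      intro i
      rw [← mul_assoc]
      apply hv
      rw [pow_succ']
      exact Ideal.mul_mem_mul (by rw [hm]; exact Ideal.subset_span ⟨i, rfl⟩) ha
  have key : ∀ v : R, (∀ l, n l * h * v ∈ idl P Q) → v ∈ idl P Q := by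
    intro v hv
    apply sat N
    intro a ha
    have h2 := hN ha
    rw [hJ] at h2
    obtain ⟨b, hb, c, hc, rfl⟩ := Submodule.mem_sup.1 h2
    rw [add_mul]
    refine Ideal.add_mem _ (Ideal.mul_mem_right _ _ hb) ?_
    refine Submodule.span_induction ?_ ?_ ?_ ?_ hc
    · rintro _ ⟨l, rfl⟩
      exact hv l
    · rw [zero_mul]
      exact Ideal.zero_mem _
    · intro x y _ _ hx hy
      rw [add_mul]
      exact Ideal.add_mem _ hx hy
    · intro r x _ hx
      rw [smul_eq_mul, mul_assoc]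
      exact Ideal.mul_mem_left _ _ hx
  refine ⟨hrel, fun i u hu hnu => ?_⟩
  obtain ⟨w, hw⟩ := rep P Q i u hu
  have h2 : ∀ j, j ≤ i → w j ∈ idl P Q := by
    intro j hj
    apply key
    intro l
    apply hqr P Q hrel i (fun j => n l * h * w j) ?_ j hj
    have h3 := hnu l
    rw [hw, Finset.mul_sum] at h3
    rw [hn]
    convert h3 using 1
    refine Finset.sum_congr rfl fun j _ => ?_
    ring
  rw [hw]
  refine Ideal.sum_mem _ fun j hj => ?_
  have hj' : j ≤ i := by
    rw [Finset.mem_range] at hj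
    omega
  rw [mul_assoc, pow_succ']
  exact Ideal.mul_mem_mul (h2 j hj') (term_mem P Q hj')

end Pool.Agent.N127.PB
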