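import Pool.Agent.N127.PB.Stm3
import Pool.Agent.N127.PB.Sat
import Pool.Agent.N127.PB.QR

set_option autoImplicit false

/-! # PB/SATP (subtask 5752, helper456): the powers of the ideal `(P, Q)` are saturated -/

namespace Pool.Agent.N127.PB.SatPowaux

open MvPolynomial Pool.Agent.N127.PB Pool.Agent.N127.PB.Sataux

/-- the powers of the ideal are saturated -/
lemma satpow {P Q : R} (hrel : IsRelPrime P Q) (hQ : Q ≠ 0) (n : ℕ) : ∀ v : R,
    (∀ i, X i * v ∈ idl P Q ^ n) → v ∈ idl P Q ^ n := by
  induction n with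
  | zero =>
    intro v _
    rw [pow_zero, Ideal.one_eq_top]
    exact Submodule.mem_top
  | succ n ih =>
    intro v hv
    have h1 : v ∈ idl P Q ^ n := ih v fun i => Ideal.pow_le_pow_right (Nat.le_succ n) (hv i)
    obtain ⟨w, hw⟩ := rep P Q n v h1
    have h2 : ∀ j, j ≤ n → w j ∈ idl P Q := by
      intro j hj
      apply saturated hrel hQ
      intro i
      apply stmQR P Q hrel n (fun j => X i * w j) ?_ j hj
      have h3 := hv i
      rw [hw, Finset.mul_sum] at h3
      convert h3 using 1
      refine Finset.sum_congr rfl fun j _ => ?_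
      ring
    rw [hw]
    refine Ideal.sum_mem _ fun j hj => ?_
    have hj' : j ≤ n := by
      rw [Finset.mem_range] at hj
      omega
    rw [mul_assoc, pow_succ']
    exact Ideal.mul_mem_mul (h2 j hj') (term_mem P Q hj')

end Pool.Agent.N127.PB.SatPowaux

namespace Pool.Agent.N127.PB

open MvPolynomial Sataux SatPowaux

theorem stmSatPow : StmSatPow := by
  intro P Q e he hP hQ hg k a ha
  have hrel := good_rel hg
  have hPu := not_isUnit he hP
  have hQ0 : Q ≠ 0 := by
    rintro rfl
    exact hPu (isRelPrime_zero_right.1 hrel)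
  obtain ⟨J, hJ⟩ : ∃ J : Ideal R, ∀ s, s ∈ J ↔ s * a ∈ idl P Q ^ k :=
    ⟨Submodule.comap (LinearMap.mulRight R a) (idl P Q ^ k), fun s => Iff.rfl⟩
  obtain ⟨m, hm⟩ : ∃ m : Ideal R, m = Ideal.span (Set.range (X : Fin 3 → R)) := ⟨_, rfl⟩
  have h1 : m ≤ J.radical := by
    rw [hm, Ideal.span_le]
    rintro _ ⟨i, rfl⟩
    apply nulls
    intro p hp
    by_contra hp0
    by_cases hPp : eval p P = 0
    · by_cases hQp : eval p Q = 0
      · obtain ⟨s, hs, hsa⟩ := ha p hp0 hPp hQp
        exact hs (hp s ((hJ s).2 hsa))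
      · have h3 := hp (Q ^ k) ((hJ _).2 (Ideal.mul_mem_right _ _
          (Ideal.pow_mem_pow (Ideal.subset_span (by simp)) k)))
        rw [map_pow] at h3
        exact hQp (eq_zero_of_pow_eq_zero h3)
    · have h3 := hp (P ^ k) ((hJ _).2 (Ideal.mul_mem_right _ _
        (Ideal.pow_mem_pow (Ideal.subset_span (by simp)) k)))
      rw [map_pow] at h3
      exact hPp (eq_zero_of_pow_eq_zero h3)
  obtain ⟨N, hN⟩ := Ideal.exists_pow_le_of_le_radical_of_fg h1
    (hm ▸ Submodule.fg_span (Set.finite_range _))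
  have sat : ∀ (i : ℕ) (v : R), (∀ x ∈ m ^ i, x * v ∈ idl P Q ^ k) → v ∈ idl P Q ^ k := by
    intro i
    induction i with
    | zero =>
      intro v hv
      have h2 := hv 1 (by rw [pow_zero, Ideal.one_eq_top]; exact Submodule.mem_top)
      rwa [one_mul] at h2
    | succ i ih =>
      intro v hv
      apply ih
      intro x hx
      apply satpow hrel hQ0
      intro l
      rw [← mul_assoc]
      apply hv
      rw [pow_succ']
      exact Ideal.mul_mem_mul (by rw [hm]; exact Ideal.subset_span ⟨l, rfl⟩) hx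
  exact sat N a fun x hx => (hJ x).1 (hN hx)

end Pool.Agent.N127.PB
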