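import Pool.Agent.N127.PB.Stm2

set_option autoImplicit false

/-! # EUL: the derivation and the Euler derivation modulo the powers of `(P, Q)` (helper769) -/

namespace Pool.Agent.N127.PB.Eulaux

open MvPolynomial

/-- the cross product of the gradients -/
noncomputable def nn (P Q : R) (l : Fin 3) : R := crs (fun m => pderiv m P) (fun m => pderiv m Q) l

/-- the Euler derivation -/
noncomputable def eu (a : R) : R := X 0 * pderiv 0 a + X 1 * pderiv 1 a + X 2 * pderiv 2 a

lemma nn0 (P Q : R) : nn P Q 0 = pderiv 1 P * pderiv 2 Q - pderiv 2 P * pderiv 1 Q := rfl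
lemma nn1 (P Q : R) : nn P Q 1 = pderiv 2 P * pderiv 0 Q - pderiv 0 P * pderiv 2 Q := rfl
lemma nn2 (P Q : R) : nn P Q 2 = pderiv 0 P * pderiv 1 Q - pderiv 1 P * pderiv 0 Q := rfl

lemma jac_apply (P Q a : R) :
    jac P Q a = nn P Q 0 * pderiv 0 a + nn P Q 1 * pderiv 1 a + nn P Q 2 * pderiv 2 a := by
  unfold jac
  rw [Fin.sum_univ_three]
  rfl

lemma eu_hom {a : R} {D : ℕ} (h : a.IsHomogeneous D) : eu a = C (D : ℂ) * a := by
  have h1 := h.sum_X_mul_pderiv
  rw [Fin.sum_univ_three] at h1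
  unfold eu
  rw [h1, nsmul_eq_mul, map_natCast]

lemma jac_P (P Q : R) : jac P Q P = 0 := by
  rw [jac_apply, nn0, nn1, nn2]
  ring

lemma jac_Q (P Q : R) : jac P Q Q = 0 := by
  rw [jac_apply, nn0, nn1, nn2]
  ring

lemma eu_mul (a b : R) : eu (a * b) = a * eu b + b * eu a := by
  unfold eu
  rw [Derivation.leibniz, Derivation.leibniz, Derivation.leibniz]
  simp only [smul_eq_mul]
  ring

lemma jac_mul (P Q a b : R) : jac P Q (a * b) = a * jac P Q b + b * jac P Q a := by
  rw [Derivation.leibniz]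
  simp only [smul_eq_mul]

lemma eu_add (a b : R) : eu (a + b) = eu a + eu b := by
  unfold eu
  rw [map_add, map_add, map_add]
  ring

/-- `x_l n_m - n_l x_m ∈ I` -/
lemma wedge {P Q : R} {e : ℕ} (hP : P.IsHomogeneous e) (hQ : Q.IsHomogeneous e) (l m : Fin 3) :
    X l * nn P Q m - nn P Q l * X m ∈ idl P Q := by
  have h1 := eu_hom hP
  have h2 := eu_hom hQ
  unfold eu at h1 h2
  unfold idl
  rw [Ideal.mem_span_pair]
  have hne : ∀ l m : Fin 3, l < m → ∃ a b : R, a * P + b * Q = X l * nn P Q m - nn P Q l * X m := by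
    intro l m hlm
    fin_cases l <;> fin_cases m <;> simp only [Fin.mk_zero, Fin.mk_one, Fin.isValue, Fin.reduceFinMk,
      lt_self_iff_false, Fin.reduceLT] at hlm ⊢
    · refine ⟨-(C (e : ℂ) * pderiv 2 Q), C (e : ℂ) * pderiv 2 P, ?_⟩
      rw [nn0, nn1]
      linear_combination pderiv 2 Q * h1 - pderiv 2 P * h2
    · refine ⟨C (e : ℂ) * pderiv 1 Q, -(C (e : ℂ) * pderiv 1 P), ?_⟩
      rw [nn0, nn2]
      linear_combination pderiv 1 P * h2 - pderiv 1 Q * h1
    · refine ⟨-(C (e : ℂ) * pderiv 0 Q), C (e : ℂ) * pderiv 0 P, ?_⟩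
      rw [nn1, nn2]
      linear_combination pderiv 0 Q * h1 - pderiv 0 P * h2
  rcases lt_trichotomy l m with h | h | h
  · exact hne l m h
  · subst h
    exact ⟨0, 0, by ring⟩
  · obtain ⟨a, b, hab⟩ := hne m l h
    exact ⟨-a, -b, by linear_combination -hab⟩

/-- the operator `T_i` -/
noncomputable def TT (P Q : R) (e i : ℕ) (l : Fin 3) (a : R) : R :=
  X l * jac P Q a - nn P Q l * eu a + C ((e : ℂ) * i) * (nn P Q l * a)

lemma main {P Q : R} {e : ℕ} (hP : P.IsHomogeneous e) (hQ : Q.IsHomogeneous e) (l : Fin 3) (i : ℕ) :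
    ∀ a ∈ idl P Q ^ i, TT P Q e i l a ∈ idl P Q ^ (i + 1) := by
  induction i with
  | zero =>
    intro a _
    rw [zero_add, pow_one]
    have e1 : TT P Q e 0 l a = pderiv 0 a * (X l * nn P Q 0 - nn P Q l * X 0) +
        pderiv 1 a * (X l * nn P Q 1 - nn P Q l * X 1) +
        pderiv 2 a * (X l * nn P Q 2 - nn P Q l * X 2) := by
      unfold TT eu
      rw [jac_apply, Nat.cast_zero, mul_zero, map_zero]
      ring
    rw [e1]
    exact add_mem (add_mem (Ideal.mul_mem_left _ _ (wedge hP hQ l 0))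
      (Ideal.mul_mem_left _ _ (wedge hP hQ l 1))) (Ideal.mul_mem_left _ _ (wedge hP hQ l 2))
  | succ i ih =>
    intro a ha
    have hI : idl P Q ^ (i + 1) = Ideal.span {P} * idl P Q ^ i ⊔ Ideal.span {Q} * idl P Q ^ i := by
      rw [pow_succ', ← Ideal.sup_mul]
      congr 1
      unfold idl
      rw [Ideal.span_insert]
    rw [hI, Submodule.mem_sup] at ha
    obtain ⟨b, hb, c, hc, rfl⟩ := ha
    rw [Ideal.mem_span_singleton_mul] at hb hc
    obtain ⟨y, hy, rfl⟩ := hb
    obtain ⟨y', hy', rfl⟩ := hc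
    have hP1 : P ∈ idl P Q := Ideal.subset_span (by simp)
    have hQ1 : Q ∈ idl P Q := Ideal.subset_span (by simp)
    have e1 : TT P Q e (i + 1) l (P * y + Q * y') = P * TT P Q e i l y + Q * TT P Q e i l y' := by
      unfold TT
      rw [map_add, jac_mul, jac_mul, jac_P, jac_Q, eu_add, eu_mul, eu_mul, eu_hom hP, eu_hom hQ]
      push_cast
      simp only [map_mul, map_add, map_one]
      ring
    rw [e1, pow_succ']
    exact add_mem (Ideal.mul_mem_mul hP1 (ih y hy)) (Ideal.mul_mem_mul hQ1 (ih y' hy'))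

end Pool.Agent.N127.PB.Eulaux

namespace Pool.Agent.N127.PB

open MvPolynomial

theorem stmEul : StmEul := by
  intro P Q e hP hQ i D a ha hD l
  have h := Eulaux.main hP hQ l i a ha
  unfold Eulaux.TT at h
  rw [Eulaux.eu_hom hD] at h
  have e1 : X l * jac P Q a - C ((D : ℂ) - e * i) *
      (crs (fun m => pderiv m P) (fun m => pderiv m Q) l * a) =
      X l * jac P Q a - Eulaux.nn P Q l * (C (D : ℂ) * a) +
        C ((e : ℂ) * i) * (Eulaux.nn P Q l * a) := by
    unfold Eulaux.nn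
    simp only [map_sub, map_mul]
    ring
  rw [e1]
  exact h

end Pool.Agent.N127.PB
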