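import Pool.Agent.N127.PB.Stm

set_option autoImplicit false

/-! # The degrees -/

namespace Pool.Agent.N127.PB

open MvPolynomial

/-- the component of low degree of a multiple of a homogeneous polynomial -/
theorem comp_mul_eq_zero {p : R} {m : ℕ} (hp : p.IsHomogeneous m) (q : R) (n : ℕ) (h : n < m) :
    homogeneousComponent n (p * q) = 0 := by
  rw [← sum_homogeneousComponent q, Finset.mul_sum, map_sum]
  refine Finset.sum_eq_zero fun i _ => ?_
  rw [homogeneousComponent_of_mem (hp.mul (homogeneousComponent_isHomogeneous i q)), if_neg]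
  omega

theorem th_homog {P Q : R} {e : ℕ} (hP : P.IsHomogeneous e) (hQ : Q.IsHomogeneous e) (l : Fin 3) :
    (th P Q l).IsHomogeneous (e + (e - 1)) := by
  unfold th
  exact (hQ.mul hP.pderiv).sub (hP.mul hQ.pderiv)

theorem stmH2 : StmH2 := by
  intro P Q h a α γ β e dh hP hQ hh hh0 he hS
  by_contra hβ
  have h1 := congrArg (homogeneousComponent (dh + 1)) (hS 0)
  have hd1 : ∀ m, pderiv m (1 : R) = 0 := fun m => Derivation.map_one_eq_zero _
  have z1 : ∀ (m j : Fin 3), homogeneousComponent (dh + 1) (h * th P Q j * pderiv m a) = 0 := by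
    intro m j
    exact comp_mul_eq_zero (hh.mul (th_homog hP hQ j)) _ _ (by omega)
  have z2 : ∀ (m j : Fin 3),
      homogeneousComponent (dh + 1) (h * (pderiv m Q * pderiv j P) * a) = 0 := by
    intro m j
    exact comp_mul_eq_zero (hh.mul (hQ.pderiv.mul hP.pderiv)) _ _ (by omega)
  have z3 : ∀ (m j : Fin 3),
      homogeneousComponent (dh + 1) (pderiv m h * th P Q j * a) = 0 := by
    intro m j
    rcases Nat.eq_zero_or_pos dh with h0 | h0
    · have : pderiv m h = 0 := by
        rw [h0] at hh
        rw [totalDegree_eq_zero_iff_eq_C.1 (Nat.le_zero.1 hh.totalDegree_le), pderiv_C]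
      rw [this, zero_mul, zero_mul, map_zero]
    · exact comp_mul_eq_zero (hh.pderiv.mul (th_homog hP hQ j)) _ _ (by omega)
  have hr : homogeneousComponent (dh + 1) (-(C β * (h * 1 ^ 2 * X 0))) = -(C β * (h * X 0)) := by
    rw [one_pow, mul_one, map_neg, homogeneousComponent_C_mul,
      homogeneousComponent_of_mem (hh.mul (isHomogeneous_X ℂ 0)), if_pos rfl]
  rw [hr] at h1
  have hl : homogeneousComponent (dh + 1)
      (h * crs (fun m => 1 * pderiv m a - a * pderiv m 1) (th P Q) 0 +
      C (γ + 2) * (h * a * 1 * crs (fun m => pderiv m Q) (fun m => pderiv m P) 0) +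
      C α * (a * 1 * crs (fun m => pderiv m h) (th P Q) 0)) = 0 := by
    have e1 : (h * crs (fun m => 1 * pderiv m a - a * pderiv m 1) (th P Q) 0 +
      C (γ + 2) * (h * a * 1 * crs (fun m => pderiv m Q) (fun m => pderiv m P) 0) +
      C α * (a * 1 * crs (fun m => pderiv m h) (th P Q) 0)) =
      (h * th P Q (0 + 2) * pderiv (0 + 1) a - h * th P Q (0 + 1) * pderiv (0 + 2) a) +
      C (γ + 2) * (h * (pderiv (0 + 1) Q * pderiv (0 + 2) P) * a -
        h * (pderiv (0 + 2) Q * pderiv (0 + 1) P) * a) +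
      C α * (pderiv (0 + 1) h * th P Q (0 + 2) * a - pderiv (0 + 2) h * th P Q (0 + 1) * a) := by
      simp only [crs, hd1]
      ring
    rw [e1, map_add, map_add, homogeneousComponent_C_mul, homogeneousComponent_C_mul, map_sub,
      map_sub, map_sub, z1, z1, z2, z2, z3, z3]
    simp
  rw [hl] at h1
  have h2 : (C β : R) * (h * X 0) = 0 := by
    rw [← neg_eq_zero]; exact h1.symm
  rcases mul_eq_zero.1 h2 with h3 | h3
  · exact hβ (C_eq_zero.1 h3)
  · rcases mul_eq_zero.1 h3 with h4 | h4
    · exact hh0 h4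
    · exact X_ne_zero 0 h4

end Pool.Agent.N127.PB
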