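import Pool.Agent.N127.PB.Stm2

set_option autoImplicit false

/-! # LOC: local analysis along a prime divisor of `h b`, for a derivation -/

namespace Pool.Agent.N127.PB

open Polynomial

namespace Loc2aux

/-- `H δ (H ^ i b)` -/
theorem der_pow (δ : Derivation ℂ R R) (H b : R) (i : ℕ) :
    H * δ (H ^ i * b) = H ^ i * ((i : R) * (b * δ H) + H * δ b) := by
  rw [Derivation.leibniz, Derivation.leibniz_pow]
  simp only [smul_eq_mul, nsmul_eq_mul]
  rcases i with _ | i
  · simp
  · rw [Nat.add_sub_cancel, pow_succ]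
    ring

end Loc2aux

theorem stmLoc : StmLoc := by
  intro δ W h a b α β H hst hH hh hb ha hor hα
  have hP : Prime H := hH.prime
  obtain ⟨h', hh1, hh2⟩ :=
    (FiniteMultiplicity.of_not_isUnit hH.not_isUnit hh).exists_eq_pow_mul_and_not_dvd
  obtain ⟨b', hb1, hb2⟩ :=
    (FiniteMultiplicity.of_not_isUnit hH.not_isUnit hb).exists_eq_pow_mul_and_not_dvd
  obtain ⟨n, hn⟩ : ∃ n, n = multiplicity H h := ⟨_, rfl⟩
  obtain ⟨i, hi⟩ : ∃ n, n = multiplicity H b := ⟨_, rfl⟩
  rw [← hn] at hh1
  rw [← hi] at hb1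
  have hni : 0 < n ∨ 0 < i := by
    rcases hor with h0 | h0
    · left
      rcases Nat.eq_zero_or_pos n with h1 | h1
      · rw [h1, pow_zero, one_mul] at hh1
        rw [hh1] at h0
        exact absurd h0 hh2
      · exact h1
    · right
      rcases Nat.eq_zero_or_pos i with h1 | h1
      · rw [h1, pow_zero, one_mul] at hb1
        rw [hb1] at h0
        exact absurd h0 hb2
      · exact h1
  have hc : α * n - i ≠ 0 := by
    rcases Nat.eq_zero_or_pos n with h1 | h1
    · rw [h1, Nat.cast_zero, mul_zero, zero_sub]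
      have : i ≠ 0 := by omega
      exact neg_ne_zero.2 (Nat.cast_ne_zero.2 this)
    · exact sub_ne_zero.2 (hα n i h1)
  have hne : H ^ (n + i) ≠ 0 := pow_ne_zero _ hP.ne_zero
  have hB : H * δ b = H ^ i * ((i : R) * (b' * δ H) + H * δ b') := by
    rw [hb1]
    exact Loc2aux.der_pow δ H b' i
  have hHd : H * δ h = H ^ n * ((n : R) * (h' * δ H) + H * δ h') := by
    rw [hh1]
    exact Loc2aux.der_pow δ H h' n
  have e5 : (MvPolynomial.C (α * n - i) : R) = MvPolynomial.C α * (n : R) - (i : R) := by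
    rw [map_sub, map_mul, map_natCast, map_natCast]
  have key : H ^ (n + i) * (h' * a * b' * MvPolynomial.C (α * n - i) * (W * δ H)) =
      H ^ (n + i) * (H * (MvPolynomial.C β * (H ^ i * h' * b' ^ 2) -
        W * (h' * (b' * δ a - a * δ b') + MvPolynomial.C α * (a * b' * δ h')))) := by
    have h2 : W * (h * (b * (H * δ a) - a * (H * δ b)) + MvPolynomial.C α * (a * b * (H * δ h))) =
        MvPolynomial.C β * (H * (h * b ^ 2)) := by
      have h1 := hst
      unfold DEq at h1
      linear_combination H * h1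
    rw [hB, hHd] at h2
    rw [e5]
    have h3 : W * (H ^ n * h' * (H ^ i * b' * (H * δ a) -
        a * (H ^ i * ((i : R) * (b' * δ H) + H * δ b'))) + MvPolynomial.C α * (a * (H ^ i * b') *
          (H ^ n * ((n : R) * (h' * δ H) + H * δ h')))) =
        MvPolynomial.C β * (H * (H ^ n * h' * (H ^ i * b') ^ 2)) := by
      rw [← hh1, ← hb1]
      exact h2
    rw [pow_add]
    linear_combination h3
  have h3 := mul_left_cancel₀ hne key
  have h4 : H ∣ h' * a * b' * MvPolynomial.C (α * n - i) * (W * δ H) := ⟨_, h3⟩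
  rcases hP.dvd_or_dvd h4 with h5 | h5
  · rcases hP.dvd_or_dvd h5 with h6 | h6
    · rcases hP.dvd_or_dvd h6 with h7 | h7
      · rcases hP.dvd_or_dvd h7 with h8 | h8
        · exact absurd h8 hh2
        · exact absurd h8 ha
      · exact absurd h7 hb2
    · have h7 : IsUnit (MvPolynomial.C (α * n - i) : R) :=
        (isUnit_iff_ne_zero.2 hc).map MvPolynomial.C
      exact absurd (isUnit_of_dvd_unit h6 h7) hH.not_isUnit
  · exact h5

end Pool.Agent.N127.PB

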