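import Pool.Agent.N127.PB.Stm2

/-!
Project PB (helper127), piece VERT (helper717).
-/

set_option autoImplicit false

namespace Pool.Agent.N127.PB

open MvPolynomial

namespace Vertaux

/-- a multiple of `H`, up to a power of `H`, with nonzero constant coefficient -/
theorem const_coeff {A : Type} [CommRing A] [IsDomain A] [Algebra ℂ A] (B : Subalgebra ℂ A) (H : A) (hH : H ≠ 0)
    (n : ℕ) : ∀ q : Polynomial B, q.natDegree ≤ n → q ≠ 0 → Polynomial.aeval H q = 0 →
    ∃ c : B, c ≠ 0 ∧ H ∣ (c : A) := by
  induction n with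
  | zero =>
    intro q hn hq h0
    exfalso
    have h1 := Polynomial.eq_C_of_natDegree_le_zero hn
    rw [h1, Polynomial.aeval_C] at h0
    have h2 : q.coeff 0 = 0 := Subtype.ext h0
    rw [h2, Polynomial.C_0] at h1
    exact hq h1
  | succ n ih =>
    intro q hn hq h0
    have h1 := Polynomial.divX_mul_X_add q
    have h2 : Polynomial.aeval H q = Polynomial.aeval H q.divX * H + (q.coeff 0 : A) := by
      conv_lhs => rw [← h1]
      rw [map_add, map_mul, Polynomial.aeval_X, Polynomial.aeval_C]
      rfl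
    by_cases hc : q.coeff 0 = 0
    · refine ih q.divX ?_ ?_ ?_
      · rw [Polynomial.natDegree_divX_eq_natDegree_tsub_one]
        omega
      · intro h3
        rw [h3, hc, zero_mul, Polynomial.C_0, add_zero] at h1
        exact hq h1.symm
      · rw [h0, hc] at h2
        have h3 : Polynomial.aeval H q.divX * H = 0 := by
          rw [ZeroMemClass.coe_zero, add_zero] at h2
          exact h2.symm
        exact (mul_eq_zero.1 h3).resolve_right hH
    · refine ⟨q.coeff 0, hc, ?_⟩
      rw [h0] at h2
      have h3 : (q.coeff 0 : A) = H * (- Polynomial.aeval H q.divX) := by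
        linear_combination -h2
      exact ⟨_, h3⟩

/-- there is a relation over the algebra generated by `P` and `Q` -/
theorem relation (P Q H : R) (hH : Irreducible H)
    (hno : ∀ Φ : MvPolynomial (Fin 2) ℂ, H ∣ aeval ![P, Q] Φ → Φ = 0) (x : R) :
    ∃ p : Polynomial (Algebra.adjoin ℂ (Set.range ![P, Q])), p ≠ 0 ∧ H ∣ Polynomial.aeval x p := by
  by_contra hcon
  push Not at hcon
  have hy : AlgebraicIndependent ℂ ![P, Q] := by
    rw [algebraicIndependent_iff]
    intro Φ hΦ
    exact hno Φ (by rw [hΦ]; exact dvd_zero H)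
  have hx : Transcendental (Algebra.adjoin ℂ (Set.range ![P, Q])) x := by
    rw [transcendental_iff]
    intro p hp
    by_contra hp0
    exact hcon p hp0 (by rw [hp]; exact dvd_zero H)
  have hy1 := (hy.option_iff_transcendental x).2 hx
  have hH1 : Transcendental (Algebra.adjoin ℂ
      (Set.range fun o : Option (Fin 2) => o.elim x ![P, Q])) H := by
    rw [transcendental_iff]
    intro q hq
    by_contra hq0
    obtain ⟨c, hc0, hc⟩ := const_coeff _ H hH.ne_zero _ q le_rfl hq0 hq
    have hcp : ∃ p : Polynomial (Algebra.adjoin ℂ (Set.range ![P, Q])),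
        Polynomial.aeval x p = (c : R) := by
      obtain ⟨c, hcm⟩ := c
      change ∃ p : Polynomial (Algebra.adjoin ℂ (Set.range ![P, Q])),
        Polynomial.aeval x p = c
      clear hc hc0
      induction hcm using Algebra.adjoin_induction with
      | mem z hz =>
        obtain ⟨o, rfl⟩ := hz
        cases o with
        | none => exact ⟨Polynomial.X, Polynomial.aeval_X x⟩
        | some j =>
          exact ⟨Polynomial.C ⟨![P, Q] j, Algebra.subset_adjoin ⟨j, rfl⟩⟩, Polynomial.aeval_C _ _⟩
      | algebraMap r =>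
        exact ⟨Polynomial.C (algebraMap ℂ _ r), Polynomial.aeval_C _ _⟩
      | add a b _ _ ha hb =>
        obtain ⟨p, hp⟩ := ha
        obtain ⟨p', hp'⟩ := hb
        exact ⟨p + p', by rw [map_add, hp, hp']⟩
      | mul a b _ _ ha hb =>
        obtain ⟨p, hp⟩ := ha
        obtain ⟨p', hp'⟩ := hb
        exact ⟨p * p', by rw [map_mul, hp, hp']⟩
    obtain ⟨p, hp⟩ := hcp
    refine hcon p ?_ (by rw [hp]; exact hc)
    rintro rfl
    rw [map_zero] at hp
    exact hc0 (Subtype.ext hp.symm)
  have hy2 := (hy1.option_iff_transcendental H).2 hH1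
  have h1 := hy2.cardinalMk_le_trdeg
  rw [MvPolynomial.trdeg_of_isDomain] at h1
  simp only [Cardinal.mk_fintype, Fintype.card_option, Fintype.card_fin, Cardinal.lift_natCast,
    Nat.cast_le] at h1
  omega

/-- the derivation of a polynomial in `x` -/
theorem der_aeval {S : Type} [AddCommGroup S] [Module R S] [Module ℂ S] [IsScalarTower ℂ R S]
    (B : Subalgebra ℂ R)
    (D : Derivation ℂ R S) (hB : ∀ b ∈ B, D b = 0) (x : R) (p : Polynomial B) :
    D (Polynomial.aeval x p) = Polynomial.aeval x (Polynomial.derivative p) • D x := by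
  induction p using Polynomial.induction_on' with
  | add p q hp hq => rw [map_add, map_add, hp, hq, Polynomial.derivative_add, map_add, add_smul]
  | monomial n b =>
    rw [Polynomial.aeval_monomial, Derivation.leibniz, Derivation.leibniz_pow,
      Polynomial.derivative_monomial, Polynomial.aeval_monomial]
    have hb : D (algebraMap B R b) = 0 := hB _ b.2
    rw [hb, smul_zero, add_zero, ← Nat.cast_smul_eq_nsmul R, smul_smul, smul_smul, map_mul,
      map_natCast]

end Vertaux

open Vertaux in
theorem stmVert : StmVert := by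
  intro P Q H hH _ hJ
  by_contra hcon
  push Not at hcon
  have hno : ∀ Φ : MvPolynomial (Fin 2) ℂ, H ∣ aeval ![P, Q] Φ → Φ = 0 := by
    intro Φ hΦ
    by_contra h0
    exact hcon Φ h0 hΦ
  have hprime : Prime H := hH.prime
  have hpI : (Ideal.span {H} : Ideal R).IsPrime :=
    (Ideal.span_singleton_prime hH.ne_zero).2 hprime
  let S := R ⧸ (Ideal.span {H} : Ideal R)
  let mk : R →+* S := Ideal.Quotient.mk _
  have hmk : ∀ a : R, mk a = 0 ↔ H ∣ a := fun a => by
    rw [Ideal.Quotient.eq_zero_iff_mem, Ideal.mem_span_singleton]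
  -- the matrix
  let M : Matrix (Fin 3) (Fin 3) S := fun i l => mk (pderiv l (![P, Q, H] i))
  have hdet : M.det = 0 := by
    have h1 : mk (jac P Q H) = 0 := (hmk _).2 hJ
    have h2 : M.det = mk (jac P Q H) := by
      rw [Matrix.det_fin_three]
      have e : jac P Q H = ∑ l : Fin 3, crs (fun m => pderiv m P) (fun m => pderiv m Q) l *
          pderiv l H := by
        unfold jac
        rw [Fin.sum_univ_three, Fin.sum_univ_three]
        rfl
      rw [e, Fin.sum_univ_three]
      unfold crs
      simp only [map_add, map_mul, map_sub]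
      change mk (pderiv 0 P) * mk (pderiv 1 Q) * mk (pderiv 2 H) - mk (pderiv 0 P) *
        mk (pderiv 2 Q) * mk (pderiv 1 H) - mk (pderiv 1 P) * mk (pderiv 0 Q) * mk (pderiv 2 H) +
        mk (pderiv 1 P) * mk (pderiv 2 Q) * mk (pderiv 0 H) + mk (pderiv 2 P) * mk (pderiv 0 Q) *
        mk (pderiv 1 H) - mk (pderiv 2 P) * mk (pderiv 1 Q) * mk (pderiv 0 H) =
        (mk (pderiv 1 P) * mk (pderiv 2 Q) - mk (pderiv 2 P) * mk (pderiv 1 Q)) *
          mk (pderiv 0 H) +
        (mk (pderiv 2 P) * mk (pderiv 0 Q) - mk (pderiv 0 P) * mk (pderiv 2 Q)) *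
          mk (pderiv 1 H) +
        (mk (pderiv 0 P) * mk (pderiv 1 Q) - mk (pderiv 1 P) * mk (pderiv 0 Q)) *
          mk (pderiv 2 H)
      ring
    rw [h2, h1]
  obtain ⟨v, hv0, hv⟩ := Matrix.exists_mulVec_eq_zero_iff.2 hdet
  -- the derivation
  let D : Derivation ℂ R S :=
    ∑ l : Fin 3, (LinearMap.toSpanSingleton R S (v l)).compDer (pderiv l)
  have hD : ∀ a : R, D a = ∑ l : Fin 3, mk (pderiv l a) * v l := by
    intro a
    simp only [D, Fin.sum_univ_three]
    rfl
  have hDi : ∀ i, D (![P, Q, H] i) = 0 := by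
    intro i
    rw [hD]
    exact congrFun hv i
  have hDP : D P = 0 := hDi 0
  have hDQ : D Q = 0 := hDi 1
  have hDH : D H = 0 := hDi 2
  have hB : ∀ b ∈ Algebra.adjoin ℂ (Set.range ![P, Q]), D b = 0 := by
    intro b hb
    have h1 : Set.EqOn D (0 : Derivation ℂ R S) (Set.range ![P, Q]) := by
      rintro _ ⟨j, rfl⟩
      fin_cases j
      · exact hDP
      · exact hDQ
    exact Derivation.eqOn_adjoin h1 hb
  have hx0 : ∀ x : R, D x = 0 := by
    intro x
    classical
    have hex : ∃ n : ℕ, ∃ p : Polynomial (Algebra.adjoin ℂ (Set.range ![P, Q])), p ≠ 0 ∧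
        H ∣ Polynomial.aeval x p ∧ p.natDegree = n := by
      obtain ⟨p, h1, h2⟩ := relation P Q H hH hno x
      exact ⟨_, p, h1, h2, rfl⟩
    obtain ⟨p, hp0, hpd, hpn⟩ := Nat.find_spec hex
    have hder : ¬ H ∣ Polynomial.aeval x (Polynomial.derivative p) := by
      intro hd
      have hd0 : Polynomial.derivative p ≠ 0 := by
        intro h0
        have h1 := Polynomial.derivative_eq_zero.1 h0
        have h2 := Polynomial.eq_C_of_natDegree_eq_zero h1
        rw [h2, Polynomial.aeval_C] at hpd
        obtain ⟨b, hb⟩ : ∃ b, b = p.coeff 0 := ⟨_, rfl⟩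
        have h3 : ∀ c : R, c ∈ Algebra.adjoin ℂ (Set.range ![P, Q]) →
            ∃ Φ : MvPolynomial (Fin 2) ℂ, aeval ![P, Q] Φ = c := by
          intro c hc
          rw [Algebra.adjoin_range_eq_range_aeval] at hc
          obtain ⟨Φ, hΦ⟩ := hc
          exact ⟨Φ, hΦ⟩
        obtain ⟨Φ, hΦ⟩ := h3 b b.2
        rw [← hb] at hpd h2
        have h5 : Φ = 0 := hno Φ (by rw [hΦ]; exact hpd)
        rw [h5, map_zero] at hΦ
        have h6 : b = 0 := Subtype.ext hΦ.symm
        rw [h6, Polynomial.C_0] at h2
        exact hp0 h2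
      have hlt : (Polynomial.derivative p).natDegree < Nat.find hex := by
        rw [← hpn]
        refine Polynomial.natDegree_derivative_lt ?_
        intro h1
        rw [Polynomial.eq_C_of_natDegree_eq_zero h1, Polynomial.derivative_C] at hd0
        exact hd0 rfl
      exact Nat.find_min hex hlt ⟨_, hd0, hd, rfl⟩
    have h1 : D (Polynomial.aeval x p) = 0 := by
      obtain ⟨g, hg⟩ := hpd
      rw [hg, Derivation.leibniz, hDH, smul_zero, add_zero]
      change mk H * D g = 0
      rw [(hmk H).2 (dvd_refl H), zero_mul]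
    rw [der_aeval _ D hB] at h1
    have h2 : mk (Polynomial.aeval x (Polynomial.derivative p)) * D x = 0 := h1
    exact (mul_eq_zero.1 h2).resolve_left fun h3 => hder ((hmk _).1 h3)
  apply hv0
  funext l
  have h1 := hx0 (X l)
  rw [hD, Finset.sum_eq_single l] at h1
  · rw [pderiv_X_self, map_one, one_mul] at h1
    exact h1
  · intro k _ hk
    rw [pderiv_X_of_ne (Ne.symm hk), map_zero, zero_mul]
  · intro h
    exact absurd (Finset.mem_univ l) h

end Pool.Agent.N127.PB
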