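import Pool.Agent.N127.PB.Stm2
import Pool.Agent.N127.PB.Loc2
import Pool.Agent.N127.PB.Vert
import Pool.Agent.N127.PB.QR
import Pool.Agent.N127.PB.Eul
import Pool.Agent.N127.PB.Sat
import Pool.Agent.N127.PB.H2

set_option autoImplicit false

/-! # Pencils with a good base locus: there is no solution -/

namespace Pool.Agent.N127.PB

open MvPolynomial

namespace RFin

/-- the normal vector -/
noncomputable def nn (P Q : R) : Fin 3 → R := crs (fun m => pderiv m P) (fun m => pderiv m Q)

theorem jac_apply (P Q a : R) : jac P Q a = ∑ l, nn P Q l * pderiv l a := by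
  rw [jac]
  have h : ∀ (s : Finset (Fin 3)) , (∑ l ∈ s, (nn P Q l) • (pderiv l : Derivation ℂ R R)) a =
      ∑ l ∈ s, nn P Q l * pderiv l a := by
    intro s
    induction s using Finset.induction_on with
    | empty => simp
    | insert x s hx ih =>
      rw [Finset.sum_insert hx, Finset.sum_insert hx, Derivation.add_apply, ih,
        Derivation.smul_apply, smul_eq_mul]
  exact h Finset.univ

theorem jac_self_left (P Q : R) : jac P Q P = 0 := by
  rw [jac_apply, Fin.sum_univ_three]
  simp only [nn, crs, Fin.isValue, zero_add, Fin.reduceAdd]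
  ring

theorem jac_self_right (P Q : R) : jac P Q Q = 0 := by
  rw [jac_apply, Fin.sum_univ_three]
  simp only [nn, crs, Fin.isValue, zero_add, Fin.reduceAdd]
  ring

theorem jac_aeval (P Q : R) (Φ : MvPolynomial (Fin 2) ℂ) : jac P Q (aeval ![P, Q] Φ) = 0 := by
  induction Φ using MvPolynomial.induction_on with
  | C a => rw [algHom_C]; exact (jac P Q).map_algebraMap a
  | add p q hp hq => rw [map_add, map_add, hp, hq, add_zero]
  | mul_X p i hp =>
    rw [map_mul, Derivation.leibniz, hp, aeval_X, smul_zero, add_zero]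
    fin_cases i
    · change _ • jac P Q P = 0
      rw [jac_self_left, smul_zero]
    · change _ • jac P Q Q = 0
      rw [jac_self_right, smul_zero]

theorem aeval_homog (P Q : R) (e : ℕ) (hP : P.IsHomogeneous e) (hQ : Q.IsHomogeneous e)
    (Φ : MvPolynomial (Fin 2) ℂ) (m : ℕ) (hΦ : Φ.IsHomogeneous m) :
    (aeval ![P, Q] Φ).IsHomogeneous (e * m) := by
  rw [aeval_def, eval₂_eq']
  refine IsHomogeneous.sum _ _ _ fun d hd => ?_
  have h1 : d 0 + d 1 = m := by
    have h0 : d.degree = m := by
      rw [Finsupp.degree_eq_weight_one]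
      exact hΦ (mem_support_iff.1 hd)
    rw [← h0, Finsupp.degree_eq_sum, Fin.sum_univ_two]
  rw [Fin.prod_univ_two]
  have h2 : (algebraMap ℂ R (coeff d Φ)).IsHomogeneous 0 := isHomogeneous_C _ _
  have h3 := h2.mul ((hP.pow (d 0)).mul (hQ.pow (d 1)))
  rw [zero_add, ← mul_add, h1] at h3
  exact h3

theorem aeval_mem (P Q : R) (Φ : MvPolynomial (Fin 2) ℂ) (m : ℕ) (hΦ : Φ.IsHomogeneous m) :
    aeval ![P, Q] Φ ∈ idl P Q ^ m := by
  rw [aeval_def, eval₂_eq']
  refine Ideal.sum_mem _ fun d hd => Ideal.mul_mem_left _ _ ?_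
  have h1 : d 0 + d 1 = m := by
    have h0 : d.degree = m := by
      rw [Finsupp.degree_eq_weight_one]
      exact hΦ (mem_support_iff.1 hd)
    rw [← h0, Finsupp.degree_eq_sum, Fin.sum_univ_two]
  rw [Fin.prod_univ_two, ← h1, pow_add]
  exact Ideal.mul_mem_mul (Ideal.pow_mem_pow (Ideal.subset_span (by simp)) _)
    (Ideal.pow_mem_pow (Ideal.subset_span (by simp)) _)

/-- elements of `(P, Q) ^ i` have no components of low degree -/
theorem comp_idl (P Q : R) (e : ℕ) (hP : P.IsHomogeneous e) (hQ : Q.IsHomogeneous e) (i : ℕ) :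
    ∀ a ∈ idl P Q ^ i, ∀ n, n < e * i → homogeneousComponent n a = 0 := by
  induction i with
  | zero => intro a _ n hn; omega
  | succ i ih =>
    intro a ha
    rw [pow_succ] at ha
    refine Submodule.mul_induction_on ha ?_ ?_
    · intro y hy z hz n hn
      rw [idl, Ideal.mem_span_pair] at hz
      obtain ⟨c, c', rfl⟩ := hz
      have key : ∀ (T c : R), T.IsHomogeneous e → homogeneousComponent n (T * (c * y)) = 0 := by
        intro T c hT
        by_cases hne : n < e
        · exact comp_mul_eq_zero hT _ n hne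
        · have h1 : homogeneousComponent (n - e) (c * y) = 0 :=
            ih _ (Ideal.mul_mem_left _ _ hy) _ (by rw [mul_add, mul_one] at hn; omega)
          rw [← sum_homogeneousComponent (c * y), Finset.mul_sum, map_sum]
          refine Finset.sum_eq_zero fun j _ => ?_
          rw [homogeneousComponent_of_mem (hT.mul (homogeneousComponent_isHomogeneous j _))]
          split_ifs with h2
          · have : j = n - e := by omega
            rw [this, h1, mul_zero]
          · rfl
      have e1 : y * (c * P + c' * Q) = P * (c * y) + Q * (c' * y) := by ring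
      rw [e1, map_add, key P c hP, key Q c' hQ, add_zero]
    · intro x y hx hy n hn
      rw [map_add, hx n hn, hy n hn, add_zero]

/-- the component of a product with a homogeneous polynomial -/
theorem comp_mul {p : R} {m : ℕ} (hp : p.IsHomogeneous m) (q : R) (n : ℕ) :
    homogeneousComponent (m + n) (p * q) = p * homogeneousComponent n q := by
  conv_lhs => rw [← sum_homogeneousComponent q]
  rw [Finset.mul_sum, map_sum]
  by_cases hn : n ∈ Finset.range (q.totalDegree + 1)
  · rw [Finset.sum_eq_single_of_mem n hn]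
    · rw [homogeneousComponent_of_mem (hp.mul (homogeneousComponent_isHomogeneous n q)),
        if_pos rfl]
    · intro j _ hj
      rw [homogeneousComponent_of_mem (hp.mul (homogeneousComponent_isHomogeneous j q)), if_neg]
      omega
  · rw [homogeneousComponent_eq_zero n q (by
      rw [Finset.mem_range] at hn; omega), mul_zero]
    refine Finset.sum_eq_zero fun j hj => ?_
    rw [homogeneousComponent_of_mem (hp.mul (homogeneousComponent_isHomogeneous j q)), if_neg]
    intro h
    apply hn
    have : j = n := by omega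
    rw [← this]; exact hj

theorem jac_homog (P Q : R) (e : ℕ) (he : 2 ≤ e) (hP : P.IsHomogeneous e)
    (hQ : Q.IsHomogeneous e) (a : R) (D : ℕ) (ha : a.IsHomogeneous D) :
    (jac P Q a).IsHomogeneous (D + (2 * e - 3)) := by
  rw [jac_apply]
  refine IsHomogeneous.sum _ _ _ fun l _ => ?_
  have h1 : (nn P Q l).IsHomogeneous (2 * (e - 1)) := by
    rw [two_mul]
    exact (hP.pderiv.mul hQ.pderiv).sub (hP.pderiv.mul hQ.pderiv)
  rcases Nat.eq_zero_or_pos D with h0 | h0
  · subst h0
    rw [totalDegree_eq_zero_iff_eq_C.1 (Nat.le_zero.1 ha.totalDegree_le), pderiv_C, mul_zero]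
    exact isHomogeneous_zero _ _ _
  · have h2 := h1.mul (ha.pderiv (i := l))
    have h3 : 2 * (e - 1) + (D - 1) = D + (2 * e - 3) := by omega
    rw [h3] at h2
    exact h2

/-- the numbers are not zero -/
theorem kap_ne (e dh k j : ℕ) (he : 2 ≤ e) (hk : 0 < k) (hj : 0 < j)
    (hres : (dh : ℤ) ≠ (3 - e) * k) (α : ℂ) (hα : α * ((dh + k * e : ℕ) : ℂ) = -3) :
    ((e * j + 3 : ℕ) : ℂ) - 2 * e + α * dh ≠ 0 := by
  intro h0
  have h1 : (((e * j + 3 : ℕ) : ℂ) - 2 * e) * ((dh + k * e : ℕ) : ℂ) = 3 * dh := by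
    have := congrArg (fun z => z * ((dh + k * e : ℕ) : ℂ)) h0
    simp only [zero_mul, add_mul] at this
    linear_combination this - (dh : ℂ) * hα
  have h2 : ((e * j + 3 : ℤ) - 2 * e) * (dh + k * e) = 3 * dh := by
    have : (((((e * j + 3 : ℤ) - 2 * e) * (dh + k * e) : ℤ)) : ℂ) = ((3 * dh : ℤ) : ℂ) := by
      push_cast at h1 ⊢
      exact h1
    exact_mod_cast this
  rcases Nat.lt_or_ge 1 j with hj2 | hj1
  · have h3 : (3 : ℤ) ≤ (e * j + 3 : ℤ) - 2 * e := by
      have : (2 : ℤ) ≤ j := by exact_mod_cast hj2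
      nlinarith
    have h4 : (0 : ℤ) < k * e := by positivity
    have h5 : (0 : ℤ) ≤ dh := by positivity
    nlinarith
  · have hj1' : j = 1 := by omega
    subst hj1'
    apply hres
    have he0 : (0 : ℤ) < e := by positivity
    have h3 : (e : ℤ) * ((dh : ℤ) - (3 - e) * k) = 0 := by
      push_cast at h2
      linear_combination -h2
    rcases mul_eq_zero.1 h3 with h4 | h4
    · omega
    · linarith

/-- the homogeneous case -/
theorem no_sol_homog (hgrw : StmGRW) (P Q h a c : R) (w Φ : MvPolynomial (Fin 2) ℂ)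
    (e dh k r m D : ℕ) (he : 2 ≤ e) (hk : 0 < k) (hP : P.IsHomogeneous e)
    (hQ : Q.IsHomogeneous e) (hh : h.IsHomogeneous dh) (hgood : GoodBase P Q h)
    (hw : w.IsHomogeneous r) (hw0 : w ≠ 0) (hΦ : Φ.IsHomogeneous m) (hc : c = aeval ![P, Q] Φ)
    (hc0 : c ≠ 0) (hh0 : h ≠ 0) (α β : ℂ) (hβ : β ≠ 0)
    (hα : α * ((dh + k * e : ℕ) : ℂ) = -3) (hres : (dh : ℤ) ≠ (3 - e) * k)
    (ha : a.IsHomogeneous D) (hD : e * r + D + 2 * e = e * m + 3)
    (hE : aeval ![P, Q] w * (h * jac P Q a + C α * (a * jac P Q h)) = C β * (h * c)) :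
    False := by
  have hrm : r ≤ m := by
    by_contra hlt
    push Not at hlt
    have : e * (m + 1) ≤ e * r := Nat.mul_le_mul_left e hlt
    rw [mul_add, mul_one] at this
    omega
  obtain ⟨hrel, hsat⟩ := stmSat stmQR P Q h e dh (by omega) hP hQ hh hgood
  have key : ∀ i, i + r ≤ m → a ∈ idl P Q ^ i := by
    intro i
    induction i with
    | zero => intro _; rw [pow_zero, Ideal.one_eq_top]; exact Submodule.mem_top
    | succ i ih =>
      intro hi
      have hai := ih (by omega)
      apply hsat i a hai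
      intro l
      have e1 := stmEul P Q e hP hQ i D a hai ha l
      have e2 := stmEul P Q e hP hQ 0 dh h (by rw [pow_zero, Ideal.one_eq_top]; exact
        Submodule.mem_top) hh l
      rw [zero_add, pow_one, Nat.cast_zero, mul_zero, sub_zero] at e2
      set n : R := crs (fun m => pderiv m P) (fun m => pderiv m Q) l with hn
      set κ : ℂ := ((D : ℂ) - e * i) + α * dh with hκ
      have hκ0 : κ ≠ 0 := by
        have h1 := kap_ne e dh k (m - r - i) he hk (by omega) hres α hα
        have h2 : ((e * (m - r - i) + 3 : ℕ) : ℂ) = (D : ℂ) + 2 * e - e * i := by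
          have h3 : e * (m - r - i) + 3 + e * i = D + 2 * e := by
            have h4 : e * (m - r - i) + e * i + e * r = e * m := by
              rw [← mul_add, ← mul_add]; congr 1; omega
            omega
          have h5 : ((e * (m - r - i) + 3 + e * i : ℕ) : ℂ) = ((D + 2 * e : ℕ) : ℂ) := by
            rw [h3]
          push_cast at h5 ⊢
          linear_combination h5
        rw [h2] at h1
        intro h0
        apply h1
        rw [← h0, hκ]
        ring
      -- the element `κ n h a` lies in the ideal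
      have hdiff : X l * (h * jac P Q a + C α * (a * jac P Q h)) - C κ * (n * h * a) ∈
          idl P Q ^ (i + 1) := by
        have h1 : X l * (h * jac P Q a + C α * (a * jac P Q h)) - C κ * (n * h * a) =
            h * (X l * jac P Q a - C ((D : ℂ) - e * i) * (n * a)) +
              C α * (a * (X l * jac P Q h - C (dh : ℂ) * (n * h))) := by
          rw [hκ, C_add, C_mul]
          ring
        rw [h1]
        refine Ideal.add_mem _ (Ideal.mul_mem_left _ _ e1) (Ideal.mul_mem_left _ _ ?_)
        rw [pow_succ]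
        exact Ideal.mul_mem_mul hai e2
      have hprod : aeval ![P, Q] w * (C κ * (n * h * a)) ∈ idl P Q ^ (i + 1 + r) := by
        have h1 : aeval ![P, Q] w * (C κ * (n * h * a)) =
            C β * (X l * h * c) - aeval ![P, Q] w * (X l * (h * jac P Q a +
              C α * (a * jac P Q h)) - C κ * (n * h * a)) := by
          linear_combination (X l) * hE
        rw [h1]
        refine Ideal.sub_mem _ (Ideal.mul_mem_left _ _ (Ideal.mul_mem_left _ _ ?_)) ?_
        · rw [hc]
          exact Ideal.pow_le_pow_right (by omega) (aeval_mem P Q Φ m hΦ)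
        · rw [add_comm (i + 1) r, pow_add]
          exact Ideal.mul_mem_mul (aeval_mem P Q w r hw) hdiff
      have hy := hgrw P Q hrel w r hw hw0 i (C κ * (n * h * a))
        (Ideal.mul_mem_left _ _ (Ideal.mul_mem_left _ _ hai)) hprod
      have h2 := Ideal.mul_mem_left (idl P Q ^ (i + 1)) (C κ⁻¹) hy
      rw [← mul_assoc, ← C_mul, inv_mul_cancel₀ hκ0, C_1, one_mul] at h2
      exact h2
  have ha0 : a = 0 := by
    have h1 := key (m - r) (by omega)
    have h2 : D < e * (m - r) := by
      have : e * (m - r) + e * r = e * m := by rw [← mul_add]; congr 1; omega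
      omega
    have h3 := comp_idl P Q e hP hQ (m - r) a h1 D h2
    rw [homogeneousComponent_of_mem ha, if_pos rfl] at h3
    exact h3
  rw [ha0, map_zero, mul_zero, zero_mul, mul_zero, add_zero, mul_zero] at hE
  rcases mul_eq_zero.1 hE.symm with h1 | h1
  · exact hβ (C_eq_zero.1 h1)
  · rcases mul_eq_zero.1 h1 with h2 | h2
    · exact hh0 h2
    · exact hc0 h2

/-- a polynomial whose prime factors divide polynomials in `P` and `Q` -/
theorem exists_phi (P Q : R) (b : R) (hb : b ≠ 0) (hgood : ∀ H, Irreducible H → H ∣ b →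
    ∃ Φ : MvPolynomial (Fin 2) ℂ, Φ ≠ 0 ∧ H ∣ aeval ![P, Q] Φ) :
    ∃ Φ : MvPolynomial (Fin 2) ℂ, Φ ≠ 0 ∧ b ∣ aeval ![P, Q] Φ := by
  induction b using UniqueFactorizationMonoid.induction_on_prime with
  | h₁ => exact absurd rfl hb
  | h₂ x hx => exact ⟨1, one_ne_zero, hx.dvd⟩
  | h₃ a p ha hp ih =>
    obtain ⟨Φ, hΦ, hd⟩ := ih ha (fun H hH hHa => hgood H hH (hHa.mul_left p))
    obtain ⟨Ψ, hΨ, hd'⟩ := hgood p hp.irreducible (dvd_mul_right _ _)
    exact ⟨Ψ * Φ, mul_ne_zero hΨ hΦ, by rw [map_mul]; exact mul_dvd_mul hd' hd⟩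

/-- reduction to the homogeneous case -/
theorem reduce (hgrw : StmGRW) (P Q h a b : R) (w : MvPolynomial (Fin 2) ℂ)
    (e dh r : ℕ) (he : 2 ≤ e) (hP : P.IsHomogeneous e)
    (hQ : Q.IsHomogeneous e) (hh : h.IsHomogeneous dh) (hrel : IsRelPrime P Q)
    (hw : w.IsHomogeneous r) (hw0 : w ≠ 0) (hh0 : h ≠ 0) (hb : b ≠ 0) (hab : IsRelPrime a b)
    (α β : ℂ) (hβ : β ≠ 0) (hne : ∀ n i : ℕ, 0 < n → α * n ≠ i)
    (hE : DEq (jac P Q) (aeval ![P, Q] w) h a b α β) :
    ∃ (m D : ℕ) (Ψ : MvPolynomial (Fin 2) ℂ) (a' : R), Ψ.IsHomogeneous m ∧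
      aeval ![P, Q] Ψ ≠ 0 ∧ a'.IsHomogeneous D ∧ e * r + D + 2 * e = e * m + 3 ∧
      aeval ![P, Q] w * (h * jac P Q a' + C α * (a' * jac P Q h)) =
        C β * (h * aeval ![P, Q] Ψ) := by
  classical
  -- the derivation is not zero
  have hjac : ∃ a, jac P Q a ≠ 0 := by
    by_contra hj
    push Not at hj
    rw [DEq, hj, hj, hj, mul_zero, mul_zero, sub_zero, mul_zero, mul_zero, mul_zero, add_zero,
      mul_zero] at hE
    rcases mul_eq_zero.1 hE.symm with h1 | h1
    · exact hβ (C_eq_zero.1 h1)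
    · rcases mul_eq_zero.1 h1 with h2 | h2
      · exact hh0 h2
      · exact hb (pow_eq_zero_iff (two_ne_zero) |>.1 h2)
  -- the denominator
  obtain ⟨Φ, hΦ0, b', hb'⟩ := exists_phi P Q b hb (by
    intro H hH hHb
    have hHa : ¬ H ∣ a := fun hd => hH.not_isUnit (hab hd hHb)
    have h1 := stmLoc (jac P Q) (aeval ![P, Q] w) h a b α β H hE hH hh0 hb hHa (Or.inr hHb) hne
    rcases hH.prime.dvd_or_dvd h1 with h2 | h2
    · exact ⟨w, hw0, h2⟩
    · exact stmVert P Q H hH hjac h2)
  -- nonzero binary forms do not vanish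
  have hform : ∀ (Ψ : MvPolynomial (Fin 2) ℂ) (m : ℕ), Ψ.IsHomogeneous m → Ψ ≠ 0 →
      aeval ![P, Q] Ψ ≠ 0 := by
    intro Ψ m hΨ hΨ0 h0
    have h1 := hgrw P Q hrel Ψ m hΨ hΨ0 0 1 (by rw [pow_zero, Ideal.one_eq_top]; exact
      Submodule.mem_top) (by rw [h0, zero_mul]; exact Ideal.zero_mem _)
    have h2 := comp_idl P Q e hP hQ 1 1 (by rwa [zero_add] at h1) 0 (by omega)
    rw [homogeneousComponent_of_mem (isHomogeneous_one _ _), if_pos rfl] at h2
    exact one_ne_zero h2
  -- choose a component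
  obtain ⟨m, hm⟩ : ∃ m, homogeneousComponent m Φ ≠ 0 := by
    by_contra hall
    push Not at hall
    apply hΦ0
    rw [← sum_homogeneousComponent Φ]
    exact Finset.sum_eq_zero fun i _ => hall i
  set Ψ := homogeneousComponent m Φ with hΨ
  have hΨh : Ψ.IsHomogeneous m := homogeneousComponent_isHomogeneous m Φ
  have hc0 := hform Ψ m hΨh hm
  have hcomp : homogeneousComponent (e * m) (aeval ![P, Q] Φ) = aeval ![P, Q] Ψ := by
    conv_lhs => rw [← sum_homogeneousComponent Φ]
    rw [map_sum, map_sum]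
    by_cases hmr : m ∈ Finset.range (Φ.totalDegree + 1)
    · rw [Finset.sum_eq_single_of_mem m hmr]
      · rw [homogeneousComponent_of_mem (aeval_homog P Q e hP hQ _ m hΨh), if_pos rfl]
      · intro j _ hj
        rw [homogeneousComponent_of_mem (aeval_homog P Q e hP hQ _ j
          (homogeneousComponent_isHomogeneous j Φ)), if_neg]
        intro h1
        apply hj
        exact (Nat.eq_of_mul_eq_mul_left (by omega) h1).symm
    · exfalso
      apply hm
      rw [Finset.mem_range] at hmr
      exact homogeneousComponent_eq_zero m Φ (by omega)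
  -- clear the denominator
  have hE1 : aeval ![P, Q] w * (h * jac P Q (a * b') + C α * (a * b' * jac P Q h)) =
      C β * (h * aeval ![P, Q] Φ) := by
    have hc : aeval ![P, Q] Φ ≠ 0 := by
      intro h0
      rw [h0, map_zero] at hcomp
      exact hc0 hcomp.symm
    have hjc := jac_aeval P Q Φ
    apply mul_left_cancel₀ hc
    rw [DEq] at hE
    rw [hb'] at hjc ⊢
    rw [Derivation.leibniz, smul_eq_mul, smul_eq_mul] at hjc ⊢
    linear_combination (b' ^ 2) * hE + (aeval ![P, Q] w * h * a * b') * hjc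
  -- the homogeneous components
  set a' := a * b' with ha'
  let EE : R → R := fun a => aeval ![P, Q] w * (h * jac P Q a + C α * (a * jac P Q h))
  have hEEh : ∀ (D : ℕ) (y : R), y.IsHomogeneous D →
      (EE y).IsHomogeneous (e * r + (dh + (D + (2 * e - 3)))) := by
    intro D y hy
    have h1 := aeval_homog P Q e hP hQ w r hw
    refine h1.mul (IsHomogeneous.add (hh.mul (jac_homog P Q e he hP hQ y D hy)) ?_)
    have h2 : (C α : R).IsHomogeneous 0 := isHomogeneous_C _ _
    have h3 := h2.mul (hy.mul (jac_homog P Q e he hP hQ h dh hh))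
    have h4 : 0 + (D + (dh + (2 * e - 3))) = dh + (D + (2 * e - 3)) := by omega
    rw [h4] at h3
    exact h3
  have hEEsum : EE a' = ∑ D ∈ Finset.range (a'.totalDegree + 1),
      EE (homogeneousComponent D a') := by
    have h1 : EE a' = EE (∑ D ∈ Finset.range (a'.totalDegree + 1),
        homogeneousComponent D a') := by rw [sum_homogeneousComponent]
    rw [h1]
    simp only [EE]
    rw [map_sum, Finset.mul_sum, Finset.sum_mul, Finset.mul_sum, ← Finset.sum_add_distrib,
      Finset.mul_sum]
  have hE2 := congrArg (homogeneousComponent (dh + e * m)) hE1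
  rw [homogeneousComponent_C_mul, comp_mul hh, hcomp] at hE2
  change homogeneousComponent (dh + e * m) (EE a') = _ at hE2
  rw [hEEsum, map_sum] at hE2
  have hR : C β * (h * aeval ![P, Q] Ψ) ≠ 0 :=
    mul_ne_zero (by rw [Ne, C_eq_zero]; exact hβ) (mul_ne_zero hh0 hc0)
  obtain ⟨D, hDm, hDne⟩ := Finset.exists_ne_zero_of_sum_ne_zero (by rw [hE2]; exact hR)
  have hDeq : dh + e * m = e * r + (dh + (D + (2 * e - 3))) := by
    rw [homogeneousComponent_of_mem (hEEh D _ (homogeneousComponent_isHomogeneous D a'))] at hDne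
    by_contra hne'
    rw [if_neg hne'] at hDne
    exact hDne rfl
  rw [Finset.sum_eq_single_of_mem D hDm] at hE2
  · rw [homogeneousComponent_of_mem (hEEh D _ (homogeneousComponent_isHomogeneous D a')),
      if_pos hDeq] at hE2
    exact ⟨m, D, Ψ, homogeneousComponent D a', hΨh, hc0,
      homogeneousComponent_isHomogeneous D a', by omega, hE2⟩
  · intro j _ hj
    rw [homogeneousComponent_of_mem (hEEh j _ (homogeneousComponent_isHomogeneous j a')),
      if_neg]
    omega

/-- **There is no solution.** -/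
theorem no_sol (hgrw : StmGRW) (P Q h a b : R) (w : MvPolynomial (Fin 2) ℂ)
    (e dh k r : ℕ) (he : 2 ≤ e) (hk : 0 < k) (hP : P.IsHomogeneous e)
    (hQ : Q.IsHomogeneous e) (hh : h.IsHomogeneous dh) (hgood : GoodBase P Q h)
    (hw : w.IsHomogeneous r) (hw0 : w ≠ 0) (hh0 : h ≠ 0) (hb : b ≠ 0) (hab : IsRelPrime a b)
    (α β : ℂ) (hβ : β ≠ 0) (hα : α * ((dh + k * e : ℕ) : ℂ) = -3)
    (hne : ∀ n i : ℕ, 0 < n → α * n ≠ i) (hres : (dh : ℤ) ≠ (3 - e) * k)
    (hE : DEq (jac P Q) (aeval ![P, Q] w) h a b α β) : False := by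
  obtain ⟨hrel, -⟩ := stmSat stmQR P Q h e dh (by omega) hP hQ hh hgood
  obtain ⟨m, D, Ψ, a', hΨ, hc0, ha', hD, hE'⟩ := reduce hgrw P Q h a b w e dh r he hP hQ hh hrel
    hw hw0 hh0 hb hab α β hβ hne hE
  exact no_sol_homog hgrw P Q h a' (aeval ![P, Q] Ψ) w Ψ e dh k r m D he hk hP hQ hh hgood hw hw0
    hΨ rfl hc0 hh0 α β hβ hα hres ha' hD hE'

end RFin

end Pool.Agent.N127.PB
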