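import Pool.Agent.N127.PB.Stm3
import Pool.Agent.N127.PB.RFin

set_option autoImplicit false

/-! # VAL: the local order at a transversal base point is a valuation -/

namespace Pool.Agent.N127.PB

open MvPolynomial

namespace Valaux

/-- a homogeneous polynomial which vanishes at `p` lies in the ideal of the line through `p` -/
theorem mem_line (p : Fin 3 → ℂ) (j : Fin 3) (hj : p j ≠ 0) (L : Ideal R)
    (hL : ∀ i, C (p j) * X i - C (p i) * X j ∈ L) (u : R) (D : ℕ) (hu : u.IsHomogeneous D)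
    (hp : eval p u = 0) : u ∈ L := by
  have h1 : aeval (fun i => (C (p j) * X i : R)) u - aeval (fun i => (C (p i) * X j : R)) u ∈ L := by
    rw [← Ideal.Quotient.eq]
    have h2 : ((Ideal.Quotient.mkₐ ℂ L).comp (aeval (fun i => (C (p j) * X i : R)))) =
        ((Ideal.Quotient.mkₐ ℂ L).comp (aeval (fun i => (C (p i) * X j : R)))) := by
      apply MvPolynomial.algHom_ext
      intro i
      rw [AlgHom.comp_apply, AlgHom.comp_apply, aeval_X, aeval_X]
      exact Ideal.Quotient.eq.2 (hL i)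
    exact DFunLike.congr_fun h2 u
  have h3 : aeval (fun i => (C (p j) * X i : R)) u = C (p j) ^ D * u := by
    conv_rhs => rw [u.as_sum]
    rw [aeval_def, eval₂_eq', Finset.mul_sum]
    refine Finset.sum_congr rfl fun d hd => ?_
    have hdeg : d 0 + d 1 + d 2 = D := by
      have h0 : d.degree = D := by
        rw [Finsupp.degree_eq_weight_one]
        exact hu (mem_support_iff.1 hd)
      rw [← h0, Finsupp.degree_eq_sum, Fin.sum_univ_three]
    rw [monomial_eq, Finsupp.prod_fintype _ _ (fun i => pow_zero _), Fin.prod_univ_three,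
      Fin.prod_univ_three, ← hdeg, MvPolynomial.algebraMap_eq]
    ring
  have h4 : aeval (fun i => (C (p i) * X j : R)) u = C (eval p u) * X j ^ D := by
    rw [aeval_def, eval₂_eq', eval_eq', map_sum, Finset.sum_mul]
    refine Finset.sum_congr rfl fun d hd => ?_
    have hdeg : d 0 + d 1 + d 2 = D := by
      have h0 : d.degree = D := by
        rw [Finsupp.degree_eq_weight_one]
        exact hu (mem_support_iff.1 hd)
      rw [← h0, Finsupp.degree_eq_sum, Fin.sum_univ_three]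
    rw [Fin.prod_univ_three, Fin.prod_univ_three, ← hdeg, MvPolynomial.algebraMap_eq]
    simp only [map_mul, map_pow]
    ring
  rw [h3, h4, hp, C_0, zero_mul, sub_zero] at h1
  have h5 := L.mul_mem_left (C ((p j)⁻¹) ^ D) h1
  rwa [← mul_assoc, ← mul_pow, ← C_mul, inv_mul_cancel₀ hj, C_1, one_pow, one_mul] at h5

/-- homogeneous coefficients for an element of an ideal with two linear generators -/
theorem rep_lin (ℓ₁ ℓ₂ : R) (h₁ : ℓ₁.IsHomogeneous 1) (h₂ : ℓ₂.IsHomogeneous 1) (P : R) (e : ℕ)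
    (he : 0 < e) (hP : P.IsHomogeneous e) (hm : P ∈ Ideal.span ({ℓ₁, ℓ₂} : Set R)) :
    ∃ A B : R, A.IsHomogeneous (e - 1) ∧ B.IsHomogeneous (e - 1) ∧ P = ℓ₁ * A + ℓ₂ * B := by
  obtain ⟨a, b, hab⟩ := Ideal.mem_span_pair.1 hm
  refine ⟨homogeneousComponent (e - 1) a, homogeneousComponent (e - 1) b,
    homogeneousComponent_isHomogeneous _ _, homogeneousComponent_isHomogeneous _ _, ?_⟩
  rw [← RFin.comp_mul h₁, ← RFin.comp_mul h₂, ← map_add, show 1 + (e - 1) = e by omega]
  have h3 : ℓ₁ * a + ℓ₂ * b = P := by rw [← hab]; ring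
  rw [h3, homogeneousComponent_of_mem hP, if_pos rfl]

theorem lin_hom (p : Fin 3 → ℂ) (i j : Fin 3) :
    (C (p j) * X i - C (p i) * X j : R).IsHomogeneous 1 := by
  have h1 : (C (p j) * X i : R).IsHomogeneous 1 := by
    have := (isHomogeneous_C (Fin 3) (p j)).mul (isHomogeneous_X ℂ i)
    rwa [zero_add] at this
  have h2 : (C (p i) * X j : R).IsHomogeneous 1 := by
    have := (isHomogeneous_C (Fin 3) (p i)).mul (isHomogeneous_X ℂ j)
    rwa [zero_add] at this
  exact h1.sub h2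

theorem tri : ∀ i j : Fin 3, i = j ∨ i = j + 1 ∨ i = j + 2 := by decide

/-- the local structure of the ideal at a transversal base point -/
theorem loc (P Q : R) (e : ℕ) (he : 0 < e) (hP : P.IsHomogeneous e) (hQ : Q.IsHomogeneous e)
    (p : Fin 3 → ℂ) (hp : p ≠ 0) (hpP : eval p P = 0) (hpQ : eval p Q = 0)
    (hl : ∃ l, eval p (crs (fun m => pderiv m P) (fun m => pderiv m Q) l) ≠ 0) :
    ∃ (s : R) (σ : ℕ), s.IsHomogeneous σ ∧ eval p s ≠ 0 ∧
      ∀ (u : R) (D : ℕ), u.IsHomogeneous D → eval p u = 0 → s * u ∈ idl P Q := by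
  obtain ⟨j, hj⟩ : ∃ j, p j ≠ 0 := by
    by_contra h
    push Not at h
    exact hp (funext h)
  obtain ⟨ℓ, hℓ⟩ : ∃ ℓ : Fin 3 → R, ℓ = fun i => C (p j) * X i - C (p i) * X j := ⟨_, rfl⟩
  have hℓh : ∀ i, (ℓ i).IsHomogeneous 1 := fun i => by rw [hℓ]; exact lin_hom p i j
  have hℓp : ∀ i, eval p (ℓ i) = 0 := fun i => by
    rw [hℓ]
    simp only [map_sub, map_mul, eval_C, eval_X]
    ring
  have hL : ∀ i, C (p j) * X i - C (p i) * X j ∈ Ideal.span ({ℓ (j + 1), ℓ (j + 2)} : Set R) := by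
    intro i
    have h0 : C (p j) * X i - C (p i) * X j = ℓ i := by rw [hℓ]
    rw [h0]
    have h1 := tri i j
    rcases h1 with h1 | h1 | h1
    · have : ℓ i = 0 := by rw [hℓ, h1]; ring
      rw [this]
      exact Ideal.zero_mem _
    · rw [h1]; exact Ideal.subset_span (by simp)
    · rw [h1]; exact Ideal.subset_span (by simp)
  have hmem := mem_line p j hj _ hL
  obtain ⟨A₁, A₂, hA₁, hA₂, hPA⟩ := rep_lin _ _ (hℓh (j + 1)) (hℓh (j + 2)) P e he hP
    (hmem P e hP hpP)
  obtain ⟨B₁, B₂, hB₁, hB₂, hQB⟩ := rep_lin _ _ (hℓh (j + 1)) (hℓh (j + 2)) Q e he hQ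
    (hmem Q e hQ hpQ)
  refine ⟨A₁ * B₂ - A₂ * B₁, (e - 1) + (e - 1), (hA₁.mul hB₂).sub (hA₂.mul hB₁), ?_, ?_⟩
  · intro h0
    obtain ⟨l, hl⟩ := hl
    apply hl
    rw [map_sub, map_mul, map_mul] at h0
    rw [hPA, hQB]
    simp only [crs, Derivation.leibniz, smul_eq_mul, map_sub, map_mul, map_add, hℓp, zero_mul,
      zero_add]
    linear_combination (eval p (pderiv (l + 1) (ℓ (j + 1))) * eval p (pderiv (l + 2) (ℓ (j + 2))) -
      eval p (pderiv (l + 2) (ℓ (j + 1))) * eval p (pderiv (l + 1) (ℓ (j + 2)))) * h0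
  · intro u D hu hu0
    obtain ⟨a, b, hab⟩ := Ideal.mem_span_pair.1 (hmem u D hu hu0)
    rw [idl, Ideal.mem_span_pair]
    refine ⟨a * B₂ - b * B₁, b * A₁ - a * A₂, ?_⟩
    rw [hPA, hQB, ← hab]
    ring

/-- homogeneous coefficients -/
theorem rep_hom (P Q : R) (e : ℕ) (hP : P.IsHomogeneous e) (hQ : Q.IsHomogeneous e) (n D : ℕ)
    (v : R) (hv : v ∈ idl P Q ^ n) (hD : v.IsHomogeneous D) (hv0 : v ≠ 0) :
    ∃ w : ℕ → R, (∀ j, (w j).IsHomogeneous (D - e * n)) ∧
      v = ∑ j ∈ Finset.range (n + 1), w j * P ^ (n - j) * Q ^ j := by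
  have h1 : e * n ≤ D := by
    by_contra h
    push Not at h
    have h2 := RFin.comp_idl P Q e hP hQ n v hv D h
    rw [homogeneousComponent_of_mem hD, if_pos rfl] at h2
    exact hv0 h2
  obtain ⟨w, hw⟩ := Sataux.rep P Q n v hv
  refine ⟨fun j => homogeneousComponent (D - e * n) (w j),
    fun j => homogeneousComponent_isHomogeneous _ _, ?_⟩
  have h2 : homogeneousComponent D v = v := by rw [homogeneousComponent_of_mem hD, if_pos rfl]
  conv_lhs => rw [← h2, hw]
  rw [map_sum]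
  refine Finset.sum_congr rfl fun j hj => ?_
  have hj' : j ≤ n := Nat.lt_succ_iff.1 (Finset.mem_range.1 hj)
  have h3 : (P ^ (n - j) * Q ^ j).IsHomogeneous (e * n) := by
    have := (hP.pow (n - j)).mul (hQ.pow j)
    rwa [← mul_add, Nat.sub_add_cancel hj'] at this
  have h4 : w j * P ^ (n - j) * Q ^ j = P ^ (n - j) * Q ^ j * w j := by ring
  rw [h4, show D = e * n + (D - e * n) by omega, RFin.comp_mul h3,
    show e * n + (D - e * n) - e * n = D - e * n by omega]
  ring

/-- one of the coefficients does not vanish at `p` -/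
theorem coeff_ne (P Q : R) (e : ℕ) (he : 0 < e) (hP : P.IsHomogeneous e) (hQ : Q.IsHomogeneous e)
    (p : Fin 3 → ℂ) (hp : p ≠ 0) (hpP : eval p P = 0) (hpQ : eval p Q = 0)
    (hl : ∃ l, eval p (crs (fun m => pderiv m P) (fun m => pderiv m Q) l) ≠ 0)
    (u : R) (n : ℕ) (h2 : ¬ OO P Q p (n + 1) u) (s : R) (σ : ℕ) (hs : s.IsHomogeneous σ)
    (hsp : eval p s ≠ 0) (w : ℕ → R) (D : ℕ) (hw : ∀ j, (w j).IsHomogeneous D)
    (hsu : s * u = ∑ j ∈ Finset.range (n + 1), w j * P ^ (n - j) * Q ^ j) :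
    ∃ j, j ≤ n ∧ eval p (w j) ≠ 0 := by
  by_contra h
  push Not at h
  obtain ⟨t, τ, ht, htp, htu⟩ := loc P Q e he hP hQ p hp hpP hpQ hl
  apply h2
  refine ⟨t * s, τ + σ, ht.mul hs, ?_, ?_⟩
  · rw [map_mul]
    exact mul_ne_zero htp hsp
  · rw [mul_assoc, hsu, Finset.mul_sum]
    refine Ideal.sum_mem _ fun j hj => ?_
    have hj' : j ≤ n := Nat.lt_succ_iff.1 (Finset.mem_range.1 hj)
    have h3 := Ideal.mul_mem_mul (htu (w j) D (hw j) (h j hj')) (Sataux.term_mem P Q hj')
    rw [← pow_succ'] at h3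
    have h4 : t * (w j * P ^ (n - j) * Q ^ j) = t * w j * (P ^ (n - j) * Q ^ j) := by ring
    rw [h4]
    exact h3

/-- the product of two forms in `P`, `Q` -/
theorem prod_sum (P Q : R) (u v : ℕ → R) (n m : ℕ) :
    (∑ j ∈ Finset.range (n + 1), u j * P ^ (n - j) * Q ^ j) *
      (∑ k ∈ Finset.range (m + 1), v k * P ^ (m - k) * Q ^ k) =
    ∑ l ∈ Finset.range (n + m + 1),
      (∑ x ∈ (Finset.range (n + 1) ×ˢ Finset.range (m + 1)).filter (fun x => x.1 + x.2 = l),
        u x.1 * v x.2) * P ^ (n + m - l) * Q ^ l := by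
  rw [Finset.sum_mul_sum, ← Finset.sum_product',
    ← Finset.sum_fiberwise_of_maps_to (s := Finset.range (n + 1) ×ˢ Finset.range (m + 1))
      (t := Finset.range (n + m + 1)) (g := fun x => x.1 + x.2)]
  · refine Finset.sum_congr rfl fun l hl => ?_
    rw [Finset.sum_mul, Finset.sum_mul]
    refine Finset.sum_congr rfl fun x hx => ?_
    rw [Finset.mem_filter, Finset.mem_product, Finset.mem_range, Finset.mem_range] at hx
    obtain ⟨⟨hx1, hx2⟩, hx3⟩ := hx
    rw [← hx3, show n + m - (x.1 + x.2) = (n - x.1) + (m - x.2) by omega, pow_add, pow_add]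
    ring
  · intro x hx
    rw [Finset.mem_product, Finset.mem_range, Finset.mem_range] at hx
    rw [Finset.mem_range]
    omega

end Valaux

open Valaux in
theorem stmVal : StmVal := by
  classical
  intro P Q e he hP hQ hrel p hp hpP hpQ hl u v Du Dv n m hu hv hu1 hu2 hv1 hv2 huv
  obtain ⟨s, σ, hs, hsp, hsu⟩ := hu1
  obtain ⟨t, τ, ht, htp, htv⟩ := hv1
  obtain ⟨r, ρ, hr, hrp, hruv⟩ := huv
  have ne0 : ∀ {x : R}, eval p x ≠ 0 → x ≠ 0 := by
    intro x hx h0
    rw [h0, map_zero] at hx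
    exact hx rfl
  have hu0 : u ≠ 0 := by
    intro h0
    apply hu2
    refine ⟨1, 0, isHomogeneous_one _ _, ?_, ?_⟩
    · rw [map_one]; exact one_ne_zero
    · rw [h0, mul_zero]; exact Ideal.zero_mem _
  have hv0 : v ≠ 0 := by
    intro h0
    apply hv2
    refine ⟨1, 0, isHomogeneous_one _ _, ?_, ?_⟩
    · rw [map_one]; exact one_ne_zero
    · rw [h0, mul_zero]; exact Ideal.zero_mem _
  obtain ⟨a, ha, hau⟩ := rep_hom P Q e hP hQ n _ _ hsu (hs.mul hu) (mul_ne_zero (ne0 hsp) hu0)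
  obtain ⟨b, hb, hbv⟩ := rep_hom P Q e hP hQ m _ _ htv (ht.mul hv) (mul_ne_zero (ne0 htp) hv0)
  have hA := coeff_ne P Q e he hP hQ p hp hpP hpQ hl u n hu2 s σ hs hsp a _ ha hau
  have hB := coeff_ne P Q e he hP hQ p hp hpP hpQ hl v m hv2 t τ ht htp b _ hb hbv
  have hprod := prod_sum P Q a b n m
  obtain ⟨W, hW⟩ : ∃ W : ℕ → R, W = fun l =>
      ∑ x ∈ (Finset.range (n + 1) ×ˢ Finset.range (m + 1)).filter (fun x => x.1 + x.2 = l),
        a x.1 * b x.2 := ⟨_, rfl⟩
  have hprod' : (s * u) * (t * v) = ∑ l ∈ Finset.range (n + m + 1),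
      W l * P ^ (n + m - l) * Q ^ l := by
    rw [hau, hbv, hprod, hW]
  have h1 : ∑ l ∈ Finset.range (n + m + 1), (r * W l) * P ^ (n + m - l) * Q ^ l ∈
      idl P Q ^ (n + m + 1) := by
    have h2 : ∑ l ∈ Finset.range (n + m + 1), (r * W l) * P ^ (n + m - l) * Q ^ l =
        s * t * (r * (u * v)) := by
      have h3 : s * t * (r * (u * v)) = r * ((s * u) * (t * v)) := by ring
      rw [h3, hprod', Finset.mul_sum]
      refine Finset.sum_congr rfl fun l _ => ?_
      ring
    rw [h2]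
    exact Ideal.mul_mem_left _ _ hruv
  have h2 := stmQR P Q hrel (n + m) (fun l => r * W l) h1
  have hWp : ∀ l, l ≤ n + m → eval p (W l) = 0 := by
    intro l hl'
    obtain ⟨c, d, hcd⟩ := Ideal.mem_span_pair.1 (h2 l hl')
    have h3 := congrArg (eval p) hcd
    rw [map_add, map_mul, map_mul, map_mul, hpP, hpQ, mul_zero, mul_zero, add_zero] at h3
    exact (mul_eq_zero.1 h3.symm).resolve_left hrp
  -- the least indices
  have hjn : Nat.find hA ≤ n := (Nat.find_spec hA).1
  have hkm : Nat.find hB ≤ m := (Nat.find_spec hB).1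
  have h4 := hWp (Nat.find hA + Nat.find hB) (by omega)
  rw [hW] at h4
  simp only [map_sum, map_mul] at h4
  rw [Finset.sum_eq_single_of_mem (Nat.find hA, Nat.find hB)] at h4
  · exact mul_ne_zero (Nat.find_spec hA).2 (Nat.find_spec hB).2 h4
  · rw [Finset.mem_filter, Finset.mem_product, Finset.mem_range, Finset.mem_range]
    exact ⟨⟨by omega, by omega⟩, rfl⟩
  · intro x hx hne
    rw [Finset.mem_filter, Finset.mem_product, Finset.mem_range, Finset.mem_range] at hx
    obtain ⟨⟨hx1, hx2⟩, hx3⟩ := hx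
    rcases lt_trichotomy x.1 (Nat.find hA) with h5 | h5 | h5
    · have h6 : eval p (a x.1) = 0 := by
        by_contra h7
        exact Nat.find_min hA h5 ⟨by omega, h7⟩
      rw [h6, zero_mul]
    · exfalso
      apply hne
      ext
      · exact h5
      · show x.2 = Nat.find hB
        omega
    · have h6 : eval p (b x.2) = 0 := by
        by_contra h7
        exact Nat.find_min hB (m := x.2) (by omega) ⟨by omega, h7⟩
      rw [h6, mul_zero]

end Pool.Agent.N127.PB
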