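import Pool.Agent.N127.PB.Mate
import Pool.Agent.N127.PB.RPlus
import Pool.Agent.N127.PB.Lines
import Pool.Agent.N127.PB.Val
import Pool.Agent.N127.PB.SatPow
import Pool.Agent.N127.PB.Fin
import Pool.Agent.N127.PB.Chain

set_option autoImplicit false

/-! # Linear systems of forms in three variables and the root `-3/d` -/

namespace Pool.Agent.N127.PB

open Polynomial Pool.Agent.H628R4.TP Pool.Agent.W574.HS

/-- **The root `-3/d`** of `b` for the ideals `h (P, Q) ^ k`. -/
theorem main_en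
    (P Q h : R) (e dh k : ℕ) (hP : P.IsHomogeneous e) (hQ : Q.IsHomogeneous e)
    (hh : h.IsHomogeneous dh) (hk : 0 < k) (he : 0 < e) (hh0 : h ≠ 0)
    (hprim : ∀ H : R, Irreducible H → ∃ l, ¬ H ∣ th P Q l)
    (htr : ∀ H : R, Irreducible H → H ∣ h →
      ∃ l, ¬ H ∣ crs (fun m => MvPolynomial.pderiv m H) (th P Q) l)
    (hnl : 2 ≤ e ∨ ∀ ℓ : R, ℓ.IsHomogeneous 1 → (∀ H, Irreducible H → H ∣ h → H ∣ ℓ) → ℓ = 0)
    (α β : ℂ) (hα : α * ((dh + k * e : ℕ) : ℂ) = -3)
    (hEN : HasEN (gens P Q h k) (dh + k * e) α β) : β = 0 := by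
  classical
  by_contra hβ
  have hne : ∀ n i : ℕ, 0 < n → α * (n : ℂ) ≠ (i : ℂ) := fun n i hn => neg_ne _ n i hn α hα
  have hX : Irreducible (MvPolynomial.X 0 : R) :=
    (MvPolynomial.X_prime (i := (0 : Fin 3))).irreducible
  have hQ0 : Q ≠ 0 := by
    rintro rfl
    obtain ⟨l, hl⟩ := hprim _ hX
    apply hl
    rw [th, map_zero, mul_zero, zero_mul, sub_zero]
    exact dvd_zero _
  obtain ⟨N, V, hV, hEq⟩ := hEN
  obtain ⟨g, hgS, hgE⟩ := exists_g stmB stmC stmD stmE stmG P Q h e dh k hP hQ hh hk hh0 hprim α β hα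
    (fun n => by rw [mul_comm]; exact hne k n hk) N V hV hEq
  -- numerator and denominator
  obtain ⟨a, b', hrel, hab⟩ : ∃ a b' : R, b' ≠ 0 ∧ IsRelPrime a b' ∧ g * emb b' = emb a := by
    refine ⟨IsFractionRing.num R g, (IsFractionRing.den R g : R),
      nonZeroDivisors.coe_ne_zero _, IsFractionRing.num_den_reduced R g,
      (IsFractionRing.num_mul_den_eq_num_iff_eq).2 rfl⟩
  obtain ⟨hab, hgab⟩ := hab
  have hu : IsUnit b' := by
    by_contra hu
    obtain ⟨H, hHi, hHb⟩ := exists_irred_dvd b' hrel hu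
    have hH : Prime H := hHi.prime
    have hHa : ¬ H ∣ a := fun hd => hHi.not_isUnit (hab hd hHb)
    by_cases hHh : H ∣ h
    · obtain ⟨l, hl⟩ := htr H hHi hHh
      exact hl (stmH1 P Q h a b' α (k * α) β H
        (star_of P Q h a b' hQ0 hh0 hrel α (k * α) β g hgab hgE) hHi hHh hh0 hrel hHa hne l)
    · obtain ⟨a1, b1, hb1, h1⟩ := hgS H hHi hHh
      have h2 : a * b1 = a1 * b' := by
        apply emb_inj
        rw [map_mul, map_mul, ← hgab, ← h1]; ring
      have h3 : H ∣ a * b1 := by rw [h2]; exact hHb.mul_left _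
      rcases hH.dvd_or_dvd h3 with h4 | h4
      · exact hHa h4
      · exact hb1 h4
  -- `g` is a polynomial
  obtain ⟨b'', hb''⟩ := hu.exists_right_inv
  have hga : g * emb 1 = emb (a * b'') := by
    rw [map_one, mul_one, map_mul, ← hgab, mul_assoc, ← map_mul, hb'', map_one, mul_one]
  have hS := star_of P Q h (a * b'') 1 hQ0 hh0 one_ne_zero α (k * α) β g hga hgE
  by_cases he2 : 2 ≤ e
  · exact hβ (stmH2 P Q h (a * b'') α (k * α) β e dh hP hQ hh hh0 he2 hS)
  · have he1 : e = 1 := by omega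
    subst he1
    have hS1 := stmH3 P Q h (a * b'') α (k * α) β dh hP hQ hh hS
    have h0 := (hnl.resolve_left he2) _
      (MvPolynomial.homogeneousComponent_isHomogeneous 1 (a * b'')) (by
        intro H hHi hHh
        by_contra hHa
        obtain ⟨l, hl⟩ := htr H hHi hHh
        exact hl (stmH1 P Q h _ 1 α (k * α) β H hS1 hHi hHh hh0 one_ne_zero hHa hne l))
    rw [h0] at hS1
    have h1 := hS1 0
    simp only [crs, map_zero, mul_zero, zero_mul, sub_zero, add_zero, one_pow, mul_one] at h1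
    have h2 := h1.symm
    rw [neg_eq_zero] at h2
    rcases mul_eq_zero.1 h2 with h3 | h3
    · exact hβ (MvPolynomial.C_eq_zero.1 h3)
    · rcases mul_eq_zero.1 h3 with h4 | h4
      · exact hh0 h4
      · exact MvPolynomial.X_ne_zero 0 h4

/-- passing to elements of the linear span -/
theorem hasEN_span {ι κ : Type} [Fintype ι] [Fintype κ] (f : ι → R) (g : κ → R) (d : ℕ) (α β : ℂ)
    (hg : ∀ k, g k ∈ Submodule.span ℂ (Set.range f)) (h : HasEN f d α β) : HasEN g d α β := by
  classical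
  have h1 : ∀ k, ∃ c : ι → ℂ, ∑ j, c j • f j = g k := fun k =>
    (Submodule.mem_span_range_iff_exists_fun ℂ).1 (hg k)
  choose M hM using h1
  have h2 := stmSpec ι κ (Fin 3) f M d α β h
  have h3 : (fun k => ∑ j, MvPolynomial.C (M k j) * f j) = g := by
    funext k
    rw [← hM k]
    exact Finset.sum_congr rfl fun j _ => by rw [MvPolynomial.smul_eq_C_mul]
  rwa [h3] at h2

end Pool.Agent.N127.PB
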