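import Pool.Agent.N127.PB.Stm2

set_option autoImplicit false

/-! # Conditions for the root `-3/d` -/

namespace Pool.Agent.N127.PB

open MvPolynomial

/-- Conditions on a linear system `L` of forms of degree `d` in three variables `x₀, x₁, x₂`, which
imply that `-3/d` is a root of the Bernstein-Sato polynomial. In all of them `P`, `Q` are forms of
the same degree `e`, they span a pencil of plane curves, and `h ≠ 0` is a form. Notation:

* `th P Q` is the `1`-form `Q dP - P dQ`, so `th P Q ≠ 0` says that `P / Q` is not constant;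
* `crs u v` is the vector product;
* `jac P Q a` is the determinant of the gradients of `P`, `Q` and `a`;
* `gens P Q h k j = h P ^ j Q ^ (k - j)`, `0 ≤ j ≤ k`;
* `GoodBase P Q h`: at all the common zeros `p ≠ 0` of `P` and `Q` the gradients of `P` and `Q` are
  linearly independent and `h(p) ≠ 0`. In particular `GoodBase P Q 1` says that the curves `P = 0`
  and `Q = 0` meet transversally at the base points of the pencil (so there are `e ^ 2` of them). -/
inductive RootCond (L : Submodule ℂ R) (d : ℕ) : Prop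
  /-- `L` contains all `h P ^ j Q ^ (k - j)`, no member of the pencil has a multiple component
  (`Q dP - P dQ` has no divisor), and no component of `h` is contained in a member of the pencil;
  if `e = 1` then moreover `h` is not a power of a linear form. -/
  | power (P Q h : R) (e dh k : ℕ) (hP : P.IsHomogeneous e) (hQ : Q.IsHomogeneous e)
    (hh : h.IsHomogeneous dh) (hd : dh + k * e = d) (he : 0 < e) (hk : 0 < k) (hh0 : h ≠ 0)
    (hL : ∀ j, gens P Q h k j ∈ L)
    (hprim : ∀ H : R, Irreducible H → ∃ l, ¬ H ∣ th P Q l)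
    (htr : ∀ H : R, Irreducible H → H ∣ h → ∃ l, ¬ H ∣ crs (fun m => pderiv m H) (th P Q) l)
    (hnl : 2 ≤ e ∨ ∀ ℓ : R, ℓ.IsHomogeneous 1 → (∀ H, Irreducible H → H ∣ h → H ∣ ℓ) → ℓ = 0)
  /-- The curves `P = 0` and `Q = 0` of degree `e ≥ 2` meet transversally, and `L` contains two
  forms `h G(P, Q)` and `h G'(P, Q)`, where `G`, `G'` are binary forms of the same degree `k` and
  `G(P, Q) / G'(P, Q)` is not constant; `h` is arbitrary for `e ≥ 3`. For pencils of conics
  (`e = 2`) we assume that `3 (k + ν) ≠ d` for all `ν ≥ 0`, or that `h` does not vanish at the base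
  points and has degree `≠ k`. -/
  | base (P Q h : R) (G G' : MvPolynomial (Fin 2) ℂ) (e dh k : ℕ) (hP : P.IsHomogeneous e)
    (hQ : Q.IsHomogeneous e) (hh : h.IsHomogeneous dh) (hG : G.IsHomogeneous k)
    (hG' : G'.IsHomogeneous k) (hd : dh + k * e = d) (he : 2 ≤ e) (hh0 : h ≠ 0)
    (hu : h * aeval ![P, Q] G ∈ L) (hv : h * aeval ![P, Q] G' ∈ L)
    (hne : ∃ m, th (aeval ![P, Q] G) (aeval ![P, Q] G') m ≠ 0) (hgood : GoodBase P Q 1)
    (hcond : 3 ≤ e ∨ (∀ ν : ℕ, 3 * (k + ν) ≠ d) ∨ (GoodBase P Q h ∧ dh ≠ k))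
  /-- `L` contains `h P` and `h Q`, where `P` and `Q` do not depend on `x₀` and `P / Q` is not
  constant. The general line through the point `(1 : 0 : 0)` meets the curve `h = 0` in at least
  two other points (there are pairwise non-associated prime divisors `H` of `h` whose degrees in
  `x₀` have a sum `≥ 2`). If it meets it in exactly two other points then `3 deg_{x₀} h ≠ 2 d`. -/
  | lines (P Q h : R) (e dh : ℕ) (hP : P.IsHomogeneous e) (hQ : Q.IsHomogeneous e)
    (hh : h.IsHomogeneous dh) (hd : dh + e = d) (he : 0 < e) (hh0 : h ≠ 0)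
    (hu : h * P ∈ L) (hv : h * Q ∈ L) (hne : ∃ m, th P Q m ≠ 0)
    (hP0 : pderiv 0 P = 0) (hQ0 : pderiv 0 Q = 0) (S : Finset R)
    (hS : ∀ H ∈ S, Irreducible H ∧ H ∣ h) (hS' : ∀ H ∈ S, ∀ H' ∈ S, Associated H H' → H = H')
    (h2 : 2 ≤ ∑ H ∈ S, degreeOf 0 H)
    (h3 : 3 ≤ ∑ H ∈ S, degreeOf 0 H ∨ 3 * degreeOf 0 h ≠ 2 * d)
  /-- `L` contains `h P` and `h Q`, where `P / Q` is not constant, and there is no rational
  function `g = a / c` with `{g} - (3/d) g {h} / h = 1`, where `{a} = det (∇P, ∇Q, ∇a)`. For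
  `h = 1` this says that `P`, `Q` have no rational mate: `{g} = 1` has no rational solution. -/
  | mate (P Q h : R) (e dh : ℕ) (hP : P.IsHomogeneous e) (hQ : Q.IsHomogeneous e)
    (hh : h.IsHomogeneous dh) (hd : dh + e = d) (he : 0 < e) (hh0 : h ≠ 0)
    (hu : h * P ∈ L) (hv : h * Q ∈ L) (hne : ∃ m, th P Q m ≠ 0)
    (hmate : ∀ a c : R, c ≠ 0 → h * (c * jac P Q a - a * jac P Q c) -
      C (3 / (d : ℂ)) * (a * c * jac P Q h) ≠ h * c ^ 2)

end Pool.Agent.N127.PB
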