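import Pool.Agent.N127.PB.Stm

set_option autoImplicit false

/-! # Uniqueness -/

namespace Pool.Agent.N127.PB

open Polynomial

section

variable {𝕜 : Type} [Field 𝕜]

theorem ulin_eval (f₀ f₁ : 𝕜) (h : f₁ ≠ 0) : (C f₀ + X * C f₁ : 𝕜[X]).eval (-f₀ / f₁) = 0 := by
  simp only [eval_add, eval_mul, eval_C, eval_X]
  field_simp
  ring

theorem ulin_ne (f₀ f₁ : 𝕜) (h : f₁ ≠ 0) : (C f₀ + X * C f₁ : 𝕜[X]) ≠ 0 := by
  intro h0
  have h1 := congrArg (fun p => p.coeff 1) h0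
  simp only [coeff_add, coeff_C_succ, coeff_X_mul, coeff_C_zero, coeff_zero, zero_add] at h1
  exact h h1

/-- division by the linear polynomial -/
theorem ulin_dvd (f₀ f₁ : 𝕜) (h : f₁ ≠ 0) (p : 𝕜[X]) (hp : p.eval (-f₀ / f₁) = 0) :
    ∃ q : 𝕜[X], p = (C f₀ + X * C f₁) * q := by
  obtain ⟨q, hq⟩ := dvd_iff_isRoot.2 (show p.IsRoot (-f₀ / f₁) from hp)
  refine ⟨C f₁⁻¹ * q, ?_⟩
  rw [hq]
  have h1 : (C f₁ : 𝕜[X]) * C f₁⁻¹ = 1 := by rw [← C_mul, mul_inv_cancel₀ h, C_1]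
  have h2 : (C (-f₀ / f₁) : 𝕜[X]) = - (C f₀ * C f₁⁻¹) := by
    rw [← C_mul, ← C_neg]; congr 1; field_simp
  rw [h2]
  linear_combination (- X * q) * h1

theorem ulin_degree (f₀ f₁ : 𝕜) (h : f₁ ≠ 0) : (C f₀ + X * C f₁ : 𝕜[X]).degree = 1 := by
  have h1 : (C f₀ + X * C f₁ : 𝕜[X]) = C f₁ * X + C f₀ := by ring
  rw [h1]
  exact degree_linear h

theorem ulin_quot_degree (f₀ f₁ : 𝕜) (h : f₁ ≠ 0) (q : 𝕜[X]) (M : ℕ)
    (hp : ((C f₀ + X * C f₁) * q).degree < ((M + 1 : ℕ) : WithBot ℕ)) : q.degree < (M : WithBot ℕ) := by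
  by_cases hq : q = 0
  · rw [hq, degree_zero]; exact WithBot.bot_lt_coe _
  · rw [degree_mul, ulin_degree f₀ f₁ h, degree_eq_natDegree hq] at hp
    rw [degree_eq_natDegree hq]
    have : ((1 + q.natDegree : ℕ) : WithBot ℕ) < ((M + 1 : ℕ) : WithBot ℕ) := by
      push_cast at hp ⊢; exact hp
    have h3 : 1 + q.natDegree < M + 1 := by exact_mod_cast this
    have h4 : q.natDegree < M := by omega
    exact_mod_cast h4

variable [Algebra ℂ 𝕜]

theorem ulin_grad (D : Derivation ℂ 𝕜 𝕜) (f₀ f₁ : 𝕜) :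
    mapC D (C f₀ + X * C f₁) = C (D f₀) + X * C (D f₁) := by
  rw [map_add, Derivation.leibniz, mapC_C, mapC_X, mapC_C, smul_zero, add_zero, smul_eq_mul]

theorem ulin_grad_eval (D : Derivation ℂ 𝕜 𝕜) (f₀ f₁ : 𝕜) :
    (mapC D (C f₀ + X * C f₁)).eval (-f₀ / f₁) = D f₀ - f₀ / f₁ * D f₁ := by
  rw [ulin_grad]
  simp only [eval_add, eval_mul, eval_C, eval_X]
  ring

end

theorem stmD : StmD := by
  intro 𝕜 _ _ D w f₀ f₁ hf₁ θ ⟨m, hm⟩ ρ hρ hrel γ hγ M
  induction M with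
  | zero =>
    intro A hA δ hdec
    have hA0 : A = 0 := by
      rw [← degree_eq_bot]
      exact Nat.WithBot.lt_zero_iff.1 (by simpa using hA)
    have h1 := hdec m
    rw [hA0] at h1
    simp only [map_zero, mul_zero, add_zero, zero_mul, smul_zero, pow_zero, mul_one,
      zero_add] at h1
    have h2 : δ * θ m = 0 := by
      have := h1.symm
      rwa [C_eq_zero] at this
    exact (mul_eq_zero.1 h2).resolve_right hm
  | succ M ih =>
    intro A hA δ hdec
    set F : 𝕜[X] := C f₀ + X * C f₁ with hF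
    have hF0 : F ≠ 0 := ulin_ne f₀ f₁ hf₁
    have hγM : (γ - ((M + 1 : ℕ) : ℂ) + 1) ≠ 0 := by
      intro h0
      apply hγ M
      push_cast at h0
      linear_combination h0
    have hA0 : A.eval (-f₀ / f₁) = 0 := by
      have h1 := congrArg (fun p => p.eval (-f₀ / f₁)) (hdec m)
      simp only [eval_add, eval_mul, eval_zero, ulin_eval f₀ f₁ hf₁, zero_mul, zero_add, eval_pow,
        eval_C, hF] at h1
      rw [zero_pow (Nat.succ_ne_zero M), mul_zero, add_zero, eval_smul, eval_mul, ulin_grad_eval,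
        hrel] at h1
      have h2 : (γ - ((M + 1 : ℕ) : ℂ) + 1) • (A.eval (-f₀ / f₁) * (ρ * θ m)) = 0 := h1.symm
      rcases smul_eq_zero.1 h2 with h3 | h3
      · exact absurd h3 hγM
      · rcases mul_eq_zero.1 h3 with h4 | h4
        · exact h4
        · exact absurd h4 (mul_ne_zero hρ hm)
    obtain ⟨B, hB⟩ := ulin_dvd f₀ f₁ hf₁ A hA0
    have hBd : B.degree < M := ulin_quot_degree f₀ f₁ hf₁ B M (by rw [← hB]; exact hA)
    apply ih B hBd δ
    intro l
    have h1 := hdec l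
    rw [← hF] at hB
    have h2 : F * (F * (mapC (D l) B + C (w l) * B) + (γ - M + 1) • (B * mapC (D l) F) +
        C (δ * θ l) * F ^ M) = 0 := by
      rw [hB] at h1
      rw [Derivation.leibniz, smul_eq_mul, smul_eq_mul] at h1
      have h3 : (γ - ((M + 1 : ℕ) : ℂ) + 1) • (F * B * mapC (D l) F) =
          (γ - M + 1) • (F * B * mapC (D l) F) - F * B * mapC (D l) F := by
        rw [show (γ - ((M + 1 : ℕ) : ℂ) + 1) = (γ - M + 1) - 1 by push_cast; ring, sub_smul,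
          one_smul]
      rw [h3] at h1
      have h4 : F * ((γ - M + 1) • (B * mapC (D l) F)) = (γ - M + 1) • (F * B * mapC (D l) F) := by
        rw [mul_smul_comm, mul_assoc]
      rw [mul_add, mul_add, h4]
      linear_combination -h1
    exact ((mul_eq_zero.1 h2).resolve_left hF0).symm

end Pool.Agent.N127.PB
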