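import Mathlib

set_option autoImplicit false

/-! # Vector calculus over a field of rational functions: definitions -/

namespace Pool.Agent.N127.PB

open Polynomial

section Vec

variable {A : Type*} [CommRing A]

/-- the cross product -/
def crs (v w : Fin 3 → A) (l : Fin 3) : A := v (l + 1) * w (l + 2) - v (l + 2) * w (l + 1)

/-- the curl of a vector field, for three derivations -/
def curl [Algebra ℂ A] (D : Fin 3 → Derivation ℂ A A) (ζ : Fin 3 → A) (l : Fin 3) : A :=
  D (l + 1) (ζ (l + 2)) - D (l + 2) (ζ (l + 1))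

end Vec

section MapC

variable {K : Type*} [Field K] [Algebra ℂ K]

/-- the additive map which acts on the coefficients -/
noncomputable def mapC0 (δ : Derivation ℂ K K) (p : K[X]) : K[X] :=
  p.sum fun n a => monomial n (δ a)

theorem coeff_mapC0 (δ : Derivation ℂ K K) (p : K[X]) (n : ℕ) :
    (mapC0 δ p).coeff n = δ (p.coeff n) := by
  rw [mapC0, Polynomial.sum_def, finsetSum_coeff]
  simp only [coeff_monomial]
  rw [Finset.sum_ite_eq']
  split_ifs with h
  · rfl
  · rw [notMem_support_iff.1 h, map_zero]

/-- The derivation of `K[X]` which acts on the coefficients. -/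
noncomputable def mapC (δ : Derivation ℂ K K) : Derivation ℂ K[X] K[X] :=
  Derivation.mk'
    { toFun := mapC0 δ
      map_add' := fun p q => by
        ext n
        rw [coeff_mapC0, coeff_add, coeff_add, map_add, coeff_mapC0, coeff_mapC0]
      map_smul' := fun c p => by
        ext n
        rw [coeff_mapC0, RingHom.id_apply, coeff_smul, coeff_smul, Derivation.map_smul,
          coeff_mapC0] }
    (by
      intro p q
      ext n
      change (mapC0 δ (p * q)).coeff n = (p • mapC0 δ q + q • mapC0 δ p).coeff n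
      rw [coeff_mapC0, smul_eq_mul, smul_eq_mul, coeff_add, mul_comm q, coeff_mul, coeff_mul,
        coeff_mul, map_sum, ← Finset.sum_add_distrib]
      refine Finset.sum_congr rfl fun x _ => ?_
      rw [Derivation.leibniz, smul_eq_mul, smul_eq_mul, coeff_mapC0, coeff_mapC0]
      ring)

theorem coeff_mapC (δ : Derivation ℂ K K) (p : K[X]) (n : ℕ) :
    (mapC δ p).coeff n = δ (p.coeff n) := coeff_mapC0 δ p n

theorem mapC_C (δ : Derivation ℂ K K) (a : K) : mapC δ (C a) = C (δ a) := by
  ext n
  rw [coeff_mapC, coeff_C, coeff_C]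
  split_ifs
  · rfl
  · rw [map_zero]

theorem mapC_X (δ : Derivation ℂ K K) : mapC δ (X : K[X]) = 0 := by
  ext n
  rw [coeff_mapC, coeff_X, coeff_zero]
  split_ifs
  · rw [Derivation.map_one_eq_zero]
  · rw [map_zero]

theorem natDegree_mapC_le (δ : Derivation ℂ K K) (p : K[X]) :
    (mapC δ p).natDegree ≤ p.natDegree := by
  rw [natDegree_le_iff_coeff_eq_zero]
  intro n hn
  rw [coeff_mapC, coeff_eq_zero_of_natDegree_lt hn, map_zero]

theorem mapC_comm (δ δ' : Derivation ℂ K K) (h : ∀ a, δ (δ' a) = δ' (δ a)) (p : K[X]) :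
    mapC δ (mapC δ' p) = mapC δ' (mapC δ p) := by
  ext n
  rw [coeff_mapC, coeff_mapC, coeff_mapC, coeff_mapC, h]

end MapC

section Eqs

variable {K : Type*} [Field K] [Algebra ℂ K]

/-- The equation `F (curl ζ + w × ζ) + (γ - M) ∇F × ζ = - β F ^ (M + 1) x`, i.e. the 1-form
`F ^ (γ - M) ζ` has the twisted curl `- β F ^ γ x`. -/
def IsEq (D : Fin 3 → Derivation ℂ K K) (w x : Fin 3 → K) (F : K[X]) (γ β : ℂ) (M : ℕ)
    (ζ : Fin 3 → K[X]) : Prop :=
  ∀ l, F * (curl (fun m => mapC (D m)) ζ l + crs (fun m => C (w m)) ζ l) +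
    (γ - M) • crs (fun m => mapC (D m) F) ζ l = -(β • (F ^ (M + 1) * C (x l)))

/-- The decomposition `ζ = F (∇A + w A) + (γ - M + 1) A ∇F + g F ^ M θ`, i.e. `F ^ (γ - M) ζ` is
`g F ^ γ θ` plus the twisted gradient of `F ^ (γ - M + 1) A`. -/
def IsDec (D : Fin 3 → Derivation ℂ K K) (w θ : Fin 3 → K) (F : K[X]) (γ : ℂ) (M : ℕ)
    (ζ : Fin 3 → K[X]) (A : K[X]) (g : K) : Prop :=
  ∀ l, ζ l = F * (mapC (D l) A + C (w l) * A) + (γ - M + 1) • (A * mapC (D l) F) +
    C (g * θ l) * F ^ M

end Eqs

section FracR

variable {P : Type*} [CommRing P] [IsDomain P] [Algebra ℂ P]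

/-- The ring homomorphism `x ↦ x + ε D x`. -/
noncomputable def dualHom (D : Derivation ℂ P P) :
    P →+* TrivSqZeroExt (FractionRing P) (FractionRing P) where
  toFun x := TrivSqZeroExt.inl (algebraMap P (FractionRing P) x) +
    TrivSqZeroExt.inr (algebraMap P (FractionRing P) (D x))
  map_one' := by
    simp
  map_mul' x y := by
    ext
    · simp only [TrivSqZeroExt.fst_add, TrivSqZeroExt.fst_inl, TrivSqZeroExt.fst_inr,
        TrivSqZeroExt.fst_mul, map_mul, add_zero]
    · simp only [TrivSqZeroExt.snd_add, TrivSqZeroExt.snd_inl, TrivSqZeroExt.snd_inr,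
        TrivSqZeroExt.snd_mul, TrivSqZeroExt.fst_add, TrivSqZeroExt.fst_inl, TrivSqZeroExt.fst_inr,
        Derivation.leibniz, map_add, map_mul, smul_eq_mul, add_zero, zero_add,
        MulOpposite.smul_eq_mul_unop, MulOpposite.unop_op]
      ring
  map_zero' := by simp
  map_add' x y := by
    ext
    · simp only [TrivSqZeroExt.fst_add, TrivSqZeroExt.fst_inl, TrivSqZeroExt.fst_inr, map_add,
        add_zero]
    · simp only [TrivSqZeroExt.snd_add, TrivSqZeroExt.snd_inl, TrivSqZeroExt.snd_inr, map_add,
        zero_add]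

theorem dualHom_snd (D : Derivation ℂ P P) (x : P) :
    (dualHom D x).snd = algebraMap P (FractionRing P) (D x) := by
  simp only [dualHom, RingHom.coe_mk, MonoidHom.coe_mk, OneHom.coe_mk, TrivSqZeroExt.snd_add,
    TrivSqZeroExt.snd_inl, TrivSqZeroExt.snd_inr, zero_add]

theorem dualHom_fst (D : Derivation ℂ P P) (x : P) :
    (dualHom D x).fst = algebraMap P (FractionRing P) x := by
  simp only [dualHom, RingHom.coe_mk, MonoidHom.coe_mk, OneHom.coe_mk, TrivSqZeroExt.fst_add,
    TrivSqZeroExt.fst_inl, TrivSqZeroExt.fst_inr, add_zero]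

theorem dualHom_isUnit (D : Derivation ℂ P P) (y : nonZeroDivisors P) :
    IsUnit (dualHom D y) := by
  rw [TrivSqZeroExt.isUnit_iff_isUnit_fst]
  have h : TrivSqZeroExt.fst (dualHom D (y : P)) = algebraMap P (FractionRing P) y := by
    simp [dualHom]
  rw [h]
  exact IsLocalization.map_units _ y

theorem exists_extend (D : Derivation ℂ P P) :
    ∃ D' : Derivation ℂ (FractionRing P) (FractionRing P),
      ∀ x : P, D' (algebraMap P (FractionRing P) x) = algebraMap P (FractionRing P) (D x) := by
  let L : FractionRing P →+* TrivSqZeroExt (FractionRing P) (FractionRing P) :=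
    IsLocalization.lift (M := nonZeroDivisors P) (dualHom_isUnit D)
  have hL : ∀ x : P, L (algebraMap P (FractionRing P) x) = dualHom D x :=
    fun x => IsLocalization.lift_eq _ x
  have hfst : ∀ k, (L k).fst = k := by
    intro k
    have h1 : (TrivSqZeroExt.fstHom ℂ (FractionRing P) (FractionRing P)).toRingHom.comp L =
        RingHom.id _ := by
      apply IsLocalization.ringHom_ext (nonZeroDivisors P)
      ext x
      simp only [RingHom.comp_apply, hL, RingHom.id_apply]
      exact dualHom_fst D x
    exact congrArg (fun φ : FractionRing P →+* FractionRing P => φ k) h1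
  have hadd : ∀ x y, (L (x + y)).snd = (L x).snd + (L y).snd := by
    intro x y
    rw [map_add, TrivSqZeroExt.snd_add]
  have hmul : ∀ x y, (L (x * y)).snd = x * (L y).snd + y * (L x).snd := by
    intro x y
    rw [map_mul, TrivSqZeroExt.snd_mul, hfst, hfst, smul_eq_mul, MulOpposite.smul_eq_mul_unop,
      MulOpposite.unop_op]
    ring
  have hsm : ∀ (c : ℂ) k, (L (c • k)).snd = c • (L k).snd := by
    intro c k
    rw [Algebra.smul_def, hmul, IsScalarTower.algebraMap_apply ℂ P (FractionRing P), hL,
      dualHom_snd, Derivation.map_algebraMap, map_zero, mul_zero, add_zero, Algebra.smul_def,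
      IsScalarTower.algebraMap_apply ℂ P (FractionRing P)]
  refine ⟨Derivation.mk' { toFun := fun k => (L k).snd, map_add' := hadd, map_smul' := hsm } ?_, ?_⟩
  · intro x y
    exact hmul x y
  · intro x
    show (L (algebraMap P (FractionRing P) x)).snd = _
    rw [hL, dualHom_snd]

/-- The extension of a derivation to the fraction field. -/
noncomputable def extD (D : Derivation ℂ P P) : Derivation ℂ (FractionRing P) (FractionRing P) :=
  (exists_extend D).choose

theorem extD_alg (D : Derivation ℂ P P) (x : P) :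
    extD D (algebraMap P (FractionRing P) x) = algebraMap P (FractionRing P) (D x) :=
  (exists_extend D).choose_spec x

end FracR

/-- the polynomial ring in `x₀, x₁, x₂` -/
abbrev R : Type := MvPolynomial (Fin 3) ℂ

/-- the field of rational functions in `x₀, x₁, x₂` -/
abbrev K : Type := FractionRing R

/-- the inclusion -/
noncomputable abbrev emb : R →+* K := algebraMap R K

/-- the partial derivatives of rational functions -/
noncomputable def dK (l : Fin 3) : Derivation ℂ K K := extD (MvPolynomial.pderiv l)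

theorem dK_emb (l : Fin 3) (p : R) : dK l (emb p) = emb (MvPolynomial.pderiv l p) :=
  extD_alg _ p

/-- the rational functions without a pole along `H = 0` -/
def SH (H : R) (z : K) : Prop := ∃ a b : R, ¬ H ∣ b ∧ z * emb b = emb a

end Pool.Agent.N127.PB
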