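import Pool.Agent.N127.PB.Stm

set_option autoImplicit false

/-! # Exchanging the two generators (helper401) -/

namespace Pool.Agent.N127.PB

namespace PE

open Polynomial

section

variable {𝕜 : Type*} [Field 𝕜] [Algebra ℂ 𝕜]

omit [Algebra ℂ 𝕜] in
theorem refl_sub (n : ℕ) (p q : 𝕜[X]) : reflect n (p - q) = reflect n p - reflect n q := by
  ext i
  rw [coeff_reflect, coeff_sub, coeff_sub, coeff_reflect, coeff_reflect]

omit [Algebra ℂ 𝕜] in
theorem refl_neg (n : ℕ) (p : 𝕜[X]) : reflect n (-p) = - reflect n p := by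
  ext i
  rw [coeff_reflect, coeff_neg, coeff_neg, coeff_reflect]

theorem refl_smul (n : ℕ) (c : ℂ) (p : 𝕜[X]) : reflect n (c • p) = c • reflect n p := by
  ext i
  rw [coeff_reflect, coeff_smul, coeff_smul, coeff_reflect]

omit [Algebra ℂ 𝕜] in
theorem refl_refl (n : ℕ) (p : 𝕜[X]) : reflect n (reflect n p) = p := by
  ext i
  rw [coeff_reflect, coeff_reflect, revAt_invol]

theorem refl_map (n : ℕ) (δ : Derivation ℂ 𝕜 𝕜) (p : 𝕜[X]) :
    reflect n (mapC δ p) = mapC δ (reflect n p) := by
  ext i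
  rw [coeff_reflect, coeff_mapC, coeff_mapC, coeff_reflect]

omit [Algebra ℂ 𝕜] in
theorem natDegree_refl (n : ℕ) (p : 𝕜[X]) (h : p.natDegree ≤ n) : (reflect n p).natDegree ≤ n := by
  rw [natDegree_le_iff_coeff_eq_zero]
  intro i hi
  rw [coeff_reflect, revAt_eq_self_of_lt hi]
  exact coeff_eq_zero_of_natDegree_lt (lt_of_le_of_lt h hi)

omit [Algebra ℂ 𝕜] in
theorem refl_F (f₀ f₁ : 𝕜) : reflect 1 (C f₀ + X * C f₁) = C f₁ + X * C f₀ := by
  have h : X * C f₁ = C f₁ * X ^ 1 := by ring
  rw [h, reflect_add, reflect_C, reflect_C_mul_X_pow, revAt_le (le_refl 1)]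
  simp only [Nat.sub_self, pow_zero, pow_one, mul_one]
  ring

omit [Algebra ℂ 𝕜] in
theorem natDegree_F (f₀ f₁ : 𝕜) : (C f₀ + X * C f₁).natDegree ≤ 1 := by
  refine (natDegree_add_le _ _).trans (max_le (by simp) ?_)
  exact (natDegree_mul_le).trans (by simp)

omit [Algebra ℂ 𝕜] in
theorem refl_Fpow (f₀ f₁ : 𝕜) (n : ℕ) :
    reflect n ((C f₀ + X * C f₁) ^ n) = (C f₁ + X * C f₀) ^ n := by
  induction n with
  | zero =>
    rw [pow_zero, pow_zero, ← C_1, reflect_C, pow_zero, mul_one]
  | succ n ih =>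
    rw [pow_succ, pow_succ, reflect_mul _ _ _ (natDegree_F f₀ f₁), ih, refl_F]
    exact (natDegree_pow_le_of_le n (natDegree_F f₀ f₁)).trans (by simp)

omit [Algebra ℂ 𝕜] in
theorem refl_crs (a b : ℕ) (v u : Fin 3 → 𝕜[X]) (hv : ∀ l, (v l).natDegree ≤ a)
    (hu : ∀ l, (u l).natDegree ≤ b) (l : Fin 3) :
    reflect (a + b) (crs v u l) = crs (fun m => reflect a (v m)) (fun m => reflect b (u m)) l := by
  unfold crs
  rw [refl_sub, reflect_mul _ _ (hv _) (hu _), reflect_mul _ _ (hv _) (hu _)]

omit [Algebra ℂ 𝕜] in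
theorem natDegree_crs (a b : ℕ) (v u : Fin 3 → 𝕜[X]) (hv : ∀ l, (v l).natDegree ≤ a)
    (hu : ∀ l, (u l).natDegree ≤ b) (l : Fin 3) : (crs v u l).natDegree ≤ a + b := by
  unfold crs
  refine (natDegree_sub_le _ _).trans (max_le ?_ ?_)
  · exact natDegree_mul_le_of_le (hv _) (hu _)
  · exact natDegree_mul_le_of_le (hv _) (hu _)

omit [Algebra ℂ 𝕜] in
theorem refl_C0 (a : 𝕜) : reflect 0 (C a) = C a := by
  rw [reflect_C, pow_zero, mul_one]

omit [Algebra ℂ 𝕜] in
theorem refl_crsC (b : ℕ) (w : Fin 3 → 𝕜) (u : Fin 3 → 𝕜[X])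
    (hu : ∀ l, (u l).natDegree ≤ b) (l : Fin 3) :
    reflect b (crs (fun m => C (w m)) u l) =
      crs (fun m => C (w m)) (fun m => reflect b (u m)) l := by
  have h := refl_crs 0 b (fun m => C (w m)) u (fun m => by simp) hu l
  rw [zero_add] at h
  rw [h]
  simp only [refl_C0]

theorem refl_curl (b : ℕ) (D : Fin 3 → Derivation ℂ 𝕜 𝕜) (u : Fin 3 → 𝕜[X]) (l : Fin 3) :
    reflect b (curl (fun m => mapC (D m)) u l) =
      curl (fun m => mapC (D m)) (fun m => reflect b (u m)) l := by
  unfold curl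
  rw [refl_sub, refl_map, refl_map]

theorem natDegree_curl (b : ℕ) (D : Fin 3 → Derivation ℂ 𝕜 𝕜) (u : Fin 3 → 𝕜[X])
    (hu : ∀ l, (u l).natDegree ≤ b) (l : Fin 3) :
    (curl (fun m => mapC (D m)) u l).natDegree ≤ b := by
  unfold curl
  refine (natDegree_sub_le _ _).trans (max_le ?_ ?_)
  · exact (natDegree_mapC_le _ _).trans (hu _)
  · exact (natDegree_mapC_le _ _).trans (hu _)

theorem refl_mapF (δ : Derivation ℂ 𝕜 𝕜) (f₀ f₁ : 𝕜) :
    reflect 1 (mapC δ (C f₀ + X * C f₁)) = mapC δ (C f₁ + X * C f₀) := by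
  rw [refl_map, refl_F]

end

end PE

open Polynomial PE in
theorem stmE : StmE := by
  intro 𝕜 _ _ D w x θ f₀ f₁ γ β M ζ hζ
  constructor
  · intro h l
    have h1 := congrArg (reflect (1 + M)) (h l)
    rw [reflect_add, reflect_mul _ _ (natDegree_F f₀ f₁), refl_F,
      reflect_add (curl (fun m => mapC (D m)) ζ l), refl_curl,
      refl_crsC M w ζ hζ, refl_smul,
      refl_crs 1 M _ ζ (fun m => (natDegree_mapC_le _ _).trans (natDegree_F f₀ f₁)) hζ, refl_neg,
      refl_smul, add_comm 1 M] at h1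
    · have h2 : reflect (M + 1) ((C f₀ + X * C f₁) ^ (M + 1) * C (x l)) =
          (C f₁ + X * C f₀) ^ (M + 1) * C (x l) := by
        have := reflect_mul ((C f₀ + X * C f₁) ^ (M + 1)) (C (x l)) (F := M + 1) (G := 0)
          ((natDegree_pow_le_of_le (M + 1) (natDegree_F f₀ f₁)).trans (by simp)) (by simp)
        rw [add_zero] at this
        rw [this, refl_Fpow, refl_C0]
      rw [h2] at h1
      simp only [refl_mapF] at h1
      exact h1
    · refine (natDegree_add_le _ _).trans (max_le (natDegree_curl M D ζ hζ l) ?_)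
      have := natDegree_crs 0 M (fun m => C (w m)) ζ (fun m => by simp) hζ l
      rwa [zero_add] at this
  · intro A g hA h
    rcases M with _ | M
    · have hA0 : A = 0 := by
        rw [← Polynomial.degree_eq_bot]
        exact Nat.WithBot.lt_zero_iff.1 (by simpa using hA)
      refine ⟨0, by simp, fun l => ?_⟩
      have h1 := h l
      have h2 : reflect 0 (ζ l) = ζ l := by
        have h3 : ζ l = C ((ζ l).coeff 0) := eq_C_of_natDegree_le_zero (hζ l)
        rw [h3, refl_C0]
      simp only [h2, hA0] at h1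
      rw [h1]
      simp
    · have hA1 : A.natDegree ≤ M := by
        by_cases h0 : A = 0
        · simp [h0]
        · exact Nat.lt_succ_iff.1 ((Polynomial.natDegree_lt_iff_degree_lt h0).2 hA)
      refine ⟨reflect M A, ?_, fun l => ?_⟩
      · refine lt_of_le_of_lt (Polynomial.degree_le_natDegree) ?_
        have := natDegree_refl M A hA1
        exact_mod_cast Nat.lt_succ_of_le this
      · have h1 := congrArg (reflect (1 + M)) (h l)
        have e1 : (mapC (D l) A + C (w l) * A).natDegree ≤ M := by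
          refine (natDegree_add_le _ _).trans (max_le ((natDegree_mapC_le _ _).trans hA1) ?_)
          have := natDegree_mul_le_of_le (p := C (w l)) (q := A) (m := 0) (n := M) (by simp) hA1
          rwa [zero_add] at this
        have e2 : reflect (1 + M) (A * mapC (D l) (C f₁ + X * C f₀)) =
            reflect M A * mapC (D l) (C f₀ + X * C f₁) := by
          rw [add_comm 1 M, reflect_mul _ _ hA1 ((natDegree_mapC_le _ _).trans
            (natDegree_F f₁ f₀)), refl_mapF]
        have e3 : reflect M (C (w l) * A) = C (w l) * reflect M A := by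
          have := reflect_mul (C (w l)) A (F := 0) (G := M) (by simp) hA1
          rw [zero_add, refl_C0] at this
          exact this
        have e4 : reflect (1 + M) (C (g * θ l) * (C f₁ + X * C f₀) ^ (M + 1)) =
            C (g * θ l) * (C f₀ + X * C f₁) ^ (M + 1) := by
          have := reflect_mul (C (g * θ l)) ((C f₁ + X * C f₀) ^ (M + 1)) (F := 0) (G := M + 1)
            (by rw [natDegree_C])
            ((natDegree_pow_le_of_le (M + 1) (natDegree_F f₁ f₀)).trans (by simp))
          rw [zero_add, refl_C0, refl_Fpow] at this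
          rw [add_comm 1 M]
          exact this
        rw [reflect_add, reflect_add, reflect_mul _ _ (natDegree_F f₁ f₀) e1, refl_F,
          reflect_add (mapC (D l) A), refl_map, e3, refl_smul, e2, e4, add_comm 1 M] at h1
        have e5 : reflect (M + 1) ((fun l => reflect (M + 1) (ζ l)) l) = ζ l := refl_refl _ _
        rw [e5] at h1
        exact h1

end Pool.Agent.N127.PB
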