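import Pool.Agent.N127.PB.D

set_option autoImplicit false

/-! # The equation for `g` -/

namespace Pool.Agent.N127.PB

open Polynomial

theorem stmG : StmG := by
  intro 𝕜 _ _ D hcomm w x hw f₀ f₁ hf₁ θ γ β M ζ A g heq hdec l
  set F : 𝕜[X] := C f₀ + X * C f₁ with hF
  have hF0 : F ≠ 0 := ulin_ne f₀ f₁ hf₁
  have key : ∀ l, F * (C (curl D (fun m => g * θ m) l + crs w (fun m => g * θ m) l)) +
      γ • (crs (fun m => mapC (D m) F) (fun m => C (g * θ m)) l) = -(β • (F * C (x l))) := by
    intro l
    have h1 := heq l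
    -- reduce
    have h2 : F ^ M * (F * (C (curl D (fun m => g * θ m) l + crs w (fun m => g * θ m) l)) +
      γ • (crs (fun m => mapC (D m) F) (fun m => C (g * θ m)) l)) =
      F ^ M * (-(β • (F * C (x l)))) := by
      have hr : F ^ M * (-(β • (F * C (x l)))) = -(β • (F ^ (M + 1) * C (x l))) := by
        rw [mul_neg, mul_smul_comm, pow_succ, mul_assoc]
      rw [hr, ← h1]
      have hz : ∀ m, ζ m = F * (mapC (D m) A + C (w m) * A) +
        algebraMap ℂ 𝕜[X] (γ - M + 1) * (A * mapC (D m) F) + C (g * θ m) * F ^ M := by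
        intro m
        rw [hdec m, Algebra.smul_def]
      have hcc : ∀ m m' p, mapC (D m) (mapC (D m') p) = mapC (D m') (mapC (D m) p) :=
        fun m m' p => mapC_comm _ _ (hcomm m m') p
      have hpow : ∀ m, F * mapC (D m) (F ^ M) = algebraMap ℂ 𝕜[X] M * F ^ M * mapC (D m) F := by
        intro m
        rw [Derivation.leibniz_pow]
        rcases M with _ | M
        · simp
        · rw [Nat.succ_sub_one, smul_eq_mul, nsmul_eq_mul, map_natCast, pow_succ]
          ring
      have hcurl : ∀ m m', mapC (D m) (ζ m') = mapC (D m) F * (mapC (D m') A + C (w m') * A) +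
        F * (mapC (D m) (mapC (D m') A) + C (w m') * mapC (D m) A + A * C (D m (w m'))) +
        algebraMap ℂ 𝕜[X] (γ - M + 1) * (A * mapC (D m) (mapC (D m') F) +
          mapC (D m') F * mapC (D m) A) +
        (C (g * θ m') * mapC (D m) (F ^ M) + F ^ M * C (D m (g * θ m'))) := by
        intro m m'
        rw [hz m']
        simp only [map_add, Derivation.leibniz, smul_eq_mul, mapC_C, Derivation.map_algebraMap,
          mul_zero, add_zero]
        ring
      simp only [curl, crs, Algebra.smul_def]
      rw [hcurl, hcurl, hz, hz]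
      have e1 := hcc (l + 1) (l + 2) A
      have e2 := hcc (l + 1) (l + 2) F
      have e3 := hw (l + 1) (l + 2)
      have e4 := hpow (l + 1)
      have e5 := hpow (l + 2)
      simp only [C_add, C_sub, C_mul]
      simp only [map_sub, map_add, map_one] at *
      rw [e1, e2, e3]
      linear_combination (-C g * C (θ (l + 2))) * e4 + (C g * C (θ (l + 1))) * e5
    exact mul_left_cancel₀ (pow_ne_zero M hF0) h2
  have h1 := congrArg (fun p => p.coeff 1) (key l)
  have hL : ∀ a b : 𝕜, ((C a + X * C b : 𝕜[X])).coeff 1 = b := by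
    intro a b
    rw [coeff_add, coeff_C_succ, coeff_X_mul, coeff_C_zero, zero_add]
  have hrt : crs (fun m => mapC (D m) F) (fun m => C (g * θ m)) l =
      C (crs (fun m => D m f₀) (fun m => g * θ m) l) +
        X * C (crs (fun m => D m f₁) (fun m => g * θ m) l) := by
    simp only [crs, hF, ulin_grad, C_sub, C_mul]
    ring
  rw [hrt] at h1
  simp only [coeff_add, coeff_neg, coeff_smul, coeff_mul_C] at h1
  rw [hF, hL, coeff_C_succ, zero_add, coeff_X_one, one_mul] at h1
  exact h1

end Pool.Agent.N127.PB
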