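import Pool.Agent.N127.PB.Stm

set_option autoImplicit false

/-! # H1: the local analysis along a component of `h` -/

namespace Pool.Agent.N127.PB

open Polynomial

namespace H1

/-- `H ∇ (H ^ i b)` -/
theorem der_pow (H b : R) (i : ℕ) (m : Fin 3) :
    H * MvPolynomial.pderiv m (H ^ i * b) =
      H ^ i * ((i : R) * (b * MvPolynomial.pderiv m H) + H * MvPolynomial.pderiv m b) := by
  rw [Derivation.leibniz, Derivation.leibniz_pow]
  simp only [smul_eq_mul, nsmul_eq_mul]
  rcases i with _ | i
  · simp
  · rw [Nat.add_sub_cancel, pow_succ]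
    ring

end H1

theorem stmH1 : StmH1 := by
  intro P Q h a b α γ β H hst hH hHh hh hb ha hα l
  have hP : Prime H := hH.prime
  obtain ⟨h', hh1, hh2⟩ := (FiniteMultiplicity.of_not_isUnit hH.not_isUnit hh).exists_eq_pow_mul_and_not_dvd
  obtain ⟨b', hb1, hb2⟩ := (FiniteMultiplicity.of_not_isUnit hH.not_isUnit hb).exists_eq_pow_mul_and_not_dvd
  obtain ⟨n, hn⟩ : ∃ n, n = multiplicity H h := ⟨_, rfl⟩
  obtain ⟨i, hi⟩ : ∃ n, n = multiplicity H b := ⟨_, rfl⟩
  rw [← hn] at hh1
  rw [← hi] at hb1
  have hn0 : 0 < n := by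
    rcases Nat.eq_zero_or_pos n with h0 | h0
    · rw [h0, pow_zero, one_mul] at hh1
      rw [hh1] at hHh
      exact absurd hHh hh2
    · exact h0
  have hne : H ^ (n + i) ≠ 0 := pow_ne_zero _ hP.ne_zero
  have hB : ∀ m, H * MvPolynomial.pderiv m b =
      H ^ i * ((i : R) * (b' * MvPolynomial.pderiv m H) + H * MvPolynomial.pderiv m b') := by
    intro m
    rw [hb1]
    exact H1.der_pow H b' i m
  have hHd : ∀ m, H * MvPolynomial.pderiv m h =
      H ^ n * ((n : R) * (h' * MvPolynomial.pderiv m H) + H * MvPolynomial.pderiv m h') := by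
    intro m
    rw [hh1]
    exact H1.der_pow H h' n m
  have h1 := hst l
  obtain ⟨D, hD⟩ : ∃ D, D = crs (fun m => MvPolynomial.pderiv m H) (th P Q) l := ⟨_, rfl⟩
  have key : H ^ (n + i) * (h' * a * b' * MvPolynomial.C (α * n - i) * D) = H ^ (n + i) * (H *
      (-(MvPolynomial.C β * (H ^ i * h' * b' ^ 2 * MvPolynomial.X l)) -
        h' * crs (fun m => b' * MvPolynomial.pderiv m a - a * MvPolynomial.pderiv m b') (th P Q) l -
        MvPolynomial.C (γ + 2) * (h' * a * b' * crs (fun m => MvPolynomial.pderiv m Q)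
          (fun m => MvPolynomial.pderiv m P) l) -
        MvPolynomial.C α * (a * b' * crs (fun m => MvPolynomial.pderiv m h') (th P Q) l))) := by
    have h2 : H * (h * crs (fun m => b * MvPolynomial.pderiv m a - a * MvPolynomial.pderiv m b)
        (th P Q) l + MvPolynomial.C (γ + 2) * (h * a * b * crs (fun m => MvPolynomial.pderiv m Q)
        (fun m => MvPolynomial.pderiv m P) l) +
        MvPolynomial.C α * (a * b * crs (fun m => MvPolynomial.pderiv m h) (th P Q) l)) =
        H * -(MvPolynomial.C β * (h * b ^ 2 * MvPolynomial.X l)) := by rw [h1]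
    have e1 : H * (h * crs (fun m => b * MvPolynomial.pderiv m a - a * MvPolynomial.pderiv m b)
        (th P Q) l) = H ^ (n + i) * (h' * (H * crs (fun m => b' * MvPolynomial.pderiv m a -
          a * MvPolynomial.pderiv m b') (th P Q) l - (i : R) * (a * b' * D))) := by
      have c1 := hB (l + 1)
      have c2 := hB (l + 2)
      rw [hD]
      unfold crs
      rw [pow_add]
      rw [hh1]
      have d1 : H * (b * MvPolynomial.pderiv (l + 1) a - a * MvPolynomial.pderiv (l + 1) b) =
          H ^ i * (H * b' * MvPolynomial.pderiv (l + 1) a - a * ((i : R) *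
            (b' * MvPolynomial.pderiv (l + 1) H) + H * MvPolynomial.pderiv (l + 1) b')) := by
        have : H * (b * MvPolynomial.pderiv (l + 1) a - a * MvPolynomial.pderiv (l + 1) b) =
          H * b * MvPolynomial.pderiv (l + 1) a - a * (H * MvPolynomial.pderiv (l + 1) b) := by ring
        rw [this, c1, hb1]
        ring
      have d2 : H * (b * MvPolynomial.pderiv (l + 2) a - a * MvPolynomial.pderiv (l + 2) b) =
          H ^ i * (H * b' * MvPolynomial.pderiv (l + 2) a - a * ((i : R) *
            (b' * MvPolynomial.pderiv (l + 2) H) + H * MvPolynomial.pderiv (l + 2) b')) := by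
        have : H * (b * MvPolynomial.pderiv (l + 2) a - a * MvPolynomial.pderiv (l + 2) b) =
          H * b * MvPolynomial.pderiv (l + 2) a - a * (H * MvPolynomial.pderiv (l + 2) b) := by ring
        rw [this, c2, hb1]
        ring
      linear_combination (H ^ n * h' * th P Q (l + 2)) * d1 - (H ^ n * h' * th P Q (l + 1)) * d2
    have e3 : H * (a * b * crs (fun m => MvPolynomial.pderiv m h) (th P Q) l) =
        H ^ (n + i) * (a * b' * ((n : R) * (h' * D) +
          H * crs (fun m => MvPolynomial.pderiv m h') (th P Q) l)) := by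
      have c1 := hHd (l + 1)
      have c2 := hHd (l + 2)
      rw [hD]
      unfold crs
      rw [pow_add]
      rw [hb1]
      linear_combination (a * H ^ i * b' * th P Q (l + 2)) * c1 -
        (a * H ^ i * b' * th P Q (l + 1)) * c2
    have e2 : H * (MvPolynomial.C (γ + 2) * (h * a * b * crs (fun m => MvPolynomial.pderiv m Q)
        (fun m => MvPolynomial.pderiv m P) l)) = H ^ (n + i) * (H * (MvPolynomial.C (γ + 2) *
          (h' * a * b' * crs (fun m => MvPolynomial.pderiv m Q)
            (fun m => MvPolynomial.pderiv m P) l))) := by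
      rw [hh1, hb1, pow_add]
      ring
    have e4 : H * -(MvPolynomial.C β * (h * b ^ 2 * MvPolynomial.X l)) = H ^ (n + i) * (H *
        -(MvPolynomial.C β * (H ^ i * h' * b' ^ 2 * MvPolynomial.X l))) := by
      rw [hh1, hb1, pow_add]
      ring
    have e5 : (MvPolynomial.C (α * n - i) : R) = MvPolynomial.C α * (n : R) - (i : R) := by
      rw [map_sub, map_mul, map_natCast, map_natCast]
    rw [e5]
    rw [mul_add, mul_add, e1, e2, e4] at h2
    have e6 : H * (MvPolynomial.C α * (a * b * crs (fun m => MvPolynomial.pderiv m h) (th P Q) l)) =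
      MvPolynomial.C α * (H * (a * b * crs (fun m => MvPolynomial.pderiv m h) (th P Q) l)) := by ring
    rw [e6, e3] at h2
    linear_combination h2
  have h3 := mul_left_cancel₀ hne key
  have h4 : H ∣ h' * a * b' * MvPolynomial.C (α * n - i) * D := ⟨_, h3⟩
  rw [← hD]
  rcases hP.dvd_or_dvd h4 with h5 | h5
  · rcases hP.dvd_or_dvd h5 with h6 | h6
    · rcases hP.dvd_or_dvd h6 with h7 | h7
      · rcases hP.dvd_or_dvd h7 with h8 | h8
        · exact absurd h8 hh2
        · exact absurd h8 ha
      · exact absurd h7 hb2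
    · have h7 : IsUnit (MvPolynomial.C (α * n - i) : R) := by
        refine (isUnit_iff_ne_zero.2 (sub_ne_zero.2 (hα n i hn0))).map MvPolynomial.C
      exact absurd (isUnit_of_dvd_unit h6 h7) hH.not_isUnit
  · exact h5

end Pool.Agent.N127.PB
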