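import Pool.Agent.N127.PB.Stm

set_option autoImplicit false

/-! # H3: the homogeneous component of the equation -/

namespace Pool.Agent.N127.PB

open Polynomial

namespace H3

open MvPolynomial in
/-- the left side as a function of `a` -/
noncomputable def E (P Q h : R) (α γ : ℂ) (l : Fin 3) (a : R) : R :=
  h * crs (fun m => MvPolynomial.pderiv m a) (th P Q) l +
    MvPolynomial.C (γ + 2) * (h * a * crs (fun m => MvPolynomial.pderiv m Q)
      (fun m => MvPolynomial.pderiv m P) l) +
    MvPolynomial.C α * (a * crs (fun m => MvPolynomial.pderiv m h) (th P Q) l)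

theorem star_iff (P Q h a : R) (α γ β : ℂ) : StarEq P Q h a 1 α γ β ↔
    ∀ l, E P Q h α γ l a = -(MvPolynomial.C β * (h * MvPolynomial.X l)) := by
  unfold StarEq E
  refine forall_congr' fun l => ?_
  have e1 : (fun m => (1:R) * MvPolynomial.pderiv m a - a * MvPolynomial.pderiv m (1:R)) =
      fun m => MvPolynomial.pderiv m a := by
    funext m
    rw [Derivation.map_one_eq_zero, mul_zero, sub_zero, one_mul]
  rw [e1]
  simp only [mul_one, one_pow]

theorem E_add (P Q h : R) (α γ : ℂ) (l : Fin 3) (a b : R) :
    E P Q h α γ l (a + b) = E P Q h α γ l a + E P Q h α γ l b := by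
  unfold E crs
  simp only [map_add]
  ring

theorem E_zero (P Q h : R) (α γ : ℂ) (l : Fin 3) : E P Q h α γ l 0 = 0 := by
  unfold E crs
  simp only [map_zero]
  ring

theorem E_sum (P Q h : R) (α γ : ℂ) (l : Fin 3) {ι : Type} (s : Finset ι) (f : ι → R) :
    E P Q h α γ l (∑ i ∈ s, f i) = ∑ i ∈ s, E P Q h α γ l (f i) := by
  classical
  induction s using Finset.induction_on with
  | empty => rw [Finset.sum_empty, Finset.sum_empty, E_zero]
  | insert a s ha ih => rw [Finset.sum_insert ha, Finset.sum_insert ha, E_add, ih]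

theorem hom_der {q t : R} {i j : ℕ} (hq : q.IsHomogeneous i) (ht : t.IsHomogeneous (j + 1))
    (m : Fin 3) : (MvPolynomial.pderiv m q * t).IsHomogeneous (i + j) := by
  rcases i with _ | i
  · have h1 : q = MvPolynomial.C (MvPolynomial.coeff 0 q) := by
      rw [← MvPolynomial.totalDegree_eq_zero_iff_eq_C]
      have := hq.totalDegree_le
      omega
    rw [h1, MvPolynomial.pderiv_C, zero_mul]
    exact MvPolynomial.isHomogeneous_zero _ _ _
  · have h1 := (hq.pderiv (i := m)).mul ht
    have h2 : i + 1 - 1 + (j + 1) = i + 1 + j := by omega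
    rwa [h2] at h1

theorem hom_crs {v w : Fin 3 → R} {n : ℕ} (h : ∀ i j, (v i * w j).IsHomogeneous n) (l : Fin 3) :
    (crs v w l).IsHomogeneous n := by
  unfold crs
  exact (h _ _).sub (h _ _)

theorem hom_E {P Q h : R} (α γ : ℂ) {dh i : ℕ} (hP : P.IsHomogeneous 1) (hQ : Q.IsHomogeneous 1)
    (hh : h.IsHomogeneous dh) {a : R} (ha : a.IsHomogeneous i) (l : Fin 3) :
    (E P Q h α γ l a).IsHomogeneous (dh + i) := by
  have hth : ∀ m, (th P Q m).IsHomogeneous 1 := by
    intro m
    unfold th
    have h1 := hQ.mul (hP.pderiv (i := m))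
    have h2 := hP.mul (hQ.pderiv (i := m))
    exact h1.sub h2
  unfold E
  refine ((?_ : MvPolynomial.IsHomogeneous _ _).add ?_).add ?_
  · refine hh.mul (hom_crs (fun x y => ?_) l)
    have := hom_der (j := 0) ha (hth y) x
    rwa [add_zero] at this
  · have h1 : (crs (fun m => MvPolynomial.pderiv m Q) (fun m => MvPolynomial.pderiv m P) l).IsHomogeneous
        0 := by
      refine hom_crs (fun x y => ?_) l
      exact (hQ.pderiv (i := x)).mul (hP.pderiv (i := y))
    have h2 := (MvPolynomial.isHomogeneous_C (Fin 3) (γ + 2)).mul ((hh.mul ha).mul h1)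
    rw [zero_add, add_zero] at h2
    exact h2
  · have h1 : (crs (fun m => MvPolynomial.pderiv m h) (th P Q) l).IsHomogeneous dh := by
      refine hom_crs (fun x y => ?_) l
      have := hom_der (j := 0) hh (hth y) x
      rwa [add_zero] at this
    have h2 := (MvPolynomial.isHomogeneous_C (Fin 3) α).mul (ha.mul h1)
    rw [zero_add, add_comm] at h2
    exact h2

end H3

open H3

theorem stmH3 : StmH3 := by
  intro P Q h a α γ β dh hP hQ hh hst
  rw [star_iff] at hst ⊢
  intro l
  have h1 := hst l
  have h2 : E P Q h α γ l a = ∑ i ∈ Finset.range (a.totalDegree + 1),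
      E P Q h α γ l (MvPolynomial.homogeneousComponent i a) := by
    rw [← E_sum, MvPolynomial.sum_homogeneousComponent]
  have h3 : MvPolynomial.homogeneousComponent (dh + 1) (E P Q h α γ l a) =
      E P Q h α γ l (MvPolynomial.homogeneousComponent 1 a) := by
    rw [h2, map_sum]
    have h4 : ∀ i, MvPolynomial.homogeneousComponent (dh + 1)
        (E P Q h α γ l (MvPolynomial.homogeneousComponent i a)) =
        if i = 1 then E P Q h α γ l (MvPolynomial.homogeneousComponent i a) else 0 := by
      intro i
      rw [MvPolynomial.homogeneousComponent_of_mem (n := dh + i)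
        (hom_E α γ hP hQ hh (MvPolynomial.homogeneousComponent_isHomogeneous i a) l)]
      by_cases h5 : i = 1
      · rw [if_pos h5, if_pos (by rw [h5])]
      · rw [if_neg h5, if_neg (by omega)]
    rw [Finset.sum_congr rfl fun i _ => h4 i, Finset.sum_ite_eq']
    split_ifs with h5
    · rfl
    · have h6 : MvPolynomial.homogeneousComponent 1 a = 0 := by
        rw [Finset.mem_range] at h5
        exact MvPolynomial.homogeneousComponent_eq_zero _ _ (by omega)
      rw [h6, E_zero]
  rw [← h3, h1]
  have h4 : (-(MvPolynomial.C β * (h * MvPolynomial.X l)) : R).IsHomogeneous (dh + 1) := by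
    have h5 := (MvPolynomial.isHomogeneous_C (Fin 3) β).mul
      (hh.mul (MvPolynomial.isHomogeneous_X ℂ l))
    rw [zero_add] at h5
    exact h5.neg
  rw [MvPolynomial.homogeneousComponent_of_mem (n := dh + 1) h4, if_pos rfl]

end Pool.Agent.N127.PB
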