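import Pool.Agent.N127.PB.Main
import Pool.Agent.N127.PB.A
import Pool.Agent.N127.PB.A1
import Pool.Agent.N127.PB.A2
import Pool.Agent.N127.PB.B
import Pool.Agent.N127.PB.C
import Pool.Agent.N127.PB.D
import Pool.Agent.N127.PB.E
import Pool.Agent.N127.PB.G
import Pool.Agent.N127.PB.H1
import Pool.Agent.N127.PB.H2
import Pool.Agent.N127.PB.H3

set_option autoImplicit false

/-! # The root `-3/d` for the ideals `h (P, Q) ^ k` -/

namespace Pool.Agent.N127.PB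

open Pool.Agent.H628R4.TP Pool.Agent.W574.HS

theorem stmA : StmA := stmA_of stmA1 stmA2

/-- **The root `-3/d`** of `b` for the ideals `h (P, Q) ^ k`. -/
theorem main (P Q h : R) (e dh k : ℕ) (hP : P.IsHomogeneous e) (hQ : Q.IsHomogeneous e)
    (hh : h.IsHomogeneous dh) (hk : 0 < k) (he : 0 < e) (hh0 : h ≠ 0)
    (hprim : ∀ H : R, Irreducible H → ∃ l, ¬ H ∣ th P Q l)
    (htr : ∀ H : R, Irreducible H → H ∣ h →
      ∃ l, ¬ H ∣ crs (fun m => MvPolynomial.pderiv m H) (th P Q) l)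
    (hnl : 2 ≤ e ∨ ∀ ℓ : R, ℓ.IsHomogeneous 1 → (∀ H, Irreducible H → H ∣ h → H ∣ ℓ) → ℓ = 0)
    (b : Polynomial ℂ) (hb : IsBFunction (univ (gens P Q h k)) b) :
    b.eval (-3 / ((dh + k * e : ℕ) : ℂ)) = 0 :=
  main_of stmA stmB stmC stmD stmE stmG stmH1 stmH2 stmH3 P Q h e dh k hP hQ hh hk he hh0 hprim
    htr hnl b hb

end Pool.Agent.N127.PB
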