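import Pool.Agent.N127.PB.Stm

set_option autoImplicit false

/-! # The local rings of the prime divisors -/

namespace Pool.Agent.N127.PB

open MvPolynomial

theorem emb_inj {a b : R} (h : emb a = emb b) : a = b := IsFractionRing.injective R K h

theorem emb_ne {a : R} (h : a ≠ 0) : emb a ≠ 0 := fun h0 => h (emb_inj (by rw [h0, map_zero]))

theorem emb_C (c : ℂ) : emb (C c) = algebraMap ℂ K c :=
  (IsScalarTower.algebraMap_apply ℂ R K c).symm

section abs

variable {𝕜 : Type*} [Field 𝕜] [Algebra ℂ 𝕜]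

theorem comm_of_frac (D D' : Derivation ℂ 𝕜 𝕜) (z a b : 𝕜) (hb : b ≠ 0) (h : z * b = a)
    (ha : D (D' a) = D' (D a)) (hbb : D (D' b) = D' (D b)) : D (D' z) = D' (D z) := by
  have h1 : D (D' a) = D (D' z) * b + D' z * D b + D z * D' b + z * D (D' b) := by
    rw [← h, Derivation.leibniz, smul_eq_mul, smul_eq_mul, map_add, Derivation.leibniz,
      Derivation.leibniz]
    simp only [smul_eq_mul]; ring
  have h2 : D' (D a) = D' (D z) * b + D z * D' b + D' z * D b + z * D' (D b) := by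
    rw [← h, Derivation.leibniz, smul_eq_mul, smul_eq_mul, map_add, Derivation.leibniz,
      Derivation.leibniz]
    simp only [smul_eq_mul]; ring
  rw [h1, h2, hbb] at ha
  have h3 : (D (D' z) - D' (D z)) * b = 0 := by linear_combination ha
  exact sub_eq_zero.1 ((mul_eq_zero.1 h3).resolve_right hb)

theorem dlog_closed (D D' : Derivation ℂ 𝕜 𝕜) (h : 𝕜)
    (hc : D (D' h) = D' (D h)) : D (D' h / h) = D' (D h / h) := by
  rw [Derivation.leibniz_div, Derivation.leibniz_div, hc]
  simp only [smul_eq_mul]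
  ring

end abs

theorem dR_comm (l m : Fin 3) (a : R) : pderiv l (pderiv m a) = pderiv m (pderiv l a) := by
  induction a using MvPolynomial.induction_on with
  | C a => simp
  | add p q hp hq => simp only [map_add, hp, hq]
  | mul_X p i hp =>
    have h1 : ∀ l m : Fin 3, pderiv l (pderiv m (X i : R)) = 0 := by
      intro l m
      by_cases h : i = m
      · subst h; rw [pderiv_X_self, Derivation.map_one_eq_zero]
      · rw [pderiv_X_of_ne h, map_zero]
    simp only [Derivation.leibniz, map_add, smul_eq_mul, h1, hp]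
    ring

theorem dK_comm (l m : Fin 3) (z : K) : dK l (dK m z) = dK m (dK l z) := by
  obtain ⟨a, b, hb, rfl⟩ := IsFractionRing.div_surjective (A := R) z
  have hb0 : emb b ≠ 0 := emb_ne (nonZeroDivisors.ne_zero hb)
  refine comm_of_frac (dK l) (dK m) _ (emb a) (emb b) hb0 (div_mul_cancel₀ _ hb0) ?_ ?_
  · rw [dK_emb, dK_emb, dK_emb, dK_emb, dR_comm]
  · rw [dK_emb, dK_emb, dK_emb, dK_emb, dR_comm]

/-- the local ring of the prime divisor `H = 0` -/
noncomputable def SHr (H : R) (hH : Prime H) : Subring K where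
  carrier := {z | SH H z}
  mul_mem' := by
    rintro z z' ⟨a, b, hb, h⟩ ⟨a', b', hb', h'⟩
    refine ⟨a * a', b * b', fun hd => ?_, ?_⟩
    · rcases hH.dvd_or_dvd hd with h1 | h1
      · exact hb h1
      · exact hb' h1
    · rw [map_mul, map_mul, ← h, ← h']; ring
  one_mem' := ⟨1, 1, fun h => hH.not_isUnit (isUnit_of_dvd_one h), by rw [map_one, mul_one]⟩
  add_mem' := by
    rintro z z' ⟨a, b, hb, h⟩ ⟨a', b', hb', h'⟩
    refine ⟨a * b' + a' * b, b * b', fun hd => ?_, ?_⟩
    · rcases hH.dvd_or_dvd hd with h1 | h1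
      · exact hb h1
      · exact hb' h1
    · rw [map_mul, map_add, map_mul, map_mul, ← h, ← h']; ring
  zero_mem' := ⟨0, 1, fun h => hH.not_isUnit (isUnit_of_dvd_one h), by rw [map_zero, zero_mul]⟩
  neg_mem' := by
    rintro z ⟨a, b, hb, h⟩
    exact ⟨-a, b, hb, by rw [map_neg, ← h, neg_mul]⟩

theorem mem_SHr {H : R} {hH : Prime H} {z : K} : z ∈ SHr H hH ↔ SH H z := Iff.rfl

theorem emb_mem (H : R) (hH : Prime H) (a : R) : emb a ∈ SHr H hH :=
  ⟨a, 1, fun h => hH.not_isUnit (isUnit_of_dvd_one h), by rw [map_one, mul_one]⟩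

theorem inv_mem (H : R) (hH : Prime H) (a : R) (ha : ¬ H ∣ a) : (emb a)⁻¹ ∈ SHr H hH := by
  refine ⟨1, a, ha, ?_⟩
  have : a ≠ 0 := fun h => ha (by rw [h]; exact dvd_zero _)
  rw [inv_mul_cancel₀ (emb_ne this), map_one]

theorem const_mem (H : R) (hH : Prime H) (c : ℂ) : algebraMap ℂ K c ∈ SHr H hH := by
  rw [← emb_C]; exact emb_mem H hH _

theorem dK_mem (H : R) (hH : Prime H) (l : Fin 3) (z : K) (hz : z ∈ SHr H hH) :
    dK l z ∈ SHr H hH := by
  obtain ⟨a, b, hb, h⟩ := hz
  refine ⟨pderiv l a * b - a * pderiv l b, b * b, fun hd => ?_, ?_⟩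
  · rcases hH.dvd_or_dvd hd with h1 | h1
    · exact hb h1
    · exact hb h1
  · have h1 := congrArg (dK l) h
    rw [Derivation.leibniz, smul_eq_mul, smul_eq_mul, dK_emb, dK_emb] at h1
    rw [map_sub, map_mul, map_mul, map_mul, ← h, ← h1]
    ring

/-- the twist `α ∇h / h` -/
noncomputable def tw (α : ℂ) (h : R) (l : Fin 3) : K := α • (dK l (emb h) / emb h)

theorem tw_mem (H : R) (hH : Prime H) (α : ℂ) (h : R) (hh : ¬ H ∣ h) (l : Fin 3) :
    tw α h l ∈ SHr H hH := by
  rw [tw, Algebra.smul_def, div_eq_mul_inv, dK_emb]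
  exact Subring.mul_mem _ (const_mem H hH α) (Subring.mul_mem _ (emb_mem H hH _)
    (inv_mem H hH h hh))

theorem tw_closed (α : ℂ) (h : R) (l m : Fin 3) :
    dK l (tw α h m) = dK m (tw α h l) := by
  rw [tw, tw, Derivation.map_smul, Derivation.map_smul,
    dlog_closed (dK l) (dK m) (emb h) (dK_comm l m _)]

end Pool.Agent.N127.PB
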