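import Pool.Agent.N127.PB.Loc
import Pool.Agent.W574.HS.Form

set_option autoImplicit false

/-! # The root `-3/d` -/

namespace Pool.Agent.N127.PB

open Polynomial Pool.Agent.H628R4.TP Pool.Agent.W574.HS

/-- the difference of two decompositions -/
theorem dec_sub {𝕜 : Type} [Field 𝕜] [Algebra ℂ 𝕜] (D : Fin 3 → Derivation ℂ 𝕜 𝕜)
    (w θ : Fin 3 → 𝕜) (F : 𝕜[X]) (γ : ℂ) (M : ℕ) (ζ : Fin 3 → 𝕜[X]) (A A' : 𝕜[X]) (g g' : 𝕜)
    (h : IsDec D w θ F γ M ζ A g) (h' : IsDec D w θ F γ M ζ A' g') :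
    IsDec D w θ F γ M (fun _ => 0) (A - A') (g - g') := by
  intro l
  have e1 := h l
  have e2 := h' l
  rw [e1] at e2
  have e3 := sub_eq_zero.2 e2
  change (0 : 𝕜[X]) = _
  rw [← e3]
  simp only [map_sub, Algebra.smul_def, C_mul]
  ring

/-- the algebra -/
theorem star_alg {𝕜 : Type} [Field 𝕜] (P Q h b g g1 g2 P1 P2 Q1 Q2 h1 h2 P12 P21 Q12 Q21 x
    α γ β : 𝕜) (hQ : Q ≠ 0) (hh : h ≠ 0) (hP12 : P12 = P21) (hQ12 : Q12 = Q21)
    (H : Q * ((g * ((Q * P12 + P2 * Q1) - (P * Q12 + Q2 * P1)) + (Q * P2 - P * Q2) * g1) -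
      (g * ((Q * P21 + P1 * Q2) - (P * Q21 + Q1 * P2)) + (Q * P1 - P * Q1) * g2) +
      (α * (h1 / h) * (g * (Q * P2 - P * Q2)) - α * (h2 / h) * (g * (Q * P1 - P * Q1)))) +
      γ * (Q1 * (g * (Q * P2 - P * Q2)) - Q2 * (g * (Q * P1 - P * Q1))) = -(β * (Q * x))) :
    h * ((b ^ 2 * g1) * (Q * P2 - P * Q2) - (b ^ 2 * g2) * (Q * P1 - P * Q1)) +
      (γ + 2) * (h * (g * b) * b * (Q1 * P2 - Q2 * P1)) +
      α * ((g * b) * b * (h1 * (Q * P2 - P * Q2) - h2 * (Q * P1 - P * Q1))) =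
      -(β * (h * b ^ 2 * x)) := by
  subst hP12 hQ12
  have e1 : h1 / h * h = h1 := div_mul_cancel₀ _ hh
  have e2 : h2 / h * h = h2 := div_mul_cancel₀ _ hh
  apply mul_left_cancel₀ hQ
  linear_combination (h * b ^ 2) * H - (Q * α * g * b ^ 2 * (Q * P2 - P * Q2)) * e1 +
    (Q * α * g * b ^ 2 * (Q * P1 - P * Q1)) * e2

/-- the equation for numerator and denominator -/
theorem star_of (P Q h a b : R) (hQ0 : Q ≠ 0) (hh0 : h ≠ 0) (hb0 : b ≠ 0) (α γ β : ℂ) (g : K)
    (hg : g * emb b = emb a)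
    (H : ∀ l, emb Q * (curl dK (fun m => g * emb (th P Q m)) l +
      crs (tw α h) (fun m => g * emb (th P Q m)) l) +
      γ • crs (fun m => dK m (emb Q)) (fun m => g * emb (th P Q m)) l =
      -(β • (emb Q * emb (MvPolynomial.X l)))) : StarEq P Q h a b α γ β := by
  intro l
  have hQ := emb_ne hQ0
  have hh := emb_ne hh0
  have hb := emb_ne hb0
  apply emb_inj
  have hD : ∀ m, emb b * emb (MvPolynomial.pderiv m a) - emb a * emb (MvPolynomial.pderiv m b) =
      emb b ^ 2 * dK m g := by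
    intro m
    have h1 := congrArg (dK m) hg
    rw [Derivation.leibniz, smul_eq_mul, smul_eq_mul, dK_emb, dK_emb] at h1
    rw [← h1, ← hg]; ring
  have h1 := H l
  have hcr : ∀ (l m : Fin 3) (p : R), emb (MvPolynomial.pderiv l (MvPolynomial.pderiv m p)) =
      emb (MvPolynomial.pderiv m (MvPolynomial.pderiv l p)) := fun l m p => by rw [dR_comm]
  simp only [curl, crs, tw, Derivation.leibniz, smul_eq_mul, dK_emb, Algebra.smul_def, th,
    map_sub, map_mul] at h1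
  simp only [crs, th, map_add, map_sub, map_mul, map_neg, map_pow, hD, emb_C]
  rw [← hg]
  have h2 := star_alg (emb P) (emb Q) (emb h) (emb b) g (dK (l + 1) g) (dK (l + 2) g)
    (emb (MvPolynomial.pderiv (l + 1) P)) (emb (MvPolynomial.pderiv (l + 2) P))
    (emb (MvPolynomial.pderiv (l + 1) Q)) (emb (MvPolynomial.pderiv (l + 2) Q))
    (emb (MvPolynomial.pderiv (l + 1) h)) (emb (MvPolynomial.pderiv (l + 2) h))
    (emb (MvPolynomial.pderiv (l + 1) (MvPolynomial.pderiv (l + 2) P)))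
    (emb (MvPolynomial.pderiv (l + 2) (MvPolynomial.pderiv (l + 1) P)))
    (emb (MvPolynomial.pderiv (l + 1) (MvPolynomial.pderiv (l + 2) Q)))
    (emb (MvPolynomial.pderiv (l + 2) (MvPolynomial.pderiv (l + 1) Q)))
    (emb (MvPolynomial.X l)) (algebraMap ℂ K α) (algebraMap ℂ K γ) (algebraMap ℂ K β) hQ hh
    (hcr _ _ _) (hcr _ _ _) (by simpa only [map_mul] using h1)
  have h3 : algebraMap ℂ K 2 = 2 := map_ofNat _ 2
  rw [h3]
  exact h2

theorem neg_inv_inv {𝕜 : Type} [Field 𝕜] (a : 𝕜) : (-a⁻¹)⁻¹ = -a := by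
  rw [inv_neg, inv_inv]

/-- The gradient of the pencil at the zero. -/
theorem grad_rel (P Q : R) (hQ : Q ≠ 0) (l : Fin 3) :
    dK l (emb P) - emb P / emb Q * dK l (emb Q) = (emb Q)⁻¹ * emb (th P Q l) := by
  have h := emb_ne hQ
  rw [dK_emb, dK_emb, th, map_sub, map_mul, map_mul]
  field_simp

theorem grad_rel' (P Q : R) (hP : P ≠ 0) (l : Fin 3) :
    dK l (emb Q) - emb Q / emb P * dK l (emb P) = -(emb P)⁻¹ * emb (th P Q l) := by
  have h := emb_ne hP
  rw [dK_emb, dK_emb, th, map_sub, map_mul, map_mul]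
  field_simp
  ring

theorem exists_irred_dvd (b : R) (hb : b ≠ 0) (hu : ¬ IsUnit b) : ∃ H : R, Irreducible H ∧ H ∣ b :=
  WfDvdMonoid.exists_irreducible_factor hu hb

theorem gens_homog (P Q h : R) (e dh k : ℕ) (hP : P.IsHomogeneous e) (hQ : Q.IsHomogeneous e)
    (hh : h.IsHomogeneous dh) (j : Fin (k + 1)) :
    (gens P Q h k j).IsHomogeneous (dh + k * e) := by
  have h1 := (hh.mul (hP.pow (j : ℕ))).mul (hQ.pow (k - j))
  have h2 : dh + e * (j : ℕ) + e * (k - j) = dh + k * e := by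
    have : (j : ℕ) ≤ k := Nat.lt_succ_iff.1 j.2
    rw [add_assoc, ← mul_add, Nat.add_sub_cancel' this, mul_comm]
  rw [h2] at h1
  exact h1

/-- the common part: `g` and its equation -/
theorem exists_g (hB : StmB) (hC : StmC) (hD : StmD) (hE : StmE) (hG : StmG)
    (P Q h : R) (e dh k : ℕ) (hP : P.IsHomogeneous e) (hQ : Q.IsHomogeneous e)
    (hh : h.IsHomogeneous dh) (hk : 0 < k) (hh0 : h ≠ 0)
    (hprim : ∀ H : R, Irreducible H → ∃ l, ¬ H ∣ th P Q l) (α β : ℂ)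
    (hα : α * (dh + k * e : ℕ) = -3) (hγ : ∀ n : ℕ, (k : ℂ) * α ≠ n) (N : ℕ)
    (V : Fin 3 → MvPolynomial (Fin (k + 1) ⊕ Fin 3) ℂ)
    (hV : ∀ l, MvPolynomial.IsWeightedHomogeneous (bidegw (Fin (k + 1)) (Fin 3)) (V l)
      (N, (dh + k * e) * N + 1))
    (hEq : MvPolynomial.C β * univ (gens P Q h k) ^ (N + 1) =
      ∑ l, (univ (gens P Q h k) * MvPolynomial.pderiv (Sum.inr l) (V l) +
      MvPolynomial.C (α - N) * V l * MvPolynomial.pderiv (Sum.inr l) (univ (gens P Q h k)))) :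
    ∃ g : K, (∀ H, Irreducible H → ¬ H ∣ h → SH H g) ∧
      ∀ l, emb Q * (curl dK (fun m => g * emb (th P Q m)) l +
      crs (tw α h) (fun m => g * emb (th P Q m)) l) +
      (k * α) • crs (fun m => dK m (emb Q)) (fun m => g * emb (th P Q m)) l =
      -(β • (emb Q * emb (MvPolynomial.X l))) := by
  -- `P` and `Q` are not zero
  have hX : Irreducible (MvPolynomial.X 0 : R) := (MvPolynomial.X_prime (i := (0 : Fin 3))).irreducible
  have hP0 : P ≠ 0 := by
    rintro rfl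
    obtain ⟨l, hl⟩ := hprim _ hX
    apply hl
    rw [th, map_zero, mul_zero, zero_mul, sub_zero]
    exact dvd_zero _
  have hQ0 : Q ≠ 0 := by
    rintro rfl
    obtain ⟨l, hl⟩ := hprim _ hX
    apply hl
    rw [th, map_zero, mul_zero, zero_mul, sub_zero]
    exact dvd_zero _
  have eP := emb_ne hP0
  have eQ := emb_ne hQ0
  obtain ⟨m0, hm0⟩ := hprim _ hX
  have hθ0 : emb (th P Q m0) ≠ 0 := by
    apply emb_ne
    intro h0
    apply hm0
    rw [h0]; exact dvd_zero _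
  obtain ⟨ζ, hζd, hζc, hζ⟩ := hB P Q h e dh k hP hQ hh hk hh0 (Or.inl hP0) α β hα N V hV hEq
  -- existence over the field
  obtain ⟨A, g, -, hA, hdec⟩ := hC K dK dK_comm ⊤ (fun _ => Subring.mem_top _)
    (fun _ _ _ => Subring.mem_top _) (tw α h) (fun l => emb (MvPolynomial.X l))
    (fun _ => Subring.mem_top _) (tw_closed α h) (emb P) (emb Q) (Subring.mem_top _)
    (Subring.mem_top _) eQ (Subring.mem_top _) (fun l => emb (th P Q l))
    (fun _ => Subring.mem_top _) ⟨m0, hθ0, Subring.mem_top _⟩ (emb Q)⁻¹ (inv_ne_zero eQ)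
    (Subring.mem_top _) (grad_rel P Q hQ0) (k * α) β hγ (k * N) ζ
    (fun _ _ => Subring.mem_top _) hζd hζ
  -- uniqueness
  have huniq : ∀ (A' : K[X]) (g' : K), A'.degree < ((k * N : ℕ) : WithBot ℕ) →
      IsDec dK (tw α h) (fun l => emb (th P Q l)) (C (emb P) + X * C (emb Q)) (k * α) (k * N) ζ
        A' g' → g = g' := by
    intro A' g' hA' hdec'
    have h1 := dec_sub _ _ _ _ _ _ _ _ _ _ _ hdec hdec'
    have h2 := hD K dK (tw α h) (emb P) (emb Q) eQ (fun l => emb (th P Q l)) ⟨m0, hθ0⟩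
      (emb Q)⁻¹ (inv_ne_zero eQ) (grad_rel P Q hQ0) (k * α) hγ (k * N) (A - A')
      (lt_of_le_of_lt (degree_sub_le _ _) (max_lt hA hA')) (g - g') h1
    exact sub_eq_zero.1 h2
  refine ⟨g, ?_, ?_⟩
  · intro H hHi hHh
    have hH : Prime H := hHi.prime
    obtain ⟨m, hm⟩ := hprim H hHi
    have hθm : emb (th P Q m) ≠ 0 := by
      apply emb_ne
      intro h0
      apply hm
      rw [h0]; exact dvd_zero _
    have hcoef : ∀ l n, (ζ l).coeff n ∈ SHr H hH := by
      intro l n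
      obtain ⟨a, ha⟩ := hζc l n
      exact ⟨a, h ^ N, fun hd => hHh (hH.dvd_of_dvd_pow hd), ha⟩
    by_cases hHQ : H ∣ Q
    · have hHP : ¬ H ∣ P := by
        intro hd
        apply hm
        rw [th]
        exact dvd_sub (hHQ.mul_right _) (hd.mul_right _)
      obtain ⟨hsw1, hsw2⟩ := hE K dK (tw α h) (fun l => emb (MvPolynomial.X l))
        (fun l => emb (th P Q l)) (emb P) (emb Q) (k * α) β (k * N) ζ hζd
      obtain ⟨A', g', hg', hA', hdec'⟩ := hC K dK dK_comm (SHr H hH) (const_mem H hH)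
        (dK_mem H hH) (tw α h) (fun l => emb (MvPolynomial.X l)) (tw_mem H hH α h hHh)
        (tw_closed α h) (emb Q) (emb P) (emb_mem H hH Q) (emb_mem H hH P) eP
        (inv_mem H hH P hHP) (fun l => emb (th P Q l)) (fun l => emb_mem H hH _)
        ⟨m, hθm, inv_mem H hH _ hm⟩ (-(emb P)⁻¹) (neg_ne_zero.2 (inv_ne_zero eP))
        (by rw [neg_inv_inv]; exact (SHr H hH).neg_mem (emb_mem H hH P))
        (grad_rel' P Q hP0) (k * α) β hγ (k * N) (fun l => reflect (k * N) (ζ l))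
        (fun l n => by rw [coeff_reflect]; exact hcoef l _)
        (fun l => by
          rw [natDegree_le_iff_coeff_eq_zero]
          intro n hn
          rw [coeff_reflect, revAt_eq_self_of_lt hn]
          exact coeff_eq_zero_of_natDegree_lt (lt_of_le_of_lt (hζd l) hn))
        (hsw1 hζ)
      obtain ⟨A'', hA'', hdec''⟩ := hsw2 A' g' hA' hdec'
      rw [huniq A'' g' hA'' hdec'']
      exact hg'
    · obtain ⟨A', g', hg', hA', hdec'⟩ := hC K dK dK_comm (SHr H hH) (const_mem H hH)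
        (dK_mem H hH) (tw α h) (fun l => emb (MvPolynomial.X l)) (tw_mem H hH α h hHh)
        (tw_closed α h) (emb P) (emb Q) (emb_mem H hH P) (emb_mem H hH Q) eQ
        (inv_mem H hH Q hHQ) (fun l => emb (th P Q l)) (fun l => emb_mem H hH _)
        ⟨m, hθm, inv_mem H hH _ hm⟩ (emb Q)⁻¹ (inv_ne_zero eQ)
        (by rw [inv_inv]; exact emb_mem H hH Q)
        (grad_rel P Q hQ0) (k * α) β hγ (k * N) ζ hcoef hζd hζ
      rw [huniq A' g' hA' hdec']
      exact hg'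
  · exact hG K dK dK_comm (tw α h) (fun l => emb (MvPolynomial.X l)) (tw_closed α h) (emb P)
      (emb Q) eQ (fun l => emb (th P Q l)) (k * α) β (k * N) ζ A g hζ hdec

/-- `α n ≠ i` for `α = -3/d` -/
theorem neg_ne (d n i : ℕ) (hn : 0 < n) (α : ℂ) (hα : α * (d : ℂ) = -3) : α * (n : ℂ) ≠ (i : ℂ) := by
  intro h
  have h1 : (-3 : ℂ) * n = i * d := by rw [← hα, ← h]; ring
  have h2 : ((i * d + 3 * n : ℕ) : ℂ) = 0 := by push_cast; linear_combination -h1
  have h3 : i * d + 3 * n = 0 := by exact_mod_cast h2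
  omega

/-- **The root `-3/d`** of `b` for the ideals `h (P, Q) ^ k`. -/
theorem main_of (hA : StmA) (hB : StmB) (hC : StmC) (hD : StmD) (hE : StmE) (hG : StmG)
    (hH1 : StmH1) (hH2 : StmH2) (hH3 : StmH3)
    (P Q h : R) (e dh k : ℕ) (hP : P.IsHomogeneous e) (hQ : Q.IsHomogeneous e)
    (hh : h.IsHomogeneous dh) (hk : 0 < k) (he : 0 < e) (hh0 : h ≠ 0)
    (hprim : ∀ H : R, Irreducible H → ∃ l, ¬ H ∣ th P Q l)
    (htr : ∀ H : R, Irreducible H → H ∣ h →
      ∃ l, ¬ H ∣ crs (fun m => MvPolynomial.pderiv m H) (th P Q) l)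
    (hnl : 2 ≤ e ∨ ∀ ℓ : R, ℓ.IsHomogeneous 1 → (∀ H, Irreducible H → H ∣ h → H ∣ ℓ) → ℓ = 0)
    (b : Polynomial ℂ) (hb : IsBFunction (univ (gens P Q h k)) b) :
    b.eval (-3 / ((dh + k * e : ℕ) : ℂ)) = 0 := by
  classical
  by_contra hβ
  set α : ℂ := -3 / ((dh + k * e : ℕ) : ℂ) with hαd
  set β : ℂ := b.eval α with hβd
  have hd : 0 < dh + k * e := by positivity
  have hα : α * ((dh + k * e : ℕ) : ℂ) = -3 := by
    rw [hαd]
    exact div_mul_cancel₀ _ (Nat.cast_ne_zero.2 hd.ne')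
  have hne : ∀ n i : ℕ, 0 < n → α * (n : ℂ) ≠ (i : ℂ) := fun n i hn => neg_ne _ n i hn α hα
  have hX : Irreducible (MvPolynomial.X 0 : R) :=
    (MvPolynomial.X_prime (i := (0 : Fin 3))).irreducible
  have hQ0 : Q ≠ 0 := by
    rintro rfl
    obtain ⟨l, hl⟩ := hprim _ hX
    apply hl
    rw [th, map_zero, mul_zero, zero_mul, sub_zero]
    exact dvd_zero _
  have hgens0 : gens P Q h k 0 ≠ 0 := by
    rw [gens]
    simp only [Fin.val_zero, pow_zero, mul_one, Nat.sub_zero]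
    exact mul_ne_zero hh0 (pow_ne_zero _ hQ0)
  obtain ⟨N, V, hV, hEq⟩ := hA (Fin (k + 1)) (Fin 3) (gens P Q h k) (dh + k * e) hd
    (gens_homog P Q h e dh k hP hQ hh) (univ_ne_zero _ ⟨0, hgens0⟩) b hb α
  obtain ⟨g, hgS, hgE⟩ := exists_g hB hC hD hE hG P Q h e dh k hP hQ hh hk hh0 hprim α β hα
    (fun n => by rw [mul_comm]; exact hne k n hk) N V hV hEq
  -- numerator and denominator
  obtain ⟨a, b', hrel, hab⟩ : ∃ a b' : R, b' ≠ 0 ∧ IsRelPrime a b' ∧ g * emb b' = emb a := by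
    refine ⟨IsFractionRing.num R g, (IsFractionRing.den R g : R),
      nonZeroDivisors.coe_ne_zero _, IsFractionRing.num_den_reduced R g,
      (IsFractionRing.num_mul_den_eq_num_iff_eq).2 rfl⟩
  obtain ⟨hab, hgab⟩ := hab
  have hu : IsUnit b' := by
    by_contra hu
    obtain ⟨H, hHi, hHb⟩ := exists_irred_dvd b' hrel hu
    have hH : Prime H := hHi.prime
    have hHa : ¬ H ∣ a := fun hd => hHi.not_isUnit (hab hd hHb)
    by_cases hHh : H ∣ h
    · obtain ⟨l, hl⟩ := htr H hHi hHh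
      exact hl (hH1 P Q h a b' α (k * α) β H
        (star_of P Q h a b' hQ0 hh0 hrel α (k * α) β g hgab hgE) hHi hHh hh0 hrel hHa hne l)
    · obtain ⟨a1, b1, hb1, h1⟩ := hgS H hHi hHh
      have h2 : a * b1 = a1 * b' := by
        apply emb_inj
        rw [map_mul, map_mul, ← hgab, ← h1]; ring
      have h3 : H ∣ a * b1 := by rw [h2]; exact hHb.mul_left _
      rcases hH.dvd_or_dvd h3 with h4 | h4
      · exact hHa h4
      · exact hb1 h4
  -- `g` is a polynomial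
  obtain ⟨b'', hb''⟩ := hu.exists_right_inv
  have hga : g * emb 1 = emb (a * b'') := by
    rw [map_one, mul_one, map_mul, ← hgab, mul_assoc, ← map_mul, hb'', map_one, mul_one]
  have hS := star_of P Q h (a * b'') 1 hQ0 hh0 one_ne_zero α (k * α) β g hga hgE
  by_cases he2 : 2 ≤ e
  · exact hβ (hH2 P Q h (a * b'') α (k * α) β e dh hP hQ hh hh0 he2 hS)
  · have he1 : e = 1 := by omega
    subst he1
    have hS1 := hH3 P Q h (a * b'') α (k * α) β dh hP hQ hh hS
    have h0 := (hnl.resolve_left he2) _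
      (MvPolynomial.homogeneousComponent_isHomogeneous 1 (a * b'')) (by
        intro H hHi hHh
        by_contra hHa
        obtain ⟨l, hl⟩ := htr H hHi hHh
        exact hl (hH1 P Q h _ 1 α (k * α) β H hS1 hHi hHh hh0 one_ne_zero hHa hne l))
    rw [h0] at hS1
    have h1 := hS1 0
    simp only [crs, map_zero, mul_zero, zero_mul, sub_zero, add_zero, one_pow, mul_one] at h1
    have h2 := h1.symm
    rw [neg_eq_zero] at h2
    rcases mul_eq_zero.1 h2 with h3 | h3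
    · exact hβ (MvPolynomial.C_eq_zero.1 h3)
    · rcases mul_eq_zero.1 h3 with h4 | h4
      · exact hh0 h4
      · exact MvPolynomial.X_ne_zero 0 h4

end Pool.Agent.N127.PB
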