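import Pool.Agent.N127.PB.Stm2

set_option autoImplicit false
set_option linter.unusedSectionVars false

/-! # Specialization of the variables `y` -/

namespace Pool.Agent.N127.PB

open MvPolynomial Pool.Agent.H628R4.TP Pool.Agent.W574.HS

namespace Specaux

variable {ι κ σ : Type} [Fintype ι] [Fintype κ] [Fintype σ]

/-- the images of the variables -/
noncomputable def im (M : κ → ι → ℂ) : ι ⊕ σ → MvPolynomial (κ ⊕ σ) ℂ :=
  Sum.elim (fun j => ∑ k, C (M k j) * X (Sum.inl k)) (fun l => X (Sum.inr l))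

/-- the substitution -/
noncomputable def phi (M : κ → ι → ℂ) : MvPolynomial (ι ⊕ σ) ℂ →ₐ[ℂ] MvPolynomial (κ ⊕ σ) ℂ :=
  aeval (im M)

theorem phi_rename (M : κ → ι → ℂ) (p : MvPolynomial σ ℂ) :
    phi M (rename Sum.inr p : MvPolynomial (ι ⊕ σ) ℂ) = rename Sum.inr p := by
  rw [phi, aeval_rename]
  have h : (im M ∘ Sum.inr : σ → MvPolynomial (κ ⊕ σ) ℂ) = X ∘ Sum.inr := rfl
  rw [h, ← rename_eq_aeval]

theorem phi_univ (M : κ → ι → ℂ) (f : ι → MvPolynomial σ ℂ) :
    phi M (univ f) = univ (fun k => ∑ j, C (M k j) * f j) := by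
  unfold univ
  rw [map_sum]
  have h : ∀ j, phi M (X (Sum.inl j) * rename Sum.inr (f j)) =
      ∑ k, X (Sum.inl k) * (C (M k j) * rename Sum.inr (f j)) := by
    intro j
    rw [map_mul, phi_rename, phi, aeval_X, im, Sum.elim_inl, Finset.sum_mul]
    refine Finset.sum_congr rfl fun k _ => ?_
    ring
  simp_rw [h, map_sum, map_mul, rename_C, Finset.mul_sum]
  exact Finset.sum_comm

theorem phi_pderiv (M : κ → ι → ℂ) (l : σ) (p : MvPolynomial (ι ⊕ σ) ℂ) :
    phi M (pderiv (Sum.inr l) p) = pderiv (Sum.inr l) (phi M p) := by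
  classical
  induction p using MvPolynomial.induction_on with
  | C a => simp [phi]
  | add p q hp hq => simp only [map_add, hp, hq]
  | mul_X p i hp =>
    rw [Derivation.leibniz, map_mul, Derivation.leibniz, map_add, smul_eq_mul, smul_eq_mul,
      smul_eq_mul, smul_eq_mul, map_mul, map_mul, hp]
    congr 2
    rcases i with j | m
    · rw [pderiv_X, phi, aeval_X, im, Sum.elim_inl, map_sum]
      simp [Derivation.leibniz, pderiv_X]
    · rw [pderiv_X, phi, aeval_X, im, Sum.elim_inr, pderiv_X]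
      by_cases h : m = l
      · subst h
        simp
      · simp [Pi.single_apply, h]

theorem im_homog (M : κ → ι → ℂ) (i : ι ⊕ σ) :
    IsWeightedHomogeneous (bidegw κ σ) (im M i) (bidegw ι σ i) := by
  rcases i with j | l
  · rw [im, Sum.elim_inl]
    refine IsWeightedHomogeneous.sum _ _ _ fun k _ => ?_
    refine IsWeightedHomogeneous.C_mul ?_ _
    exact isWeightedHomogeneous_X ℂ (bidegw κ σ) (Sum.inl k)
  · rw [im, Sum.elim_inr]
    exact isWeightedHomogeneous_X ℂ (bidegw κ σ) (Sum.inr l)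

theorem phi_homog (M : κ → ι → ℂ) {p : MvPolynomial (ι ⊕ σ) ℂ} {m : ℕ × ℕ}
    (hp : IsWeightedHomogeneous (bidegw ι σ) p m) :
    IsWeightedHomogeneous (bidegw κ σ) (phi M p) m := by
  rw [phi, aeval_def, eval₂_eq]
  refine IsWeightedHomogeneous.sum _ _ _ fun d hd => ?_
  have h1 : Finsupp.weight (bidegw ι σ) d = m := hp (mem_support_iff.mp hd)
  refine IsWeightedHomogeneous.C_mul ?_ _
  have h2 := IsWeightedHomogeneous.prod (w := bidegw κ σ) d.support (fun i => im M i ^ d i)
    (fun i => d i • bidegw ι σ i) (fun i _ => (im_homog M i).pow (d i))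
  have h3 : ∑ i ∈ d.support, d i • bidegw ι σ i = m := by
    rw [← h1, Finsupp.weight_apply, Finsupp.sum]
  rwa [h3] at h2

end Specaux

open Specaux in
theorem stmSpec : StmSpec := by
  intro ι κ σ _ _ _ f M d α β h
  obtain ⟨N, V, hV, heq⟩ := h
  refine ⟨N, fun l => phi M (V l), fun l => phi_homog M (hV l), ?_⟩
  have h1 := congrArg (phi M) heq
  simp only [map_mul, map_pow, map_sum, map_add, phi_univ, phi_pderiv] at h1
  have h2 : ∀ c : ℂ, phi (σ := σ) M (C c) = C c := fun c => by rw [phi, aeval_C]; rfl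
  simp only [h2] at h1
  exact h1

end Pool.Agent.N127.PB
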