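import Pool.Agent.N127.PB.Final
import Pool.Agent.N127.PB.AI
import Pool.Agent.N127.PB.Spec
import Pool.Agent.N127.PB.RFin

set_option autoImplicit false

/-! # From the functional equation to a rational solution -/

namespace Pool.Agent.N127.PB

open Pool.Agent.H628R4.TP Pool.Agent.W574.HS

/-- existence of `g`, without any condition on the pencil -/
theorem exists_g1 (P Q h : R) (e dh k : ℕ) (hP : P.IsHomogeneous e) (hQ : Q.IsHomogeneous e)
    (hh : h.IsHomogeneous dh) (hk : 0 < k) (hh0 : h ≠ 0) (m0 : Fin 3) (hm0 : th P Q m0 ≠ 0)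
    (α β : ℂ) (hα : α * (dh + k * e : ℕ) = -3) (hγ : ∀ n : ℕ, (k : ℂ) * α ≠ n)
    (hEN : HasEN (gens P Q h k) (dh + k * e) α β) :
    ∃ a b : R, b ≠ 0 ∧ IsRelPrime a b ∧ StarEq P Q h a b α (k * α) β := by
  have hP0 : P ≠ 0 := by
    rintro rfl
    apply hm0
    rw [th, map_zero, mul_zero, zero_mul, sub_zero]
  have hQ0 : Q ≠ 0 := by
    rintro rfl
    apply hm0
    rw [th, map_zero, mul_zero, zero_mul, sub_zero]
  have eQ := emb_ne hQ0
  have hθ0 : emb (th P Q m0) ≠ 0 := emb_ne hm0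
  obtain ⟨N, V, hV, hEq⟩ := hEN
  obtain ⟨ζ, hζd, hζc, hζ⟩ := stmB P Q h e dh k hP hQ hh hk hh0 (Or.inl hP0) α β hα N V hV hEq
  obtain ⟨A, g, -, hA, hdec⟩ := stmC K dK dK_comm ⊤ (fun _ => Subring.mem_top _)
    (fun _ _ _ => Subring.mem_top _) (tw α h) (fun l => emb (MvPolynomial.X l))
    (fun _ => Subring.mem_top _) (tw_closed α h) (emb P) (emb Q) (Subring.mem_top _)
    (Subring.mem_top _) eQ (Subring.mem_top _) (fun l => emb (th P Q l))
    (fun _ => Subring.mem_top _) ⟨m0, hθ0, Subring.mem_top _⟩ (emb Q)⁻¹ (inv_ne_zero eQ)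
    (Subring.mem_top _) (grad_rel P Q hQ0) (k * α) β hγ (k * N) ζ
    (fun _ _ => Subring.mem_top _) hζd hζ
  have hgE := stmG K dK dK_comm (tw α h) (fun l => emb (MvPolynomial.X l)) (tw_closed α h) (emb P)
      (emb Q) eQ (fun l => emb (th P Q l)) (k * α) β (k * N) ζ A g hζ hdec
  have hb0 : (IsFractionRing.den R g : R) ≠ 0 := nonZeroDivisors.coe_ne_zero _
  exact ⟨IsFractionRing.num R g, (IsFractionRing.den R g : R), hb0,
    IsFractionRing.num_den_reduced R g, star_of P Q h _ _ hQ0 hh0 hb0 α (k * α) β g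
    ((IsFractionRing.num_mul_den_eq_num_iff_eq).2 rfl) hgE⟩

open MvPolynomial

/-- the scalar form of the equation -/
theorem dot (P Q h a b : R) (e : ℕ) (hP : P.IsHomogeneous e) (hP0 : P ≠ 0) (α γ β : ℂ)
    (hS : StarEq P Q h a b α γ β) : DEq (jac P Q) 1 h a b α (-(β * e)) := by
  have h0 := hS 0
  have h1 := hS 1
  have h2 := hS 2
  have hE := hP.sum_X_mul_pderiv
  rw [Fin.sum_univ_three, nsmul_eq_mul] at hE
  simp only [crs, th, Fin.isValue, zero_add, Fin.reduceAdd] at h0 h1 h2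
  rw [DEq]
  simp only [RFin.jac_apply, Fin.sum_univ_three, RFin.nn, crs, Fin.isValue, zero_add,
    Fin.reduceAdd, map_neg, map_mul, map_natCast]
  apply mul_left_cancel₀ hP0
  linear_combination (pderiv 0 P) * h0 + (pderiv 1 P) * h1 + (pderiv 2 P) * h2 -
    (C β * h * b ^ 2) * hE

end Pool.Agent.N127.PB
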