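import Pool.Agent.N127.PB.Root
import Pool.Agent.W574.MO.Cone

set_option autoImplicit false

/-! # The root `-3/d` and the motivic zeta functions of cones -/

namespace Pool.Agent.N127.PB

open MvPolynomial Pool.Agent.W574.MO Pool.Agent.W574.HS Pool.Agent.H628R4.TP

/-- The condition on the pair `(a, n)` that `-n/a` is a root of `b` or, only in the case where the
Jacobian determinants of all triples of the `f_j` vanish and the linear system spanned by the `f_j`
satisfies none of the conditions `RootCond`, that `-n/a = -3/d`. -/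
def PencilPair {ι : Type} (f : ι → MvPolynomial (Fin 3) ℂ) (d : ℕ) (b : Polynomial ℂ)
    (a n : ℕ) : Prop :=
  RootPair b a n ∨ (3 * a = d * n ∧ (∀ e : Fin 3 → ι,
    (Matrix.of fun s t => pderiv s (f (e t))).det = 0) ∧
    ¬ RootCond (Submodule.span ℂ (Set.range f)) d)

theorem den_pencil {M : Type} [CommRing M] (L : Mˣ) {ι : Type} [Fintype ι]
    (f : ι → MvPolynomial (Fin 3) ℂ) (d : ℕ) (hd : 0 < d) (b : Polynomial ℂ)
    (hb : RootCond (Submodule.span ℂ (Set.range f)) d → b.eval (-3 / (d : ℂ)) = 0)
    (Z : PowerSeries M) (hZ : Z ∈ DenRing L (ConePair f d b)) :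
    Z ∈ DenRing L (PencilPair f d b) := by
  have h : DenRing L (ConePair f d b) ≤ DenRing L (PencilPair f d b) := by
    refine Subring.closure_mono (Set.union_subset_union_right _ ?_)
    rintro u ⟨a, n, ha, hn, hK, hu⟩
    refine ⟨a, n, ha, hn, ?_, hu⟩
    rcases hK with h1 | ⟨h1, h2⟩
    · exact Or.inl h1
    · by_cases hc : RootCond (Submodule.span ℂ (Set.range f)) d
      · left
        rw [RootPair]
        have ha0 : (a : ℂ) ≠ 0 := by exact_mod_cast (by omega : a ≠ 0)
        have hd0 : (d : ℂ) ≠ 0 := by exact_mod_cast hd.ne'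
        have h3 : (3 : ℂ) * a = d * n := by exact_mod_cast h1
        have h4 : -(n : ℂ) / a = -3 / d := by
          field_simp
          linear_combination h3
        rw [h4]
        exact hb hc
      · exact Or.inr ⟨h1, h2, hc⟩
  exact h hZ

end Pool.Agent.N127.PB
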