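import Pool.Agent.N127.PB.Cond
import Pool.Agent.N127.PB.CondDefs
import Pool.Agent.W366.SI.I1
import Pool.Agent.W574.CN.Cone

set_option autoImplicit false

/-! # Linear systems of forms in three variables and the root `-3/d` -/

namespace Pool.Agent.N127.PB

open MvPolynomial Pool.Agent.H628R4.TP Pool.Agent.W574.HS

/-- the pair -/
theorem pair (L : Submodule ℂ R) {ι : Type} [Fintype ι] (f : ι → R)
    (hL : L = Submodule.span ℂ (Set.range f)) (d : ℕ) (P Q h : R) (e dh : ℕ)
    (hP : P.IsHomogeneous e) (hQ : Q.IsHomogeneous e) (hh : h.IsHomogeneous dh)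
    (hd : dh + e = d) (hh0 : h ≠ 0) (hne : ∃ m, th P Q m ≠ 0)
    (hu : h * P ∈ L) (hv : h * Q ∈ L) (α β : ℂ) (hα : α * (d : ℂ) = -3)
    (hEN : HasEN f d α β) :
    ∃ a b : R, b ≠ 0 ∧ IsRelPrime a b ∧ DEq (jac P Q) 1 h a b α (-(β * e)) := by
  classical
  obtain ⟨m0, hm0⟩ := hne
  have hP0 : P ≠ 0 := by
    rintro rfl
    apply hm0
    rw [th, map_zero, mul_zero, zero_mul, sub_zero]
  have h1 : HasEN (gens P Q h 1) d α β := by
    refine hasEN_span f _ d α β (fun j => ?_) hEN
    rw [← hL, gens]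
    fin_cases j
    · simpa using hv
    · simpa using hu
  have hd' : dh + 1 * e = d := by omega
  rw [← hd'] at h1 hα
  have hd0 : 0 < dh + 1 * e := by
    rcases Nat.eq_zero_or_pos (dh + 1 * e) with h0 | h0
    · rw [h0] at hα
      simp at hα
    · exact h0
  obtain ⟨a, b, hb, hab, hS⟩ := exists_g1 P Q h e dh 1 hP hQ hh one_pos hh0 m0 hm0 α β hα
    (fun n => by
      rw [mul_comm]
      exact neg_ne (dh + 1 * e) 1 n one_pos α hα) h1
  exact ⟨a, b, hb, hab, dot P Q h a b e hP hP0 α _ β hS⟩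

/-- **The root `-3/d`.** -/
theorem root_of_EN {ι : Type} [Fintype ι] (f : ι → R) (d : ℕ) (hd : 0 < d) (α β : ℂ)
    (hα : α * (d : ℂ) = -3) (hEN : HasEN f d α β)
    (hc : RootCond (Submodule.span ℂ (Set.range f)) d) : β = 0 := by
  classical
  have hne' : ∀ n i : ℕ, 0 < n → α * (n : ℂ) ≠ (i : ℂ) := fun n i hn => neg_ne _ n i hn α hα
  cases hc with
  | power P Q h e dh k hP hQ hh hd' he hk hh0 hL hprim htr hnl =>
    subst hd'
    exact main_en P Q h e dh k hP hQ hh hk he hh0 hprim htr hnl α β hα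
      (hasEN_span f _ _ α β hL hEN)
  | mate P Q h e dh hP hQ hh hd' he hh0 hu hv hne hmate =>
    by_contra hβ
    obtain ⟨a, b, hb, hab, hE⟩ := pair _ f rfl d P Q h e dh hP hQ hh hd' hh0 hne hu hv α β hα hEN
    have hβe : -(β * e) ≠ 0 := neg_ne_zero.2 (mul_ne_zero hβ (by exact_mod_cast he.ne'))
    apply hmate (C (-(β * e))⁻¹ * a) b hb
    have h1 : (C (-(β * e))⁻¹ : R) * C (-(β * e)) = 1 := by
      rw [← C_mul, inv_mul_cancel₀ hβe, C_1]
    have h2 : (C (3 / (d : ℂ)) : R) = -C α := by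
      rw [← C_neg]
      congr 1
      have hd0 : (d : ℂ) ≠ 0 := by exact_mod_cast hd.ne'
      field_simp
      linear_combination hα
    have h3 : jac P Q (C (-(β * e))⁻¹ * a) = C (-(β * e))⁻¹ * jac P Q a := by
      rw [← smul_eq_C_mul, ← smul_eq_C_mul]
      exact (jac P Q).map_smul _ _
    rw [DEq, one_mul] at hE
    rw [h2, h3]
    linear_combination (C (-(β * e))⁻¹ : R) * hE + (h * b ^ 2) * h1
  | lines P Q h e dh hP hQ hh hd' he hh0 hu hv hne hP0 hQ0 S hS hS' h2 h3 =>
    by_contra hβ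
    obtain ⟨a, b, hb, hab, hE⟩ := pair _ f rfl d P Q h e dh hP hQ hh hd' hh0 hne hu hv α β hα hEN
    have hβe : -(β * e) ≠ 0 := neg_ne_zero.2 (mul_ne_zero hβ (by exact_mod_cast he.ne'))
    set W : R := pderiv 1 P * pderiv 2 Q - pderiv 2 P * pderiv 1 Q with hW
    have hjac : ∀ u, jac P Q u = W * pderiv 0 u := by
      intro u
      rw [RFin.jac_apply, Fin.sum_univ_three]
      simp only [RFin.nn, crs, Fin.isValue, zero_add, Fin.reduceAdd, hP0, hQ0]
      ring
    have hE' : DEq (pderiv 0) W h a b α (-(β * e)) := by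
      rw [DEq, hjac, hjac, hjac] at hE
      rw [DEq]
      linear_combination hE
    have hW0 : pderiv 0 W = 0 := by
      have hc1 : ∀ (l m : Fin 3) (p : R), pderiv l (pderiv m p) = pderiv m (pderiv l p) :=
        fun l m p => dR_comm l m p
      rw [hW]
      simp only [map_sub, Derivation.leibniz, smul_eq_mul, hc1 0 1, hc1 0 2, hP0, hQ0, map_zero,
        mul_zero, add_zero, sub_zero]
    obtain ⟨D, hD1, hD2⟩ := stmLines stmLoc W h a b α (-(β * e)) hW0 hh0 hb hab hβe hne' hE'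
    have hD3 := hD1 S hS hS'
    have hD4 := hD2.resolve_left (by omega)
    -- `d D = 3 deg_0 h`
    have h4 : ((D * d : ℕ) : ℂ) = ((3 * degreeOf 0 h : ℕ) : ℂ) := by
      push_cast
      linear_combination (d : ℂ) * hD4 - (degreeOf 0 h : ℂ) * hα
    have h5 : D * d = 3 * degreeOf 0 h := by exact_mod_cast h4
    have h6 : degreeOf 0 h ≤ dh := (degreeOf_le_totalDegree h 0).trans hh.totalDegree_le
    have h7 : D < 3 := by
      by_contra h8
      push Not at h8
      have : 3 * d ≤ D * d := Nat.mul_le_mul_right d h8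
      omega
    rcases h3 with h3 | h3
    · omega
    · apply h3
      have h8 : D = 2 := by omega
      rw [h8] at h5
      exact h5.symm
  | base P Q h G G' e dh k hP hQ hh hG hG' hd' he hh0 hu hv hne hgood hcond =>
    by_contra hβ
    have hP' : (aeval ![P, Q] G).IsHomogeneous (e * k) := RFin.aeval_homog P Q e hP hQ G k hG
    have hQ' : (aeval ![P, Q] G').IsHomogeneous (e * k) := RFin.aeval_homog P Q e hP hQ G' k hG'
    have hk : 0 < k := by
      rcases Nat.eq_zero_or_pos k with h0 | h0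
      · exfalso
        obtain ⟨m, hm⟩ := hne
        apply hm
        rw [h0, mul_zero] at hP' hQ'
        rw [th, totalDegree_eq_zero_iff_eq_C.1 (Nat.le_zero.1 hP'.totalDegree_le),
          totalDegree_eq_zero_iff_eq_C.1 (Nat.le_zero.1 hQ'.totalDegree_le), pderiv_C, pderiv_C,
          mul_zero, mul_zero, sub_zero]
      · exact h0
    obtain ⟨a, b, hb, hab, hE⟩ := pair _ f rfl d _ _ h (e * k) dh hP' hQ' hh
      (by rw [mul_comm e k]; exact hd') hh0 hne hu hv α β hα hEN
    have hek : ((e * k : ℕ) : ℂ) ≠ 0 := by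
      have : 0 < e * k := by positivity
      exact_mod_cast this.ne'
    have hβe : -(β * (e * k : ℕ)) ≠ 0 := neg_ne_zero.2 (mul_ne_zero hβ hek)
    set w : MvPolynomial (Fin 2) ℂ := pderiv 0 G * pderiv 1 G' - pderiv 1 G * pderiv 0 G' with hw
    have hE' : DEq (jac P Q) (aeval ![P, Q] w) h a b α (-(β * (e * k : ℕ))) := by
      rw [DEq, stmChain, stmChain, stmChain, ← hw] at hE
      rw [DEq]
      linear_combination hE
    have hw0 : w ≠ 0 := by
      intro h0
      rw [DEq, h0, map_zero, zero_mul] at hE'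
      rcases mul_eq_zero.1 hE'.symm with h1 | h1
      · exact hβe (C_eq_zero.1 h1)
      · rcases mul_eq_zero.1 h1 with h2 | h2
        · exact hh0 h2
        · exact hb (pow_eq_zero_iff (by norm_num) |>.1 h2)
    have hwh : w.IsHomogeneous ((k - 1) + (k - 1)) :=
      (hG.pderiv.mul hG'.pderiv).sub (hG.pderiv.mul hG'.pderiv)
    subst hd'
    rcases hcond with h1 | h1 | ⟨h1, h2⟩
    · exact RPlus.no_sol_plus (stmGRW stmQR) stmVal stmSatPow stmFin P Q h a b w e dh k _ he hk hP
        hQ hh hgood hwh hw0 hh0 hb hab α _ hβe hα hne' (Or.inl h1) hE'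
    · exact RPlus.no_sol_plus (stmGRW stmQR) stmVal stmSatPow stmFin P Q h a b w e dh k _ he hk hP
        hQ hh hgood hwh hw0 hh0 hb hab α _ hβe hα hne' (Or.inr h1) hE'
    · rcases Nat.lt_or_ge 2 e with h3 | h3
      · exact RPlus.no_sol_plus (stmGRW stmQR) stmVal stmSatPow stmFin P Q h a b w e dh k _ he hk
          hP hQ hh hgood hwh hw0 hh0 hb hab α _ hβe hα hne' (Or.inl h3) hE'
      · have h4 : e = 2 := by omega
        subst h4
        exact RFin.no_sol (stmGRW stmQR) P Q h a b w 2 dh k _ le_rfl hk hP hQ hh h1 hwh hw0 hh0 hb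
          hab α _ hβe hα hne' (by push_cast; intro h5; apply h2; omega) hE'

theorem th_zero_right (P : R) (m : Fin 3) : th P 0 m = 0 := by
  rw [th, map_zero, mul_zero, zero_mul, sub_zero]

theorem th_zero_left (Q : R) (m : Fin 3) : th 0 Q m = 0 := by
  rw [th, map_zero, mul_zero, zero_mul, sub_zero]

/-- the linear system is not zero -/
theorem RootCond.exists_ne {ι : Type} [Fintype ι] (f : ι → R) (d : ℕ)
    (hc : RootCond (Submodule.span ℂ (Set.range f)) d) : ∃ j, f j ≠ 0 := by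
  by_contra hall
  push Not at hall
  have hL : ∀ u ∈ Submodule.span ℂ (Set.range f), u = 0 := by
    intro u hu
    have h1 : Submodule.span ℂ (Set.range f) ≤ ⊥ := by
      rw [Submodule.span_le]
      rintro _ ⟨j, rfl⟩
      rw [hall j]
      exact Submodule.zero_mem _
    exact (Submodule.mem_bot ℂ).1 (h1 hu)
  cases hc with
  | power P Q h e dh k hP hQ hh hd' he hk hh0 hL' hprim htr hnl =>
    have h1 := hL _ (hL' 0)
    rw [gens] at h1
    simp only [Fin.val_zero, pow_zero, mul_one, Nat.sub_zero] at h1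
    have hX : Irreducible (MvPolynomial.X 0 : R) :=
      (MvPolynomial.X_prime (i := (0 : Fin 3))).irreducible
    have hQ0 : Q = 0 := pow_eq_zero_iff hk.ne' |>.1 ((mul_eq_zero.1 h1).resolve_left hh0)
    obtain ⟨l, hl⟩ := hprim _ hX
    apply hl
    rw [hQ0, th_zero_right]
    exact dvd_zero _
  | base P Q h G G' e dh k hP hQ hh hG hG' hd' he hh0 hu hv hne hgood hcond =>
    obtain ⟨m, hm⟩ := hne
    apply hm
    rw [(mul_eq_zero.1 (hL _ hu)).resolve_left hh0, th_zero_left]
  | lines P Q h e dh hP hQ hh hd' he hh0 hu hv hne hP0 hQ0 S hS hS' h2 h3 =>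
    obtain ⟨m, hm⟩ := hne
    apply hm
    rw [(mul_eq_zero.1 (hL _ hu)).resolve_left hh0, th_zero_left]
  | mate P Q h e dh hP hQ hh hd' he hh0 hu hv hne hmate =>
    obtain ⟨m, hm⟩ := hne
    apply hm
    rw [(mul_eq_zero.1 (hL _ hu)).resolve_left hh0, th_zero_left]

theorem neg_three_mul (d : ℕ) (hd : 0 < d) : (-3 / (d : ℂ)) * (d : ℂ) = -3 :=
  div_mul_cancel₀ _ (Nat.cast_ne_zero.2 hd.ne')

/-- **The root `-3/d`** for the hypersurface `∑ y_j f_j(x) = 0`. -/
theorem root_form {ι : Type} [Fintype ι] (f : ι → R) (d : ℕ) (hd : 0 < d)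
    (hf : ∀ j, (f j).IsHomogeneous d) (b : Polynomial ℂ) (hb : IsBFunction (univ f) b)
    (hc : RootCond (Submodule.span ℂ (Set.range f)) d) : b.eval (-3 / (d : ℂ)) = 0 := by
  classical
  obtain ⟨j, hj⟩ := hc.exists_ne f d
  exact root_of_EN f d hd (-3 / (d : ℂ)) _ (neg_three_mul d hd)
    (stmA ι (Fin 3) f d hd hf (univ_ne_zero _ ⟨j, hj⟩) b hb _) hc

/-- **The root `-3/d`** for the ideal `(f_j)`. -/
theorem root_ideal {ι : Type} [Fintype ι] (f : ι → R) (d : ℕ) (hd : 0 < d)
    (hf : ∀ j, (f j).IsHomogeneous d) (b : Polynomial ℂ)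
    (hb : Pool.Agent.W574.SM.IsFunctionalEq f b)
    (hc : RootCond (Submodule.span ℂ (Set.range f)) d) : b.eval (-3 / (d : ℂ)) = 0 := by
  classical
  obtain ⟨j, hj⟩ := hc.exists_ne f d
  exact root_of_EN f d hd (-3 / (d : ℂ)) _ (neg_three_mul d hd)
    (stmAI f d hd hf (univ_ne_zero _ ⟨j, hj⟩) b (Pool.Agent.W366.SI.taskI1' f b hb) _) hc

end Pool.Agent.N127.PB
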