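import Pool.Agent.N127.PB.Defs
import Pool.Agent.W574.HS.Must
import Pool.Agent.H628R4.TP.Defs

set_option autoImplicit false

/-! # Statements of the pieces -/

namespace Pool.Agent.N127.PB

open Polynomial Pool.Agent.H628R4.TP Pool.Agent.W574.HS

/-! ## Part A: the functional equation of `F = ∑ y_j f_j(x)` at `s = α`, without operators -/

section PartA

open MvPolynomial

/-- the operators which are generated by the multiplications by the variables and the derivations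
with respect to the variables `inl j` (they do not lower the degree in the variables `inr l`) -/
noncomputable def plus (ι σ : Type) : Subalgebra ℂ (Module.End ℂ (MvPolynomial (ι ⊕ σ) ℂ)) :=
  Algebra.adjoin ℂ
    (Set.range (fun i => LinearMap.mulLeft ℂ (X i : MvPolynomial (ι ⊕ σ) ℂ)) ∪
      Set.range (fun j : ι => ((pderiv (Sum.inl j) : Derivation ℂ (MvPolynomial (ι ⊕ σ) ℂ)
        (MvPolynomial (ι ⊕ σ) ℂ)) : MvPolynomial (ι ⊕ σ) ℂ →ₗ[ℂ] MvPolynomial (ι ⊕ σ) ℂ)))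

/-- A1: every operator is an element of `plus` plus `∑_l ∂_{x_l} ∘ (operator)` -/
def StmA1 : Prop := ∀ (ι σ : Type) [Fintype σ] (w : Module.End ℂ (MvPolynomial (ι ⊕ σ) ℂ)),
  w ∈ weylS (ι ⊕ σ) → ∃ w0 ∈ plus ι σ, ∃ u : σ → Module.End ℂ (MvPolynomial (ι ⊕ σ) ℂ),
    (∀ l, u l ∈ weylS (ι ⊕ σ)) ∧
    ∀ g, w g = w0 g + ∑ l, pderiv (Sum.inr l) (u l g)

/-- A2: the operators applied to the powers of `F` -/
def StmA2 : Prop := ∀ (τ : Type) (w : Module.End ℂ (MvPolynomial τ ℂ)), w ∈ weylS τ →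
  ∀ F : MvPolynomial τ ℂ, ∃ (N : ℕ) (U : Polynomial (MvPolynomial τ ℂ)), ∀ m : ℕ, N ≤ m →
    w (F ^ m) = F ^ (m - N) * U.eval (m : MvPolynomial τ ℂ)

/-- the bidegree: the degree in the variables `inl j` and the degree in the variables `inr l` -/
def bidegw (ι σ : Type) : ι ⊕ σ → ℕ × ℕ := Sum.elim (fun _ => (1, 0)) (fun _ => (0, 1))

/-- A: the functional equation at `s = α` -/
def StmA : Prop := ∀ (ι σ : Type) [Fintype ι] [Fintype σ] (f : ι → MvPolynomial σ ℂ) (d : ℕ),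
  0 < d → (∀ j, (f j).IsHomogeneous d) → univ f ≠ 0 → ∀ b : Polynomial ℂ,
  IsBFunction (univ f) b → ∀ α : ℂ, ∃ (N : ℕ) (V : σ → MvPolynomial (ι ⊕ σ) ℂ),
    (∀ l, IsWeightedHomogeneous (bidegw ι σ) (V l) (N, d * N + 1)) ∧
    MvPolynomial.C (b.eval α) * univ f ^ (N + 1) = ∑ l, (univ f * pderiv (Sum.inr l) (V l) +
      MvPolynomial.C (α - N) * V l * pderiv (Sum.inr l) (univ f))

end PartA

/-! ## Part B: the pencil -/

/-- the 1-form `θ = Q dP - P dQ` -/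
noncomputable def th (P Q : R) (l : Fin 3) : R :=
  Q * MvPolynomial.pderiv l P - P * MvPolynomial.pderiv l Q

/-- the generators of the ideal `h (P, Q) ^ k` -/
noncomputable def gens (P Q h : R) (k : ℕ) (j : Fin (k + 1)) : R :=
  h * P ^ (j : ℕ) * Q ^ (k - j)

/-- B: `F ^ (α - N) V × x`, for `F = h (P + T Q) ^ k` -/
def StmB : Prop := ∀ (P Q h : R) (e dh k : ℕ), P.IsHomogeneous e → Q.IsHomogeneous e →
  h.IsHomogeneous dh → 0 < k → h ≠ 0 → (P ≠ 0 ∨ Q ≠ 0) → ∀ (α β : ℂ),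
  α * (dh + k * e : ℕ) = -3 → ∀ (N : ℕ) (V : Fin 3 → MvPolynomial (Fin (k + 1) ⊕ Fin 3) ℂ),
    (∀ l, MvPolynomial.IsWeightedHomogeneous (bidegw (Fin (k + 1)) (Fin 3)) (V l)
      (N, (dh + k * e) * N + 1)) →
    MvPolynomial.C β * univ (gens P Q h k) ^ (N + 1) =
      ∑ l, (univ (gens P Q h k) * MvPolynomial.pderiv (Sum.inr l) (V l) +
      MvPolynomial.C (α - N) * V l * MvPolynomial.pderiv (Sum.inr l) (univ (gens P Q h k))) →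
  ∃ ζ : Fin 3 → K[X], (∀ l, (ζ l).natDegree ≤ k * N) ∧
    (∀ l n, ∃ a : R, (ζ l).coeff n * emb (h ^ N) = emb a) ∧
    IsEq dK (fun l => α • (dK l (emb h) / emb h)) (fun l => emb (MvPolynomial.X l))
      (C (emb P) + X * C (emb Q)) (k * α) β (k * N) ζ

/-! ## Part C: existence of the decomposition -/

/-- C: the decomposition, with coefficients in a subring `S` -/
def StmC : Prop :=
  ∀ (𝕜 : Type) [Field 𝕜] [Algebra ℂ 𝕜] (D : Fin 3 → Derivation ℂ 𝕜 𝕜),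
    (∀ l m a, D l (D m a) = D m (D l a)) → ∀ S : Subring 𝕜,
    (∀ c : ℂ, algebraMap ℂ 𝕜 c ∈ S) → (∀ l, ∀ a ∈ S, D l a ∈ S) →
    ∀ w x : Fin 3 → 𝕜, (∀ l, w l ∈ S) → (∀ l m, D l (w m) = D m (w l)) →
    ∀ f₀ f₁ : 𝕜, f₀ ∈ S → f₁ ∈ S → f₁ ≠ 0 → f₁⁻¹ ∈ S →
    ∀ θ : Fin 3 → 𝕜, (∀ l, θ l ∈ S) → (∃ m, θ m ≠ 0 ∧ (θ m)⁻¹ ∈ S) →
    ∀ ρ : 𝕜, ρ ≠ 0 → ρ⁻¹ ∈ S → (∀ l, D l f₀ - f₀ / f₁ * D l f₁ = ρ * θ l) →
    ∀ γ β : ℂ, (∀ n : ℕ, γ ≠ n) → ∀ (M : ℕ) (ζ : Fin 3 → 𝕜[X]),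
    (∀ l n, (ζ l).coeff n ∈ S) → (∀ l, (ζ l).natDegree ≤ M) →
    IsEq D w x (C f₀ + X * C f₁) γ β M ζ →
    ∃ (A : 𝕜[X]) (g : 𝕜), g ∈ S ∧ A.degree < M ∧ IsDec D w θ (C f₀ + X * C f₁) γ M ζ A g

/-! ## Part D: uniqueness -/

/-- D: uniqueness of `g` in the decomposition -/
def StmD : Prop :=
  ∀ (𝕜 : Type) [Field 𝕜] [Algebra ℂ 𝕜] (D : Fin 3 → Derivation ℂ 𝕜 𝕜) (w : Fin 3 → 𝕜)
    (f₀ f₁ : 𝕜), f₁ ≠ 0 → ∀ θ : Fin 3 → 𝕜, (∃ m, θ m ≠ 0) →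
    ∀ ρ : 𝕜, ρ ≠ 0 → (∀ l, D l f₀ - f₀ / f₁ * D l f₁ = ρ * θ l) →
    ∀ γ : ℂ, (∀ n : ℕ, γ ≠ n) → ∀ (M : ℕ) (A : 𝕜[X]), A.degree < M → ∀ δ : 𝕜,
    IsDec D w θ (C f₀ + X * C f₁) γ M (fun _ => 0) A δ → δ = 0

/-! ## Part E: exchanging the two generators -/

/-- E: exchanging the two generators of the pencil -/
def StmE : Prop :=
  ∀ (𝕜 : Type) [Field 𝕜] [Algebra ℂ 𝕜] (D : Fin 3 → Derivation ℂ 𝕜 𝕜) (w x θ : Fin 3 → 𝕜)
    (f₀ f₁ : 𝕜) (γ β : ℂ) (M : ℕ) (ζ : Fin 3 → 𝕜[X]), (∀ l, (ζ l).natDegree ≤ M) →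
    (IsEq D w x (C f₀ + X * C f₁) γ β M ζ →
      IsEq D w x (C f₁ + X * C f₀) γ β M (fun l => reflect M (ζ l))) ∧
    (∀ (A : 𝕜[X]) (g : 𝕜), A.degree < M →
      IsDec D w θ (C f₁ + X * C f₀) γ M (fun l => reflect M (ζ l)) A g →
      ∃ A' : 𝕜[X], A'.degree < M ∧ IsDec D w θ (C f₀ + X * C f₁) γ M ζ A' g)

/-! ## Part G: the equation for `g` -/

/-- G: the equation for `g` -/
def StmG : Prop :=
  ∀ (𝕜 : Type) [Field 𝕜] [Algebra ℂ 𝕜] (D : Fin 3 → Derivation ℂ 𝕜 𝕜),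
    (∀ l m a, D l (D m a) = D m (D l a)) →
    ∀ w x : Fin 3 → 𝕜, (∀ l m, D l (w m) = D m (w l)) →
    ∀ f₀ f₁ : 𝕜, f₁ ≠ 0 → ∀ θ : Fin 3 → 𝕜, ∀ (γ β : ℂ) (M : ℕ) (ζ : Fin 3 → 𝕜[X])
    (A : 𝕜[X]) (g : 𝕜), IsEq D w x (C f₀ + X * C f₁) γ β M ζ →
    IsDec D w θ (C f₀ + X * C f₁) γ M ζ A g →
    ∀ l, f₁ * (curl D (fun m => g * θ m) l + crs w (fun m => g * θ m) l) +
      γ • crs (fun m => D m f₁) (fun m => g * θ m) l = -(β • (f₁ * x l))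

/-! ## Part H: the equation for the numerator and the denominator of `g` -/

/-- the equation for `g = a / b`, multiplied by `h b ^ 2` -/
def StarEq (P Q h a b : R) (α γ β : ℂ) : Prop := ∀ l : Fin 3,
  h * crs (fun m => b * MvPolynomial.pderiv m a - a * MvPolynomial.pderiv m b) (th P Q) l +
    MvPolynomial.C (γ + 2) * (h * a * b * crs (fun m => MvPolynomial.pderiv m Q)
      (fun m => MvPolynomial.pderiv m P) l) +
    MvPolynomial.C α * (a * b * crs (fun m => MvPolynomial.pderiv m h) (th P Q) l) =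
    -(MvPolynomial.C β * (h * b ^ 2 * MvPolynomial.X l))

/-- H1: the local analysis along a component `H` of `h` -/
def StmH1 : Prop := ∀ (P Q h a b : R) (α γ β : ℂ) (H : R), StarEq P Q h a b α γ β →
  Irreducible H → H ∣ h → h ≠ 0 → b ≠ 0 → ¬ H ∣ a →
  (∀ n i : ℕ, 0 < n → α * n ≠ i) →
  ∀ l, H ∣ crs (fun m => MvPolynomial.pderiv m H) (th P Q) l

/-- H2: the degrees -/
def StmH2 : Prop := ∀ (P Q h a : R) (α γ β : ℂ) (e dh : ℕ), P.IsHomogeneous e →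
  Q.IsHomogeneous e → h.IsHomogeneous dh → h ≠ 0 → 2 ≤ e → StarEq P Q h a 1 α γ β → β = 0

/-- H3: the linear part, in the case `e = 1` -/
def StmH3 : Prop := ∀ (P Q h a : R) (α γ β : ℂ) (dh : ℕ), P.IsHomogeneous 1 →
  Q.IsHomogeneous 1 → h.IsHomogeneous dh → StarEq P Q h a 1 α γ β →
  StarEq P Q h (MvPolynomial.homogeneousComponent 1 a) 1 α γ β

end Pool.Agent.N127.PB
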